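import Pool.Agent.S3.Ho.Id

/-!
# The angle of a slide in rational coordinates
-/

set_option autoImplicit false

namespace Pool.Agent.S3.Ho

open Real T2

section

variable {a β t h p b z k : ℝ}

/-- real part of the angle -/
noncomputable def Rn (p b z k : ℝ) : ℝ := (1 - (k * b) ^ 2) * ((2 * z) ^ 2 - (1 - z ^ 2) ^ 2 * p ^ 2) -
  (b ^ 2 - k ^ 2) * ((1 - z ^ 2) ^ 2 - (2 * z) ^ 2 * p ^ 2)

/-- imaginary part of the angle -/
noncomputable def In (p b z k : ℝ) : ℝ := 2 * b * (1 - k ^ 2) * (2 * z * (1 - z ^ 2)) * (1 + p ^ 2) -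
  2 * k * (1 - b ^ 2) * (p * (1 + z ^ 2) ^ 2)

theorem sin_line (x y : ℝ) : Complex.sin (π * ((x : ℂ) + y * Complex.I)) =
    ((sin (π * x) * cosh (π * y) : ℝ) : ℂ) + ((cos (π * x) * sinh (π * y) : ℝ) : ℂ) * Complex.I := by
  have e : (π : ℂ) * ((x : ℂ) + y * Complex.I) = ((π * x : ℝ) : ℂ) + ((π * y : ℝ) : ℂ) * Complex.I := by
    push_cast; ring
  rw [e, Complex.sin_add_mul_I]
  push_cast
  ring

theorem two_line_re (x y : ℝ) : (2 * ((x : ℂ) + (y : ℂ) * Complex.I)).re = 2 * x := by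
  rw [show (2 : ℂ) * ((x : ℂ) + (y : ℂ) * Complex.I) =
    ((2 * x : ℝ) : ℂ) + ((2 * y : ℝ) : ℂ) * Complex.I by push_cast; ring, line_re]

theorem two_line_im (x y : ℝ) : (2 * ((x : ℂ) + (y : ℂ) * Complex.I)).im = 2 * y := by
  rw [show (2 : ℂ) * ((x : ℂ) + (y : ℂ) * Complex.I) =
    ((2 * x : ℝ) : ℂ) + ((2 * y : ℝ) : ℂ) * Complex.I by push_cast; ring, line_im]

theorem Bas.ang (c : Bas a β t h p b z k) (a0 : 0 < a) (a1 : a < 1 / 2) (t0 : 0 ≤ t) (t1 : t < 1 / 2)
    (hβ : h < β) :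
    Ang ((he (((t : ℂ) + h * Complex.I) + ((a : ℂ) + β * Complex.I)) -
      he (((t : ℂ) + h * Complex.I) - ((a : ℂ) + β * Complex.I))).im) (Rn p b z k) (In p b z k) := by
  have hpi := pi_pos
  obtain ⟨X, hX⟩ : ∃ X, X = sin (π * (t - a)) * cosh (π * (h - β)) := ⟨_, rfl⟩
  obtain ⟨Y, hY⟩ : ∃ Y, Y = cos (π * (t - a)) * sinh (π * (β - h)) := ⟨_, rfl⟩
  obtain ⟨V, hV⟩ : ∃ V, V = sin (π * (t + a)) * cosh (π * (h + β)) := ⟨_, rfl⟩
  obtain ⟨W, hW⟩ : ∃ W, W = cos (π * (t + a)) * sinh (π * (h + β)) := ⟨_, rfl⟩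
  have Y0 : 0 < Y := by
    rw [hY]
    apply mul_pos
    · exact cos_pos_of_mem_Ioo ⟨by nlinarith, by nlinarith⟩
    · exact sinh_pos_iff.2 (mul_pos hpi (by linarith))
  have V0 : 0 < V := by
    rw [hV]
    apply mul_pos _ (cosh_pos _)
    exact sin_pos_of_pos_of_lt_pi (mul_pos hpi (by linarith)) (by nlinarith)
  have es : ((t : ℂ) + h * Complex.I) - ((a : ℂ) + β * Complex.I) =
      ((t - a : ℝ) : ℂ) + ((h - β : ℝ) : ℂ) * Complex.I := by push_cast; ring
  have ea : ((t : ℂ) + h * Complex.I) + ((a : ℂ) + β * Complex.I) =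
      ((t + a : ℝ) : ℂ) + ((h + β : ℝ) : ℂ) * Complex.I := by push_cast; ring
  rw [es, ea]
  have f1 : fdom (((t + a : ℝ) : ℂ) + ((h + β : ℝ) : ℂ) * Complex.I) := by
    right
    rw [line_re]
    constructor <;> linarith
  have f2 : fdom (((t - a : ℝ) : ℂ) + ((h - β : ℝ) : ℂ) * Complex.I) := by
    left
    rw [line_im]
    linarith
  rw [Complex.sub_im, he_eq_log f1 (by rw [line_re]; linarith) (by rw [line_re]; linarith),
    he_eq_log f2 (by rw [line_re]; linarith) (by rw [line_re]; linarith), Complex.log_im,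
    Complex.log_im]
  obtain ⟨P, hP⟩ : ∃ P, P = 2 * Complex.sin (π * (((t + a : ℝ) : ℂ) +
    ((h + β : ℝ) : ℂ) * Complex.I)) := ⟨_, rfl⟩
  obtain ⟨N, hN⟩ : ∃ N, N = 2 * Complex.sin (π * (((t - a : ℝ) : ℂ) +
    ((h - β : ℝ) : ℂ) * Complex.I)) := ⟨_, rfl⟩
  rw [← hP, ← hN]
  have Pr : P.re = 2 * V := by
    rw [hP, sin_line, two_line_re, ← hV]
  have Pi : P.im = 2 * W := by
    rw [hP, sin_line, two_line_im, ← hW]
  have Nr : N.re = 2 * X := by
    rw [hN, sin_line, two_line_re, ← hX]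
  have Ni : N.im = -(2 * Y) := by
    have e : cos (π * (t - a)) * sinh (π * (h - β)) = -Y := by
      rw [hY, show π * (h - β) = -(π * (β - h)) by ring, sinh_neg]; ring
    rw [hN, sin_line, two_line_im, e]
    ring
  have b1 : |P.arg| < π / 2 := Complex.abs_arg_lt_pi_div_two_iff.2 (Or.inl (by rw [Pr]; linarith))
  have b2 : N.arg < 0 := Complex.arg_neg_iff.2 (by rw [Ni]; linarith)
  have b3 := Complex.neg_pi_lt_arg N
  have Pn : 0 < ‖P‖ := norm_pos_iff.2 (fun h0 => by rw [h0, Complex.zero_re] at Pr; linarith)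
  have Nn : 0 < ‖N‖ := norm_pos_iff.2 (fun h0 => by rw [h0, Complex.zero_im] at Ni; linarith)
  have q1 := Complex.norm_mul_cos_arg P
  have q2 := Complex.norm_mul_sin_arg P
  have q3 := Complex.norm_mul_cos_arg N
  have q4 := Complex.norm_mul_sin_arg N
  rw [Pr] at q1
  rw [Pi] at q2
  rw [Nr] at q3
  rw [Ni] at q4
  have hF := c.Fpos
  refine ⟨by linarith [(abs_lt.1 b1).1], by linarith [(abs_lt.1 b1).2],
    ‖P‖ * ‖N‖ * (Fd p b z k / 4), by positivity, ?_, ?_⟩
  · have e1 : (X * V - Y * W) * Fd p b z k = Rn p b z k := by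
      obtain ⟨ca, ca2, sa, cb, cb2, sb, ch, ch2, sh, st, ct, -, -, -, -, -⟩ := c
      have s1 : (1 + z ^ 2) ^ 2 * (sin (π * (t - a)) * sin (π * (t + a))) =
          cos (π * a) ^ 2 * ((2 * z) ^ 2 - (1 - z ^ 2) ^ 2 * p ^ 2) := by
        rw [mul_sub, mul_add, sin_sub, sin_add, sa]
        linear_combination cos (π * a) ^ 2 * (((1 + z ^ 2) * sin (π * t) + 2 * z) * st -
          p ^ 2 * ((1 + z ^ 2) * cos (π * t) + (1 - z ^ 2)) * ct)
      have c1 : (1 + z ^ 2) ^ 2 * (cos (π * (t - a)) * cos (π * (t + a))) =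
          cos (π * a) ^ 2 * ((1 - z ^ 2) ^ 2 - (2 * z) ^ 2 * p ^ 2) := by
        rw [mul_sub, mul_add, cos_sub, cos_add, sa]
        linear_combination cos (π * a) ^ 2 * (((1 + z ^ 2) * cos (π * t) + (1 - z ^ 2)) * ct -
          p ^ 2 * ((1 + z ^ 2) * sin (π * t) + 2 * z) * st)
      have s2 : sinh (π * (β - h)) * sinh (π * (h + β)) =
          cosh (π * h) ^ 2 * cosh (π * β) ^ 2 * (b ^ 2 - k ^ 2) := by
        rw [mul_sub, mul_add, sinh_sub, sinh_add, sb, sh]; ring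
      have c2 : cosh (π * (h - β)) * cosh (π * (h + β)) =
          cosh (π * h) ^ 2 * cosh (π * β) ^ 2 * (1 - (k * b) ^ 2) := by
        rw [mul_sub, mul_add, cosh_sub, cosh_add, sb, sh]; ring
      rw [hX, hY, hV, hW]
      unfold Fd Rn
      calc _ = ((1 + z ^ 2) ^ 2 * (sin (π * (t - a)) * sin (π * (t + a)))) *
            (cosh (π * (h - β)) * cosh (π * (h + β))) * (1 + p ^ 2) * (1 - b ^ 2) * (1 - k ^ 2) -
            ((1 + z ^ 2) ^ 2 * (cos (π * (t - a)) * cos (π * (t + a)))) *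
            (sinh (π * (β - h)) * sinh (π * (h + β))) * (1 + p ^ 2) * (1 - b ^ 2) * (1 - k ^ 2) := by
              ring
        _ = (cos (π * a) ^ 2 * (1 + p ^ 2)) * (cosh (π * β) ^ 2 * (1 - b ^ 2)) *
            (cosh (π * h) ^ 2 * (1 - k ^ 2)) *
            ((1 - (k * b) ^ 2) * ((2 * z) ^ 2 - (1 - z ^ 2) ^ 2 * p ^ 2) -
              (b ^ 2 - k ^ 2) * ((1 - z ^ 2) ^ 2 - (2 * z) ^ 2 * p ^ 2)) := by
              rw [s1, c1, s2, c2]; ring
        _ = _ := by rw [ca2, cb2, ch2]; ring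
    rw [← e1, cos_sub]
    have e2 : (‖P‖ * cos P.arg) * (‖N‖ * cos N.arg) + (‖P‖ * sin P.arg) * (‖N‖ * sin N.arg) =
        4 * (X * V - Y * W) := by rw [q1, q2, q3, q4]; ring
    linear_combination (Fd p b z k / 4) * e2
  · have e1 : (X * W + Y * V) * Fd p b z k = In p b z k := by
      obtain ⟨ca, ca2, sa, cb, cb2, sb, ch, ch2, sh, st, ct, -, -, -, -, -⟩ := c
      have s0 : (1 + z ^ 2) ^ 2 * (sin (π * t) * cos (π * t)) = 2 * z * (1 - z ^ 2) := by
        linear_combination ((1 + z ^ 2) * cos (π * t)) * st + 2 * z * ct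
      have m1 : X * W + Y * V = (sin (π * t) * cos (π * t)) * (sinh (π * β) * cosh (π * β)) * 2 -
          (sinh (π * h) * cosh (π * h)) * (sin (π * a) * cos (π * a)) * 2 := by
        rw [hX, hW, hY, hV]
        simp only [mul_sub, mul_add, sin_sub, sin_add, cos_sub, cos_add, sinh_sub, sinh_add,
          cosh_sub, cosh_add]
        have g1 := sin_sq_add_cos_sq (π * a)
        have g2 := sin_sq_add_cos_sq (π * t)
        have g3 := cosh_sq (π * β)
        have g4 := cosh_sq (π * h)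
        generalize sin (π * a) = A1 at *
        generalize cos (π * a) = A2 at *
        generalize sin (π * t) = T1 at *
        generalize cos (π * t) = T2 at *
        generalize sinh (π * β) = B1 at *
        generalize cosh (π * β) = B2 at *
        generalize sinh (π * h) = H1 at *
        generalize cosh (π * h) = H2 at *
        have k3 : B2 ^ 2 - B1 ^ 2 = 1 := by linarith
        have k4 : H2 ^ 2 - H1 ^ 2 = 1 := by linarith
        linear_combination (2 * T1 * T2 * B1 * B2 * (H2 ^ 2 - H1 ^ 2)) * g1 -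
          (2 * A1 * A2 * H1 * H2 * (B2 ^ 2 - B1 ^ 2)) * g2 + (2 * T1 * T2 * B1 * B2) * k4 -
          (2 * A1 * A2 * H1 * H2) * k3
      rw [m1]
      unfold Fd In
      have h5 : sinh (π * β) * cosh (π * β) * (1 - b ^ 2) = b := by
        rw [sb]; linear_combination b * cb2
      have h6 : sinh (π * h) * cosh (π * h) * (1 - k ^ 2) = k := by
        rw [sh]; linear_combination k * ch2
      have h7 : sin (π * a) * cos (π * a) * (1 + p ^ 2) = p := by
        rw [sa]; linear_combination p * ca2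
      calc _ = ((1 + z ^ 2) ^ 2 * (sin (π * t) * cos (π * t))) *
            (sinh (π * β) * cosh (π * β) * (1 - b ^ 2)) * 2 * (1 + p ^ 2) * (1 - k ^ 2) -
            (sinh (π * h) * cosh (π * h) * (1 - k ^ 2)) *
            (sin (π * a) * cos (π * a) * (1 + p ^ 2)) * 2 * (1 + z ^ 2) ^ 2 * (1 - b ^ 2) := by ring
        _ = _ := by rw [s0, h5, h6, h7]; ring
    rw [← e1, sin_sub]
    have e2 : (‖P‖ * sin P.arg) * (‖N‖ * cos N.arg) - (‖P‖ * cos P.arg) * (‖N‖ * sin N.arg) =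
        4 * (X * W + Y * V) := by rw [q1, q2, q3, q4]; ring
    linear_combination (Fd p b z k / 4) * e2

end

end Pool.Agent.S3.Ho
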