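import Pool.Agent.S3.Ho.H7d

/-!
# The base of the slides in the hole, with the strict bound away from the centre
-/

set_option autoImplicit false

namespace Pool.Agent.S3.T2

open Complex
open Pool.Agent.H25.RK (gdv)

variable {Φ : ℂ → ℂ → ℂ} {θ θ' xc xc' b b' μ μ' : ℝ} {v w : ℂ}

/-- **The base of the slides in the hole.** -/
theorem hole_base' (H : OO Φ θ θ' xc xc' b b' (13 / 40) (2 / 5))
    (j : Ck.J3 (Real.tan θ' ^ 2) (Real.tan θ ^ 2)) (t1 : Real.tan θ' ^ 2 < 1)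
    (t2 : Real.tan θ ^ 2 ≤ 1 / 4) (hv0 : 0 ≤ v.re) (hv1 : v.re ≤ 13 / 40)
    (hvl : v.im = bl θ v.re) (hw0 : 0 ≤ w.re) (hw1 : w.re ≤ 2 / 5) (hwl : w.im = bl θ' w.re)
    (hR : R23 w.re v.re) :
    ∃ Φ0 : ℝ, (∀ t ∈ Set.Icc (0 : ℝ) (1 / 2), EE (.op v) (.op ((starRingEnd ℂ) w))
        ((t : ℂ) + ((yv v w).im : ℂ) * I) ≤ Φ0) ∧
      Φ0 ≤ LM Φ θ θ' b b' xc xc' (13 / 40) (2 / 5) μ μ' v w ∧
      ((gdv (UU xc θ)).re < v.re → Φ0 < LM Φ θ θ' b b' xc xc' (13 / 40) (2 / 5) μ μ' v w) := by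
  have hv : v ∈ G0 θ (13 / 40) := Or.inl ⟨by rwa [abs_of_nonneg hv0], hvl⟩
  have hw : w ∈ G0 θ' (2 / 5) := Or.inl ⟨by rwa [abs_of_nonneg hw0], hwl⟩
  have hp := H.pr hv hv0 hw hw0
  rw [show cmp (13 / 40) v = v from if_pos hv1, show cmp (2 / 5) w = w from if_pos hw1] at hp
  have hp' := hp.symm
  have hF := FM23 hp' j t1 t2 hR
  have n1 := hp'.nl_23 j t1 t2 (by have := hR.le; linarith)
  have n2 := hp.nl_t hv1 (by linarith)
  have f := hp'.flatOK_M hF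
  have e1 : yv v w = (starRingEnd ℂ) (yv w v) := yv_swap hp'
  have e2 : (yv v w).im = -(yv w v).im := by rw [e1, conj_im]
  have e3 : EE (.op w) (.op ((starRingEnd ℂ) v)) (yv w v) = (Φ v ((starRingEnd ℂ) w)).re := by
    rw [← EE_sw v w, ← e1]
    exact hp.bridge H.hΦ H.h0 n2 n1
  obtain ⟨c1, c2, c3, c4⟩ := H.crit0
  have key : v ≠ gdv (UU xc θ) ∨ w ≠ gdv (UU xc' θ') → (Φ v ((starRingEnd ℂ) w)).re <
      LM Φ θ θ' b b' xc xc' (13 / 40) (2 / 5) μ μ' v w := by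
    intro hne
    have k := H.Phi_ltBB (μ := μ) (μ' := μ') hv0 hv1 hvl hw0 hw1 hwl hne
    have b1 : 0 ≤ BP b (gdv (UU xc θ)) v := BP_nonneg H.hθ.pos.le H.hθ.lt H.hs.b0.le hv0
      (by linarith) c1 c2 hvl (line_im_bl H.hθ.abs)
    have b2 : 0 ≤ BP b' (gdv (UU xc' θ')) w := BP_nonneg H.hθ'.pos.le H.hθ'.lt H.hs.b0'.le hw0
      (by linarith) c3 c4 hwl (line_im_bl H.hθ'.abs)
    linarith
  refine ⟨(Φ v ((starRingEnd ℂ) w)).re, fun t ht => ?_, ?_, fun hc => key (Or.inl ?_)⟩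
  · have k := f t ht
    rw [e3, ← EE_sw v w, conj_hor, ← e2] at k
    exact k
  · by_cases hne : v ≠ gdv (UU xc θ) ∨ w ≠ gdv (UU xc' θ')
    · exact (key hne).le
    · push Not at hne
      obtain ⟨g1, g2⟩ := hne
      rw [g1, g2, H.LM_crit (by rw [abs_of_nonneg c1]; exact H.hr.le)
        (by rw [abs_of_nonneg c3]; exact H.hr'.le)]
  · intro he
    rw [he] at hc
    exact absurd hc (lt_irrefl _)

end Pool.Agent.S3.T2
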