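import Pool.Agent.S3.Ho.Good

/-!
# The certificates of the slide along the line, row 1 (generated)
-/

set_option autoImplicit false

namespace Pool.Agent.S3.Ho

open NI

def P1 : Par := ⟨652083410, 878455029, 268435456, 48962628, 96636764, 257805412⟩
def Q1 : Par := ⟨652083410, 878455029, 23519241, 72477574, 0, 0⟩

theorem pos1 : bb (tst1 P1)
    [2, 1, 3, 0, 2, 1, 3, 0, 2, 1, 3, 0, 2, 1, 3, 0, 2, 1, 3, 0, 2, 1, 3, 0, 2, 1, 3, 0, 2, 1, 3, 0, 2, 1, 3, 0, 2, 1, 3, 0]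
    ⟨1477790872, 1752239283⟩ ⟨0, 302771282⟩ ⟨0, 1073741824⟩ ⟨0, 263066747⟩ = true := by
  decide +kernel

theorem neg1 : bb (tst2 Q1)
    [2, 1, 3, 0, 2, 1, 3, 0, 2, 1, 3, 0, 2, 1, 3, 0, 2, 1, 3, 0, 2, 1, 3, 0, 2, 1, 3, 0, 2, 1, 3, 0, 2, 1, 3, 0, 2, 1, 3, 0]
    ⟨1477790872, 1752239283⟩ ⟨0, 93059340⟩ ⟨0, 1073741824⟩ ⟨0, 72477574⟩ = true := by
  decide +kernel

end Pool.Agent.S3.Ho
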