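import Pool.Agent.S3.Ho.Good

/-!
# The certificates of the slide along the line, row 2 (generated)
-/

set_option autoImplicit false

namespace Pool.Agent.S3.Ho

open NI

def P2 : Par := ⟨751619277, 671088640, 268435456, 54009214, 61847529, 257805412⟩
def Q2 : Par := ⟨751619277, 671088640, 47352015, 105656196, 0, 0⟩

theorem pos2 : bb (tst1 P2)
    [2, 1, 3, 0, 2, 1, 3, 0, 2, 1, 3, 0, 2, 1, 3, 0, 2, 1, 3, 0, 2, 1, 3, 0, 2, 1, 3, 0, 2, 1, 3, 0, 2, 1, 3, 0, 2, 1, 3, 0]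
    ⟨1579903719, 1752239283⟩ ⟨0, 290518225⟩ ⟨0, 1073741824⟩ ⟨0, 263066747⟩ = true := by
  decide +kernel

theorem neg2 : bb (tst2 Q2)
    [2, 1, 3, 0, 2, 1, 3, 0, 2, 1, 3, 0, 2, 1, 3, 0, 2, 1, 3, 0, 2, 1, 3, 0, 2, 1, 3, 0, 2, 1, 3, 0, 2, 1, 3, 0, 2, 1, 3, 0]
    ⟨1579903719, 1752239283⟩ ⟨0, 125871188⟩ ⟨0, 1073741824⟩ ⟨0, 105656196⟩ = true := by
  decide +kernel

end Pool.Agent.S3.Ho
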