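import Pool.Agent.S3.Ho.Good

/-!
# The certificates of the slide along the line, row 3 (generated)
-/

set_option autoImplicit false

namespace Pool.Agent.S3.Ho

open NI

def P3 : Par := ⟨945876890, 1193406055, 268435456, 44023415, 143049254, 257805412⟩
def Q3 : Par := ⟨945876890, 1193406055, 11838004, 51539608, 0, 0⟩

theorem pos3 : bb (tst1 P3)
    [2, 1, 3, 0, 2, 1, 3, 0, 2, 1, 3, 0, 2, 1, 3, 0, 2, 1, 3, 0, 2, 1, 3, 0, 2, 1, 3, 0, 2, 1, 3, 0, 2, 1, 3, 0, 2, 1, 3, 0]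
    ⟨1380509863, 1752239283⟩ ⟨0, 315097188⟩ ⟨0, 1073741824⟩ ⟨0, 263066747⟩ = true := by
  decide +kernel

theorem neg3 : bb (tst2 Q3)
    [2, 1, 3, 0, 2, 1, 3, 0, 2, 1, 3, 0, 2, 1, 3, 0, 2, 1, 3, 0, 2, 1, 3, 0, 2, 1, 3, 0, 2, 1, 3, 0, 2, 1, 3, 0, 2, 1, 3, 0]
    ⟨1380509863, 1752239283⟩ ⟨0, 69074546⟩ ⟨0, 1073741824⟩ ⟨0, 51539608⟩ = true := by
  decide +kernel

end Pool.Agent.S3.Ho
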