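import Pool.Agent.S3.Ho.Good

/-!
# The certificates of the slide along the line, row 6 (generated)
-/

set_option autoImplicit false

namespace Pool.Agent.S3.Ho

open NI

def P6 : Par := ⟨1073741824, 1577000858, 214748365, 49070002, 198534863, 257805412⟩
def Q6 : Par := ⟨1073741824, 1577000858, 10523744, 48103634, 0, 0⟩

theorem pos6 : bb (tst1 P6)
    [2, 1, 3, 0, 2, 1, 3, 0, 2, 1, 3, 0, 2, 1, 3, 0, 2, 1, 3, 0, 2, 1, 3, 0, 2, 1, 3, 0, 2, 1, 3, 0, 2, 1, 3, 0, 2, 1, 3, 0]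
    ⟨1380509863, 1752239283⟩ ⟨0, 284290352⟩ ⟨0, 1073741824⟩ ⟨0, 235294265⟩ = true := by
  decide +kernel

theorem neg6 : bb (tst2 Q6)
    [2, 1, 3, 0, 2, 1, 3, 0, 2, 1, 3, 0, 2, 1, 3, 0, 2, 1, 3, 0, 2, 1, 3, 0, 2, 1, 3, 0, 2, 1, 3, 0, 2, 1, 3, 0, 2, 1, 3, 0]
    ⟨1380509863, 1752239283⟩ ⟨0, 65142396⟩ ⟨0, 1073741824⟩ ⟨0, 48103634⟩ = true := by
  decide +kernel

end Pool.Agent.S3.Ho
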