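import Pool.Agent.S3.Ho.Good

/-!
# The certificates of the slide along the line, row 8 (generated)
-/

set_option autoImplicit false

namespace Pool.Agent.S3.Ho

open NI

def P8 : Par := ⟨1073741824, 993211187, 214748365, 82141250, 163316131, 257805412⟩
def Q8 : Par := ⟨1073741824, 993211187, 38355132, 93308165, 0, 0⟩

theorem pos8 : bb (tst1 P8)
    [2, 1, 3, 0, 2, 1, 3, 0, 2, 1, 3, 0, 2, 1, 3, 0, 2, 1, 3, 0, 2, 1, 3, 0, 2, 1, 3, 0, 2, 1, 3, 0, 2, 1, 3, 0, 2, 1, 3, 0]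
    ⟨1579903719, 1752239283⟩ ⟨0, 261770787⟩ ⟨0, 1073741824⟩ ⟨0, 235294265⟩ = true := by
  decide +kernel

theorem neg8 : bb (tst2 Q8)
    [2, 1, 3, 0, 2, 1, 3, 0, 2, 1, 3, 0, 2, 1, 3, 0, 2, 1, 3, 0, 2, 1, 3, 0, 2, 1, 3, 0, 2, 1, 3, 0, 2, 1, 3, 0, 2, 1, 3, 0]
    ⟨1579903719, 1752239283⟩ ⟨0, 113432252⟩ ⟨0, 1073741824⟩ ⟨0, 93308165⟩ = true := by
  decide +kernel

end Pool.Agent.S3.Ho
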