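import Mathlib

/-!
# An end with three half twists next to an inner `2`: numerical core
-/

set_option autoImplicit false

namespace Pool.Agent.S3.Ho

theorem end3_num {m T A B : ℝ} (m0 : 0 < m) (m1 : m ≤ 377 / 1000) (T0 : 0 < T) (T1 : T ≤ 1 / 4)
    (A0 : 0 < A) (B0 : 0 < B) (hA : A ^ 2 = m * (1 + T * m)) (hB : B ^ 2 = (1 - m) * (T * m))
    (hU : 0 < B * (12 * A ^ 2 - 4 * B ^ 2 - 1))
    (h1 : 358 / 1000 * (B * (12 * A ^ 2 - 4 * B ^ 2 - 1)) ≤ A * (4 * A ^ 2 - 12 * B ^ 2 - 1))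
    (h2 : 4225 / 10000 ≤ (B * (12 * A ^ 2 - 4 * B ^ 2 - 1)) ^ 2 +
      (A * (4 * A ^ 2 - 12 * B ^ 2 - 1)) ^ 2) : False := by
  have e : (B * (12 * A ^ 2 - 4 * B ^ 2 - 1)) ^ 2 + (A * (4 * A ^ 2 - 12 * B ^ 2 - 1)) ^ 2 =
      m * (1 + T) * (1 - 8 * m * (1 - T) + 16 * m ^ 2 * (1 + T + T ^ 2)) := by
    have e1 : (B * (12 * A ^ 2 - 4 * B ^ 2 - 1)) ^ 2 + (A * (4 * A ^ 2 - 12 * B ^ 2 - 1)) ^ 2 =
        B ^ 2 * (12 * A ^ 2 - 4 * B ^ 2 - 1) ^ 2 + A ^ 2 * (4 * A ^ 2 - 12 * B ^ 2 - 1) ^ 2 := by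
      ring
    rw [e1, hA, hB]
    ring
  rcases le_total T (11 / 100) with h | h
  · rw [e] at h2
    have g0 : 0 ≤ 1 - 8 * m * (1 - T) + 16 * m ^ 2 * (1 + T + T ^ 2) := by
      nlinarith [sq_nonneg (1 - 4 * m * (1 - T)), mul_pos m0 T0, sq_nonneg m, mul_pos (pow_pos m0 2) T0]
    have g1 : 1 - 8 * m * (1 - T) + 16 * m ^ 2 * (1 + T + T ^ 2) ≤
        1 - 712 / 100 * m + 179536 / 10000 * m ^ 2 := by
      have k1 : 0 ≤ 8 * m * (11 / 100 - T) := mul_nonneg (by linarith) (by linarith)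
      have k2 : 0 ≤ 16 * m ^ 2 * ((11 / 100 - T) * (111 / 100 + T)) :=
        mul_nonneg (by positivity) (mul_nonneg (by linarith) (by linarith))
      nlinarith
    have g2 : m * (1 + T) ≤ 111 / 100 * m := by nlinarith
    have g3 := mul_le_mul g2 g1 g0 (by linarith)
    have g4 : 111 / 100 * m * (1 - 712 / 100 * m + 179536 / 10000 * m ^ 2) < 4225 / 10000 := by
      obtain ⟨r, hr⟩ : ∃ r, r = 377 / 1000 - m := ⟨_, rfl⟩
      have r0 : 0 ≤ r := by rw [hr]; linarith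
      have em : m = 377 / 1000 - r := by rw [hr]; ring
      have h3 : 0 ≤ r * (r - 19 / 100) ^ 2 := mul_nonneg r0 (sq_nonneg _)
      rw [em]
      nlinarith
    linarith
  · have hV : 0 < A * (4 * A ^ 2 - 12 * B ^ 2 - 1) := by
      refine lt_of_lt_of_le ?_ h1
      positivity
    have v0 : 0 < 4 * A ^ 2 - 12 * B ^ 2 - 1 := (mul_pos_iff_of_pos_left A0).1 hV
    have u0 : 0 < 12 * A ^ 2 - 4 * B ^ 2 - 1 := (mul_pos_iff_of_pos_left B0).1 hU
    have v1 : 4 * A ^ 2 - 12 * B ^ 2 - 1 ≤ 268 / 100 * m - 1 + 176 / 100 * m ^ 2 := by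
      rw [hA, hB]
      have : 0 ≤ (T - 11 / 100) * (m * (12 - 16 * m)) :=
        mul_nonneg (by linarith) (mul_nonneg m0.le (by linarith))
      nlinarith
    have hm : 31 / 100 ≤ m := by
      by_contra hc
      push Not at hc
      nlinarith
    have u1 : 12 * m - 1 ≤ 12 * A ^ 2 - 4 * B ^ 2 - 1 := by
      rw [hA, hB]
      have : 0 ≤ T * (m * (16 * m - 4)) := mul_nonneg T0.le (mul_nonneg m0.le (by linarith))
      nlinarith
    have hA1 : A ≤ 6423 / 10000 := by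
      apply le_of_sq_le_sq _ (by norm_num)
      rw [hA]
      nlinarith
    have hB1 : 1533 / 10000 ≤ B := by
      apply le_of_sq_le_sq _ B0.le
      rw [hB]
      nlinarith [mul_nonneg (sub_nonneg.2 h) (mul_nonneg m0.le (show 0 ≤ 1 - m by linarith))]
    have k1 : A * (4 * A ^ 2 - 12 * B ^ 2 - 1) ≤
        6423 / 10000 * (268 / 100 * m - 1 + 176 / 100 * m ^ 2) :=
      mul_le_mul hA1 v1 v0.le (by norm_num)
    have k2 : 1533 / 10000 * (12 * m - 1) ≤ B * (12 * A ^ 2 - 4 * B ^ 2 - 1) :=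
      mul_le_mul hB1 u1 (by linarith) B0.le
    nlinarith [mul_nonneg (sub_nonneg.2 hm) (sub_nonneg.2 m1)]

end Pool.Agent.S3.Ho
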