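import Pool.Agent.S3.Ho.VTest
import Pool.Agent.S3.Ls.Gen
import Pool.Agent.S3.W2.PG

/-!
# Numerical values
-/

set_option autoImplicit false

namespace Pool.Agent.S3.Ho

open Real NI T2

theorem sin_sept' {x : ℝ} (hx : 0 ≤ x) : x - x ^ 3 / 6 + x ^ 5 / 120 - x ^ 7 / 5040 ≤ sin x := by
  have h := le_of_der (f := fun x => sin x - (x - x ^ 3 / 6 + x ^ 5 / 120 - x ^ 7 / 5040))
    (f' := fun x => cos x - (1 - x ^ 2 / 2 + x ^ 4 / 24 - x ^ 6 / 720)) (a := 0) (x := x)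
    (fun x _ => by
      have h1 := (hasDerivAt_sin x).sub (((hasDerivAt_id' x).sub
        (((hasDerivAt_id' x).pow 3).div_const 6) |>.add
        (((hasDerivAt_id' x).pow 5).div_const 120)).sub
        (((hasDerivAt_id' x).pow 7).div_const 5040))
      refine h1.congr_deriv ?_
      simp only [Nat.cast_ofNat]
      ring)
    (fun x hx => by linarith [Ls.cos_sext hx]) hx
  norm_num at h
  linarith

/-- bounds of `sin` and `cos` at `π r` -/
theorem sc_bounds {r x1 x2 : ℝ} (hr0 : 0 ≤ r) (hr : r ≤ 1 / 2) (x10 : 0 ≤ x1)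
    (h1 : x1 ≤ 3141592 / 1000000 * r) (h2 : 3141593 / 1000000 * r ≤ x2) (h3 : x2 ≤ 3 / 2) :
    x1 - x1 ^ 3 / 6 + x1 ^ 5 / 120 - x1 ^ 7 / 5040 ≤ sin (π * r) ∧
    sin (π * r) ≤ x2 - x2 ^ 3 / 6 + x2 ^ 5 / 120 ∧
    1 - x2 ^ 2 / 2 + x2 ^ 4 / 24 - x2 ^ 6 / 720 ≤ cos (π * r) ∧
    cos (π * r) ≤ 1 - x1 ^ 2 / 2 + x1 ^ 4 / 24 - x1 ^ 6 / 720 + x1 ^ 8 / 40320 := by
  have p1 := pi_gt_d6
  have p2 := pi_lt_d6
  have hpi := pi_pos
  have q1 : x1 ≤ π * r := by nlinarith
  have q2 : π * r ≤ x2 := by nlinarith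
  have q0 : 0 ≤ π * r := by positivity
  have q3 : π * r ≤ π / 2 := by nlinarith
  refine ⟨?_, ?_, ?_, ?_⟩
  · exact (sin_sept' x10).trans (sin_le_sin_of_le_of_le_pi_div_two (by linarith) q3 q1)
  · refine le_trans ?_ (Ls.sin_quint (q0.trans q2))
    exact sin_le_sin_of_le_of_le_pi_div_two (by linarith) (by linarith [pi_gt_three]) q2
  · refine (Ls.cos_sext (q0.trans q2)).trans ?_
    exact cos_le_cos_of_nonneg_of_le_pi q0 (by linarith [pi_gt_three]) q2
  · refine le_trans ?_ (Ls.cos_oct x10)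
    exact cos_le_cos_of_nonneg_of_le_pi x10 (by linarith) q1

theorem tan_eq' (a : ℝ) (h0 : 0 < a) (h1 : a < 1 / 2) :
    tan (π * a) = cos (π * (1 / 2 - a)) / sin (π * (1 / 2 - a)) := by
  have e : π * (1 / 2 - a) = π / 2 - π * a := by ring
  rw [e, cos_pi_div_two_sub, sin_pi_div_two_sub, tan_eq_sin_div_cos]

theorem le_tan' {a r x1 x2 P : ℝ} (ha0 : 0 < a) (ha : a < 1 / 2) (hr : 1 / 2 - a = r)
    (x10 : 0 ≤ x1) (h1 : x1 ≤ 3141592 / 1000000 * r) (h2 : 3141593 / 1000000 * r ≤ x2)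
    (h3 : x2 ≤ 3 / 2) (hP : 0 ≤ P)
    (n : P * (x2 - x2 ^ 3 / 6 + x2 ^ 5 / 120) ≤ 1 - x2 ^ 2 / 2 + x2 ^ 4 / 24 - x2 ^ 6 / 720) :
    P ≤ tan (π * a) := by
  obtain ⟨s1, s2, s3, s4⟩ := sc_bounds (r := r) (by linarith) (by linarith) x10 h1 h2 h3
  have hpi := pi_pos
  have sp : 0 < sin (π * r) := sin_pos_of_pos_of_lt_pi (mul_pos hpi (by linarith)) (by nlinarith)
  rw [tan_eq' a ha0 ha, hr, le_div_iff₀ sp]
  have := mul_le_mul_of_nonneg_left s2 hP
  linarith

theorem tan_le' {a r x1 x2 P : ℝ} (ha0 : 0 < a) (ha : a < 1 / 2) (hr : 1 / 2 - a = r)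
    (x10 : 0 ≤ x1) (h1 : x1 ≤ 3141592 / 1000000 * r) (h2 : 3141593 / 1000000 * r ≤ x2)
    (h3 : x2 ≤ 3 / 2) (hP : 0 ≤ P)
    (n : 1 - x1 ^ 2 / 2 + x1 ^ 4 / 24 - x1 ^ 6 / 720 + x1 ^ 8 / 40320 ≤
      P * (x1 - x1 ^ 3 / 6 + x1 ^ 5 / 120 - x1 ^ 7 / 5040)) :
    tan (π * a) ≤ P := by
  obtain ⟨s1, s2, s3, s4⟩ := sc_bounds (r := r) (by linarith) (by linarith) x10 h1 h2 h3
  have hpi := pi_pos
  have sp : 0 < sin (π * r) := sin_pos_of_pos_of_lt_pi (mul_pos hpi (by linarith)) (by nlinarith)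
  rw [tan_eq' a ha0 ha, hr, div_le_iff₀ sp]
  have := mul_le_mul_of_nonneg_left s1 hP
  linarith

/-! ### `13/40` -/

theorem tan_1340 : 163182 / 100000 ≤ tan (π * (13 / 40)) ∧ tan (π * (13 / 40)) ≤ 16319 / 10000 := by
  constructor
  · exact le_tan' (x1 := 54977 / 100000) (x2 := 54978 / 100000) (r := 7 / 40) (by norm_num)
      (by norm_num) (by norm_num) (by norm_num) (by norm_num) (by norm_num) (by norm_num)
      (by norm_num) (by norm_num)
  · exact tan_le' (x1 := 54977 / 100000) (x2 := 54978 / 100000) (r := 7 / 40) (by norm_num)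
      (by norm_num) (by norm_num) (by norm_num) (by norm_num) (by norm_num) (by norm_num)
      (by norm_num) (by norm_num)

theorem cos_1340 : 27299 / 100000 ≤ cos (π * (13 / 40)) ^ 2 ∧
    cos (π * (13 / 40)) ^ 2 ≤ 27302 / 100000 := by
  obtain ⟨s1, s2, s3, s4⟩ := sc_bounds (r := 7 / 40) (x1 := 54977 / 100000) (x2 := 54978 / 100000)
    (by norm_num) (by norm_num) (by norm_num) (by norm_num) (by norm_num) (by norm_num)
  have e : cos (π * (13 / 40)) = sin (π * (7 / 40)) := by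
    rw [← cos_pi_div_two_sub]
    congr 1
    ring
  rw [e]
  have s0 : (0 : ℝ) ≤ 5224 / 10000 := by norm_num
  constructor
  · have h1 : 522489 / 1000000 ≤ sin (π * (7 / 40)) := by
      refine le_trans ?_ s1
      norm_num
    have := pow_le_pow_left₀ (by norm_num) h1 2
    norm_num at this ⊢
    linarith
  · have h1 : sin (π * (7 / 40)) ≤ 52251 / 100000 := by
      refine s2.trans ?_
      norm_num
    have h0 : 0 ≤ sin (π * (7 / 40)) := by
      refine le_trans ?_ s1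
      norm_num
    have := pow_le_pow_left₀ h0 h1 2
    norm_num at this ⊢
    linarith

theorem mem_vp : Mem (tan (π * (13 / 40))) vp := by
  obtain ⟨h1, h2⟩ := tan_1340
  constructor
  · norm_num [vp]; linarith
  · norm_num [vp]; linarith

theorem TA_of {x0 : ℝ} {lo : ℕ} (h0 : 1 / 4 ≤ x0) (h1 : (lo : ℝ) / 1073741824 ≤ tan (π * x0)) :
    TA x0 (13 / 40) ⟨lo, 1752239283⟩ := by
  refine ⟨h0, by norm_num, h1, ?_⟩
  refine tan_1340.2.trans ?_
  norm_num

theorem TA0 : TA (29 / 100) (13 / 40) ⟨1380509863, 1752239283⟩ := by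
  refine TA_of (by norm_num) ?_
  refine le_tan' (x1 := 65973 / 100000) (x2 := 65974 / 100000) (r := 21 / 100) (by norm_num)
      (by norm_num) (by norm_num) (by norm_num) (by norm_num) (by norm_num) (by norm_num)
      (by norm_num) (by norm_num)

theorem TA1 : TA (3 / 10) (13 / 40) ⟨1477790872, 1752239283⟩ := by
  refine TA_of (by norm_num) ?_
  refine le_tan' (x1 := 62831 / 100000) (x2 := 62832 / 100000) (r := 1 / 5) (by norm_num)
      (by norm_num) (by norm_num) (by norm_num) (by norm_num) (by norm_num) (by norm_num)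
      (by norm_num) (by norm_num)

theorem TA2 : TA (31 / 100) (13 / 40) ⟨1579903719, 1752239283⟩ := by
  refine TA_of (by norm_num) ?_
  refine le_tan' (x1 := 59690 / 100000) (x2 := 59691 / 100000) (r := 19 / 100) (by norm_num)
      (by norm_num) (by norm_num) (by norm_num) (by norm_num) (by norm_num) (by norm_num)
      (by norm_num) (by norm_num)

/-! ### The other vertex -/

theorem cos_320 : 79389 / 100000 ≤ cos (π * (3 / 20)) ^ 2 := by
  obtain ⟨s1, s2, s3, s4⟩ := sc_bounds (r := 3 / 20) (x1 := 47123 / 100000) (x2 := 47124 / 100000)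
    (by norm_num) (by norm_num) (by norm_num) (by norm_num) (by norm_num) (by norm_num)
  have h1 : 8910051 / 10000000 ≤ cos (π * (3 / 20)) := by
    refine le_trans ?_ s3
    norm_num
  have := pow_le_pow_left₀ (by norm_num) h1 2
  norm_num at this ⊢
  linarith

theorem cos_15 : 6545 / 10000 ≤ cos (π * (1 / 5)) ^ 2 := by
  rw [show π * (1 / 5) = π / 5 by ring, cos_pi_div_five]
  have h := sq_sqrt (show (0 : ℝ) ≤ 5 by norm_num)
  have h1 : 2236067 / 1000000 ≤ √5 := by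
    apply le_sqrt_of_sq_le
    norm_num
  nlinarith

theorem cos_14 : 1 / 2 ≤ cos (π * (1 / 4)) ^ 2 := by
  rw [show π * (1 / 4) = π / 4 by ring, cos_pi_div_four, div_pow, sq_sqrt (by norm_num)]
  norm_num

end Pool.Agent.S3.Ho
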