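import Pool.Agent.S3.E.PbQ
import Pool.Agent.S3.Ho.End3N
import Pool.Agent.S3.Ho.Num

/-!
# An end with three half twists next to an inner `2`: `re z < 29 π/100`
-/

set_option autoImplicit false

namespace Pool.Agent.S3.E.Zr

open Complex

variable {ι : Type*} [Finite ι] {a : ι → ℝ} {nl nr : ι → Option ι} {z : ι → ℂ}

theorem end3_poly {c C s : ℂ} (hs : s ≠ 0) (hC : C ≠ 0) (h1 : s ^ 2 + C ^ 2 = 1)
    (h : (3 * s - 4 * s ^ 3) * I = c * (s / C)) : c = I * (4 * C ^ 2 - 1) * C := by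
  have h2 : (3 * s - 4 * s ^ 3) * I * C = c * s := by
    rw [h]
    field_simp
  have h3 : s * c = s * (I * (4 * C ^ 2 - 1) * C) := by
    linear_combination (-1 : ℂ) * h2 - 4 * s * I * C * h1
  exact mul_left_cancel₀ hs h3

theorem end3_expand (A B : ℝ) : I * (4 * ((A : ℂ) - (B : ℂ) * I) ^ 2 - 1) * ((A : ℂ) - (B : ℂ) * I) =
    ((B * (12 * A ^ 2 - 4 * B ^ 2 - 1) : ℝ) : ℂ) + ((A * (4 * A ^ 2 - 12 * B ^ 2 - 1) : ℝ) : ℂ) * I := by
  push_cast
  linear_combination (-12 * (A : ℂ) ^ 2 * B + B + 12 * A * (B : ℂ) ^ 2 * I -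
    4 * (B : ℂ) ^ 3 * (I ^ 2 - 1)) * I_sq

/-- An end with three half twists next to an inner `2`. -/
theorem end3_re_lt (h : Zr a nl nr 1 z) (h3 : ∀ i, 3 ≤ a i → a i = 3 ∨ 4 ≤ a i) {i j : ι}
    (ha : a i = 3) (hb : bw (z i) (z j) = a i)
    (hR : a i * (z i).re = Real.pi - (qe (z i) (z j)).im) (hij : nl i = some j ∨ nr i = some j)
    (hj : a j = 2) (hjn : In2 nl nr j)
    (ht : Real.tan (th (z i).re (z i).im) ^ 2 ≤ 1 / 4) : (z i).re < 29 / 100 * Real.pi := by
  by_contra hc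
  push Not at hc
  obtain ⟨p1, p2, p3⟩ := h.pos i
  obtain ⟨q1, q2, q3⟩ := h.pos j
  have hpi := Real.pi_pos
  have hji : nl j = some i ∨ nr j = some i := h.N.symm i j hij
  have ci0 : 0 < Real.cos (z i).re := GeoX_cos_pos p1 p2
  have si0 : 0 < Real.sin (z i).re := GeoX_sin_pos p1 p2
  have shi0 : 0 < Real.sinh (z i).im := Real.sinh_pos_iff.2 p3
  have chi0 := Real.cosh_pos (z i).im
  have chi := Real.cosh_sq (z i).im
  have sci := Real.sin_sq_add_cos_sq (z i).re
  have ti := tan_th_sq p1 p2 p3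
  have Ti0 : 0 < Real.tan (th (z i).re (z i).im) :=
    Real.tan_pos_of_pos_of_lt_pi_div_two (h.th_pos_i i) (th_lt p1 p2 p3)
  -- the equation
  have hq : qe (z i) (z j) = (Real.pi : ℂ) * I - 3 * z i * I := by
    apply Complex.ext
    · have e1 : (qe (z i) (z j)).re = 3 * (z i).im := by
        rw [bw, ha, div_eq_iff p3.ne'] at hb
        exact hb
      rw [e1]
      simp
    · have e1 : (qe (z i) (z j)).im = Real.pi - 3 * (z i).re := by
        rw [ha] at hR
        linarith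
      rw [e1]
      simp
  have hC0 : cos (z i) ≠ 0 := h.cos_ne i
  have hs0 : sin (z i) ≠ 0 := by
    intro h0
    have h1 := (h.w_pos hij).1
    rw [tan_eq_sin_div_cos, h0, zero_div, mul_zero] at h1
    simp at h1
  have hE : (3 * sin (z i) - 4 * sin (z i) ^ 3) * I =
      (starRingEnd ℂ) (cos (z j)) * (sin (z i) / cos (z i)) := by
    have h1 : sinh (qe (z i) (z j)) = (starRingEnd ℂ) (cos (z j)) * tan (z i) := by
      rw [qe_eq p1 p2 p3 q1 q2 q3, sinh_arsh]
    simp only [hq, Complex.sinh_sub, Complex.sinh_mul_I, Complex.cosh_mul_I, Complex.sin_pi,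
      Complex.cos_pi, Complex.sin_three_mul, tan_eq_sin_div_cos] at h1
    rw [← h1]
    ring
  have hE2 := end3_poly hs0 hC0 (sin_sq_add_cos_sq (z i)) hE
  obtain ⟨A, hA⟩ : ∃ A, A = Real.cos (z i).re * Real.cosh (z i).im := ⟨_, rfl⟩
  obtain ⟨B, hB⟩ : ∃ B, B = Real.sin (z i).re * Real.sinh (z i).im := ⟨_, rfl⟩
  have hCA : cos (z i) = (A : ℂ) - (B : ℂ) * I := by
    rw [Complex.cos_eq, hA, hB]
    push_cast
    rfl
  rw [hCA, end3_expand] at hE2
  have bre : ((starRingEnd ℂ) (cos (z j))).re =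
      ‖cos (z j)‖ * Real.cos (ph (z j).re (z j).im) := by
    have := h.bo_re (some j)
    rw [be_one, ro_one, h.bo_one] at this
    exact this
  have bim : ((starRingEnd ℂ) (cos (z j))).im =
      ‖cos (z j)‖ * Real.sin (ph (z j).re (z j).im) := by
    have := h.bo_im (some j)
    rw [be_one, ro_one, h.bo_one] at this
    exact this
  rw [hE2] at bre bim
  rw [Complex.add_re, Complex.re_ofReal_mul, Complex.ofReal_re, Complex.I_re, mul_zero,
    add_zero] at bre
  rw [Complex.add_im, Complex.im_ofReal_mul, Complex.ofReal_im, Complex.I_im, mul_one,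
    zero_add] at bim
  have n0 := h.norm_pos j
  have n1 := h.norm2_ge h3 hj hjn
  have hph := h.tan_ph_358 h3 hj hjn hji (by linarith)
  have c0 : 0 < Real.cos (ph (z j).re (z j).im) :=
    Real.cos_pos_of_mem_Ioo ⟨by linarith [h.phpos j], ph_lt (z j).re (z j).im⟩
  obtain ⟨T, hT⟩ : ∃ T, T = Real.tan (th (z i).re (z i).im) ^ 2 := ⟨_, rfl⟩
  obtain ⟨m, hm⟩ : ∃ m, m = Real.cos (z i).re ^ 2 := ⟨_, rfl⟩
  have hsh : Real.sinh (z i).im ^ 2 = T * m := by rw [hT, hm, ti]
  have hm1 : m ≤ 377 / 1000 := by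
    obtain ⟨-, -, t1, -⟩ := Ho.TA0
    have t2 : Real.tan (Real.pi * (29 / 100)) ≤ Real.tan (z i).re := by
      rcases hc.eq_or_lt with h0 | h0
      · rw [← h0]
        exact le_of_eq (by ring_nf)
      · refine (Real.tan_lt_tan_of_lt_of_lt_pi_div_two (by linarith) p2 ?_).le
        linarith
    have t3 : (12856 / 10000 : ℝ) ≤ Real.tan (z i).re := by
      refine le_trans ?_ t2
      refine le_trans ?_ t1
      norm_num
    have e1 : Real.cos (z i).re ^ 2 * (1 + Real.tan (z i).re ^ 2) = 1 := by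
      rw [Real.tan_eq_sin_div_cos]
      field_simp
      linarith
    rw [hm]
    nlinarith [sq_nonneg (Real.cos (z i).re)]
  have hm0 : 0 < m := by rw [hm]; positivity
  have hT0 : 0 < T := by rw [hT]; positivity
  have A0 : 0 < A := by rw [hA]; positivity
  have B0 : 0 < B := by rw [hB]; positivity
  refine Ho.end3_num (A := A) (B := B) (T := T) hm0 hm1 hT0 (by rw [hT]; exact ht) A0 B0
    ?_ ?_ ?_ ?_ ?_
  · rw [hA, mul_pow, chi, hsh, ← hm]
    ring
  · rw [hB, mul_pow, hsh]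
    have : Real.sin (z i).re ^ 2 = 1 - m := by rw [hm]; linarith
    rw [this]
  · rw [bre]
    positivity
  · rw [bre, bim]
    nlinarith
  · rw [bre, bim]
    have e := Real.sin_sq_add_cos_sq (ph (z j).re (z j).im)
    have e2 : (‖cos (z j)‖ * Real.cos (ph (z j).re (z j).im)) ^ 2 +
        (‖cos (z j)‖ * Real.sin (ph (z j).re (z j).im)) ^ 2 = ‖cos (z j)‖ ^ 2 := by
      linear_combination ‖cos (z j)‖ ^ 2 * e
    rw [e2]
    nlinarith

end Pool.Agent.S3.E.Zr
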