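import Pool.Agent.S3.Ho.Num

/-!
# The ranges of the heights in the hole: the constants (generated)
-/

set_option autoImplicit false

namespace Pool.Agent.S3.T2

open Real NI Ho

theorem base_0 : (7513 / 20000 ≤ cos (π * (29 / 100)) ^ 2 ∧
    cos (π * (29 / 100)) ^ 2 ≤ 37567 / 100000) ∧
    (15803 / 20000 ≤ sin (π * (29 / 100)) ∧ sin (π * (29 / 100)) ≤ 9877 / 12500) := by
  obtain ⟨s1, s2, s3, s4⟩ := sc_bounds (r := 21 / 100) (x1 := 329867 / 500000) (x2 := 131947 / 200000)
    (by norm_num) (by norm_num) (by norm_num) (by norm_num) (by norm_num) (by norm_num)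
  have e : cos (π * (29 / 100)) = sin (π * (21 / 100)) := by
    rw [← cos_pi_div_two_sub]
    congr 1
    ring
  have e' : sin (π * (29 / 100)) = cos (π * (21 / 100)) := by
    rw [← sin_pi_div_two_sub]
    congr 1
    ring
  rw [e, e']
  have h1 : 306453 / 500000 ≤ sin (π * (21 / 100)) := by
    refine le_trans ?_ s1
    norm_num
  have h2 : sin (π * (21 / 100)) ≤ 612919 / 1000000 := by
    refine s2.trans ?_
    norm_num
  refine ⟨⟨?_, ?_⟩, ?_, ?_⟩
  · have := pow_le_pow_left₀ (by norm_num) h1 2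
    norm_num at this ⊢
    linarith
  · have h0 : 0 ≤ sin (π * (21 / 100)) := le_trans (by norm_num) h1
    have := pow_le_pow_left₀ h0 h2 2
    norm_num at this ⊢
    linarith
  · refine le_trans ?_ s3
    norm_num
  · refine s4.trans ?_
    norm_num

theorem mem_c_0 : Mem (cos (π * (29 / 100)) ^ 2) ⟨403351116, 403372592⟩ := by
  obtain ⟨⟨h1, h2⟩, -⟩ := base_0
  constructor
  · norm_num; linarith
  · norm_num; linarith

theorem mem_s_0 : Mem (sin (π * (29 / 100))) ⟨848417102, 848427840⟩ := by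
  obtain ⟨-, h1, h2⟩ := base_0
  constructor
  · norm_num; linarith
  · norm_num; linarith

theorem base_1 : (34549 / 100000 ≤ cos (π * (3 / 10)) ^ 2 ∧
    cos (π * (3 / 10)) ^ 2 ≤ 34551 / 100000) ∧
    (80901 / 100000 ≤ sin (π * (3 / 10)) ∧ sin (π * (3 / 10)) ≤ 40451 / 50000) := by
  obtain ⟨s1, s2, s3, s4⟩ := sc_bounds (r := 1 / 5) (x1 := 314159 / 500000) (x2 := 628319 / 1000000)
    (by norm_num) (by norm_num) (by norm_num) (by norm_num) (by norm_num) (by norm_num)
  have e : cos (π * (3 / 10)) = sin (π * (1 / 5)) := by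
    rw [← cos_pi_div_two_sub]
    congr 1
    ring
  have e' : sin (π * (3 / 10)) = cos (π * (1 / 5)) := by
    rw [← sin_pi_div_two_sub]
    congr 1
    ring
  rw [e, e']
  have h1 : 73473 / 125000 ≤ sin (π * (1 / 5)) := by
    refine le_trans ?_ s1
    norm_num
  have h2 : sin (π * (1 / 5)) ≤ 293897 / 500000 := by
    refine s2.trans ?_
    norm_num
  refine ⟨⟨?_, ?_⟩, ?_, ?_⟩
  · have := pow_le_pow_left₀ (by norm_num) h1 2
    norm_num at this ⊢
    linarith
  · have h0 : 0 ≤ sin (π * (1 / 5)) := le_trans (by norm_num) h1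
    have := pow_le_pow_left₀ h0 h2 2
    norm_num at this ⊢
    linarith
  · refine le_trans ?_ s3
    norm_num
  · refine s4.trans ?_
    norm_num

theorem mem_c_1 : Mem (cos (π * (3 / 10)) ^ 2) ⟨370967062, 370988538⟩ := by
  obtain ⟨⟨h1, h2⟩, -⟩ := base_1
  constructor
  · norm_num; linarith
  · norm_num; linarith

theorem mem_s_1 : Mem (sin (π * (3 / 10))) ⟨868667873, 868678611⟩ := by
  obtain ⟨-, h1, h2⟩ := base_1
  constructor
  · norm_num; linarith
  · norm_num; linarith

theorem base_2 : (31593 / 100000 ≤ cos (π * (31 / 100)) ^ 2 ∧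
    cos (π * (31 / 100)) ^ 2 ≤ 6319 / 20000) ∧
    (82707 / 100000 ≤ sin (π * (31 / 100)) ∧ sin (π * (31 / 100)) ≤ 82709 / 100000) := by
  obtain ⟨s1, s2, s3, s4⟩ := sc_bounds (r := 19 / 100) (x1 := 298451 / 500000) (x2 := 596903 / 1000000)
    (by norm_num) (by norm_num) (by norm_num) (by norm_num) (by norm_num) (by norm_num)
  have e : cos (π * (31 / 100)) = sin (π * (19 / 100)) := by
    rw [← cos_pi_div_two_sub]
    congr 1
    ring
  have e' : sin (π * (31 / 100)) = cos (π * (19 / 100)) := by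
    rw [← sin_pi_div_two_sub]
    congr 1
    ring
  rw [e, e']
  have h1 : 281041 / 500000 ≤ sin (π * (19 / 100)) := by
    refine le_trans ?_ s1
    norm_num
  have h2 : sin (π * (19 / 100)) ≤ 56209 / 100000 := by
    refine s2.trans ?_
    norm_num
  refine ⟨⟨?_, ?_⟩, ?_, ?_⟩
  · have := pow_le_pow_left₀ (by norm_num) h1 2
    norm_num at this ⊢
    linarith
  · have h0 : 0 ≤ sin (π * (19 / 100)) := le_trans (by norm_num) h1
    have := pow_le_pow_left₀ h0 h2 2
    norm_num at this ⊢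
    linarith
  · refine le_trans ?_ s3
    norm_num
  · refine s4.trans ?_
    norm_num

theorem mem_c_2 : Mem (cos (π * (31 / 100)) ^ 2) ⟨339227254, 339248730⟩ := by
  obtain ⟨⟨h1, h2⟩, -⟩ := base_2
  constructor
  · norm_num; linarith
  · norm_num; linarith

theorem mem_s_2 : Mem (sin (π * (31 / 100))) ⟨888059650, 888081126⟩ := by
  obtain ⟨-, h1, h2⟩ := base_2
  constructor
  · norm_num; linarith
  · norm_num; linarith

theorem sin_320 : 4539 / 10000 ≤ sin (π * (3 / 20)) ∧ sin (π * (3 / 20)) ≤ 4540 / 10000 := by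
  obtain ⟨s1, s2, s3, s4⟩ := sc_bounds (r := 3 / 20) (x1 := 471238 / 1000000)
    (x2 := 471239 / 1000000) (by norm_num) (by norm_num) (by norm_num) (by norm_num)
    (by norm_num) (by norm_num)
  exact ⟨le_trans (by norm_num) s1, s2.trans (by norm_num)⟩

theorem sin_15 : 5877 / 10000 ≤ sin (π * (1 / 5)) ∧ sin (π * (1 / 5)) ≤ 5878 / 10000 := by
  obtain ⟨s1, s2, s3, s4⟩ := sc_bounds (r := 1 / 5) (x1 := 628318 / 1000000)
    (x2 := 628319 / 1000000) (by norm_num) (by norm_num) (by norm_num) (by norm_num)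
    (by norm_num) (by norm_num)
  exact ⟨le_trans (by norm_num) s1, s2.trans (by norm_num)⟩

theorem sin_14 : sin (π * (1 / 4)) ≤ 7072 / 10000 := by
  obtain ⟨s1, s2, s3, s4⟩ := sc_bounds (r := 1 / 4) (x1 := 785398 / 1000000)
    (x2 := 785399 / 1000000) (by norm_num) (by norm_num) (by norm_num) (by norm_num)
    (by norm_num) (by norm_num)
  exact s2.trans (by norm_num)

theorem sin_mono' {r r' : ℝ} (h0 : 0 ≤ r) (h : r ≤ r') (h1 : r' ≤ 1 / 2) :
    sin (π * r) ≤ sin (π * r') := by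
  have hpi := pi_pos
  apply sin_le_sin_of_le_of_le_pi_div_two
  · have : 0 ≤ π * r := by positivity
    linarith
  · nlinarith
  · exact mul_le_mul_of_nonneg_left h hpi.le

theorem mem_w_0 {r : ℝ} (h0 : 0 ≤ r) (h1 : r ≤ 3 / 20) :
    Mem (sin (π * r)) ⟨0, 487478789⟩ := by
  have k1 := sin_mono' h0 h1 (by norm_num)
  have k0 : 0 ≤ sin (π * r) := sin_nonneg_of_nonneg_of_le_pi (mul_nonneg pi_pos.le h0)
    (by nlinarith [pi_pos])
  have k2 := sin_320.2
  constructor
  · norm_num; linarith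
  · norm_num; linarith

theorem mem_w_1 {r : ℝ} (h0 : 3 / 20 ≤ r) (h1 : r ≤ 1 / 5) :
    Mem (sin (π * r)) ⟨487371413, 631145445⟩ := by
  have k1 := sin_mono' (by linarith) h1 (by norm_num)
  have k3 := sin_mono' (by norm_num) h0 (by linarith)
  have k0 : 4539 / 10000 ≤ sin (π * r) := sin_320.1.trans k3
  have k2 := sin_15.2
  constructor
  · norm_num; linarith
  · norm_num; linarith

theorem mem_w_2 {r : ℝ} (h0 : 1 / 5 ≤ r) (h1 : r ≤ 1 / 4) :
    Mem (sin (π * r)) ⟨631038069, 759350218⟩ := by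
  have k1 := sin_mono' (by linarith) h1 (by norm_num)
  have k3 := sin_mono' (by norm_num) h0 (by linarith)
  have k0 : 5877 / 10000 ≤ sin (π * r) := sin_15.1.trans k3
  have k2 := sin_14
  constructor
  · norm_num; linarith
  · norm_num; linarith

theorem mem_t_0 {t : ℝ} (t0 : 0 < t) (h0 : 1 / 4 ≤ t ^ 2) (h1 : t ^ 2 ≤ 2 / 5) :
    Mem t ⟨536870912, 679098755⟩ := by
  have k0 : 1 / 2 ≤ t := by
    by_contra hc
    push Not at hc
    nlinarith
  have k1 : t ≤ 31623 / 50000 := by
    by_contra hc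
    push Not at hc
    nlinarith
  constructor
  · norm_num; linarith
  · norm_num; linarith

theorem mem_t_1 {t : ℝ} (t0 : 0 < t) (h0 : 2 / 5 ≤ t ^ 2) (h1 : t ^ 2 ≤ 17 / 20) :
    Mem t ⟨679088016, 989947013⟩ := by
  have k0 : 12649 / 20000 ≤ t := by
    by_contra hc
    push Not at hc
    nlinarith
  have k1 : t ≤ 23049 / 25000 := by
    by_contra hc
    push Not at hc
    nlinarith
  constructor
  · norm_num; linarith
  · norm_num; linarith

theorem mem_t_2 {t : ℝ} (t0 : 0 < t) (h0 : 17 / 20 ≤ t ^ 2) (h1 : t ^ 2 ≤ 1) :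
    Mem t ⟨989936274, 1073741824⟩ := by
  have k0 : 18439 / 20000 ≤ t := by
    by_contra hc
    push Not at hc
    nlinarith
  have k1 : t ≤ 1 := by
    by_contra hc
    push Not at hc
    nlinarith
  constructor
  · norm_num; linarith
  · norm_num; linarith

theorem mem_s'a {t : ℝ} (t0 : 0 < t) (h1 : t ^ 2 ≤ 1 / 4) : Mem t ⟨0, 536870912⟩ := by
  have k1 : t ≤ 1 / 2 := by
    by_contra hc
    push Not at hc
    nlinarith
  constructor
  · norm_num; linarith
  · norm_num; linarith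

theorem mem_s'b {t : ℝ} (t0 : 0 < t) (h1 : t ^ 2 ≤ 1 / 5) : Mem t ⟨0, 480284718⟩ := by
  have k1 : t ≤ 4473 / 10000 := by
    by_contra hc
    push Not at hc
    nlinarith
  constructor
  · norm_num; linarith
  · norm_num; linarith

end Pool.Agent.S3.T2
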