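import Pool.Agent.S3.Ho.RngB
import Pool.Agent.S3.Ho.RngN

/-!
# The ranges of the heights in the hole: rows 0 to 2 (generated)
-/

set_option autoImplicit false

namespace Pool.Agent.S3.T2

open Real NI Ho

def RP0 : RP := ⟨⟨403351116, 403372592⟩, ⟨848417102, 848427840⟩, ⟨354334801, 354334802⟩, ⟨38225208, 38225209⟩,
    ⟨112742891, 112742892⟩, ⟨2464577, 2464578⟩⟩

theorem rcert_0 : bb (rtest RP0) [0, 0, 1, 2, 0, 0, 1, 2, 0, 0, 1, 2, 0, 0, 1, 2, 0, 0]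
    ⟨0, 536870912⟩ ⟨536870912, 679098755⟩ ⟨0, 487478789⟩ one = true := by
  decide +kernel

theorem rd_0 : RD (29 / 100) RP0 (33 / 100) (89 / 2500) (239 / 5000) (21 / 200) where
  m1 := mem_c_0
  m2 := mem_s_0
  m3 := by constructor <;> norm_num [RP0]
  m4 := by constructor <;> norm_num [RP0]
  m5 := by constructor <;> norm_num [RP0]
  m6 := by unfold qr; constructor <;> norm_num [RP0]
  x1 := by norm_num
  x2 := by norm_num
  c1 := by norm_num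
  n1 := by norm_num
  n2 := by norm_num

/-- Row 0. -/
theorem bse_0 {θ θ' : ℝ} {w : ℂ} (hp : Pr θ θ' (vl θ (29 / 100)) w) (hwl : w.im = bl θ' w.re)
    (hw0 : 0 ≤ w.re) (hw1 : w.re ≤ 3 / 20) (t0 : 0 < tan θ) (t1 : tan θ ^ 2 ≤ 1 / 4)
    (s : 0 < tan θ') (s0 : 1 / 4 ≤ tan θ' ^ 2) (s1 : tan θ' ^ 2 ≤ 2 / 5) :
    Bse θ θ' (29 / 100) (33 / 100) (89 / 2500) (239 / 5000) (21 / 200) w :=
  bse_of rcert_0 rd_0 hp hwl (by nlinarith) (by nlinarith) (mem_s'a t0 t1)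
    (mem_t_0 s s0 s1) (mem_w_0 hw0 hw1)

def RP1 : RP := ⟨⟨370967062, 370988538⟩, ⟨868667873, 868678611⟩, ⟨322122547, 322122548⟩, ⟨48962627, 48962628⟩,
    ⟨158913789, 158913790⟩, ⟨4937123, 4937124⟩⟩

theorem rcert_1 : bb (rtest RP1) [0, 1, 0, 2, 0, 0, 1, 0, 2, 0, 0, 1, 0, 2, 0, 0, 1]
    ⟨0, 536870912⟩ ⟨536870912, 679098755⟩ ⟨487371413, 631145445⟩ one = true := by
  decide +kernel

theorem rd_1 : RD (3 / 10) RP1 (3 / 10) (57 / 1250) (27 / 400) (37 / 250) where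
  m1 := mem_c_1
  m2 := mem_s_1
  m3 := by constructor <;> norm_num [RP1]
  m4 := by constructor <;> norm_num [RP1]
  m5 := by constructor <;> norm_num [RP1]
  m6 := by unfold qr; constructor <;> norm_num [RP1]
  x1 := by norm_num
  x2 := by norm_num
  c1 := by norm_num
  n1 := by norm_num
  n2 := by norm_num

/-- Row 1. -/
theorem bse_1 {θ θ' : ℝ} {w : ℂ} (hp : Pr θ θ' (vl θ (3 / 10)) w) (hwl : w.im = bl θ' w.re)
    (hw0 : 3 / 20 ≤ w.re) (hw1 : w.re ≤ 1 / 5) (t0 : 0 < tan θ) (t1 : tan θ ^ 2 ≤ 1 / 4)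
    (s : 0 < tan θ') (s0 : 1 / 4 ≤ tan θ' ^ 2) (s1 : tan θ' ^ 2 ≤ 2 / 5) :
    Bse θ θ' (3 / 10) (3 / 10) (57 / 1250) (27 / 400) (37 / 250) w :=
  bse_of rcert_1 rd_1 hp hwl (by nlinarith) (by nlinarith) (mem_s'a t0 t1)
    (mem_t_0 s s0 s1) (mem_w_1 hw0 hw1)

def RP2 : RP := ⟨⟨339227254, 339248730⟩, ⟨888059650, 888081126⟩, ⟨257698037, 257698038⟩, ⟨54009213, 54009214⟩,
    ⟨225485783, 225485784⟩, ⟨10600862, 10600863⟩⟩

theorem rcert_2 : bb (rtest RP2) [0, 1, 0, 2, 0, 1, 0, 2, 0, 1, 0, 2, 0, 1, 0, 2, 0, 1, 0]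
    ⟨0, 536870912⟩ ⟨536870912, 679098755⟩ ⟨631038069, 759350218⟩ one = true := by
  decide +kernel

theorem rd_2 : RD (31 / 100) RP2 (6 / 25) (503 / 10000) (123 / 1250) (21 / 100) where
  m1 := mem_c_2
  m2 := mem_s_2
  m3 := by constructor <;> norm_num [RP2]
  m4 := by constructor <;> norm_num [RP2]
  m5 := by constructor <;> norm_num [RP2]
  m6 := by unfold qr; constructor <;> norm_num [RP2]
  x1 := by norm_num
  x2 := by norm_num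
  c1 := by norm_num
  n1 := by norm_num
  n2 := by norm_num

/-- Row 2. -/
theorem bse_2 {θ θ' : ℝ} {w : ℂ} (hp : Pr θ θ' (vl θ (31 / 100)) w) (hwl : w.im = bl θ' w.re)
    (hw0 : 1 / 5 ≤ w.re) (hw1 : w.re ≤ 1 / 4) (t0 : 0 < tan θ) (t1 : tan θ ^ 2 ≤ 1 / 4)
    (s : 0 < tan θ') (s0 : 1 / 4 ≤ tan θ' ^ 2) (s1 : tan θ' ^ 2 ≤ 2 / 5) :
    Bse θ θ' (31 / 100) (6 / 25) (503 / 10000) (123 / 1250) (21 / 100) w :=
  bse_of rcert_2 rd_2 hp hwl (by nlinarith) (by nlinarith) (mem_s'a t0 t1)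
    (mem_t_0 s s0 s1) (mem_w_2 hw0 hw1)

end Pool.Agent.S3.T2
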