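import Pool.Agent.S3.Ho.RngB
import Pool.Agent.S3.Ho.RngN

/-!
# The ranges of the heights in the hole: rows 3 to 5 (generated)
-/

set_option autoImplicit false

namespace Pool.Agent.S3.T2

open Real NI Ho

def RP3 : RP := ⟨⟨403351116, 403372592⟩, ⟨848417102, 848427840⟩, ⟨391915765, 391915766⟩, ⟨44023414, 44023415⟩,
    ⟨112742891, 112742892⟩, ⟨2485340, 2485341⟩⟩

theorem rcert_3 : bb (rtest RP3) [0, 1, 0, 2, 0, 1, 0, 2, 0, 1, 0, 2, 0, 1, 0, 2, 0, 1, 0, 2, 0, 1]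
    ⟨0, 536870912⟩ ⟨679088016, 989947013⟩ ⟨0, 487478789⟩ one = true := by
  decide +kernel

theorem rd_3 : RD (29 / 100) RP3 (73 / 200) (41 / 1000) (6 / 125) (21 / 200) where
  m1 := mem_c_0
  m2 := mem_s_0
  m3 := by constructor <;> norm_num [RP3]
  m4 := by constructor <;> norm_num [RP3]
  m5 := by constructor <;> norm_num [RP3]
  m6 := by unfold qr; constructor <;> norm_num [RP3]
  x1 := by norm_num
  x2 := by norm_num
  c1 := by norm_num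
  n1 := by norm_num
  n2 := by norm_num

/-- Row 3. -/
theorem bse_3 {θ θ' : ℝ} {w : ℂ} (hp : Pr θ θ' (vl θ (29 / 100)) w) (hwl : w.im = bl θ' w.re)
    (hw0 : 0 ≤ w.re) (hw1 : w.re ≤ 3 / 20) (t0 : 0 < tan θ) (t1 : tan θ ^ 2 ≤ 1 / 4)
    (s : 0 < tan θ') (s0 : 2 / 5 ≤ tan θ' ^ 2) (s1 : tan θ' ^ 2 ≤ 17 / 20) :
    Bse θ θ' (29 / 100) (73 / 200) (41 / 1000) (6 / 125) (21 / 200) w :=
  bse_of rcert_3 rd_3 hp hwl (by nlinarith) (by nlinarith) (mem_s'a t0 t1)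
    (mem_t_1 s s0 s1) (mem_w_0 hw0 hw1)

def RP4 : RP := ⟨⟨370967062, 370988538⟩, ⟨868667873, 868678611⟩, ⟨359703511, 359703512⟩, ⟨55082955, 55082956⟩,
    ⟨158913789, 158913790⟩, ⟨4951896, 4951897⟩⟩

theorem rcert_4 : bb (rtest RP4) [0, 1, 0, 2, 0, 1, 0, 2, 0, 1, 0, 2, 0, 1, 0, 2, 0, 1, 0]
    ⟨0, 536870912⟩ ⟨679088016, 989947013⟩ ⟨487371413, 631145445⟩ one = true := by
  decide +kernel

theorem rd_4 : RD (3 / 10) RP4 (67 / 200) (513 / 10000) (169 / 2500) (37 / 250) where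
  m1 := mem_c_1
  m2 := mem_s_1
  m3 := by constructor <;> norm_num [RP4]
  m4 := by constructor <;> norm_num [RP4]
  m5 := by constructor <;> norm_num [RP4]
  m6 := by unfold qr; constructor <;> norm_num [RP4]
  x1 := by norm_num
  x2 := by norm_num
  c1 := by norm_num
  n1 := by norm_num
  n2 := by norm_num

/-- Row 4. -/
theorem bse_4 {θ θ' : ℝ} {w : ℂ} (hp : Pr θ θ' (vl θ (3 / 10)) w) (hwl : w.im = bl θ' w.re)
    (hw0 : 3 / 20 ≤ w.re) (hw1 : w.re ≤ 1 / 5) (t0 : 0 < tan θ) (t1 : tan θ ^ 2 ≤ 1 / 4)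
    (s : 0 < tan θ') (s0 : 2 / 5 ≤ tan θ' ^ 2) (s1 : tan θ' ^ 2 ≤ 17 / 20) :
    Bse θ θ' (3 / 10) (67 / 200) (513 / 10000) (169 / 2500) (37 / 250) w :=
  bse_of rcert_4 rd_4 hp hwl (by nlinarith) (by nlinarith) (mem_s'a t0 t1)
    (mem_t_1 s s0 s1) (mem_w_1 hw0 hw1)

def RP5 : RP := ⟨⟨339227254, 339248730⟩, ⟨888059650, 888081126⟩, ⟨306016419, 306016420⟩, ⟨65390877, 65390878⟩,
    ⟨225485783, 225485784⟩, ⟨10600862, 10600863⟩⟩

theorem rcert_5 : bb (rtest RP5) [0, 1, 0, 2, 0, 1, 0, 2, 0, 1, 0, 2, 0, 1, 0, 2, 0, 1, 0, 2, 0, 1]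
    ⟨0, 536870912⟩ ⟨679088016, 989947013⟩ ⟨631038069, 759350218⟩ one = true := by
  decide +kernel

theorem rd_5 : RD (31 / 100) RP5 (57 / 200) (609 / 10000) (123 / 1250) (21 / 100) where
  m1 := mem_c_2
  m2 := mem_s_2
  m3 := by constructor <;> norm_num [RP5]
  m4 := by constructor <;> norm_num [RP5]
  m5 := by constructor <;> norm_num [RP5]
  m6 := by unfold qr; constructor <;> norm_num [RP5]
  x1 := by norm_num
  x2 := by norm_num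
  c1 := by norm_num
  n1 := by norm_num
  n2 := by norm_num

/-- Row 5. -/
theorem bse_5 {θ θ' : ℝ} {w : ℂ} (hp : Pr θ θ' (vl θ (31 / 100)) w) (hwl : w.im = bl θ' w.re)
    (hw0 : 1 / 5 ≤ w.re) (hw1 : w.re ≤ 1 / 4) (t0 : 0 < tan θ) (t1 : tan θ ^ 2 ≤ 1 / 4)
    (s : 0 < tan θ') (s0 : 2 / 5 ≤ tan θ' ^ 2) (s1 : tan θ' ^ 2 ≤ 17 / 20) :
    Bse θ θ' (31 / 100) (57 / 200) (609 / 10000) (123 / 1250) (21 / 100) w :=
  bse_of rcert_5 rd_5 hp hwl (by nlinarith) (by nlinarith) (mem_s'a t0 t1)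
    (mem_t_1 s s0 s1) (mem_w_2 hw0 hw1)

end Pool.Agent.S3.T2
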