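import Pool.Agent.S3.Ho.RngB
import Pool.Agent.S3.Ho.RngN

/-!
# The ranges of the heights in the hole: rows 6 to 8 (generated)
-/

set_option autoImplicit false

namespace Pool.Agent.S3.T2

open Real NI Ho

def RP6 : RP := ⟨⟨403351116, 403372592⟩, ⟨848417102, 848427840⟩, ⟨461708984, 461708985⟩, ⟨49070001, 49070002⟩,
    ⟨106300440, 106300441⟩, ⟨2163719, 2163720⟩⟩

theorem rcert_6 : bb (rtest RP6) [0, 1, 0, 2, 0, 0, 1, 0, 2, 0, 0, 1, 0, 2, 0, 0, 1]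
    ⟨0, 480284718⟩ ⟨989936274, 1073741824⟩ ⟨0, 487478789⟩ one = true := by
  decide +kernel

theorem rd_6 : RD (29 / 100) RP6 (43 / 100) (457 / 10000) (28 / 625) (99 / 1000) where
  m1 := mem_c_0
  m2 := mem_s_0
  m3 := by constructor <;> norm_num [RP6]
  m4 := by constructor <;> norm_num [RP6]
  m5 := by constructor <;> norm_num [RP6]
  m6 := by unfold qr; constructor <;> norm_num [RP6]
  x1 := by norm_num
  x2 := by norm_num
  c1 := by norm_num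
  n1 := by norm_num
  n2 := by norm_num

/-- Row 6. -/
theorem bse_6 {θ θ' : ℝ} {w : ℂ} (hp : Pr θ θ' (vl θ (29 / 100)) w) (hwl : w.im = bl θ' w.re)
    (hw0 : 0 ≤ w.re) (hw1 : w.re ≤ 3 / 20) (t0 : 0 < tan θ) (t1 : tan θ ^ 2 ≤ 1 / 5)
    (s : 0 < tan θ') (s0 : 17 / 20 ≤ tan θ' ^ 2) (s1 : tan θ' ^ 2 ≤ 1) :
    Bse θ θ' (29 / 100) (43 / 100) (457 / 10000) (28 / 625) (99 / 1000) w :=
  bse_of rcert_6 rd_6 hp hwl (by nlinarith) (by nlinarith) (mem_s'b t0 t1)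
    (mem_t_2 s s0 s1) (mem_w_0 hw0 hw1)

def RP7 : RP := ⟨⟨370967062, 370988538⟩, ⟨868667873, 868678611⟩, ⟨445602856, 445602857⟩, ⟨63995012, 63995013⟩,
    ⟨147102629, 147102630⟩, ⟨4159379, 4159380⟩⟩

theorem rcert_7 : bb (rtest RP7) [0, 1, 0, 2, 0, 0, 1, 0, 2, 0, 0, 1, 0, 2]
    ⟨0, 480284718⟩ ⟨989936274, 1073741824⟩ ⟨487371413, 631145445⟩ one = true := by
  decide +kernel

theorem rd_7 : RD (3 / 10) RP7 (83 / 200) (149 / 2500) (31 / 500) (137 / 1000) where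
  m1 := mem_c_1
  m2 := mem_s_1
  m3 := by constructor <;> norm_num [RP7]
  m4 := by constructor <;> norm_num [RP7]
  m5 := by constructor <;> norm_num [RP7]
  m6 := by unfold qr; constructor <;> norm_num [RP7]
  x1 := by norm_num
  x2 := by norm_num
  c1 := by norm_num
  n1 := by norm_num
  n2 := by norm_num

/-- Row 7. -/
theorem bse_7 {θ θ' : ℝ} {w : ℂ} (hp : Pr θ θ' (vl θ (3 / 10)) w) (hwl : w.im = bl θ' w.re)
    (hw0 : 3 / 20 ≤ w.re) (hw1 : w.re ≤ 1 / 5) (t0 : 0 < tan θ) (t1 : tan θ ^ 2 ≤ 1 / 5)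
    (s : 0 < tan θ') (s0 : 17 / 20 ≤ tan θ' ^ 2) (s1 : tan θ' ^ 2 ≤ 1) :
    Bse θ θ' (3 / 10) (83 / 200) (149 / 2500) (31 / 500) (137 / 1000) w :=
  bse_of rcert_7 rd_7 hp hwl (by nlinarith) (by nlinarith) (mem_s'b t0 t1)
    (mem_t_2 s s0 s1) (mem_w_1 hw0 hw1)

def RP8 : RP := ⟨⟨339227254, 339248730⟩, ⟨888059650, 888081126⟩, ⟨418759311, 418759312⟩, ⟨82141249, 82141250⟩,
    ⟨202937204, 202937205⟩, ⟨8232344, 8232345⟩⟩

theorem rcert_8 : bb (rtest RP8) [0, 1, 0, 2, 0, 0, 1, 0, 2, 0, 0, 1, 0, 2, 0, 0, 1]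
    ⟨0, 480284718⟩ ⟨989936274, 1073741824⟩ ⟨631038069, 759350218⟩ one = true := by
  decide +kernel

theorem rd_8 : RD (31 / 100) RP8 (39 / 100) (153 / 2000) (869 / 10000) (189 / 1000) where
  m1 := mem_c_2
  m2 := mem_s_2
  m3 := by constructor <;> norm_num [RP8]
  m4 := by constructor <;> norm_num [RP8]
  m5 := by constructor <;> norm_num [RP8]
  m6 := by unfold qr; constructor <;> norm_num [RP8]
  x1 := by norm_num
  x2 := by norm_num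
  c1 := by norm_num
  n1 := by norm_num
  n2 := by norm_num

/-- Row 8. -/
theorem bse_8 {θ θ' : ℝ} {w : ℂ} (hp : Pr θ θ' (vl θ (31 / 100)) w) (hwl : w.im = bl θ' w.re)
    (hw0 : 1 / 5 ≤ w.re) (hw1 : w.re ≤ 1 / 4) (t0 : 0 < tan θ) (t1 : tan θ ^ 2 ≤ 1 / 5)
    (s : 0 < tan θ') (s0 : 17 / 20 ≤ tan θ' ^ 2) (s1 : tan θ' ^ 2 ≤ 1) :
    Bse θ θ' (31 / 100) (39 / 100) (153 / 2000) (869 / 10000) (189 / 1000) w :=
  bse_of rcert_8 rd_8 hp hwl (by nlinarith) (by nlinarith) (mem_s'b t0 t1)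
    (mem_t_2 s s0 s1) (mem_w_2 hw0 hw1)

end Pool.Agent.S3.T2
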