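import Pool.Agent.S3.Ho.BaseS
import Pool.Agent.S3.Ho.RngR0
import Pool.Agent.S3.Ho.RngR1
import Pool.Agent.S3.Ho.RngR2

/-!
# The hole: the flats of an edge between a vertex with two half twists and one with at least three
-/

set_option autoImplicit false

namespace Pool.Agent.S3.T2

open Real Set Ho
open Pool.Agent.H25.RK (gdv)

/-- The conclusion of `FlatH` at one pair. -/
def FlatP (Φ : ℂ → ℂ → ℂ) (θ θ' xc xc' b b' v1 v1' μ μ' : ℝ) (v w : ℂ) : Prop :=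
  ∃ H : ℝ, |H| ≤ 1 ∧ (Side (yv (cmp v1 v) (cmp v1' w)) H ∨
      ∀ Y ∈ Set.uIcc 0 H, EE (.op (cmp v1 v)) (.op ((starRingEnd ℂ) (cmp v1' w)))
          ((Y : ℂ) * Complex.I) <
        LM Φ θ θ' b b' xc xc' v1 v1' μ μ' v w) ∧ ∀ t ∈ Set.Icc (0 : ℝ) (1 / 2),
      EE (.op (cmp v1 v)) (.op ((starRingEnd ℂ) (cmp v1' w))) ((t : ℂ) + H * Complex.I) <
        LM Φ θ θ' b b' xc xc' v1 v1' μ μ' v w

section

variable {Φ : ℂ → ℂ → ℂ} {θ θ' xc xc' b b' v1 v1' μ μ' : ℝ} {v w : ℂ}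

/-- Exchange of the two vertices. -/
theorem FlatP.swap (H : OO Φ θ θ' xc xc' b b' v1 v1') (hv : v ∈ G0 θ v1) (hv0 : 0 ≤ v.re)
    (hw : w ∈ G0 θ' v1') (hw0 : 0 ≤ w.re) (hF : FlatP Φ θ θ' xc xc' b b' v1 v1' μ μ' v w) :
    FlatP (fun v w => Φ w v) θ' θ xc' xc b' b v1' v1 μ' μ w v := by
  obtain ⟨H1, h1, h2, h3⟩ := hF
  have hp := H.pr hv hv0 hw hw0
  refine ⟨-H1, by rwa [abs_neg], ?_, ?_⟩
  · rcases h2 with h2 | h2
    · left
      rw [yv_swap hp]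
      exact h2.conj
    · right
      intro Y hY
      rw [H.LM_swap, ← conj_vert Y, EE_sw]
      apply h2
      rw [Set.mem_uIcc] at hY ⊢
      rcases hY with hY | hY
      · exact Or.inr ⟨by linarith [hY.2], by linarith [hY.1]⟩
      · exact Or.inl ⟨by linarith [hY.2], by linarith [hY.1]⟩
  · intro t ht
    rw [H.LM_swap, ← conj_hor, EE_sw]
    exact h3 t ht

theorem V23_le (y : ℝ) : V23 y ≤ 1 / 4 := by
  unfold V23
  split_ifs <;> norm_num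

theorem V23_a {y : ℝ} (h : 0 < V23 y) : 29 / 100 < y := by
  by_contra hc
  push Not at hc
  unfold V23 at h
  rw [if_pos hc] at h
  exact lt_irrefl _ h

theorem V23_b {y : ℝ} (h : 3 / 20 < V23 y) : 3 / 10 < y := by
  by_contra hc
  push Not at hc
  unfold V23 at h
  split_ifs at h <;> norm_num at h

theorem V23_c {y : ℝ} (h : 1 / 5 < V23 y) : 31 / 100 < y := by
  by_contra hc
  push Not at hc
  unfold V23 at h
  split_ifs at h <;> norm_num at h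

theorem cmp_re_le_self {v1 : ℝ} (v : ℂ) : (cmp v1 v).re ≤ v.re := by
  unfold cmp
  split_ifs with h
  · exact le_rfl
  · rw [Complex.ofReal_re]
    linarith

/-- One row. -/
theorem hole_row (H : OO Φ θ θ' xc xc' b b' (13 / 40) (2 / 5))
    (j : Ck.J3 (tan θ' ^ 2) (tan θ ^ 2)) (t1 : tan θ' ^ 2 < 1) (t1' : 1 / 4 ≤ tan θ' ^ 2)
    (t2 : tan θ ^ 2 ≤ 1 / 4) {x0 k1 c1 c0 n0 sm g cm : ℝ} (R : RowOK x0 k1 c1 c0 n0 sm g cm)
    (hx0 : 29 / 100 ≤ x0) (hx1 : x0 ≤ 31 / 100) (hk1 : tan θ ^ 2 ≤ k1) (hsm : sm ≤ 21 / 100)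
    (hn0 : n0 ≤ 1 / 10) (hw0 : 0 ≤ w.re) (hw1 : w.re ≤ 1 / 4) (hwl : w.im = bl θ' w.re)
    (o : Oth ((starRingEnd ℂ) (vl θ' w.re)) g cm) (B : Bse θ θ' x0 c1 c0 n0 sm w)
    (hR : R23 w.re x0)
    (hr : ∀ x ∈ Icc (29 / 100) (13 / 40),
      rl b (gdv (UU xc θ)) (qq (UU xc θ) (UU xc' (-θ'))) θ x ≤ r3 θ x)
    (hs : (∀ x ∈ Icc (29 / 100) (13 / 40),
      rl b (gdv (UU xc θ)) (qq (UU xc θ) (UU xc' (-θ'))) θ x < r3 θ x) ∨
      (gdv (UU xc θ)).re < 29 / 100)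
    (hμ : μ ≤ 0 ∨ (μ ≤ π / 20 ∧ 7 / 100 ≤ tan θ ^ 2))
    (hE : EndAll Φ θ θ' xc xc' b b' (13 / 40) (2 / 5) μ μ')
    (hv : v ∈ G0 θ (13 / 40)) (_hv0 : 0 ≤ v.re) (hva : x0 < v.re) :
    FlatP Φ θ θ' xc xc' b b' (13 / 40) (2 / 5) μ μ' v w := by
  have ew : w = vl θ' w.re := by
    apply Complex.ext
    · rw [vl_re]
    · rw [vl_im, ← hwl]
  have hw : w ∈ G0 θ' (2 / 5) := Or.inl ⟨by rw [abs_of_nonneg hw0]; linarith, hwl⟩
  obtain ⟨Φ0, g1, g2, g3⟩ := hole_base' (μ := μ) (μ' := μ') H j t1 t2 (v := vl θ x0) (w := w)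
    (by rw [vl_re]; linarith) (by rw [vl_re]; linarith) (by rw [vl_im, vl_re]) hw0 (by linarith)
    hwl (by rw [vl_re]; exact hR)
  rw [← ew] at o
  obtain ⟨h, k1, k2, k3⟩ := OO.holeH H t2 t1' R hx0 hx1 hk1 hsm hn0 hw0 hw1 hwl o g1 g2 B
    (fun x hx => hr x ⟨by linarith [hx.1], hx.2⟩)
    (by
      rcases hs with hs | hs
      · exact Or.inl fun x hx => hs x ⟨by linarith [hx.1], hx.2⟩
      · exact Or.inr (g3 (by rw [vl_re]; linarith)))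
    hμ (fun v hv hv0 => (hE v w hv hv0 hw hw0).1) v hv hva
  exact ⟨h, k1, Or.inr k2, k3⟩

/-- **The hole**, the vertex with at least three half twists first. -/
theorem hole32 (H : OO Φ θ θ' xc xc' b b' (13 / 40) (2 / 5))
    (j : Ck.J3 (tan θ' ^ 2) (tan θ ^ 2)) (t1 : tan θ' ^ 2 < 1) (t1' : 1 / 4 ≤ tan θ' ^ 2)
    (t2 : tan θ ^ 2 ≤ 1 / 4)
    (hr : ∀ x ∈ Icc (29 / 100) (13 / 40),
      rl b (gdv (UU xc θ)) (qq (UU xc θ) (UU xc' (-θ'))) θ x ≤ r3 θ x)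
    (hs : (∀ x ∈ Icc (29 / 100) (13 / 40),
      rl b (gdv (UU xc θ)) (qq (UU xc θ) (UU xc' (-θ'))) θ x < r3 θ x) ∨
      (gdv (UU xc θ)).re < 29 / 100)
    (hμ : μ ≤ 0 ∨ (μ ≤ π / 20 ∧ 7 / 100 ≤ tan θ ^ 2))
    (hE : EndAll Φ θ θ' xc xc' b b' (13 / 40) (2 / 5) μ μ')
    (hv : v ∈ G0 θ (13 / 40)) (hv0 : 0 ≤ v.re) (hw : w ∈ G0 θ' (2 / 5)) (hw0 : 0 ≤ w.re)
    (hV : w.re < V23 (cmp (13 / 40) v).re) :
    FlatP Φ θ θ' xc xc' b b' (13 / 40) (2 / 5) μ μ' v w := by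
  have T0 : 0 < tan θ := tan_pos_of_pos_of_lt_pi_div_two H.hθ.pos H.hθ.lt
  have T0' : 0 < tan θ' := tan_pos_of_pos_of_lt_pi_div_two H.hθ'.pos H.hθ'.lt
  have hw1 : w.re < 1 / 4 := hV.trans_le (V23_le _)
  have hwl : w.im = bl θ' w.re := by
    rcases hw with ⟨-, h⟩ | ⟨h, -⟩ | ⟨h, -⟩
    · exact h
    · rw [abs_of_nonneg hw0] at h; linarith
    · rw [abs_of_nonneg hw0] at h; linarith
  have blw : 0 ≤ bl θ' w.re :=
    (bl_pos_of H.hθ'.pos H.hθ'.lt (by rw [abs_of_nonneg hw0]; linarith)).le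
  have hcs := cmp_re_le_self (v1 := 13 / 40) v
  have hp : ∀ x0 : ℝ, 0 ≤ x0 → x0 ≤ 13 / 40 → Pr θ θ' (vl θ x0) w := by
    intro x0 h0 h1
    have hvx : vl θ x0 ∈ G0 θ (13 / 40) :=
      Or.inl ⟨by rw [vl_re, abs_of_nonneg h0]; exact h1, by rw [vl_im, vl_re]⟩
    have hp := H.pr hvx (by rw [vl_re]; exact h0) hw hw0
    rwa [show cmp (2 / 5) w = w from if_pos (by linarith),
      show cmp (13 / 40) (vl θ x0) = vl θ x0 from if_pos (by rw [vl_re]; exact h1)] at hp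
  rcases le_or_gt w.re (3 / 20) with c1 | c1
  · -- first bin
    have hx : 29 / 100 < v.re := (V23_a (by linarith)).trans_le hcs
    have hR : R23 w.re (29 / 100) := R23_of (by norm_num)
      (by unfold V23; rw [if_pos le_rfl]; exact hw0)
      (by unfold A23; norm_num; linarith)
    have P := hp (29 / 100) (by norm_num) (by norm_num)
    rcases le_or_gt (tan θ' ^ 2) (2 / 5) with s1 | s1
    · exact hole_row H j t1 t1' t2 rowOK0 (by norm_num) (by norm_num) t2 (by norm_num)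
        (by norm_num) hw0 hw1.le hwl (oth0 hw0 c1 t1' s1 blw)
        (bse_0 P hwl hw0 c1 T0 t2 T0' t1' s1) hR hr hs hμ hE hv hv0 hx
    rcases le_or_gt (tan θ' ^ 2) (17 / 20) with s2 | s2
    · exact hole_row H j t1 t1' t2 rowOK3 (by norm_num) (by norm_num) t2 (by norm_num)
        (by norm_num) hw0 hw1.le hwl (oth3 hw0 c1 s1.le s2 blw)
        (bse_3 P hwl hw0 c1 T0 t2 T0' s1.le s2) hR hr hs hμ hE hv hv0 hx
    · have t3 : tan θ ^ 2 ≤ 1 / 5 := j.j2.resolve_right (by linarith)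
      exact hole_row H j t1 t1' t2 rowOK6 (by norm_num) (by norm_num) t3 (by norm_num)
        (by norm_num) hw0 hw1.le hwl (oth6 hw0 c1 s2.le t1.le blw)
        (bse_6 P hwl hw0 c1 T0 t3 T0' s2.le t1.le) hR hr hs hμ hE hv hv0 hx
  rcases le_or_gt w.re (1 / 5) with c2 | c2
  · -- second bin
    have hx : 3 / 10 < v.re := (V23_b (by linarith)).trans_le hcs
    have hR : R23 w.re (3 / 10) := R23_of (by norm_num)
      (by unfold V23; norm_num; linarith) (by unfold A23; norm_num; linarith)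
    have P := hp (3 / 10) (by norm_num) (by norm_num)
    rcases le_or_gt (tan θ' ^ 2) (2 / 5) with s1 | s1
    · exact hole_row H j t1 t1' t2 rowOK1 (by norm_num) (by norm_num) t2 (by norm_num)
        (by norm_num) hw0 hw1.le hwl (oth1 hw0 c2 t1' s1 blw)
        (bse_1 P hwl c1.le c2 T0 t2 T0' t1' s1) hR hr hs hμ hE hv hv0 hx
    rcases le_or_gt (tan θ' ^ 2) (17 / 20) with s2 | s2
    · exact hole_row H j t1 t1' t2 rowOK4 (by norm_num) (by norm_num) t2 (by norm_num)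
        (by norm_num) hw0 hw1.le hwl (oth4 hw0 c2 s1.le s2 blw)
        (bse_4 P hwl c1.le c2 T0 t2 T0' s1.le s2) hR hr hs hμ hE hv hv0 hx
    · have t3 : tan θ ^ 2 ≤ 1 / 5 := j.j2.resolve_right (by linarith)
      exact hole_row H j t1 t1' t2 rowOK7 (by norm_num) (by norm_num) t3 (by norm_num)
        (by norm_num) hw0 hw1.le hwl (oth7 hw0 c2 s2.le t1.le blw)
        (bse_7 P hwl c1.le c2 T0 t3 T0' s2.le t1.le) hR hr hs hμ hE hv hv0 hx
  · -- third bin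
    have hx : 31 / 100 < v.re := (V23_c (by linarith)).trans_le hcs
    have hR : R23 w.re (31 / 100) := R23_of (by norm_num)
      (by unfold V23; norm_num; linarith) (by unfold A23; norm_num; linarith)
    have P := hp (31 / 100) (by norm_num) (by norm_num)
    rcases le_or_gt (tan θ' ^ 2) (2 / 5) with s1 | s1
    · exact hole_row H j t1 t1' t2 rowOK2 (by norm_num) (by norm_num) t2 (by norm_num)
        (by norm_num) hw0 hw1.le hwl (oth2 hw0 hw1.le t1' s1 blw)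
        (bse_2 P hwl c2.le hw1.le T0 t2 T0' t1' s1) hR hr hs hμ hE hv hv0 hx
    rcases le_or_gt (tan θ' ^ 2) (17 / 20) with s2 | s2
    · exact hole_row H j t1 t1' t2 rowOK5 (by norm_num) (by norm_num) t2 (by norm_num)
        (by norm_num) hw0 hw1.le hwl (oth5 hw0 hw1.le s1.le s2 blw)
        (bse_5 P hwl c2.le hw1.le T0 t2 T0' s1.le s2) hR hr hs hμ hE hv hv0 hx
    · have t3 : tan θ ^ 2 ≤ 1 / 5 := j.j2.resolve_right (by linarith)
      exact hole_row H j t1 t1' t2 rowOK8 (by norm_num) (by norm_num) t3 (by norm_num)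
        (by norm_num) hw0 hw1.le hwl (oth8 hw0 hw1.le s2.le t1.le blw)
        (bse_8 P hwl c2.le hw1.le T0 t3 T0' s2.le t1.le) hR hr hs hμ hE hv hv0 hx

/-- **The hole**, the vertex with two half twists first. -/
theorem hole23 {a' : ℕ} (D : D23 Φ θ θ' xc xc' b b' a') (t1' : 1 / 4 ≤ tan θ ^ 2)
    (hr : ∀ x ∈ Icc (29 / 100) (13 / 40),
      rl b' (gdv (UU xc' θ')) (qq (UU xc' θ') (UU xc (-θ))) θ' x ≤ r3 θ' x)
    (hs : (∀ x ∈ Icc (29 / 100) (13 / 40),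
      rl b' (gdv (UU xc' θ')) (qq (UU xc' θ') (UU xc (-θ))) θ' x < r3 θ' x) ∨
      (gdv (UU xc' θ')).re < 29 / 100)
    (hμ : μ' ≤ 0 ∨ (μ' ≤ π / 20 ∧ 7 / 100 ≤ tan θ' ^ 2))
    (hE : EndAll Φ θ θ' xc xc' b b' (2 / 5) (13 / 40) μ μ')
    (hv : v ∈ G0 θ (2 / 5)) (hv0 : 0 ≤ v.re) (hw : w ∈ G0 θ' (13 / 40)) (hw0 : 0 ≤ w.re)
    (hV : v.re < V23 (cmp (13 / 40) w).re) :
    FlatP Φ θ θ' xc xc' b b' (2 / 5) (13 / 40) μ μ' v w := by
  have H := D.H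
  have hE' : EndAll (fun v w => Φ w v) θ' θ xc' xc b' b (13 / 40) (2 / 5) μ' μ := by
    intro w v hw hw0 hv hv0
    obtain ⟨h1, h2⟩ := hE v w hv hv0 hw hw0
    rw [H.LM_swap]
    refine ⟨by rw [add_comm w.im]; exact h1, fun y hy => ?_⟩
    rw [EE_comm]
    exact h2 y hy
  have k := hole32 H.swap D.j D.t1 t1' D.t2 hr hs hμ hE' hw hw0 hv hv0 hV
  exact k.swap H.swap hw hw0 hv hv0

end

end Pool.Agent.S3.T2
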