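import Pool.Agent.S3.Ho.Num
import Pool.Agent.S3.W2.SlideH
import Pool.Agent.S3.Cl.PbO

/-!
# The share of an edge at a vertex with at least three half twists is at most the rate
-/

set_option autoImplicit false

namespace Pool.Agent.S3.Ho

open Complex
open Pool.Agent.H25.RK (gdv)
open Pool.Agent.S3.E

/-- the algebra of the share bound, two slots -/
theorem share_alg {a bj bk R rj rk ρ η T : ℝ} (ha : 3 ≤ a) (hb : bj + bk = a) (hbj : 0 < bj)
    (hbk : 0 < bk) (hR : a * R = Real.pi - rj - rk) (R0 : 0 < R) (rj1 : rj < Real.pi / 2)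
    (rk0 : 0 < rk) (T0 : 0 < T) (D0 : η ≤ ρ * T) (D1 : ρ * T - η ≤ Real.pi / 6 * T) :
    bj * (η + (Real.pi / 2 - ρ) * T) - (bj * (Real.pi / 2 - R) - rj) * T <
      3 * (η + (Real.pi / 2 - ρ) * T) - Real.pi / 2 * T := by
  have hpi := Real.pi_pos
  have key : (3 - bj) * (ρ * T - η) < (bk * R + rk) * T := by
    rcases le_total 3 bj with h | h
    · have h1 : (3 - bj) * (ρ * T - η) ≤ 0 := mul_nonpos_of_nonpos_of_nonneg (by linarith) (by linarith)
      have h2 : 0 < (bk * R + rk) * T := by positivity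
      linarith
    · have h1 : (3 - bj) * (ρ * T - η) ≤ (3 - bj) * (Real.pi / 6 * T) :=
        mul_le_mul_of_nonneg_left D1 (by linarith)
      refine lt_of_le_of_lt h1 ?_
      have h2 : (3 - bj) * (Real.pi / 6) < bk * R + rk := by
        have e1 : bk * R + rk = Real.pi - rj - bj * R := by
          have : bk = a - bj := by linarith
          rw [this, sub_mul, hR]
          ring
        have h3 : 3 * R ≤ a * R := mul_le_mul_of_nonneg_right ha R0.le
        have h4 : bj * (3 * R) ≤ bj * (a * R) := mul_le_mul_of_nonneg_left h3 hbj.le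
        have h5 : 0 < bj * rk := mul_pos hbj rk0
        have h6 : 0 ≤ (3 - bj) * (Real.pi / 2 - rj) := mul_nonneg (by linarith) (by linarith)
        rw [hR] at h4
        rw [e1]
        nlinarith
      have h3 := mul_lt_mul_of_pos_right h2 T0
      calc (3 - bj) * (Real.pi / 6 * T) = (3 - bj) * (Real.pi / 6) * T := by ring
        _ < _ := h3
  have e : (bk * R + rk) = Real.pi - rj - bj * R := by
    have : bk = a - bj := by linarith
    rw [this, sub_mul, hR]
    ring
  rw [e] at key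
  nlinarith

/-- the numbers on the segment `[29/100, 13/40]` -/
theorem share_num {θ x : ℝ} (h0 : 0 < Real.tan θ) (ht : Real.tan θ ^ 2 ≤ 1 / 4)
    (hx : x ∈ Set.Icc (29 / 100 : ℝ) (13 / 40)) :
    0 < Tl θ x ∧ Real.pi * bl θ x < Real.pi * x * Tl θ x ∧
      Real.pi * x * Tl θ x - Real.pi * bl θ x ≤ Real.pi / 6 * Tl θ x := by
  obtain ⟨x0, x1⟩ := hx
  have hpi := Real.pi_pos
  have p1 := Real.pi_gt_d2
  have p2 := Real.pi_lt_d4
  have q1 : Real.pi * (29 / 100) ≤ Real.pi * x := mul_le_mul_of_nonneg_left x0 hpi.le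
  have q2 : Real.pi * x ≤ Real.pi * (13 / 40) := mul_le_mul_of_nonneg_left x1 hpi.le
  have hc : 0 < Real.cos (Real.pi * x) := cos_pos_of (by linarith) (by linarith)
  obtain ⟨-, -, t1, -⟩ := TA0
  have t2 : Real.tan (Real.pi * (29 / 100)) ≤ Real.tan (Real.pi * x) := by
    rcases q1.eq_or_lt with h | h
    · rw [h]
    · exact (Real.tan_lt_tan_of_lt_of_lt_pi_div_two (by linarith) (by linarith) h).le
  have t3 : Real.tan (Real.pi * x) ≤ Real.tan (Real.pi * (13 / 40)) := by
    rcases q2.eq_or_lt with h | h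
    · rw [h]
    · exact (Real.tan_lt_tan_of_lt_of_lt_pi_div_two (by linarith) (by linarith) h).le
  have t4 := tan_1340.2
  have t1' : 128 / 100 ≤ Real.tan (Real.pi * (29 / 100)) := by
    refine le_trans ?_ t1
    norm_num
  obtain ⟨η, hη⟩ : ∃ η, η = Real.pi * bl θ x := ⟨_, rfl⟩
  have hs : Real.sinh η = Real.tan θ * Real.cos (Real.pi * x) := by rw [hη, sinh_pi_bl]
  have s0 : 0 < Real.sinh η := by rw [hs]; positivity
  have η0 : 0 < η := Real.sinh_pos_iff.1 s0
  have ch := Real.cosh_pos η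
  have hch2 : Real.cosh η ^ 2 ≤ 11 / 10 := by
    have e : Real.cosh η ^ 2 = 1 + Real.sinh η ^ 2 := by rw [Real.cosh_sq]; ring
    have c2 : Real.cos (Real.pi * x) ^ 2 ≤ 4 / 10 := by
      have e1 : Real.cos (Real.pi * x) ^ 2 * (1 + Real.tan (Real.pi * x) ^ 2) = 1 := by
        rw [Real.tan_eq_sin_div_cos]
        field_simp
        linarith [Real.sin_sq_add_cos_sq (Real.pi * x)]
      nlinarith [sq_nonneg (Real.cos (Real.pi * x))]
    rw [e, hs, mul_pow]
    nlinarith [sq_nonneg (Real.tan θ), sq_nonneg (Real.cos (Real.pi * x))]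
  have hch : Real.cosh η ≤ 105 / 100 := by nlinarith
  have hsη : η ≤ Real.sinh η := Real.self_le_sinh_iff.2 η0.le
  have hth0 : 0 < Real.tanh η := by rw [Real.tanh_eq_sinh_div_cosh]; positivity
  have hth1 : η ≤ 105 / 100 * Real.tanh η := by
    rw [Real.tanh_eq_sinh_div_cosh, mul_div_assoc', le_div_iff₀ ch]
    nlinarith
  have hth2 : Real.tanh η ≤ η := tanh_le_self η0.le
  have hT : Tl θ x = Real.tan (Real.pi * x) * Real.tanh η := by rw [Tl, hη]
  rw [hT, ← hη]
  have tx0 : 0 < Real.tan (Real.pi * x) := by linarith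
  refine ⟨by positivity, ?_, ?_⟩
  · have h1 : 105 / 100 < Real.pi * x * Real.tan (Real.pi * x) := by nlinarith
    have h2 := mul_lt_mul_of_pos_right h1 hth0
    linarith [mul_assoc (Real.pi * x) (Real.tan (Real.pi * x)) (Real.tanh η)]
  · have h1 : (Real.pi * x - Real.pi / 6) * Real.tan (Real.pi * x) ≤ 1 := by
      have a1 : 0 ≤ Real.pi * x - Real.pi / 6 := by nlinarith
      have a2 : Real.pi * x - Real.pi / 6 ≤ 1 / 2 := by nlinarith
      nlinarith
    have h2 := mul_le_mul_of_nonneg_right h1 hth0.le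
    nlinarith

end Pool.Agent.S3.Ho

namespace Pool.Agent.S3.E.Zr

open Complex
open Pool.Agent.H25.RK (gdv)

variable {ι : Type*} [Finite ι] {a : ι → ℝ} {nl nr : ι → Option ι} {z : ι → ℂ}

/-- the share in the variables of the vertex -/
theorem rl_share (h : Zr a nl nr 1 z) (i j : ι) (x : ℝ) :
    T2.rl (bw (z i) (z j)) (gdv (UU (xx (z i).re (z i).im) (th (z i).re (z i).im)))
        (qq (UU (xx (z i).re (z i).im) (th (z i).re (z i).im))
          (UU (xx (z j).re (z j).im) (-(th (z j).re (z j).im)))) (th (z i).re (z i).im) x =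
      bw (z i) (z j) * S2l (th (z i).re (z i).im) x -
        (bw (z i) (z j) * (Real.pi / 2 - (z i).re) - (qe (z i) (z j)).im) *
          Tl (th (z i).re (z i).im) x := by
  rw [T2.rl, Cl.pi_gdv_re h i, qe]

/-- **Share bound, inner vertex.** The rate of the share of an edge is smaller than
`3 S - π/2 T` on `[29/100, 13/40]` at an inner vertex with at least three half twists. -/
theorem share_lt (h : Zr a nl nr 1 z) {i j k : ι} (ha : 3 ≤ a i)
    (hij : (nl i = some j ∧ nr i = some k) ∨ (nl i = some k ∧ nr i = some j))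
    (ht : Real.tan (th (z i).re (z i).im) ^ 2 ≤ 1 / 4) {x : ℝ}
    (hx : x ∈ Set.Icc (29 / 100 : ℝ) (13 / 40)) :
    T2.rl (bw (z i) (z j)) (gdv (UU (xx (z i).re (z i).im) (th (z i).re (z i).im)))
        (qq (UU (xx (z i).re (z i).im) (th (z i).re (z i).im))
          (UU (xx (z j).re (z j).im) (-(th (z j).re (z j).im)))) (th (z i).re (z i).im) x <
      3 * S2l (th (z i).re (z i).im) x - Real.pi / 2 * Tl (th (z i).re (z i).im) x := by
  obtain ⟨p1, p2, p3⟩ := h.pos i
  have t0 : 0 < Real.tan (th (z i).re (z i).im) :=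
    Real.tan_pos_of_pos_of_lt_pi_div_two (th_pos p1 p2 p3) (th_lt p1 p2 p3)
  obtain ⟨T0, D0, D1⟩ := Ho.share_num t0 ht hx
  have hj : nl i = some j ∨ nr i = some j := by
    rcases hij with ⟨h1, h2⟩ | ⟨h1, h2⟩
    · exact Or.inl h1
    · exact Or.inr h2
  have hk : nl i = some k ∨ nr i = some k := by
    rcases hij with ⟨h1, h2⟩ | ⟨h1, h2⟩
    · exact Or.inr h2
    · exact Or.inl h1
  have hb : bw (z i) (z j) + bw (z i) (z k) = a i := by
    have h1 := h.sum_bwo i
    rcases hij with ⟨h2, h3⟩ | ⟨h2, h3⟩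
    · rw [h2, h3] at h1
      exact h1
    · rw [h2, h3] at h1
      rw [add_comm]
      exact h1
  have hR : a i * (z i).re = Real.pi - (qe (z i) (z j)).im - (qe (z i) (z k)).im := by
    have h1 := h.vertex_re i
    rcases hij with ⟨h2, h3⟩ | ⟨h2, h3⟩
    · rw [h2, h3] at h1
      exact h1
    · rw [h2, h3] at h1
      have h4 : a i * (z i).re = Real.pi - (qe (z i) (z k)).im - (qe (z i) (z j)).im := h1
      linarith
  have key := Ho.share_alg ha hb (h.bw_pos hj) (h.bw_pos hk) hR p1 (h.qe_pos hj).2.2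
    (h.qe_pos hk).2.1 T0 D0.le D1
  rw [h.rl_share]
  exact key

/-- The share bound at an end of the chain. -/
theorem share_end (h : Zr a nl nr 1 z) {i j : ι} (ha : 3 ≤ a i)
    (hb : bw (z i) (z j) = a i) (hR : a i * (z i).re = Real.pi - (qe (z i) (z j)).im)
    (ht : Real.tan (th (z i).re (z i).im) ^ 2 ≤ 1 / 4) {x : ℝ}
    (hx : x ∈ Set.Icc (29 / 100 : ℝ) (13 / 40)) :
    T2.rl (bw (z i) (z j)) (gdv (UU (xx (z i).re (z i).im) (th (z i).re (z i).im)))
        (qq (UU (xx (z i).re (z i).im) (th (z i).re (z i).im))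
          (UU (xx (z j).re (z j).im) (-(th (z j).re (z j).im)))) (th (z i).re (z i).im) x ≤
      3 * S2l (th (z i).re (z i).im) x - Real.pi / 2 * Tl (th (z i).re (z i).im) x ∧
    (3 < a i → T2.rl (bw (z i) (z j)) (gdv (UU (xx (z i).re (z i).im) (th (z i).re (z i).im)))
        (qq (UU (xx (z i).re (z i).im) (th (z i).re (z i).im))
          (UU (xx (z j).re (z j).im) (-(th (z j).re (z j).im)))) (th (z i).re (z i).im) x <
      3 * S2l (th (z i).re (z i).im) x - Real.pi / 2 * Tl (th (z i).re (z i).im) x) := by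
  obtain ⟨p1, p2, p3⟩ := h.pos i
  have t0 : 0 < Real.tan (th (z i).re (z i).im) :=
    Real.tan_pos_of_pos_of_lt_pi_div_two (th_pos p1 p2 p3) (th_lt p1 p2 p3)
  obtain ⟨T0, D0, D1⟩ := Ho.share_num t0 ht hx
  rw [h.rl_share, hb]
  have e : (qe (z i) (z j)).im = Real.pi - a i * (z i).re := by linarith
  rw [e, S2l]
  constructor
  · have := mul_nonneg (sub_nonneg.2 ha) (sub_nonneg.2 D0.le)
    linarith
  · intro h3
    have := mul_pos (sub_pos.2 h3) (sub_pos.2 D0)
    linarith

/-- the slots of a vertex -/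
theorem slots (h : Zr a nl nr 1 z) {i j : ι} (hij : nl i = some j ∨ nr i = some j) :
    (∃ k, (nl i = some j ∧ nr i = some k) ∨ (nl i = some k ∧ nr i = some j)) ∨
    (bw (z i) (z j) = a i ∧ a i * (z i).re = Real.pi - (qe (z i) (z j)).im) := by
  have h1 := h.sum_bwo i
  have h2 := h.vertex_re i
  rcases hij with e | e
  · rcases hr : nr i with _ | k
    · right
      rw [e, hr] at h1 h2
      have h3 : bw (z i) (z j) + (0 : ℝ) = a i := h1
      have h4 : a i * (z i).re = Real.pi - (qe (z i) (z j)).im - (0 : ℂ).im := h2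
      rw [Complex.zero_im] at h4
      exact ⟨by linarith, by linarith⟩
    · exact Or.inl ⟨k, Or.inl ⟨e, rfl⟩⟩
  · rcases hl : nl i with _ | k
    · right
      rw [e, hl] at h1 h2
      have h3 : (0 : ℝ) + bw (z i) (z j) = a i := h1
      have h4 : a i * (z i).re = Real.pi - (0 : ℂ).im - (qe (z i) (z j)).im := h2
      rw [Complex.zero_im] at h4
      exact ⟨by linarith, by linarith⟩
    · exact Or.inl ⟨k, Or.inr ⟨rfl, e⟩⟩

/-- **Share bound, every vertex with at least three half twists.** -/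
theorem share_le (h : Zr a nl nr 1 z) {i j : ι} (ha : 3 ≤ a i)
    (hij : nl i = some j ∨ nr i = some j)
    (ht : Real.tan (th (z i).re (z i).im) ^ 2 ≤ 1 / 4) {x : ℝ}
    (hx : x ∈ Set.Icc (29 / 100 : ℝ) (13 / 40)) :
    T2.rl (bw (z i) (z j)) (gdv (UU (xx (z i).re (z i).im) (th (z i).re (z i).im)))
        (qq (UU (xx (z i).re (z i).im) (th (z i).re (z i).im))
          (UU (xx (z j).re (z j).im) (-(th (z j).re (z j).im)))) (th (z i).re (z i).im) x ≤
      3 * S2l (th (z i).re (z i).im) x - Real.pi / 2 * Tl (th (z i).re (z i).im) x := by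
  rcases h.slots hij with ⟨k, hk⟩ | ⟨hb, hR⟩
  · exact (h.share_lt ha hk ht hx).le
  · exact (h.share_end ha hb hR ht hx).1

/-- **Share bound**, strict with more than three half twists. -/
theorem share_lt' (h : Zr a nl nr 1 z) {i j : ι} (ha : 3 < a i)
    (hij : nl i = some j ∨ nr i = some j)
    (ht : Real.tan (th (z i).re (z i).im) ^ 2 ≤ 1 / 4) {x : ℝ}
    (hx : x ∈ Set.Icc (29 / 100 : ℝ) (13 / 40)) :
    T2.rl (bw (z i) (z j)) (gdv (UU (xx (z i).re (z i).im) (th (z i).re (z i).im)))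
        (qq (UU (xx (z i).re (z i).im) (th (z i).re (z i).im))
          (UU (xx (z j).re (z j).im) (-(th (z j).re (z j).im)))) (th (z i).re (z i).im) x <
      3 * S2l (th (z i).re (z i).im) x - Real.pi / 2 * Tl (th (z i).re (z i).im) x := by
  rcases h.slots hij with ⟨k, hk⟩ | ⟨hb, hR⟩
  · exact h.share_lt ha.le hk ht hx
  · exact (h.share_end ha.le hb hR ht hx).2 ha

end Pool.Agent.S3.E.Zr
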