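import Pool.Agent.S3.Cl.J8U
import Pool.Agent.S3.Ho.End3R
import Pool.Agent.S3.Ho.Fin23
import Pool.Agent.S3.Ho.Share
import Pool.Agent.S3.T.Dat23

/-!
# The hole: the chain
-/

set_option autoImplicit false

namespace Pool.Agent.S3.T2

open Real Set Ho
open Pool.Agent.H25.RK Pool.Agent.S3.E
open Pool.Agent.S3.T (cast3)

variable {m : ℕ} {a : Fin (m + 1) → ℕ} {z : Fin (m + 1) → ℂ} {Φ : ℂ → ℂ → ℂ}

/-- The share of the rate, and the strictness. -/
theorem share_of (h : Zr (fun i => (a i : ℝ)) chL chR 1 z) {i j : Fin (m + 1)} (hi : 3 ≤ a i)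
    (hij : chL i = some j ∨ chR i = some j) (cj : ¬ clo a j) (ej : a j = 2)
    (ht : tan (th (z i).re (z i).im) ^ 2 ≤ 1 / 4) :
    (∀ x ∈ Icc (29 / 100) (13 / 40), rl (bw (z i) (z j))
        (gdv (UU (xx (z i).re (z i).im) (th (z i).re (z i).im)))
        (qq (UU (xx (z i).re (z i).im) (th (z i).re (z i).im))
          (UU (xx (z j).re (z j).im) (-(th (z j).re (z j).im)))) (th (z i).re (z i).im) x ≤
        r3 (th (z i).re (z i).im) x) ∧
    ((∀ x ∈ Icc (29 / 100) (13 / 40), rl (bw (z i) (z j))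
        (gdv (UU (xx (z i).re (z i).im) (th (z i).re (z i).im)))
        (qq (UU (xx (z i).re (z i).im) (th (z i).re (z i).im))
          (UU (xx (z j).re (z j).im) (-(th (z j).re (z j).im)))) (th (z i).re (z i).im) x <
        r3 (th (z i).re (z i).im) x) ∨
      (gdv (UU (xx (z i).re (z i).im) (th (z i).re (z i).im))).re < 29 / 100) := by
  refine ⟨fun x hx => h.share_le (cast3 hi) hij ht hx, ?_⟩
  rcases hi.eq_or_lt with e3 | e3
  · rcases h.slots hij with ⟨k, hk⟩ | ⟨hb, hR⟩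
    · exact Or.inl fun x hx => h.share_lt (cast3 hi) hk ht hx
    · right
      have c3 : (fun i => (a i : ℝ)) i = 3 := by
        show ((a i : ℕ) : ℝ) = 3
        rw [← e3]; norm_num
      have k := h.end3_re_lt three_or c3 hb hR hij (cast2 ej) (Cl.inner_of cj ej) ht
      have k2 := Cl.pi_gdv_re h i
      have hpi := pi_pos
      rw [← k2] at k
      nlinarith
  · have c4 : (3 : ℝ) < (fun i => (a i : ℝ)) i := by
      show (3 : ℝ) < (a i : ℝ)
      exact_mod_cast e3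
    exact Or.inl fun x hx => h.share_lt' c4 hij ht hx

/-- The rate on the vertical. -/
theorem mu3_of (h : Zr (fun i => (a i : ℝ)) chL chR 1 z) {i j : Fin (m + 1)} (hi : 3 ≤ a i)
    (hij : chL i = some j ∨ chR i = some j) (cj : ¬ clo a j) (ej : a j = 2) :
    mu (bw (z i) (z j)) (a i) (13 / 40) ≤ 0 ∨ (mu (bw (z i) (z j)) (a i) (13 / 40) ≤ π / 20 ∧
      7 / 100 ≤ tan (th (z i).re (z i).im) ^ 2) := by
  have hb := h.bw_pos hij
  rcases hi.eq_or_lt with e3 | e3
  · right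
    have c3 : (fun i => (a i : ℝ)) i = 3 := by
      show ((a i : ℕ) : ℝ) = 3
      rw [← e3]; norm_num
    refine ⟨?_, Cl.Zr.t3_ge_nb2 h three_or c3 hij (cast2 ej) (Cl.inner_of cj ej)⟩
    have hb2 : bw (z i) (z j) ≤ (a i : ℝ) := h.bw_le hij
    rw [← e3] at hb2 ⊢
    rw [mu_three]
    push_cast at hb2
    have := mul_le_mul_of_nonneg_left hb2 pi_pos.le
    linarith
  · exact Or.inl (mu_four (by omega) hb.le)

/-- **The hole of an edge of the chain**, the vertex with two half twists first. -/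
theorem hole_t2 (h : Zr (fun i => (a i : ℝ)) chL chR 1 z) (ha : ∀ i, 2 ≤ a i)
    (hΦ : IsPhi Φ) (h0 : Φ 0 0 = c00) {n p : Fin (m + 1)}
    (hnp : chL n = some p ∨ chR n = some p) (cn : ¬ clo a n) (cp : ¬ clo a p) (en : a n = 2)
    (ep : 3 ≤ a p) (ht : 1 / 4 ≤ tan (th (z n).re (z n).im) ^ 2) {μ : ℝ}
    (hE : EndAll Φ (th (z n).re (z n).im) (th (z p).re (z p).im) (xx (z n).re (z n).im)
      (xx (z p).re (z p).im) (bw (z n) (z p)) (bw (z p) (z n)) (2 / 5) (13 / 40) μ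
      (mu (bw (z p) (z n)) (a p) (13 / 40))) {v w : ℂ}
    (hv : v ∈ G0 (th (z n).re (z n).im) (2 / 5)) (hv0 : 0 ≤ v.re)
    (hw : w ∈ G0 (th (z p).re (z p).im) (13 / 40)) (hw0 : 0 ≤ w.re)
    (hV : v.re < V23 (cmp (13 / 40) w).re) :
    FlatP Φ (th (z n).re (z n).im) (th (z p).re (z p).im) (xx (z n).re (z n).im)
      (xx (z p).re (z p).im) (bw (z n) (z p)) (bw (z p) (z n)) (2 / 5) (13 / 40) μ
      (mu (bw (z p) (z n)) (a p) (13 / 40)) v w := by
  have hpn := h.N.symm n p hnp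
  have D := d23_of h ha hΦ h0 hnp cn cp en ep
  obtain ⟨s1, s2⟩ := share_of h ep hpn cn en D.t2
  exact hole23 D ht s1 s2 (mu3_of h ep hpn cn en) hE hv hv0 hw hw0 hV

end Pool.Agent.S3.T2
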