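import Pool.Agent.S3.Ho.Oth

/-!
# From the certificates to the rates at the critical points
-/

set_option autoImplicit false

namespace Pool.Agent.S3.Ho

open Real T2 NI

/-- The tests used in the certificates. -/
def tst1 (P : Par) (A B C K : N) : Bool := (N.sub one B.sq).ps && test1 P A B C K
def tst2 (P : Par) (A B C K : N) : Bool := (N.sub one B.sq).ps && test2 P A B C K

/-- The conclusion for nonnegative heights. -/
def Good1 (P : Par) (p b z k : ℝ) : Prop := ∀ u W α : ℝ, b = tanh u → 0 < p → 0 ≤ u → 0 ≤ z →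
  z ≤ 1 → 0 ≤ k → k ≤ b → S2r p b * 1073741824 ≤ P.k1 →
  (P.c1 : ℝ) * (S2r p b * 1073741824) ≤ (k * 1073741824 + P.c0) ^ 2 →
  (k * 1073741824) ^ 2 ≤ (P.c2 : ℝ) * (S2r p b * 1073741824) →
  0 ≤ W → W ≤ Wu (P.g / 1073741824) z k → Wl (P.cm / 1073741824) z k ≤ W ^ 2 →
  0 < dd p b z k → ee p b z k * dd p b z k * W ^ 2 = (Nyr z k ^ 2 * ((1 + p ^ 2) * (1 - b ^ 2))) ^ 2 →
  Ang α (Rn p b z k) (In p b z k) →
  3 * u + (3 * arctan (1 / p) - π / 2) * (p * b) ≤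
    1 / 4 * log (ee p b z k / dd p b z k) + p * b * α / 2

/-- The conclusion for negative heights. -/
def Good2 (P : Par) (p b z k : ℝ) : Prop := ∀ u W α : ℝ, b = tanh u → 0 < p → 0 ≤ u → 0 ≤ z →
  z ≤ 1 → 0 ≤ k → k ≤ 1 → S2r p b * 1073741824 ≤ P.k1 → k * 1073741824 ≤ P.c0 →
  (P.c1 : ℝ) * (S2r p b * 1073741824) ≤ (P.c0 - k * 1073741824) ^ 2 →
  0 ≤ W → W ≤ Wu (P.g / 1073741824) z k → Wn (P.cm / 1073741824) z k ≤ W ^ 2 →
  0 < dd p b z (-k) →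
  ee p b z (-k) * dd p b z (-k) * W ^ 2 = (Nyr z k ^ 2 * ((1 + p ^ 2) * (1 - b ^ 2))) ^ 2 →
  Ang α (Rn p b z (-k)) (In p b z (-k)) →
  3 * u + (3 * arctan (1 / p) - π / 2) * (p * b) ≤
    1 / 4 * log (ee p b z (-k) / dd p b z (-k)) + p * b * α / 2

theorem good1_of {P : Par} {l : List ℕ} {A B C K : N} (h : bb (tst1 P) l A B C K = true) :
    ∀ p b z k : ℝ, Mem p A → Mem b B → Mem z C → Mem k K → Good1 P p b z k := by
  refine bb_sound (P := Good1 P) ?_ l A B C K h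
  intro A B C D hT p b z k hA hB hC hK u W α hb hp hu hz0 hz1 hk0 hkb hS hH1 hH2 hW0 hWu hWl hD hc hα
  unfold tst1 at hT
  rw [Bool.and_eq_true] at hT
  subst hb
  exact test1_sound hT.2 hp hu hz0 hz1 hk0 hkb hA hB hC hK hS hH1 hH2 hW0 hWu hWl hD hc hα hT.1

theorem good2_of {P : Par} {l : List ℕ} {A B C K : N} (h : bb (tst2 P) l A B C K = true) :
    ∀ p b z k : ℝ, Mem p A → Mem b B → Mem z C → Mem k K → Good2 P p b z k := by
  refine bb_sound (P := Good2 P) ?_ l A B C K h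
  intro A B C D hT p b z k hA hB hC hK u W α hb hp hu hz0 hz1 hk0 hk1 hS hH0 hH1 hW0 hWu hWl hD hc hα
  unfold tst2 at hT
  rw [Bool.and_eq_true] at hT
  subst hb
  exact test2_sound hT.2 hp hu hz0 hz1 hk0 hk1 hA hB hC hK hS hH0 hH1 hW0 hWu hWl hD hc hα hT.1

/-- The bound of the share rates. -/
noncomputable def r3 (θ a : ℝ) : ℝ := 3 * S2l θ a - π / 2 * Tl θ a

section

variable {a θ t h : ℝ} {W : ℂ}

theorem arctan_inv_tan (a0 : 0 < a) (a1 : a < 1 / 2) : arctan (1 / tan (π * a)) = π / 2 - π * a := by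
  have hpi := pi_pos
  have h3 : tan (π / 2 - π * a) = 1 / tan (π * a) := by
    rw [tan_pi_div_two_sub, one_div]
  rw [← h3, arctan_tan (by nlinarith) (by nlinarith)]

theorem r3_eq (a0 : 0 < a) (a1 : a < 1 / 2) : 3 * (π * bl θ a) +
    (3 * arctan (1 / tan (π * a)) - π / 2) * (tan (π * a) * tanh (π * bl θ a)) = r3 θ a := by
  rw [arctan_inv_tan a0 a1, r3, S2l, Tl]
  ring

theorem S2r_eq (a0 : 0 < a) (a1 : a < 1 / 2) :
    S2r (tan (π * a)) (tanh (π * bl θ a)) = tan θ ^ 2 := by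
  have hc : 0 < cos (π * a) := cos_pos_of (by linarith) a1
  have h1 := one_sub_tanh (π * bl θ a)
  have h2 := sinh_eq (π * bl θ a)
  rw [sinh_pi_bl] at h2
  have h3 : cos (π * a) ^ 2 * (1 + tan (π * a) ^ 2) = 1 := by
    rw [tan_eq_sin_div_cos]
    field_simp
    linarith [sin_sq_add_cos_sq (π * a)]
  have h4 : 1 - tanh (π * bl θ a) ^ 2 ≠ 0 := by
    intro h
    rw [h, mul_zero] at h1
    norm_num at h1
  unfold S2r
  rw [mul_inv_eq_iff_eq_mul₀ h4]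
  have h5 : (tan θ * cos (π * a)) ^ 2 * (1 - tanh (π * bl θ a) ^ 2) = tanh (π * bl θ a) ^ 2 := by
    rw [h2, mul_pow]
    linear_combination (tanh (π * bl θ a) ^ 2) * h1
  linear_combination (-(1 + tan (π * a) ^ 2)) * h5 +
    tan θ ^ 2 * (1 - tanh (π * bl θ a) ^ 2) * h3

theorem vl_eq (θ a : ℝ) : vl θ a = (a : ℂ) + ((bl θ a : ℝ) : ℂ) * Complex.I := rfl

theorem crd_bas (a0 : 0 < a) (a1 : a < 1 / 2) (β : ℝ) (t0 : 0 ≤ t) (t1 : t ≤ 1 / 2) (h : ℝ) :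
    Bas a β t h (tan (π * a)) (tanh (π * β)) (tan (π * t / 2)) (tanh (π * h)) :=
  Crd.bas ⟨a0, a1, t0, t1, rfl, rfl, rfl, rfl⟩

theorem tanh_lt_of {x y : ℝ} (h : x < y) : tanh x < tanh y := by
  rcases (tanh_mono h.le).lt_or_eq with h1 | h1
  · exact h1
  · have := congrArg artanh h1
    rw [artanh_tanh, artanh_tanh] at this
    exact absurd this h.ne

/-- **The rate at the critical points, nonnegative heights.** -/
theorem crit_pos {P : Par} {A B C K : N}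
    (hG : ∀ p b z k : ℝ, Mem p A → Mem b B → Mem z C → Mem k K → Good1 P p b z k)
    (a0 : 0 < a) (a1 : a < 1 / 2) (t0 : 0 ≤ t) (t1 : t < 1 / 2) (h0 : 0 ≤ h) (hβ : h < bl θ a)
    (o : Oth W (P.g / 1073741824) (P.cm / 1073741824))
    (mA : Mem (tan (π * a)) A) (mB : Mem (tanh (π * bl θ a)) B) (mC : Mem (tan (π * t / 2)) C)
    (mK : Mem (tanh (π * h)) K)
    (hS : tan θ ^ 2 * 1073741824 ≤ P.k1)
    (hH1 : (P.c1 : ℝ) * (tan θ ^ 2 * 1073741824) ≤ (tanh (π * h) * 1073741824 + P.c0) ^ 2)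
    (hH2 : (tanh (π * h) * 1073741824) ^ 2 ≤ (P.c2 : ℝ) * (tan θ ^ 2 * 1073741824))
    (hg : gPd ((t : ℂ) + h * Complex.I) (vl θ a) W =
      ‖Complex.cos (π * ((t : ℂ) + h * Complex.I))‖ ^ 4) :
    r3 θ a ≤ Ml ((t : ℂ) + h * Complex.I) (vl θ a) (Tl θ a) := by
  have hpi := pi_pos
  have c := crd_bas a0 a1 (bl θ a) t0 t1.le h
  rw [vl_eq] at hg ⊢
  have f1 : fdom (((t : ℂ) + h * Complex.I) + ((a : ℂ) + ((bl θ a : ℝ) : ℂ) * Complex.I)) := by
    right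
    rw [Complex.add_re, line_re, line_re]
    constructor <;> linarith
  have f2 : fdom (((t : ℂ) + h * Complex.I) - ((a : ℂ) + ((bl θ a : ℝ) : ℂ) * Complex.I)) := by
    left
    rw [Complex.sub_im, line_im, line_im]
    linarith
  obtain ⟨d1, d2, d3⟩ := Ml_eq c f1 f2 (Tl θ a)
  have hang := c.ang a0 a1 t0 t1 hβ
  have hkb : tanh (π * h) ≤ tanh (π * bl θ a) := tanh_mono (mul_le_mul_of_nonneg_left hβ.le hpi.le)
  have hk0 : 0 ≤ tanh (π * h) := tanh_nonneg_of (by positivity)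
  have k := hG _ _ _ _ mA mB mC mK (π * bl θ a)
    (Md (tan (π * t / 2)) (tanh (π * h)) * ‖cc W - cc ((t : ℂ) + h * Complex.I)‖) _ rfl c.p0
    (mul_nonneg hpi.le (h0.trans hβ.le)) c.z0 c.z1 hk0 hkb
    (by rw [S2r_eq a0 a1]; exact hS) (by rw [S2r_eq a0 a1]; exact hH1)
    (by rw [S2r_eq a0 a1]; exact hH2) (mul_nonneg c.Mpos.le (norm_nonneg _))
    (oth_Wu o c) (oth_Wl o c hk0) d1 (crit_eq c hg) hang
  rw [r3_eq a0 a1] at k
  rw [d3]
  exact k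

/-- **The rate at the critical points, negative heights.** -/
theorem crit_neg {P : Par} {A B C K : N}
    (hG : ∀ p b z k : ℝ, Mem p A → Mem b B → Mem z C → Mem k K → Good2 P p b z k)
    (a0 : 0 < a) (a1 : a < 1 / 2) (t0 : 0 ≤ t) (t1 : t < 1 / 2) (h0 : h ≤ 0) (hβ : 0 < bl θ a)
    (o : Oth W (P.g / 1073741824) (P.cm / 1073741824))
    (mA : Mem (tan (π * a)) A) (mB : Mem (tanh (π * bl θ a)) B) (mC : Mem (tan (π * t / 2)) C)
    (mK : Mem (-tanh (π * h)) K)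
    (hS : tan θ ^ 2 * 1073741824 ≤ P.k1)
    (hH0 : -tanh (π * h) * 1073741824 ≤ P.c0)
    (hH1 : (P.c1 : ℝ) * (tan θ ^ 2 * 1073741824) ≤ (P.c0 - -tanh (π * h) * 1073741824) ^ 2)
    (hg : gPd ((t : ℂ) + h * Complex.I) (vl θ a) W =
      ‖Complex.cos (π * ((t : ℂ) + h * Complex.I))‖ ^ 4) :
    r3 θ a ≤ Ml ((t : ℂ) + h * Complex.I) (vl θ a) (Tl θ a) := by
  have hpi := pi_pos
  have c := crd_bas a0 a1 (bl θ a) t0 t1.le h
  rw [vl_eq] at hg ⊢
  have f1 : fdom (((t : ℂ) + h * Complex.I) + ((a : ℂ) + ((bl θ a : ℝ) : ℂ) * Complex.I)) := by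
    right
    rw [Complex.add_re, line_re, line_re]
    constructor <;> linarith
  have f2 : fdom (((t : ℂ) + h * Complex.I) - ((a : ℂ) + ((bl θ a : ℝ) : ℂ) * Complex.I)) := by
    left
    rw [Complex.sub_im, line_im, line_im]
    linarith
  obtain ⟨d1, d2, d3⟩ := Ml_eq c f1 f2 (Tl θ a)
  have hang := c.ang a0 a1 t0 t1 (h0.trans_lt hβ)
  have hce := crit_eq c hg
  obtain ⟨κ, hκ⟩ : ∃ κ, κ = -tanh (π * h) := ⟨_, rfl⟩
  have eκ : tanh (π * h) = -κ := by rw [hκ]; ring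
  rw [← hκ] at mK hH0 hH1
  rw [eκ] at c d1 d2 d3 hang hce
  have hk0 : 0 ≤ κ := by
    rw [hκ]
    have h1 := tanh_nonneg_of (x := -(π * h)) (by nlinarith)
    rwa [tanh_neg] at h1
  have hk1 : κ ≤ 1 := by
    have := c.k2
    nlinarith
  have eM : Md (tan (π * t / 2)) (-κ) = Md (tan (π * t / 2)) κ := by unfold Md; ring
  have eN : Nyr (tan (π * t / 2)) (-κ) = Nyr (tan (π * t / 2)) κ := by unfold Nyr; ring
  have eW : Wu (P.g / 1073741824) (tan (π * t / 2)) (-κ) =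
      Wu (P.g / 1073741824) (tan (π * t / 2)) κ := by unfold Wu; rw [eM]; ring
  rw [eM, eN] at hce
  have hWu := oth_Wu o c
  rw [eM, eW] at hWu
  have hM := c.Mpos
  rw [eM] at hM
  have k := hG _ _ _ _ mA mB mC mK (π * bl θ a)
    (Md (tan (π * t / 2)) κ * ‖cc W - cc ((t : ℂ) + h * Complex.I)‖) _ rfl c.p0
    (mul_nonneg hpi.le hβ.le) c.z0 c.z1 hk0 hk1
    (by rw [S2r_eq a0 a1]; exact hS) hH0 (by rw [S2r_eq a0 a1]; exact hH1)
    (mul_nonneg hM.le (norm_nonneg _))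
    hWu (oth_Wn o c) d1 hce hang
  rw [r3_eq a0 a1] at k
  rw [d3]
  exact k

end

end Pool.Agent.S3.Ho
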