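import Pool.Agent.S3.W2.LeftV
import Pool.Agent.S3.W2.FlatSw

/-!
# The left verticals in the hole
-/

set_option autoImplicit false

namespace Pool.Agent.S3

open Complex Set

/-- The left vertical, heights of one sign. -/
theorem left_dir' {v w : ℂ} (hv0 : 1 / 4 ≤ v.re) (hv1 : v.re ≤ 2 / 5) (hvi : 0 ≤ v.im)
    (hw0 : 0 ≤ w.re) (hwv : w.re ≤ v.re) (hwi : 0 ≤ w.im)
    (hs : Real.cos (Real.pi * w.re) ^ 2 ≤ 1 / 2 → Real.sinh (Real.pi * w.im) ^ 2 ≤ 1 / 2)
    {H Y : ℝ} (h0 : 0 ≤ Y) (h1 : Y ≤ H) :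
    EE (.op v) (.op ((starRingEnd ℂ) w)) ((Y : ℂ) * I) ≤
      max (Real.pi * (v.im + w.im))
        (EE (.op v) (.op ((starRingEnd ℂ) w)) (((0 : ℝ) : ℂ) + (H : ℂ) * I)) := by
  have eE : ∀ (Y : ℝ), EE (.op v) (.op ((starRingEnd ℂ) w)) (((0 : ℝ) : ℂ) + Y * I) =
      gE v.re v.im w.re w.im Y := by
    intro Y
    have ew : (starRingEnd ℂ) w = (w.re : ℂ) + ((-w.im : ℝ) : ℂ) * I := by
      conv_lhs => rw [← re_add_im w]
      exact conj_line _ _
    rw [gE, re_add_im, ew]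
  have e0 : ((Y : ℝ) : ℂ) * I = ((0 : ℝ) : ℂ) + (Y : ℂ) * I := by
    rw [ofReal_zero, zero_add]
  rw [e0, eE, eE, ← EE_zero (a := v.re) (a' := w.re) hvi hwi]
  rcases hw0.lt_or_eq with hp | hp
  · exact gE_le (by linarith) (by linarith) hp (by linarith) hvi hwi h0 h1
      (left_pat hv0 hv1 hw0 hwv hvi hwi hs)
  · -- `w.re = 0`: limit
    rw [← hp]
    have cE : ∀ y : ℝ, Continuous fun t : ℝ => gE v.re v.im t w.im y := by
      intro y
      have c1 : Continuous fun t : ℝ => (((0 : ℝ) : ℂ) + (y : ℂ) * I,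
          ((t : ℝ) : ℂ) + ((-w.im : ℝ) : ℂ) * I) := by fun_prop
      have r := Rf_continuous
      unfold gE EE se
      fun_prop
    have hev : ∀ᶠ t in nhdsWithin (0 : ℝ) (Ioi 0), gE v.re v.im t w.im Y ≤
        max (gE v.re v.im t w.im 0) (gE v.re v.im t w.im H) := by
      filter_upwards [Ioo_mem_nhdsGT (show (0 : ℝ) < 1 / 4 by norm_num)] with t ht
      refine gE_le (by linarith) (by linarith) ht.1 (by linarith [ht.2]) hvi hwi h0 h1
        (left_pat hv0 hv1 ht.1.le (by linarith [ht.2]) hvi hwi (fun h => ?_))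
      exfalso
      have hpi := Real.pi_pos
      have h3 : Real.cos (Real.pi / 4) < Real.cos (Real.pi * t) :=
        Real.cos_lt_cos_of_nonneg_of_le_pi_div_two (by nlinarith [ht.1]) (by nlinarith)
          (by nlinarith [ht.2])
      have h4 := pow_lt_pow_left₀ h3 (Real.cos_nonneg_of_mem_Icc ⟨by linarith, by linarith⟩)
        two_ne_zero
      rw [Real.cos_pi_div_four, div_pow, Real.sq_sqrt (by norm_num)] at h4
      norm_num at h4
      linarith
    have l1 : Filter.Tendsto (fun t => gE v.re v.im t w.im Y) (nhdsWithin (0 : ℝ) (Ioi 0))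
        (nhds (gE v.re v.im 0 w.im Y)) := ((cE Y).tendsto 0).mono_left nhdsWithin_le_nhds
    have l2 : Filter.Tendsto (fun t => max (gE v.re v.im t w.im 0) (gE v.re v.im t w.im H))
        (nhdsWithin (0 : ℝ) (Ioi 0)) (nhds (max (gE v.re v.im 0 w.im 0) (gE v.re v.im 0 w.im H))) :=
      (((cE 0).max (cE H)).tendsto 0).mono_left nhdsWithin_le_nhds
    exact le_of_tendsto_of_tendsto l1 l2 hev

/-- **The left vertical in the hole, positive heights.** -/
theorem left_hole_pos {v w : ℂ} (hv0 : 1 / 4 ≤ v.re) (hv1 : v.re ≤ 2 / 5) (hvi : 0 ≤ v.im)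
    (hw0 : 0 ≤ w.re) (hw1 : w.re ≤ 1 / 4) (hwi : 0 ≤ w.im)
    (hs : Real.sinh (Real.pi * w.im) ^ 2 ≤ Real.cos (Real.pi * w.re) ^ 2)
    {H Y : ℝ} (h0 : 0 ≤ Y) (h1 : Y ≤ H) :
    EE (.op v) (.op ((starRingEnd ℂ) w)) ((Y : ℂ) * I) ≤
      max (Real.pi * (v.im + w.im))
        (EE (.op v) (.op ((starRingEnd ℂ) w)) (((0 : ℝ) : ℂ) + (H : ℂ) * I)) :=
  left_dir' hv0 hv1 hvi hw0 (hw1.trans hv0) hwi (fun h => hs.trans h) h0 h1

theorem pp_nonneg {a b : ℝ} (ha : 0 ≤ a) (ha1 : a ≤ 1 / 2) (hb : 0 ≤ b) : 0 ≤ pp a b := by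
  have hpi := Real.pi_pos
  have s1 : 0 ≤ Real.sin (Real.pi * a) :=
    Real.sin_nonneg_of_nonneg_of_le_pi (by positivity) (by nlinarith)
  have s2 : 0 ≤ Real.cos (Real.pi * a) :=
    Real.cos_nonneg_of_neg_pi_div_two_le_of_le (by nlinarith) (by nlinarith)
  have s3 : 0 ≤ Real.sinh (Real.pi * b) := Real.sinh_nonneg_iff.2 (by positivity)
  have s4 := Real.cosh_pos (Real.pi * b)
  unfold pp
  positivity

/-- **The left vertical in the hole, negative heights.** -/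
theorem left_hole_neg {v w : ℂ} (hv0 : 0 < v.re) (hv1 : v.re < 1 / 2) (hvi : 0 ≤ v.im)
    (hw0 : 0 ≤ w.re) (hw1 : w.re < 1 / 2) (hwi : 0 ≤ w.im)
    (hp : pp v.re v.im ≤ pp w.re w.im) {H Y : ℝ} (h0 : Y ≤ 0) (h1 : H ≤ Y) :
    EE (.op v) (.op ((starRingEnd ℂ) w)) ((Y : ℂ) * I) ≤
      max (Real.pi * (v.im + w.im))
        (EE (.op v) (.op ((starRingEnd ℂ) w)) (((0 : ℝ) : ℂ) + (H : ℂ) * I)) := by
  have eE : ∀ (Y : ℝ), EE (.op w) (.op ((starRingEnd ℂ) v)) (((0 : ℝ) : ℂ) + Y * I) =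
      gE w.re w.im v.re v.im Y := by
    intro Y
    have ew : (starRingEnd ℂ) v = (v.re : ℂ) + ((-v.im : ℝ) : ℂ) * I := by
      conv_lhs => rw [← re_add_im v]
      exact conj_line _ _
    rw [gE, re_add_im, ew]
  have e1 : ((Y : ℝ) : ℂ) * I = (starRingEnd ℂ) (((0 : ℝ) : ℂ) + ((-Y : ℝ) : ℂ) * I) := by
    rw [T2.conj_hor, neg_neg, ofReal_zero, zero_add]
  have e2 : ((0 : ℝ) : ℂ) + (H : ℂ) * I =
      (starRingEnd ℂ) (((0 : ℝ) : ℂ) + ((-H : ℝ) : ℂ) * I) := by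
    rw [T2.conj_hor, neg_neg]
  rw [e1, e2, T2.EE_sw, T2.EE_sw, eE, eE, add_comm v.im,
    ← EE_zero (a := w.re) (a' := v.re) hwi hvi]
  rcases hw0.lt_or_eq with h | h
  · exact gE_le h hw1 hv0 hv1 hwi hvi (by linarith) (by linarith) (Or.inl hp)
  · -- `w.re = 0`: limit
    have hz : pp w.re w.im = 0 := by
      rw [← h]
      unfold pp
      rw [mul_zero, Real.sin_zero, zero_mul, zero_mul]
    rw [← h]
    have cE : ∀ y : ℝ, Continuous fun t : ℝ => gE t w.im v.re v.im y := by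
      intro y
      have c1 : Continuous fun t : ℝ => (((0 : ℝ) : ℂ) + (y : ℂ) * I,
          ((t : ℝ) : ℂ) + ((w.im : ℝ) : ℂ) * I) := by fun_prop
      have r := Rf_continuous
      unfold gE EE se
      fun_prop
    have hev : ∀ᶠ t in nhdsWithin (0 : ℝ) (Ioi 0), gE t w.im v.re v.im (-Y) ≤
        max (gE t w.im v.re v.im 0) (gE t w.im v.re v.im (-H)) := by
      filter_upwards [Ioo_mem_nhdsGT (show (0 : ℝ) < 1 / 4 by norm_num)] with t ht
      refine gE_le ht.1 (by linarith [ht.2]) hv0 hv1 hwi hvi (by linarith) (by linarith)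
        (Or.inl ?_)
      have := pp_nonneg ht.1.le (by linarith [ht.2]) hwi
      linarith
    have l1 : Filter.Tendsto (fun t => gE t w.im v.re v.im (-Y)) (nhdsWithin (0 : ℝ) (Ioi 0))
        (nhds (gE 0 w.im v.re v.im (-Y))) := ((cE (-Y)).tendsto 0).mono_left nhdsWithin_le_nhds
    have l2 : Filter.Tendsto (fun t => max (gE t w.im v.re v.im 0) (gE t w.im v.re v.im (-H)))
        (nhdsWithin (0 : ℝ) (Ioi 0))
        (nhds (max (gE 0 w.im v.re v.im 0) (gE 0 w.im v.re v.im (-H)))) :=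
      (((cE 0).max (cE (-H))).tendsto 0).mono_left nhdsWithin_le_nhds
    exact le_of_tendsto_of_tendsto l1 l2 hev

/-! ### The condition `pp v ≤ pp w` -/

theorem pp_vert_mono {a b b' : ℝ} (ha : 0 ≤ a) (ha1 : a ≤ 1 / 2) (hb : 0 ≤ b) (h : b ≤ b') :
    pp a b ≤ pp a b' := by
  have hpi := Real.pi_pos
  have s1 : 0 ≤ Real.sin (Real.pi * a) :=
    Real.sin_nonneg_of_nonneg_of_le_pi (by positivity) (by nlinarith)
  have s2 : 0 ≤ Real.cos (Real.pi * a) :=
    Real.cos_nonneg_of_neg_pi_div_two_le_of_le (by nlinarith) (by nlinarith)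
  have s3 : 0 ≤ Real.sinh (Real.pi * b) := Real.sinh_nonneg_iff.2 (by positivity)
  have s4 := Real.cosh_pos (Real.pi * b)
  unfold pp
  apply mul_le_mul_of_nonneg_left _ (mul_nonneg s1 s2)
  apply mul_le_mul (Real.sinh_le_sinh.2 (by nlinarith)) _ s4.le (s3.trans
    (Real.sinh_le_sinh.2 (by nlinarith)))
  rw [Real.cosh_le_cosh, abs_of_nonneg (by positivity), abs_of_nonneg (by nlinarith)]
  nlinarith

theorem pp_line_sq (θ a : ℝ) : pp a (bl θ a) ^ 2 =
    Real.tan θ ^ 2 * (Real.cos (Real.pi * a) ^ 2) ^ 2 * (1 - Real.cos (Real.pi * a) ^ 2) *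
      (1 + Real.tan θ ^ 2 * Real.cos (Real.pi * a) ^ 2) := by
  have h1 := Real.sin_sq_add_cos_sq (Real.pi * a)
  have h2 := Real.cosh_sq (Real.pi * bl θ a)
  have h3 := sinh_pi_bl θ a
  have e1 : Real.sin (Real.pi * a) ^ 2 = 1 - Real.cos (Real.pi * a) ^ 2 := by linarith
  calc pp a (bl θ a) ^ 2 = Real.sin (Real.pi * a) ^ 2 * Real.cos (Real.pi * a) ^ 2 *
        (Real.sinh (Real.pi * bl θ a) ^ 2 * Real.cosh (Real.pi * bl θ a) ^ 2) := by
        unfold pp; ring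
    _ = _ := by rw [h2, h3, e1]; ring

theorem pp_line_anti {θ a a' : ℝ} (h0 : 0 ≤ θ) (h1 : θ < Real.pi / 2) (ha : 1 / 4 ≤ a)
    (h : a ≤ a') (h' : a' < 1 / 2) : pp a' (bl θ a') ≤ pp a (bl θ a) := by
  have hpi := Real.pi_pos
  rcases h0.lt_or_eq with h0 | h0
  swap
  · have e : ∀ x, bl θ x = 0 := by
      intro x
      have := sinh_pi_bl θ x
      rw [← h0, Real.tan_zero, zero_mul, Real.sinh_eq_zero] at this
      rw [← h0]
      exact (mul_eq_zero.1 this).resolve_left hpi.ne'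
    rw [e, e]
    unfold pp
    rw [mul_zero, Real.sinh_zero, zero_mul, mul_zero, mul_zero]
  have b0 : 0 < bl θ a := bl_pos_of h0 h1 (by rw [abs_of_nonneg (by linarith)]; linarith)
  have b1 : 0 < bl θ a' := bl_pos_of h0 h1 (by rw [abs_of_nonneg (by linarith)]; linarith)
  have p0 := pp_nonneg (a := a) (by linarith) (by linarith) b0.le
  have p1 := pp_nonneg (a := a') (by linarith) (by linarith) b1.le
  refine (pow_le_pow_iff_left₀ p1 p0 two_ne_zero).1 ?_
  rw [pp_line_sq, pp_line_sq]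
  have c0 : 0 < Real.cos (Real.pi * a) := cos_pos_of (by linarith) (by linarith)
  have c1 : 0 < Real.cos (Real.pi * a') := cos_pos_of (by linarith) (by linarith)
  have cc' : Real.cos (Real.pi * a') ≤ Real.cos (Real.pi * a) :=
    Real.cos_le_cos_of_nonneg_of_le_pi (by positivity) (by nlinarith)
      (mul_le_mul_of_nonneg_left h hpi.le)
  have c2 : Real.cos (Real.pi * a) ^ 2 ≤ 1 / 2 := by
    have h1 : Real.cos (Real.pi * a) ≤ Real.cos (Real.pi / 4) :=
      Real.cos_le_cos_of_nonneg_of_le_pi (by positivity) (by nlinarith) (by nlinarith)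
    have h2 := pow_le_pow_left₀ c0.le h1 2
    rw [Real.cos_pi_div_four, div_pow, Real.sq_sqrt (by norm_num)] at h2
    norm_num at h2
    linarith
  have c3 := pow_le_pow_left₀ c1.le cc' 2
  obtain ⟨C, hC⟩ : ∃ C, C = Real.cos (Real.pi * a) ^ 2 := ⟨_, rfl⟩
  obtain ⟨D, hD⟩ : ∃ D, D = Real.cos (Real.pi * a') ^ 2 := ⟨_, rfl⟩
  obtain ⟨T, hT⟩ : ∃ T, T = Real.tan θ ^ 2 := ⟨_, rfl⟩
  have D0 : 0 < D := by rw [hD]; positivity
  have T0 : 0 ≤ T := by rw [hT]; positivity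
  rw [← hC] at c2 c3
  rw [← hD] at c3
  rw [← hC, ← hD, ← hT]
  have k1 : D ^ 2 * (1 - D) ≤ C ^ 2 * (1 - C) := by
    have k2 : 0 ≤ (C - D) * (C + D - C ^ 2 - C * D - D ^ 2) := by
      apply mul_nonneg (by linarith)
      nlinarith
    nlinarith
  have k3 : 1 + T * D ≤ 1 + T * C := by
    have := mul_le_mul_of_nonneg_left c3 T0
    linarith
  have k4 : 0 ≤ D ^ 2 * (1 - D) := mul_nonneg (sq_nonneg _) (by linarith)
  calc T * D ^ 2 * (1 - D) * (1 + T * D) = T * ((D ^ 2 * (1 - D)) * (1 + T * D)) := by ring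
    _ ≤ T * ((C ^ 2 * (1 - C)) * (1 + T * C)) := by
        apply mul_le_mul_of_nonneg_left _ T0
        exact mul_le_mul k1 k3 (by positivity) (k4.trans k1)
    _ = _ := by ring

end Pool.Agent.S3

namespace Pool.Agent.S3.T2

open Complex Set
open Pool.Agent.H25.RK (gdv)

variable {θ θ' : ℝ} {v w : ℂ}

theorem cc_im' (w : ℂ) : (cc w).im = -(2 * pp w.re w.im) := by
  have := cc_im w.re w.im
  rw [re_add_im] at this
  rw [this]
  unfold pp
  ring

theorem cc_norm' (w : ℂ) : ‖cc w‖ = Real.cos (Real.pi * w.re) ^ 2 +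
    Real.sinh (Real.pi * w.im) ^ 2 := by
  have := cc_norm w.re w.im
  rwa [re_add_im] at this

/-- **At the base**: a height which is not positive. -/
theorem pp_base (hp : Pr θ θ' v w) (hvl : v.im = bl θ v.re) (hv0 : 29 / 100 ≤ v.re)
    (t : Real.tan θ ^ 2 ≤ 1 / 4) (hwl : w.im = bl θ' w.re) (hw1 : w.re ≤ 1 / 4)
    (t' : 1 / 4 ≤ Real.tan θ' ^ 2) (hy : (yv v w).im ≤ 0) : pp v.re v.im ≤ pp w.re w.im := by
  have hpi := Real.pi_pos
  obtain ⟨y0, y1⟩ := hp.yv_re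
  have e := hp.yv_eq
  have w0 := hp.hw.re0
  have v1 := hp.hv.re1
  have e' : 1 / cc (yv v w) = 1 / cc v + 1 / cc ((starRingEnd ℂ) w) := e
  have ei := congrArg Complex.im e'
  rw [add_im, one_div, one_div, one_div, inv_im, inv_im, inv_im, cc_im', cc_im', cc_im',
    conj_re, conj_im] at ei
  have hneg : ∀ a b : ℝ, pp a (-b) = -pp a b := by
    intro a b
    unfold pp
    rw [mul_neg, Real.sinh_neg, Real.cosh_neg]
    ring
  rw [hneg] at ei
  -- signs
  have py : pp (yv v w).re (yv v w).im ≤ 0 := by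
    have := pp_nonneg y0.le y1.le (b := -(yv v w).im) (by linarith)
    rw [hneg] at this
    linarith
  have nv : normSq (cc v) = ‖cc v‖ ^ 2 := normSq_eq_norm_sq _
  have nw : normSq (cc ((starRingEnd ℂ) w)) = ‖cc w‖ ^ 2 := by
    rw [normSq_eq_norm_sq, cc_norm', cc_norm', conj_re, conj_im, mul_neg, Real.sinh_neg, neg_sq]
  rw [nv, nw] at ei
  have cv : Real.cos (Real.pi * v.re) ^ 2 ≤ 376 / 1000 := by
    have h1 : Real.cos (Real.pi * v.re) ≤ Real.cos (Real.pi * (29 / 100)) :=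
      Real.cos_le_cos_of_nonneg_of_le_pi (by positivity) (by nlinarith) (by nlinarith)
    have h2 : 0 < Real.cos (Real.pi * v.re) := cos_pos_of (by linarith) (by linarith)
    have h3 := pow_le_pow_left₀ h2.le h1 2
    have h4 : Real.cos (Real.pi * (29 / 100)) ^ 2 ≤ 376 / 1000 := by
      have h5 : Real.cos (Real.pi * (29 / 100)) ^ 2 =
          1 / 2 - Real.sin (2 * Real.pi / 25) / 2 := by
        rw [Real.cos_sq, show 2 * (Real.pi * (29 / 100)) = 2 * Real.pi / 25 + Real.pi / 2 by ring,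
          Real.cos_add_pi_div_two]
        ring
      have h6 := Real.sin_gt_sub_cube (x := 2 * Real.pi / 25) (by positivity)
      have h7 := Real.pi_gt_d4
      have h8 := Real.pi_lt_d4
      have h9 : (2 * Real.pi / 25) ^ 3 ≤ (2514 / 10000) ^ 3 :=
        pow_le_pow_left₀ (by positivity) (by linarith) 3
      norm_num at h9
      rw [h5]
      linarith
    linarith
  have cw : 1 / 2 ≤ Real.cos (Real.pi * w.re) ^ 2 := by
    have h1 : Real.cos (Real.pi / 4) ≤ Real.cos (Real.pi * w.re) :=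
      Real.cos_le_cos_of_nonneg_of_le_pi (by positivity) (by nlinarith) (by nlinarith)
    have h2 : 0 ≤ Real.cos (Real.pi / 4) := by
      rw [Real.cos_pi_div_four]; positivity
    have h3 := pow_le_pow_left₀ h2 h1 2
    rw [Real.cos_pi_div_four, div_pow, Real.sq_sqrt (by norm_num)] at h3
    norm_num at h3
    linarith
  have N1 : ‖cc v‖ ≤ 47 / 100 := by
    rw [cc_norm', hvl, sinh_pi_bl]
    nlinarith
  have N2 : 5 / 8 ≤ ‖cc w‖ := by
    rw [cc_norm', hwl, sinh_pi_bl]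
    nlinarith
  have N0 : 0 < ‖cc v‖ := by
    have h2 : 0 < Real.cos (Real.pi * v.re) := cos_pos_of (by linarith) (by linarith)
    rw [cc_norm']
    positivity
  have pv : 0 ≤ pp v.re v.im := pp_nonneg (by linarith) (by linarith) hp.hv.im0
  have k1 : 0 ≤ pp w.re w.im / ‖cc w‖ ^ 2 - pp v.re v.im / ‖cc v‖ ^ 2 := by
    have k2 : (2 * pp (yv v w).re (yv v w).im) / normSq (cc (yv v w)) ≤ 0 :=
      div_nonpos_of_nonpos_of_nonneg (by linarith) (normSq_nonneg _)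
    have k3 : 2 * (pp w.re w.im / ‖cc w‖ ^ 2 - pp v.re v.im / ‖cc v‖ ^ 2) =
        -((2 * pp (yv v w).re (yv v w).im) / normSq (cc (yv v w))) := by
      rw [neg_neg] at ei
      linear_combination ei
    linarith
  have k4 : pp v.re v.im / ‖cc v‖ ^ 2 ≤ pp w.re w.im / ‖cc w‖ ^ 2 := by linarith
  rw [div_le_div_iff₀ (by positivity) (by positivity)] at k4
  have k5 : ‖cc v‖ ^ 2 ≤ ‖cc w‖ ^ 2 := pow_le_pow_left₀ N0.le (by linarith) 2
  have pw : 0 ≤ pp w.re w.im := pp_nonneg w0 (by linarith) hp.hw.im0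
  have k6 : pp v.re v.im * ‖cc v‖ ^ 2 ≤ pp w.re w.im * ‖cc v‖ ^ 2 := by
    have := mul_le_mul_of_nonneg_left k5 pv
    linarith
  exact le_of_mul_le_mul_right k6 (by positivity)

/-- **To the right of the base.** -/
theorem pp_cont {a0 : ℝ} {x : ℂ} (hθ : Ht θ) (ha0 : 1 / 4 ≤ a0) (hx : x ∈ G0 θ (13 / 40))
    (hxa : a0 ≤ x.re) (pw : 0 ≤ pp w.re w.im) (hb : pp a0 (bl θ a0) ≤ pp w.re w.im) :
    pp (cmp (13 / 40) x).re (cmp (13 / 40) x).im ≤ pp w.re w.im := by
  have x0 : 0 ≤ x.re := by linarith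
  have vabs : |x.re| = x.re := abs_of_nonneg x0
  rcases hx with ⟨g1, g2⟩ | ⟨g1, g2, g3⟩ | ⟨g1, g2, g3⟩
  · rw [vabs] at g1
    rw [show cmp (13 / 40) x = x from if_pos g1, g2]
    exact (pp_line_anti hθ.pos.le hθ.lt ha0 hxa (by linarith)).trans hb
  · rw [vabs] at g1
    rw [show cmp (13 / 40) x = x from if_pos g1.le]
    refine ((pp_vert_mono x0 (by linarith) g2 g3).trans ?_).trans hb
    rw [g1] at hxa ⊢
    exact pp_line_anti hθ.pos.le hθ.lt ha0 hxa (by norm_num)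
  · have e : (cmp (13 / 40) x).im = 0 := by
      unfold cmp
      split_ifs with hc
      · exact g3
      · exact ofReal_im _
    rw [e]
    have : ∀ a : ℝ, pp a 0 = 0 := by
      intro a
      unfold pp
      rw [mul_zero, Real.sinh_zero, zero_mul, mul_zero]
    rw [this]
    exact pw

end Pool.Agent.S3.T2
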