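import Pool.Agent.S3.W2.Base23
import Pool.Agent.S3.W2.FlatSw

/-!
# The base of the slides in the hole

The first vertex has at least three half twists, the second one two; both points are on their lines.
-/

set_option autoImplicit false

namespace Pool.Agent.S3.T2

open Complex
open Pool.Agent.H25.RK (gdv)

variable {Φ : ℂ → ℂ → ℂ} {θ θ' xc xc' b b' μ μ' : ℝ} {v w : ℂ}

/-- The bound at the two centres. -/
theorem OO.LM_crit {v1 v1' : ℝ} (H : OO Φ θ θ' xc xc' b b' v1 v1')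
    (hv : |(gdv (UU xc θ)).re| ≤ v1) (hw : |(gdv (UU xc' θ')).re| ≤ v1') :
    LM Φ θ θ' b b' xc xc' v1 v1' μ μ' (gdv (UU xc θ)) (gdv (UU xc' θ')) =
      (Φ (gdv (UU xc θ)) ((starRingEnd ℂ) (gdv (UU xc' θ')))).re := by
  have e1 : pl θ v1 (gdv (UU xc θ)) = gdv (UU xc θ) := pl_of_line hv (line_im_bl H.hθ.abs)
  have e2 : pl θ' v1' (gdv (UU xc' θ')) = gdv (UU xc' θ') := pl_of_line hw (line_im_bl H.hθ'.abs)
  rw [LM, e1, e2, sub_self, sub_self, mul_zero, mul_zero, sub_zero, sub_zero, L0, ell_self,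
    ell_self, add_zero, add_zero]

/-- **The base of the slides in the hole.** -/
theorem hole_base (H : OO Φ θ θ' xc xc' b b' (13 / 40) (2 / 5))
    (j : Ck.J3 (Real.tan θ' ^ 2) (Real.tan θ ^ 2)) (t1 : Real.tan θ' ^ 2 < 1)
    (t2 : Real.tan θ ^ 2 ≤ 1 / 4) (hv0 : 0 ≤ v.re) (hv1 : v.re ≤ 13 / 40)
    (hvl : v.im = bl θ v.re) (hw0 : 0 ≤ w.re) (hw1 : w.re ≤ 2 / 5) (hwl : w.im = bl θ' w.re)
    (hR : R23 w.re v.re) :
    ∃ Φ0 : ℝ, (∀ t ∈ Set.Icc (0 : ℝ) (1 / 2), EE (.op v) (.op ((starRingEnd ℂ) w))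
        ((t : ℂ) + ((yv v w).im : ℂ) * I) ≤ Φ0) ∧
      Φ0 ≤ LM Φ θ θ' b b' xc xc' (13 / 40) (2 / 5) μ μ' v w := by
  have hv : v ∈ G0 θ (13 / 40) := Or.inl ⟨by rwa [abs_of_nonneg hv0], hvl⟩
  have hw : w ∈ G0 θ' (2 / 5) := Or.inl ⟨by rwa [abs_of_nonneg hw0], hwl⟩
  have hp := H.pr hv hv0 hw hw0
  rw [show cmp (13 / 40) v = v from if_pos hv1, show cmp (2 / 5) w = w from if_pos hw1] at hp
  have hp' := hp.symm
  have hF := FM23 hp' j t1 t2 hR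
  have n1 := hp'.nl_23 j t1 t2 (by have := hR.le; linarith)
  have n2 := hp.nl_t hv1 (by linarith)
  have f := hp'.flatOK_M hF
  have e1 : yv v w = (starRingEnd ℂ) (yv w v) := yv_swap hp'
  have e2 : (yv v w).im = -(yv w v).im := by rw [e1, conj_im]
  have e3 : EE (.op w) (.op ((starRingEnd ℂ) v)) (yv w v) = (Φ v ((starRingEnd ℂ) w)).re := by
    rw [← EE_sw v w, ← e1]
    exact hp.bridge H.hΦ H.h0 n2 n1
  refine ⟨(Φ v ((starRingEnd ℂ) w)).re, fun t ht => ?_, ?_⟩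
  · have k := f t ht
    rw [e3, ← EE_sw v w, conj_hor, ← e2] at k
    exact k
  · obtain ⟨c1, c2, c3, c4⟩ := H.crit0
    by_cases hne : v ≠ gdv (UU xc θ) ∨ w ≠ gdv (UU xc' θ')
    · have k := H.Phi_ltBB (μ := μ) (μ' := μ') hv0 hv1 hvl hw0 hw1 hwl hne
      have b1 : 0 ≤ BP b (gdv (UU xc θ)) v := BP_nonneg H.hθ.pos.le H.hθ.lt H.hs.b0.le hv0
        (by linarith) c1 c2 hvl (line_im_bl H.hθ.abs)
      have b2 : 0 ≤ BP b' (gdv (UU xc' θ')) w := BP_nonneg H.hθ'.pos.le H.hθ'.lt H.hs.b0'.le hw0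
        (by linarith) c3 c4 hwl (line_im_bl H.hθ'.abs)
      linarith
    · push Not at hne
      obtain ⟨g1, g2⟩ := hne
      rw [g1, g2, H.LM_crit (by rw [abs_of_nonneg c1]; exact H.hr.le)
        (by rw [abs_of_nonneg c3]; exact H.hr'.le)]

end Pool.Agent.S3.T2
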