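import Pool.Agent.S3.Ho.Test

/-!
# The test of the slide down the vertical

`z = tan (π t / 2)`, `e = tanh (π Y)`, `r = tanh (π h) / tanh (π Y)`; `p = tan (13 π / 40)`.
-/

set_option autoImplicit false

namespace Pool.Agent.S3.Ho

open NI

/-- `tan (13 π / 40)` -/
def vp : N := ⟨1752131909, 1752239283⟩

/-- lower bound of the angle at `y - v`, times `E / e` -/
def vA (E r ke St pc Ct ps : N) : ℕ :=
  bif Nat.ble St.hi pc.lo then 1686629713
  else qLo (N.mul (N.mul (N.add Ct ps) (N.sub one r)) E).lo (N.mul (N.sub St pc) (N.sub one ke)).hi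

def vC (E r St Ct : N) : ℕ := qLo (N.mul (N.mul St r) E).lo Ct.hi

def vBp (E r ke St pc Ct ps : N) : ℕ :=
  qLo (N.mul (N.mul (N.sub Ct ps) (N.add one r)) E).lo (N.mul (N.add St pc) (N.add one ke)).hi

def vBn (E r St pc Ct ps : N) : ℕ := Nat.succ (Nat.div (Nat.mul
  (N.mul ⟨Nat.sub ps.hi Ct.lo, Nat.sub ps.hi Ct.lo⟩ (N.mul (N.add one r) E)).hi 1073741824)
  (N.add St pc).lo)

/-- the final comparison -/
def vfin (e : N) (n1 L R : ℕ) : Bool :=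
  Nat.ble (Nat.add (Nat.succ (Nat.div (Nat.mul 2411 n1) 1000)) R) L ||
  (Nat.ble 1 e.lo && Nat.ble (Nat.add (Nat.succ (Nat.div (Nat.mul 337326732 e.hi) e.lo)) R) L)

def v7 (e hp : N) (n1 a c bp bn : ℕ) : Bool :=
  vfin e n1 (Nat.add (Nat.add (Nat.div (Nat.mul (N.sub one hp).lo a) 1073741824)
    (Nat.mul 4 (Nat.div (Nat.mul hp.lo c) 1073741824)))
    (Nat.div (Nat.mul (N.add one hp).lo bp) 1073741824))
    (bif Nat.ble bn 0 then 0 else Nat.succ (Nat.div (Nat.mul (N.add one hp).hi bn) 1073741824))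

def v6 (e E r hp ke St Ct pc ps : N) : Bool :=
  v7 e hp (etaU E (N.sq E) (N.sq (N.sq E))) (vA E r ke St pc Ct ps) (vC E r St Ct)
    (bif Nat.ble ps.hi Ct.lo then vBp E r ke St pc Ct ps else 0)
    (bif Nat.ble ps.hi Ct.lo then 0 else vBn E r St pc Ct ps)

def v5 (cm : ℕ) (e r e2 k ke k2 St Ct pc ps St2 Ct2 M Sk Y : N) : Bool :=
  bif Nat.ble (Nat.succ (N.sq (N.mul (N.sq (N.add Ct2 Sk)) (N.mul (N.add one (N.sq vp))
      (N.sub one e2)))).hi)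
    (N.mul (N.mul (N.add (N.mul (N.sq (N.add one ke)) (N.sq (N.add St pc)))
      (N.mul (N.sq (N.add k e)) (N.sq (N.ad Ct ps))))
    (N.add (N.mul (N.sq (N.sub one ke)) (N.sq (N.ad St pc)))
      (N.mul (N.sq (N.mul e (N.sub one r))) (N.sq (N.add Ct ps)))))
    ⟨Nat.add (Nat.div (Nat.mul (Nat.sub (Nat.div (Nat.mul M.lo cm) 1073741824) (Nat.sub Ct2.hi Sk.lo))
      (Nat.sub (Nat.div (Nat.mul M.lo cm) 1073741824) (Nat.sub Ct2.hi Sk.lo))) 1073741824)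
      (N.sq Y).lo, 0⟩).lo
  then true
  else (N.sub one k2).ps && (N.sub one e2).ps && (N.add St pc).ps && 
    v6 e ⟨e.hi, e.hi⟩ r (N.mul (N.mul r (N.sub one e2)) (N.inv (N.sub one k2))) ke St Ct pc ps

def v4 (cm : ℕ) (e r e2 k ke k2 St Ct n2 pc ps St2 Ct2 : N) : Bool :=
  v5 cm e r e2 k ke k2 St Ct pc ps St2 Ct2 (N.mul n2 (N.sub one k2)) (N.mul St2 k2)
    (N.sm 2 (N.mul (N.mul Ct St) k))

def v3 (cm : ℕ) (e r e2 k St Ct n2 k2 ke : N) : Bool :=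
  v4 cm e r e2 k ke k2 St Ct n2 (N.mul Ct vp) (N.mul St vp) (N.sq St) (N.sq Ct)

def v2 (cm : ℕ) (z e r z2 e2 k : N) : Bool :=
  v3 cm e r e2 k (N.sm 2 z) (N.sub one z2) (N.sq (N.add one z2)) (N.sq k) (N.mul k e)

def vtest (cm : ℕ) (z e r _d : N) : Bool := v2 cm z e r (N.sq z) (N.sq e) (N.mul r e)

end Pool.Agent.S3.Ho
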