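import Pool.Agent.S3.Ho.Sound
import Pool.Agent.S3.Ho.VTest

/-!
# Soundness of the test of the slide down the vertical
-/

set_option autoImplicit false

namespace Pool.Agent.S3.Ho

open Real NI T2

theorem th_deriv' (x : ℝ) : HasDerivAt tanh (1 / cosh x ^ 2) x := by
  have hc := cosh_pos x
  have h := (hasDerivAt_sinh x).div (hasDerivAt_cosh x) hc.ne'
  have e : (fun x => sinh x / cosh x) = tanh := by
    funext x
    rw [tanh_eq_sinh_div_cosh]
  have h2 : HasDerivAt tanh ((cosh x * cosh x - sinh x * sinh x) / cosh x ^ 2) x := by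
    rw [← e]
    exact h
  refine h2.congr_deriv ?_
  have := cosh_sq x
  congr 1
  nlinarith

theorem th_mul' {c y : ℝ} (c0 : 0 ≤ c) (c1 : c ≤ 1) (hy : 0 ≤ y) :
    c * tanh y ≤ tanh (c * y) := by
  have hd : ∀ x : ℝ, HasDerivAt (fun x => tanh (c * x) - c * tanh x)
      (1 / cosh (c * x) ^ 2 * c - c * (1 / cosh x ^ 2)) x := by
    intro x
    have e1 : HasDerivAt (fun x : ℝ => c * x) c x := by
      simpa using (hasDerivAt_id x).const_mul c
    exact ((th_deriv' (c * x)).comp x e1).sub ((th_deriv' x).const_mul c)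
  have h := le_of_der (f := fun x => tanh (c * x) - c * tanh x) (a := 0) (x := y)
    (fun x _ => hd x) (fun x hx => ?_) hy
  · simp only [mul_zero, tanh_zero, sub_zero] at h
    linarith
  · have h1 : cosh (c * x) ≤ cosh x := by
      rw [cosh_le_cosh, abs_of_nonneg (by positivity), abs_of_nonneg hx]
      nlinarith
    have h2 : 1 / cosh x ^ 2 ≤ 1 / cosh (c * x) ^ 2 :=
      one_div_le_one_div_of_le (by have := cosh_pos (c * x); positivity)
        (pow_le_pow_left₀ (cosh_pos _).le h1 2)
    nlinarith

theorem artanh_scale {e E : ℝ} (e0 : 0 ≤ e) (h : e ≤ E) (E1 : E < 1) (E0 : 0 < E) :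
    artanh e ≤ e / E * artanh E := by
  have c0 : 0 ≤ e / E := by positivity
  have c1 : e / E ≤ 1 := by rw [div_le_one E0]; exact h
  have u0 : 0 ≤ artanh E := by
    have := artanh_le_artanh (x := 0) (y := E) (by norm_num) E1 E0.le
    rwa [artanh_zero] at this
  have h1 := th_mul' c0 c1 u0
  rw [tanh_artanh ⟨by linarith, E1⟩, div_mul_cancel₀ _ E0.ne'] at h1
  have h2 := artanh_le_artanh (x := e) (y := tanh (e / E * artanh E)) (by linarith)
    (tanh_lt_one _) h1
  rwa [artanh_tanh] at h2

theorem arctan_scale {c y : ℝ} (c0 : 0 ≤ c) (c1 : c ≤ 1) (hy : 0 ≤ y) :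
    c * arctan y ≤ arctan (c * y) := by
  have hd : ∀ x : ℝ, HasDerivAt (fun x => arctan (c * x) - c * arctan x)
      (1 / (1 + (c * x) ^ 2) * c - c * (1 / (1 + x ^ 2))) x := by
    intro x
    have e1 : HasDerivAt (fun x : ℝ => c * x) c x := by
      simpa using (hasDerivAt_id x).const_mul c
    exact (e1.arctan).sub ((hasDerivAt_arctan x).const_mul c)
  have h := le_of_der (f := fun x => arctan (c * x) - c * arctan x) (a := 0) (x := y)
    (fun x _ => hd x) (fun x hx => ?_) hy
  · simp only [mul_zero, arctan_zero, sub_zero] at h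
    linarith
  · have h1 : (c * x) ^ 2 ≤ x ^ 2 := by
      apply pow_le_pow_left₀ (by positivity)
      nlinarith
    have h2 : 1 / (1 + x ^ 2) ≤ 1 / (1 + (c * x) ^ 2) :=
      one_div_le_one_div_of_le (by positivity) (by linarith)
    nlinarith

theorem qLo_le_half (a b : ℕ) : (qLo a b : ℝ) ≤ π / 2 * 1073741824 := by
  refine (atanLo_le _).trans ?_
  exact mul_le_mul_of_nonneg_right (arctan_lt_pi_div_two _).le (by norm_num)

section

variable {z e r E : ℝ} {A B C Eh KE St Pc Ct Ps : N}

/-- The angle at `y - v`. -/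
theorem vA_le {x ps pc : ℝ} (e0 : 0 < e) (r1 : r < 1) (hE : e ≤ E) (hr0 : 0 ≤ r)
    (hke : r * e * e < 1) (mSt : Mem x St) (mCt : Mem z Ct) (mPc : Mem pc Pc) (mPs : Mem ps Ps)
    (mr : Mem r C) (mE : Mem E Eh) (mke : Mem (r * e * e) KE) (hpos : 0 < z + ps) :
    e / E * (vA Eh C KE St Pc Ct Ps : ℝ) ≤
      (π / 2 + arctan ((pc - x) * (1 - r * e * e) / ((z + ps) * (e - r * e)))) * 1073741824 := by
  have hU : (0 : ℝ) < 1073741824 := by norm_num
  have E0 : 0 < E := e0.trans_le hE
  have c0 : 0 ≤ e / E := by positivity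
  have c1 : e / E ≤ 1 := by rw [div_le_one E0]; exact hE
  have hk : 0 < 1 - r * e * e := by linarith
  have hd : 0 < (z + ps) * (e - r * e) := by
    apply mul_pos hpos
    nlinarith
  have hv0 : (0 : ℝ) ≤ vA Eh C KE St Pc Ct Ps := Nat.cast_nonneg _
  rcases le_total x pc with hx | hx
  · have h1 : 0 ≤ arctan ((pc - x) * (1 - r * e * e) / ((z + ps) * (e - r * e))) := by
      apply arctan_nonneg.2
      apply div_nonneg _ hd.le
      apply mul_nonneg (by linarith) hk.le
    have h2 : (vA Eh C KE St Pc Ct Ps : ℝ) ≤ π / 2 * 1073741824 := by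
      unfold vA
      rcases Nat.ble St.hi Pc.lo with _ | _
      · rw [cond_false]
        exact qLo_le_half _ _
      · rw [cond_true]
        push_cast
        exact pi_lo
    nlinarith
  · rcases hx.lt_or_eq with hx | hx
    · unfold vA
      rcases h3 : Nat.ble St.hi Pc.lo with _ | _
      · rw [cond_false]
        have h4 := qLo_le (x := (z + ps) * (1 - r) * E) (y := (x - pc) * (1 - r * e * e))
          (mul_pos (by linarith) hk)
          (((mCt.add mPs).mul (mem_one.sub mr r1.le)).mul mE).1
          ((mSt.sub mPc hx.le).mul (mem_one.sub mke hke.le)).2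
        have hy0 : 0 < (x - pc) * (1 - r * e * e) := mul_pos (by linarith) hk
        have hx0 : 0 ≤ (z + ps) * (1 - r) * E := by
          apply mul_nonneg (mul_nonneg hpos.le (by linarith)) E0.le
        have h5 := arctan_scale c0 c1 (div_nonneg hx0 hy0.le)
        have h6 : π / 2 + arctan ((pc - x) * (1 - r * e * e) / ((z + ps) * (e - r * e))) =
            arctan (e / E * ((z + ps) * (1 - r) * E / ((x - pc) * (1 - r * e * e)))) := by
          have q : e / E * ((z + ps) * (1 - r) * E / ((x - pc) * (1 - r * e * e))) =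
              (((x - pc) * (1 - r * e * e)) / ((z + ps) * (e - r * e)))⁻¹ := by
            rw [inv_div]
            field_simp
          have q2 : (pc - x) * (1 - r * e * e) / ((z + ps) * (e - r * e)) =
              -(((x - pc) * (1 - r * e * e)) / ((z + ps) * (e - r * e))) := by ring
          rw [q, arctan_inv_of_pos (div_pos hy0 hd), q2, arctan_neg]
          ring
        rw [h6]
        calc e / E * (qLo _ _ : ℝ) ≤ e / E * (arctan ((z + ps) * (1 - r) * E /
              ((x - pc) * (1 - r * e * e))) * 1073741824) := mul_le_mul_of_nonneg_left h4 c0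
          _ = (e / E * arctan ((z + ps) * (1 - r) * E /
              ((x - pc) * (1 - r * e * e)))) * 1073741824 := by ring
          _ ≤ _ := mul_le_mul_of_nonneg_right h5 hU.le
      · exfalso
        have h4 := ble_true h3
        have h5 : (St.hi : ℝ) ≤ Pc.lo := by exact_mod_cast h4
        nlinarith [mSt.2, mPc.1]
    · have h1 : (pc - x) * (1 - r * e * e) / ((z + ps) * (e - r * e)) = 0 := by
        rw [hx, sub_self, zero_mul, zero_div]
      rw [h1, arctan_zero, add_zero]
      have h2 : (vA Eh C KE St Pc Ct Ps : ℝ) ≤ π / 2 * 1073741824 := by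
        unfold vA
        rcases Nat.ble St.hi Pc.lo with _ | _
        · rw [cond_false]
          exact qLo_le_half _ _
        · rw [cond_true]
          push_cast
          exact pi_lo
      have := pi_pos
      nlinarith

/-- The angle at `y`. -/
theorem vC_le {x : ℝ} (e0 : 0 < e) (hE : e ≤ E) (hr0 : 0 ≤ r) (hx0 : 0 ≤ x) (hz : 0 < z)
    (mSt : Mem x St) (mCt : Mem z Ct) (mr : Mem r C) (mE : Mem E Eh) :
    e / E * (vC Eh C St Ct : ℝ) ≤ arctan (x * (r * e) / z) * 1073741824 := by
  have hU : (0 : ℝ) < 1073741824 := by norm_num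
  have E0 : 0 < E := e0.trans_le hE
  have c0 : 0 ≤ e / E := by positivity
  have c1 : e / E ≤ 1 := by rw [div_le_one E0]; exact hE
  have h4 := qLo_le (x := x * r * E) (y := z) hz ((mSt.mul mr).mul mE).1 mCt.2
  have h5 := arctan_scale c0 c1 (show 0 ≤ x * r * E / z by positivity)
  have h6 : e / E * (x * r * E / z) = x * (r * e) / z := by field_simp
  rw [h6] at h5
  unfold vC
  calc e / E * (qLo _ _ : ℝ) ≤ e / E * (arctan (x * r * E / z) * 1073741824) :=
        mul_le_mul_of_nonneg_left h4 c0
    _ = (e / E * arctan (x * r * E / z)) * 1073741824 := by ring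
    _ ≤ _ := mul_le_mul_of_nonneg_right h5 hU.le

/-- The angle at `y + v`. -/
theorem vB_le {x ps pc : ℝ} (e0 : 0 < e) (hE : e ≤ E) (hr0 : 0 ≤ r)
    (mSt : Mem x St) (mCt : Mem z Ct) (mPc : Mem pc Pc) (mPs : Mem ps Ps)
    (mr : Mem r C) (mE : Mem E Eh) (mke : Mem (r * e * e) KE) (hpos : (N.add St Pc).ps = true) :
    e / E * (((bif Nat.ble Ps.hi Ct.lo then vBp Eh C KE St Pc Ct Ps else 0 : ℕ) : ℝ) -
      ((bif Nat.ble Ps.hi Ct.lo then 0 else vBn Eh C St Pc Ct Ps : ℕ) : ℝ)) ≤
      arctan ((z - ps) * (r * e + e) / ((x + pc) * (1 + r * e * e))) * 1073741824 ∧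
    ((bif Nat.ble Ps.hi Ct.lo then vBp Eh C KE St Pc Ct Ps else 0 : ℕ) = 0 ∨
      (bif Nat.ble Ps.hi Ct.lo then 0 else vBn Eh C St Pc Ct Ps : ℕ) = 0) := by
  have hU : (0 : ℝ) < 1073741824 := by norm_num
  have E0 : 0 < E := e0.trans_le hE
  have c0 : 0 ≤ e / E := by positivity
  have c1 : e / E ≤ 1 := by rw [div_le_one E0]; exact hE
  have hxp : 0 < x + pc := (mSt.add mPc).pos hpos
  have hkp : 0 ≤ r * e * e := by positivity
  rcases h3 : Nat.ble Ps.hi Ct.lo with _ | _
  · refine ⟨?_, Or.inl rfl⟩
    rw [cond_false, cond_false, Nat.cast_zero, zero_sub, mul_neg]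
    -- `-arctan ≤`
    have h1 : -arctan ((z - ps) * (r * e + e) / ((x + pc) * (1 + r * e * e))) * 1073741824 ≤
        e / E * (vBn Eh C St Pc Ct Ps : ℝ) := by
      rw [← arctan_neg]
      rcases le_total ps z with h4 | h4
      · have h5 : arctan (-((z - ps) * (r * e + e) / ((x + pc) * (1 + r * e * e)))) ≤ 0 := by
          rw [← arctan_zero]
          apply arctan_strictMono.monotone
          rw [neg_nonpos]
          apply div_nonneg _ (by positivity)
          apply mul_nonneg (by linarith) (by positivity)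
        have h6 : (0 : ℝ) ≤ e / E * (vBn Eh C St Pc Ct Ps : ℝ) := by positivity
        nlinarith
      · obtain ⟨n, hn⟩ : ∃ n, n = ps - z := ⟨_, rfl⟩
        have n0 : 0 ≤ n := by rw [hn]; linarith
        have h5 : arctan (-((z - ps) * (r * e + e) / ((x + pc) * (1 + r * e * e)))) ≤
            n * (1 + r) * e / (x + pc) := by
          have q1 : -((z - ps) * (r * e + e) / ((x + pc) * (1 + r * e * e))) =
              n * (1 + r) * e / ((x + pc) * (1 + r * e * e)) := by rw [hn]; ring
          rw [q1]
          have q2 : n * (1 + r) * e / ((x + pc) * (1 + r * e * e)) ≤ n * (1 + r) * e / (x + pc) := by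
            apply div_le_div_of_nonneg_left (by positivity) hxp
            nlinarith
          have q3 : 0 ≤ n * (1 + r) * e / ((x + pc) * (1 + r * e * e)) := by positivity
          have q4 : arctan (n * (1 + r) * e / ((x + pc) * (1 + r * e * e))) ≤
              n * (1 + r) * e / ((x + pc) * (1 + r * e * e)) := by
            by_contra hc
            push Not at hc
            have q5 := arctan_lt_pi_div_two (n * (1 + r) * e / ((x + pc) * (1 + r * e * e)))
            have q6 := lt_tan (q3.trans_lt hc) q5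
            rw [tan_arctan] at q6
            linarith
          exact q4.trans q2
        -- the natural number
        have mn1 : Mem n ⟨Nat.sub Ct.lo Ps.hi, Nat.sub Ps.hi Ct.lo⟩ := by
          constructor
          · have h7 := ble_false h3
            have : Nat.sub Ct.lo Ps.hi = 0 := Nat.sub_eq_zero_of_le h7.le
            rw [this]
            norm_num
            exact n0
          · apply le_nsub
            rw [hn]
            linarith [mCt.1, mPs.2]
        have h8 := ((mn1).mul ((mem_one.add mr).mul mE)).2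
        have h9 : (N.mul ⟨Nat.sub Ct.lo Ps.hi, Nat.sub Ps.hi Ct.lo⟩ (N.mul (N.add one C) Eh)).hi =
          (N.mul ⟨Nat.sub Ps.hi Ct.lo, Nat.sub Ps.hi Ct.lo⟩ (N.mul (N.add one C) Eh)).hi := rfl
        rw [h9] at h8
        have hd0 : 0 < (N.add St Pc).lo := by
          unfold N.ps at hpos
          exact ble_true hpos
        have h10 := le_succ_div (Nat.mul (N.mul ⟨Nat.sub Ps.hi Ct.lo, Nat.sub Ps.hi Ct.lo⟩
          (N.mul (N.add one C) Eh)).hi 1073741824) hd0
        rw [cast_mul', Nat.cast_ofNat] at h10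
        have hd1 : (0 : ℝ) < (N.add St Pc).lo := by exact_mod_cast hd0
        have h11 := (mSt.add mPc).1
        have h12 : n * (1 + r) * E / (x + pc) * 1073741824 ≤ (vBn Eh C St Pc Ct Ps : ℝ) := by
          refine le_trans ?_ h10
          rw [div_mul_eq_mul_div, div_le_div_iff₀ hxp hd1]
          have q7 : n * (1 + r) * E * 1073741824 * ((N.add St Pc).lo : ℝ) ≤
              n * (1 + r) * E * 1073741824 * ((x + pc) * 1073741824) :=
            mul_le_mul_of_nonneg_left h11 (by positivity)
          have q8 := mul_le_mul_of_nonneg_right h8 (show 0 ≤ (x + pc) * 1073741824 by positivity)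
          calc _ ≤ n * (1 + r) * E * 1073741824 * ((x + pc) * 1073741824) := q7
            _ = n * ((1 + r) * E) * 1073741824 * ((x + pc) * 1073741824) := by ring
            _ ≤ _ := q8
            _ = _ := by ring
        calc _ ≤ n * (1 + r) * e / (x + pc) * 1073741824 :=
              mul_le_mul_of_nonneg_right h5 hU.le
          _ = e / E * (n * (1 + r) * E / (x + pc) * 1073741824) := by field_simp
          _ ≤ _ := mul_le_mul_of_nonneg_left h12 c0
    linarith
  · refine ⟨?_, Or.inr rfl⟩
    rw [cond_true, cond_true, Nat.cast_zero, sub_zero]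
    have h4 : (Ps.hi : ℝ) ≤ Ct.lo := by exact_mod_cast ble_true h3
    have h5 : ps ≤ z := by nlinarith [mPs.2, mCt.1]
    have hy0 : 0 < (x + pc) * (1 + r * e * e) := by positivity
    have h6 := qLo_le (x := (z - ps) * (1 + r) * E) (y := (x + pc) * (1 + r * e * e)) hy0
      (((mCt.sub mPs h5).mul (mem_one.add mr)).mul mE).1
      ((mSt.add mPc).mul (mem_one.add mke)).2
    have hx0 : 0 ≤ (z - ps) * (1 + r) * E := by
      apply mul_nonneg (mul_nonneg (by linarith) (by linarith)) E0.le
    have h7 := arctan_scale c0 c1 (div_nonneg hx0 hy0.le)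
    have h8 : e / E * ((z - ps) * (1 + r) * E / ((x + pc) * (1 + r * e * e))) =
        (z - ps) * (r * e + e) / ((x + pc) * (1 + r * e * e)) := by
      field_simp
      ring
    rw [h8] at h7
    calc e / E * (vBp Eh C KE St Pc Ct Ps : ℝ) ≤ e / E * (arctan ((z - ps) * (1 + r) * E /
          ((x + pc) * (1 + r * e * e))) * 1073741824) := mul_le_mul_of_nonneg_left h6 c0
      _ = (e / E * arctan ((z - ps) * (1 + r) * E /
          ((x + pc) * (1 + r * e * e)))) * 1073741824 := by ring
      _ ≤ _ := mul_le_mul_of_nonneg_right h7 hU.le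

end

end Pool.Agent.S3.Ho
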