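import Pool.Agent.S3.Ho.Good
import Pool.Agent.S3.Ho.Num
import Pool.Agent.S3.Ho.VSnd
import Pool.Agent.S3.W2.SlideH

/-!
# The flats of the hole
-/

set_option autoImplicit false

namespace Pool.Agent.S3.Ho

open Real T2 NI Set
open Pool.Agent.H25.RK (gdv)

/-! ### Elementary facts -/

theorem Tl_contOn (θ : ℝ) {x0 : ℝ} (h0 : 0 ≤ x0) : ContinuousOn (Tl θ) (Icc x0 (13 / 40)) := by
  have h1 : ContinuousOn (fun a : ℝ => tan (π * a)) (Icc x0 (13 / 40)) := by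
    have h2 : ContinuousOn tan {x : ℝ | cos x ≠ 0} := continuousOn_tan
    refine h2.comp (by fun_prop) ?_
    intro a ha
    exact (cos_pos_of (a := a) (by linarith [ha.1]) (by linarith [ha.2])).ne'
  have h3 : Continuous tanh := continuous_iff_continuousAt.2 fun x => (th_deriv' x).continuousAt
  have h4 : Continuous (fun a : ℝ => tanh (π * bl θ a)) :=
    h3.comp (continuous_const.mul (bl_cont θ))
  exact h1.mul h4.continuousOn

theorem S2l_contOn (θ : ℝ) {x0 : ℝ} (h0 : 0 ≤ x0) : ContinuousOn (S2l θ) (Icc x0 (13 / 40)) := by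
  have h1 := Tl_contOn θ h0
  have h2 : Continuous (fun a : ℝ => π * bl θ a) := continuous_const.mul (bl_cont θ)
  have h3 : Continuous (fun a : ℝ => π / 2 - π * a) := by fun_prop
  exact h2.continuousOn.add (h3.continuousOn.mul h1)

/-- a positive gap of the rates -/
theorem gap_exists {b θ x0 : ℝ} {vc Q : ℂ} (h0 : 0 ≤ x0) (h1 : x0 ≤ 13 / 40)
    (hr : ∀ x ∈ Icc x0 (13 / 40), rl b vc Q θ x < r3 θ x) :
    ∃ κ : ℝ, 0 < κ ∧ ∀ x ∈ Icc x0 (13 / 40), rl b vc Q θ x + κ ≤ r3 θ x := by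
  have c1 := Tl_contOn θ h0
  have c2 := S2l_contOn θ h0
  have c3 : ContinuousOn (fun x => r3 θ x - rl b vc Q θ x) (Icc x0 (13 / 40)) := by
    unfold r3 rl
    exact ((c2.const_smul (3 : ℝ)).sub (c1.const_smul (π / 2))).sub
      ((c2.const_smul b).sub (c1.const_smul (b * (π / 2 - π * vc.re) - Q.im)))
  obtain ⟨x, hx, hm⟩ := isCompact_Icc.exists_isMinOn (nonempty_Icc.2 h1) c3
  refine ⟨r3 θ x - rl b vc Q θ x, by linarith [hr x hx], fun y hy => ?_⟩
  have := isMinOn_iff.1 hm y hy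
  linarith

section

variable {θ : ℝ}

theorem beta_facts (hθ0 : 0 < θ) (hθ1 : θ < π / 2) (ht : tan θ ^ 2 ≤ 1 / 4) :
    0 < bl θ (13 / 40) ∧ sinh (π * bl θ (13 / 40)) ^ 2 ≤ 6826 / 100000 ∧
    49 / 100 * tan θ ≤ 97 / 100 * tanh (π * bl θ (13 / 40)) := by
  have hpi := pi_pos
  obtain ⟨q1, q2⟩ := cos_1340
  have T0 : 0 < tan θ := tan_pos_of_pos_of_lt_pi_div_two hθ0 hθ1
  have hβ : 0 < bl θ (13 / 40) := bl_pos_of hθ0 hθ1 (by rw [abs_of_pos (by norm_num)]; norm_num)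
  have es := sinh_pi_bl θ (13 / 40)
  have es2 : sinh (π * bl θ (13 / 40)) ^ 2 = tan θ ^ 2 * cos (π * (13 / 40)) ^ 2 := by
    rw [es, mul_pow]
  refine ⟨hβ, ?_, ?_⟩
  · rw [es2]
    nlinarith [sq_nonneg (tan θ)]
  · have h1 : 0 < tanh (π * bl θ (13 / 40)) := tanh_pos_of (by positivity)
    have h2 : tanh (π * bl θ (13 / 40)) ^ 2 * (1 + sinh (π * bl θ (13 / 40)) ^ 2) =
        sinh (π * bl θ (13 / 40)) ^ 2 := by
      rw [tanh_eq_sinh_div_cosh, div_pow, cosh_sq]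
      have : sinh (π * bl θ (13 / 40)) ^ 2 + 1 ≠ 0 := by positivity
      field_simp
      ring
    have h3 : (49 / 100 * tan θ) ^ 2 ≤ (97 / 100 * tanh (π * bl θ (13 / 40))) ^ 2 := by
      by_contra hc
      push Not at hc
      rw [es2] at h2
      obtain ⟨T2, hT2⟩ : ∃ x, x = tanh (π * bl θ (13 / 40)) ^ 2 := ⟨_, rfl⟩
      obtain ⟨S2, hS2⟩ : ∃ x, x = tan θ ^ 2 := ⟨_, rfl⟩
      obtain ⟨C2, hC2⟩ : ∃ x, x = cos (π * (13 / 40)) ^ 2 := ⟨_, rfl⟩
      rw [mul_pow, mul_pow] at hc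
      rw [← hT2] at hc h2
      rw [← hS2] at hc h2 ht
      rw [← hC2] at h2 q1 q2
      have S20 : 0 < S2 := by rw [hS2]; positivity
      have hT20 : 0 ≤ T2 := by rw [hT2]; positivity
      -- `T2 < (49/97)² S2`, `T2 (1 + S2 C2) = S2 C2`
      have k1 : T2 < 2401 / 9409 * S2 := by norm_num at hc; linarith
      have k2 : 1 + S2 * C2 ≤ 1 + 6826 / 100000 := by nlinarith
      have k3 : S2 * C2 ≤ T2 * (1 + 6826 / 100000) := by
        rw [← h2]; exact mul_le_mul_of_nonneg_left k2 hT20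
      nlinarith
    exact (pow_le_pow_iff_left₀ (by positivity) (by positivity) two_ne_zero).1 h3

theorem beta_low (hθ0 : 0 < θ) (hθ1 : θ < π / 2) (ht : 7 / 100 ≤ tan θ ^ 2) :
    100 / 2410 ≤ bl θ (13 / 40) := by
  have hpi := pi_pos
  have hpi1 := pi_lt_d4
  obtain ⟨q1, q2⟩ := cos_1340
  have hβ : 0 < bl θ (13 / 40) := bl_pos_of hθ0 hθ1 (by rw [abs_of_pos (by norm_num)]; norm_num)
  have es2 : sinh (π * bl θ (13 / 40)) ^ 2 = tan θ ^ 2 * cos (π * (13 / 40)) ^ 2 := by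
    rw [sinh_pi_bl, mul_pow]
  have h1 : 0 < tanh (π * bl θ (13 / 40)) := tanh_pos_of (by positivity)
  have h2 : tanh (π * bl θ (13 / 40)) ^ 2 * (1 + sinh (π * bl θ (13 / 40)) ^ 2) =
      sinh (π * bl θ (13 / 40)) ^ 2 := by
    rw [tanh_eq_sinh_div_cosh, div_pow, cosh_sq]
    have : sinh (π * bl θ (13 / 40)) ^ 2 + 1 ≠ 0 := by positivity
    field_simp
    ring
  have h3 : tanh (π * bl θ (13 / 40)) ≤ π * bl θ (13 / 40) := tanh_le_self (by positivity)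
  by_contra hc
  push Not at hc
  have h4 : π * bl θ (13 / 40) < 1304 / 10000 := by nlinarith
  have h5 : tanh (π * bl θ (13 / 40)) ^ 2 < (1304 / 10000) ^ 2 :=
    pow_lt_pow_left₀ (by linarith) h1.le two_ne_zero
  have h6 : 191 / 10000 ≤ sinh (π * bl θ (13 / 40)) ^ 2 := by
    rw [es2]; nlinarith
  nlinarith

end

end Pool.Agent.S3.Ho
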