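import Pool.Agent.S3.Ho.Line2

/-!
# The vertical for negative heights
-/

set_option autoImplicit false

namespace Pool.Agent.S3.Ho

open Real T2 NI Set

section

variable {h : ℝ} {W : ℂ}

theorem EE_cont_vu (W : ℂ) (h : ℝ) : Continuous (fun p : ℝ × ℝ =>
    EE (.op (vu p.2)) (.op W) ((p.1 : ℂ) + (h : ℂ) * Complex.I)) := by
  obtain ⟨F, hF⟩ : ∃ F : ℂ × ℂ → ℝ, F = fun p => EE (.op p.1) (.op W) p.2 := ⟨_, rfl⟩
  have hFc : Continuous F := by rw [hF]; exact EE_cont2 W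
  obtain ⟨G, hG⟩ : ∃ G : ℝ × ℝ → ℂ × ℂ,
      G = fun p => (vu p.2, ((p.1 : ℝ) : ℂ) + (h : ℂ) * Complex.I) := ⟨_, rfl⟩
  have hGc : Continuous G := by
    rw [hG]
    have c1 : Continuous vu := by unfold vu; fun_prop
    have c2 : Continuous (fun p : ℝ × ℝ => vu p.2) := c1.comp continuous_snd
    have c3 : Continuous (fun p : ℝ × ℝ => ((p.1 : ℝ) : ℂ)) :=
      Complex.continuous_ofReal.comp continuous_fst
    exact c2.prodMk (c3.add continuous_const)
  have := hFc.comp hGc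
  rw [hF, hG] at this
  exact this

theorem vert_neg_aux (hh : h < 0) (hW : W.im < h) {t η β : ℝ} (t0 : 0 ≤ t) (t1 : t < 1 / 2)
    (hη : 0 ≤ η) (hβ : η ≤ β) :
    EE (.op (vu η)) (.op W) ((t : ℂ) + (h : ℂ) * Complex.I) ≤
      EE (.op (vu β)) (.op W) ((t : ℂ) + (h : ℂ) * Complex.I) := by
  have hcont : Continuous (fun x : ℝ => EE (.op (vu x)) (.op W) ((t : ℂ) + (h : ℂ) * Complex.I))  := by
    have h2 : Continuous ((fun p : ℝ × ℝ => EE (.op (vu p.2)) (.op W)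
        ((p.1 : ℂ) + (h : ℂ) * Complex.I)) ∘ fun x : ℝ => ((t, x) : ℝ × ℝ)) :=
      (EE_cont_vu W h).comp (continuous_const.prodMk continuous_id)
    exact h2
  have hd : ∀ x, 0 < x → HasDerivAt
      (fun x : ℝ => EE (.op (vu x)) (.op W) ((t : ℂ) + (h : ℂ) * Complex.I))
      ((he ((t : ℂ) + (h : ℂ) * Complex.I + vu x) -
        he ((t : ℂ) + (h : ℂ) * Complex.I - vu x)).im) x := by
    intro x hx
    have h2 : HasDerivAt (fun a : ℝ => ((a : ℝ) : ℂ)) 1 x := (hasDerivAt_id x).ofReal_comp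
    have h3 : HasDerivAt vu Complex.I x := by
      have := (h2.mul_const Complex.I).const_add ((13 / 40 : ℝ) : ℂ)
      rw [one_mul] at this
      exact this
    have h4 := EE_curve (y := fun _ : ℝ => (t : ℂ) + (h : ℂ) * Complex.I) (y' := 0) (w := W)
      (hasDerivAt_const x _) h3 (Or.inl ?_) (Or.inl ?_) (Or.inr ?_) (Or.inl ?_) (Or.inl ?_)
    · refine h4.congr_deriv ?_
      rw [mul_zero, zero_add, Complex.mul_re, Complex.I_re, Complex.I_im, Complex.sub_im,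
        Complex.sub_im]
      ring
    · have : ((t : ℂ) + (h : ℂ) * Complex.I + 1 / 2).im = h := by
        rw [Complex.add_im, line_im]; norm_num
      rw [this]; exact hh.ne
    · rw [Complex.sub_im, line_im, vu_im]
      exact ne_of_lt (by linarith)
    · rw [Complex.add_re, line_re, vu_re]
      exact ⟨by linarith, by linarith⟩
    · rw [Complex.sub_im, line_im]
      exact ne_of_gt (by linarith)
    · rw [Complex.add_im, line_im]
      exact ne_of_lt (by linarith)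
  have hm : MonotoneOn (fun x : ℝ => EE (.op (vu x)) (.op W) ((t : ℂ) + (h : ℂ) * Complex.I))
      (Ici 0) := by
    refine monotoneOn_of_deriv_nonneg (convex_Ici 0) hcont.continuousOn ?_ ?_
    · intro x hx
      rw [interior_Ici] at hx
      exact (hd x hx).differentiableAt.differentiableWithinAt
    · intro x hx
      rw [interior_Ici] at hx
      rw [(hd x hx).deriv]
      exact vert_neg_rate hx hh t0 t1
  exact hm (mem_Ici.2 hη) (mem_Ici.2 (hη.trans hβ)) hβ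

/-- **Down the vertical at a negative height.** -/
theorem vert_neg (hh : h < 0) (hW : W.im < h) {t η β : ℝ} (ht : t ∈ Icc (0 : ℝ) (1 / 2))
    (hη : 0 ≤ η) (hβ : η ≤ β) :
    EE (.op (vu η)) (.op W) ((t : ℂ) + (h : ℂ) * Complex.I) ≤
      EE (.op (vu β)) (.op W) ((t : ℂ) + (h : ℂ) * Complex.I) := by
  rcases ht.2.lt_or_eq with h1 | h1
  · exact vert_neg_aux hh hW ht.1 h1 hη hβ
  · rw [h1]
    have c1 : ∀ x : ℝ, Continuous (fun t : ℝ =>
        EE (.op (vu x)) (.op W) ((t : ℂ) + (h : ℂ) * Complex.I)) := by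
      intro x
      have h2 : Continuous ((fun p : ℝ × ℝ => EE (.op (vu p.2)) (.op W)
          ((p.1 : ℂ) + (h : ℂ) * Complex.I)) ∘ fun t : ℝ => ((t, x) : ℝ × ℝ)) :=
        (EE_cont_vu W h).comp (continuous_id.prodMk continuous_const)
      exact h2
    have l1 : Filter.Tendsto (fun t : ℝ =>
        EE (.op (vu η)) (.op W) ((t : ℂ) + (h : ℂ) * Complex.I)) (nhdsWithin (1 / 2) (Iio (1 / 2)))
        (nhds (EE (.op (vu η)) (.op W) (((1 / 2 : ℝ) : ℂ) + (h : ℂ) * Complex.I))) :=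
      ((c1 η).tendsto (1 / 2)).mono_left nhdsWithin_le_nhds
    have l2 : Filter.Tendsto (fun t : ℝ =>
        EE (.op (vu β)) (.op W) ((t : ℂ) + (h : ℂ) * Complex.I)) (nhdsWithin (1 / 2) (Iio (1 / 2)))
        (nhds (EE (.op (vu β)) (.op W) (((1 / 2 : ℝ) : ℂ) + (h : ℂ) * Complex.I))) :=
      ((c1 β).tendsto (1 / 2)).mono_left nhdsWithin_le_nhds
    refine le_of_tendsto_of_tendsto l1 l2 ?_
    filter_upwards [Ioo_mem_nhdsLT (show (0 : ℝ) < 1 / 2 by norm_num)] with x hx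
    exact vert_neg_aux hh hW hx.1.le hx.2 hη hβ

theorem EE_cont_h (V W : ℂ) : Continuous (fun p : ℝ × ℝ =>
    EE (.op V) (.op W) ((p.1 : ℂ) + ((p.2 : ℝ) : ℂ) * Complex.I)) := by
  obtain ⟨F, hF⟩ : ∃ F : ℂ × ℂ → ℝ, F = fun p => EE (.op p.1) (.op W) p.2 := ⟨_, rfl⟩
  have hFc : Continuous F := by rw [hF]; exact EE_cont2 W
  obtain ⟨G, hG⟩ : ∃ G : ℝ × ℝ → ℂ × ℂ,
      G = fun p => (V, ((p.1 : ℝ) : ℂ) + ((p.2 : ℝ) : ℂ) * Complex.I) := ⟨_, rfl⟩
  have hGc : Continuous G := by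
    rw [hG]
    have c3 : Continuous (fun p : ℝ × ℝ => ((p.1 : ℝ) : ℂ)) :=
      Complex.continuous_ofReal.comp continuous_fst
    have c4 : Continuous (fun p : ℝ × ℝ => ((p.2 : ℝ) : ℂ)) :=
      Complex.continuous_ofReal.comp continuous_snd
    exact continuous_const.prodMk (c3.add (c4.mul continuous_const))
  have := hFc.comp hGc
  rw [hF, hG] at this
  exact this

theorem small_aux {F : ℝ × ℝ → ℝ} (hFc : Continuous F) {L k : ℝ} (hk : 0 < k)
    (hbase : ∀ t ∈ Icc (0 : ℝ) (1 / 2), F (t, 0) < L) :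
    ∃ h : ℝ, 0 < h ∧ h ≤ k ∧ ∀ t ∈ Icc (0 : ℝ) (1 / 2), F (t, h) < L := by
  have hopen : IsOpen {p : ℝ × ℝ | F p < L} := isOpen_lt hFc continuous_const
  obtain ⟨u, v, hu, hv, su, sv, huv⟩ := generalized_tube_lemma (isCompact_Icc (a := (0 : ℝ)) (b := 1 / 2))
    (isCompact_singleton (x := (0 : ℝ))) hopen (by
      rintro ⟨t, x⟩ ⟨h1, h2⟩
      have h2' : x = 0 := h2
      show F (t, x) < L
      rw [h2']
      exact hbase t h1)
  have hv0 : v ∈ nhds (0 : ℝ) := hv.mem_nhds (sv rfl)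
  obtain ⟨δ, δ0, hδ⟩ := Metric.mem_nhds_iff.1 hv0
  refine ⟨min (δ / 2) k, lt_min (by linarith) hk, min_le_right _ _, fun t ht => ?_⟩
  have h1 : min (δ / 2) k ∈ v := by
    apply hδ
    rw [Metric.mem_ball, dist_zero_right, norm_eq_abs, abs_of_pos (lt_min (by linarith) hk)]
    exact (min_le_left _ _).trans_lt (by linarith)
  exact huv (Set.mk_mem_prod (su ht) h1)

/-- A small positive height at a base of height zero. -/
theorem small_height {V : ℂ} {L k : ℝ} (hk : 0 < k)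
    (hbase : ∀ t ∈ Icc (0 : ℝ) (1 / 2), EE (.op V) (.op W) ((t : ℂ) + ((0 : ℝ) : ℂ) * Complex.I) < L) :
    ∃ h : ℝ, 0 < h ∧ h ≤ k ∧ ∀ t ∈ Icc (0 : ℝ) (1 / 2),
      EE (.op V) (.op W) ((t : ℂ) + (h : ℂ) * Complex.I) < L :=
  small_aux (EE_cont_h V W) hk hbase

end

end Pool.Agent.S3.Ho
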