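import Pool.Agent.S3.Ho.Good

/-!
# The slide along the line
-/

set_option autoImplicit false

namespace Pool.Agent.S3.Ho

open Real T2 NI

section

variable {a θ t h g cm : ℝ} {W : ℂ}

theorem cc_one_line (x y : ℝ) : ‖cc ((x : ℂ) + (y : ℂ) * Complex.I) - 1‖ =
    sin (π * x) ^ 2 + sinh (π * y) ^ 2 := by
  have e : cc ((x : ℂ) + (y : ℂ) * Complex.I) - 1 =
      -Complex.sin (π * ((x : ℂ) + (y : ℂ) * Complex.I)) ^ 2 := by
    unfold cc
    linear_combination Complex.sin_sq_add_cos_sq (π * ((x : ℂ) + (y : ℂ) * Complex.I))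
  rw [e, norm_neg, norm_pow, norm_sin_pi_sq]

/-- On the line. -/
theorem cc_one_vl (θ a : ℝ) : ‖cc (vl θ a) - 1‖ = 1 - (1 - tan θ ^ 2) * cos (π * a) ^ 2 := by
  rw [vl_eq, cc_one_line, sinh_pi_bl]
  have := sin_sq_add_cos_sq (π * a)
  linear_combination this

theorem cc_re_vl (θ a : ℝ) : (cc (vl θ a)).re =
    cos (π * a) ^ 2 * (1 + tan θ ^ 2 * (2 * cos (π * a) ^ 2 - 1)) := by
  rw [vl_eq, cc_re, sinh_pi_bl]
  ring

theorem cc_norm_vl (θ a : ℝ) : ‖cc (vl θ a)‖ = cos (π * a) ^ 2 * (1 + tan θ ^ 2) := by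
  rw [vl_eq, cc_norm, sinh_pi_bl]
  ring

/-- At the right end. -/
theorem end_lt' {x : ℂ} (hx : 0 < (cc x).re) (h : ℝ) :
    ‖cc (((1 / 2 : ℝ) : ℂ) + (h : ℂ) * Complex.I)‖ <
      ‖cc x - cc (((1 / 2 : ℝ) : ℂ) + (h : ℂ) * Complex.I)‖ := by
  obtain ⟨y, hy⟩ : ∃ y, y = ((1 / 2 : ℝ) : ℂ) + (h : ℂ) * Complex.I := ⟨_, rfl⟩
  have yr := cc_re (1 / 2) h
  have yn := cc_norm (1 / 2) h
  rw [← hy] at yr yn ⊢
  have e : cos (π * (1 / 2)) = 0 := by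
    rw [show π * (1 / 2) = π / 2 by ring, cos_pi_div_two]
  rw [e] at yr yn
  have h1 : ‖cc y‖ = -(cc y).re := by rw [yn, yr]; ring
  have h2 : (cc x - cc y).re ≤ ‖cc x - cc y‖ := Complex.re_le_norm _
  rw [Complex.sub_re] at h2
  rw [h1]
  linarith

theorem end_gP' {v w : ℂ} (hv : 0 < (cc v).re) (hw : 0 < (cc w).re) (h : ℝ) :
    ‖Complex.cos (π * (((1 / 2 : ℝ) : ℂ) + (h : ℂ) * Complex.I))‖ ^ 4 <
      gPd (((1 / 2 : ℝ) : ℂ) + (h : ℂ) * Complex.I) v w := by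
  have h1 := end_lt' hv h
  have h2 := end_lt' hw h
  rw [gPd_eq, cos_four]
  exact mul_lt_mul'' h1 h2 (norm_nonneg _) (norm_nonneg _)

/-- Near the left end. -/
theorem low_gP' {v w : ℂ} (hv : ‖cc v - 1‖ ≤ 8 / 10) (hw : ‖cc w - 1‖ ≤ 1) (t0 : 0 ≤ t)
    (t1 : t ≤ 1 / 200) (hh : sinh (π * h) ^ 2 ≤ 7 / 100) :
    gPd ((t : ℂ) + (h : ℂ) * Complex.I) v w <
      ‖Complex.cos (π * ((t : ℂ) + (h : ℂ) * Complex.I))‖ ^ 4 := by
  have hpi := pi_pos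
  have hpi1 := pi_lt_d2
  have st0 : 0 ≤ sin (π * t) := sin_nonneg_of_nonneg_of_le_pi (by positivity) (by nlinarith)
  have st1 : sin (π * t) ≤ 158 / 10000 := by
    have h1 := sin_le (show 0 ≤ π * t by positivity)
    nlinarith
  have e1 := cc_one_line t h
  have e2 := cc_norm t h
  have e3 := sin_sq_add_cos_sq (π * t)
  obtain ⟨y, hy⟩ : ∃ y, y = cc ((t : ℂ) + (h : ℂ) * Complex.I) := ⟨_, rfl⟩
  obtain ⟨τ, hτ⟩ : ∃ τ, τ = sin (π * t) ^ 2 := ⟨_, rfl⟩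
  obtain ⟨σ, hσ⟩ : ∃ σ, σ = sinh (π * h) ^ 2 := ⟨_, rfl⟩
  have τ0 : 0 ≤ τ := by rw [hτ]; positivity
  have τ1 : τ ≤ 1 / 4000 := by
    rw [hτ]
    have := pow_le_pow_left₀ st0 st1 2
    norm_num at this
    linarith
  have σ0 : 0 ≤ σ := by rw [hσ]; positivity
  rw [gPd_eq, cos_four]
  rw [← hy] at e1 e2 ⊢
  rw [← hτ, ← hσ] at e1
  rw [← hσ] at hh e2
  have e4 : ‖y‖ = 1 - τ + σ := by rw [e2, hτ]; linarith
  have k : ∀ x : ℂ, ‖cc x - y‖ ≤ ‖cc x - 1‖ + (τ + σ) := by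
    intro x
    have h1 : ‖cc x - y‖ ≤ ‖cc x - 1‖ + ‖1 - y‖ := by
      have := norm_add_le (cc x - 1) (1 - y)
      rwa [sub_add_sub_cancel] at this
    have h2 : ‖1 - y‖ = τ + σ := by rw [norm_sub_rev, e1]
    rwa [h2] at h1
  have k1 := k v
  have k2 := k w
  have k3 : ‖cc v - y‖ * ‖cc w - y‖ ≤ (8 / 10 + (τ + σ)) * (1 + (τ + σ)) :=
    mul_le_mul (by linarith) (by linarith) (norm_nonneg _) (by linarith)
  rw [e4]
  refine lt_of_le_of_lt k3 ?_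
  nlinarith [mul_nonneg τ0 σ0, mul_nonneg τ0 τ0]

/-- **The slide.** -/
theorem line_slide {a0 Φ0 : ℝ} {l r : ℝ → ℝ} (hθ0 : 0 < θ) (hθ1 : θ < π / 2)
    (ht : tan θ ^ 2 ≤ 1 / 4) (ha0 : 1 / 4 ≤ a0) (ha1 : a0 ≤ 13 / 40) (o : Oth W g cm) (hg1 : g ≤ 1)
    (w0 : 0 ≤ W.re) (w1 : W.re ≤ 2 / 5) (hwh : W.im < h) (h0 : h ≠ 0)
    (hh : sinh (π * h) ^ 2 ≤ 7 / 100) (hb : h < bl θ (13 / 40))
    (hl : ∀ a ∈ Set.Icc a0 (13 / 40), HasDerivAt l (-(2 * r a)) a)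
    (hr : ∀ a ∈ Set.Icc a0 (13 / 40), r a ≤ r3 θ a)
    (hM : ∀ a ∈ Set.Ioc a0 (13 / 40), ∀ t ∈ Set.Ico (1 / 200 : ℝ) (1 / 2),
      gPd ((t : ℂ) + (h : ℂ) * Complex.I) (vl θ a) W =
        ‖Complex.cos (π * ((t : ℂ) + (h : ℂ) * Complex.I))‖ ^ 4 →
      r3 θ a ≤ Ml ((t : ℂ) + (h : ℂ) * Complex.I) (vl θ a) (Tl θ a))
    (hbase : ∀ t ∈ Set.Icc (0 : ℝ) (1 / 2),
      EE (.op (vl θ a0)) (.op W) ((t : ℂ) + (h : ℂ) * Complex.I) ≤ Φ0) (hΦ : Φ0 < l a0) :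
    ∃ δ : ℝ, 0 < δ ∧ ∀ a ∈ Set.Icc a0 (13 / 40), ∀ t ∈ Set.Icc (0 : ℝ) (1 / 2),
      EE (.op (vl θ a)) (.op W) ((t : ℂ) + (h : ℂ) * Complex.I) < l a - δ := by
  have hpi := pi_pos
  obtain ⟨δ, hδ⟩ : ∃ δ, δ = (l a0 - Φ0) / 3 := ⟨_, rfl⟩
  have δ0 : 0 < δ := by rw [hδ]; linarith
  have hc2 : ∀ a, a0 ≤ a → a ≤ 13 / 40 → 27 / 100 ≤ cos (π * a) ^ 2 := by
    intro a h1 h2
    have c1 : 52 / 100 ≤ cos (π * a) := by
      have e : cos (π * a) = sin (π / 2 - π * a) := (sin_pi_div_two_sub _).symm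
      rw [e]
      have p3 := pi_gt_d4
      have p4 := pi_lt_d4
      have x1 : 5497 / 10000 ≤ π / 2 - π * a := by nlinarith
      have x2 : π / 2 - π * a ≤ π / 2 := by nlinarith
      have x3 : sin (5497 / 10000) ≤ sin (π / 2 - π * a) :=
        sin_le_sin_of_le_of_le_pi_div_two (by linarith) x2 x1
      have x4 := (Real.sin_gt_sub_cube (x := 5497 / 10000) (by norm_num)).le
      norm_num at x4
      linarith
    nlinarith
  refine ⟨δ, δ0, ?_⟩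
  have key := slide (v := vl θ) (v' := fun a => 1 - (Tl θ a : ℂ) * Complex.I) (h := fun _ => h)
    (h' := fun _ => 0) (l := fun a => l a - 2 * δ + δ * (a - a0))
    (l' := fun a => -(2 * r a) + δ) (w := W) (a0 := a0) (a1 := 13 / 40) (tL := 1 / 200)
    (by norm_num) (by norm_num) (vl_continuous θ).continuousOn continuousOn_const ?_ ?_
    (fun a _ => hasDerivAt_const a h) ?_ (fun _ _ => h0) ?_ ?_ ?_ ?_ ?_
  · intro a ha t ht'
    have k := key a ha t ht'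
    have : δ * (a - a0) ≤ δ * 1 := mul_le_mul_of_nonneg_left (by linarith [ha.2]) δ0.le
    linarith
  · have hlc : ContinuousOn l (Set.Icc a0 (13 / 40)) :=
      fun a ha => (hl a ha).continuousAt.continuousWithinAt
    exact (hlc.sub continuousOn_const).add (by fun_prop)
  · intro a ha
    exact vl_hasDerivAt θ (cos_pos_of (by linarith [ha.1]) (by linarith [ha.2])).ne'
  · intro a ha
    have d1 := hl a ⟨ha.1.le, ha.2⟩
    have d2 : HasDerivAt (fun a : ℝ => δ * (a - a0)) δ a := by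
      simpa using ((hasDerivAt_id a).sub_const a0).const_mul δ
    exact (d1.sub_const _).add d2
  · intro a ha t ht'
    refine ⟨Or.inl ?_, Or.inr ?_, Or.inl ?_, Or.inr ?_⟩
    · rw [Complex.sub_im, line_im, vl_im]
      have := bl_antitone hθ0.le hθ1 (a := a) (a' := 13 / 40) (by linarith [ha.1]) ha.2 (by norm_num)
      linarith
    · rw [Complex.add_re, line_re, vl_re]
      exact ⟨by linarith [ht'.1, ha.1], by linarith [ht'.2, ha.2]⟩
    · rw [Complex.sub_im, line_im]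
      linarith
    · rw [Complex.add_re, line_re]
      exact ⟨by linarith [ht'.1], by linarith [ht'.2]⟩
  · intro t ht'
    have := hbase t ht'
    simp only [sub_self, mul_zero, add_zero]
    linarith
  · intro a ha t ht'
    refine low_gP' ?_ (o.up.trans hg1) ht'.1.le ht'.2.le hh
    rw [cc_one_vl]
    have := hc2 a ha.1.le ha.2
    nlinarith
  · intro a ha
    refine end_gP' ?_ o.re h
    rw [cc_re_vl]
    have := hc2 a ha.1.le ha.2
    have h3 : 0 ≤ tan θ ^ 2 := sq_nonneg _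
    apply mul_pos (by linarith)
    nlinarith
  · intro a ha t ht' hg _
    have k := hM a ha t ht' hg
    have k2 := hr a ⟨ha.1.le, ha.2⟩
    rw [Complex.ofReal_zero, zero_mul, mul_zero, zero_add, rate_line]
    unfold Ml at k
    have e : (he ((t : ℂ) + (h : ℂ) * Complex.I - vl θ a) - he ((t : ℂ) + (h : ℂ) * Complex.I + vl θ a)).re +
        Tl θ a * (he ((t : ℂ) + (h : ℂ) * Complex.I - vl θ a) - he ((t : ℂ) + (h : ℂ) * Complex.I + vl θ a)).im =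
        -((he ((t : ℂ) + (h : ℂ) * Complex.I + vl θ a) - he ((t : ℂ) + (h : ℂ) * Complex.I - vl θ a)).re +
        Tl θ a * (he ((t : ℂ) + (h : ℂ) * Complex.I + vl θ a) -
          he ((t : ℂ) + (h : ℂ) * Complex.I - vl θ a)).im) := by
      simp only [Complex.sub_re, Complex.sub_im]; ring
    rw [e]
    linarith

end

end Pool.Agent.S3.Ho
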