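import Pool.Agent.S3.Ho.Good
import Pool.Agent.S3.W2.PG

/-!
# From a certificate to the rates on the line
-/

set_option autoImplicit false

namespace Pool.Agent.S3.Ho

open Real T2 NI

section

variable {P : Par} {l : List ℕ} {A B K : N} {x0 θ a t h c0 c1 n0 : ℝ} {W : ℂ}

theorem mem_z (t0 : 0 ≤ t) (t1 : t ≤ 1 / 2) : Mem (tan (π * t / 2)) ⟨0, 1073741824⟩ := by
  have c := crd_bas (a := 1 / 4) (by norm_num) (by norm_num) 0 t0 t1 0
  have h0 := c.z0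
  have h1 := c.z1
  constructor
  · norm_num; exact h0
  · norm_num; exact h1

theorem mem_b (hA : TA x0 (13 / 40) A) (hB : okB 0 P.k1 A B = true) (hx : x0 ≤ a)
    (ha : a ≤ 13 / 40) (hβ : 0 < bl θ a) (hS : tan θ ^ 2 ≤ (P.k1 : ℝ) / 1073741824) :
    Mem (tanh (π * bl θ a)) B := by
  have hpi := pi_pos
  have k1 := hA.al0
  have k2 := hA.ah1
  have ha0 : 0 < a := by linarith
  have ha1 : a < 1 / 2 := by linarith
  have hca := cos_pos_of (a := a) (by linarith) ha1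
  have hp := hA.mem hx ha
  have hp1 : 0 < tan (π * a) := tan_pos_of_pos_of_lt_pi_div_two (by positivity) (by nlinarith)
  have tb0 : 0 < tanh (π * bl θ a) := tanh_pos_of (by positivity)
  have tb1 := tanh_lt_one (π * bl θ a)
  have hSq := Sq_bl (θ := θ) hca
  have hb2 : 0 < 1 - tanh (π * bl θ a) ^ 2 := by nlinarith
  exact okB_sound hB hp hp1.le tb0 tb1 (by norm_num; exact sq_nonneg (tan θ)) hS (by
    rw [← hSq, P1.Sq]
    field_simp)

theorem rate_pos (hbb : bb (tst1 P) l A B ⟨0, 1073741824⟩ K = true)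
    (hA : TA x0 (13 / 40) A) (hB : okB 0 P.k1 A B = true) (hK0 : K.lo = 0)
    (hK : 2401 * P.k1 * 1073741824 ≤ 10000 * (K.hi * K.hi))
    (hc2 : 2401 / 10000 * 1073741824 ≤ (P.c2 : ℝ)) (c1p : 0 ≤ c1)
    (hc1 : (P.c1 : ℝ) ≤ c1 ^ 2 * 1073741824)
    (hc0 : c0 * 1073741824 ≤ P.c0) (hθ0 : 0 < θ) (hθ1 : θ < π / 2) (hx : x0 ≤ a)
    (ha : a ≤ 13 / 40) (t0 : 0 ≤ t) (t1 : t < 1 / 2) (h0 : 0 ≤ h) (hβ : h < bl θ a)
    (o : Oth W (P.g / 1073741824) (P.cm / 1073741824))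
    (hS : tan θ ^ 2 ≤ (P.k1 : ℝ) / 1073741824)
    (h1 : c1 * tan θ ≤ tanh (π * h) + c0) (h2 : tanh (π * h) ≤ 49 / 100 * tan θ)
    (hg : gPd ((t : ℂ) + h * Complex.I) (vl θ a) W =
      ‖Complex.cos (π * ((t : ℂ) + h * Complex.I))‖ ^ 4) :
    r3 θ a ≤ Ml ((t : ℂ) + h * Complex.I) (vl θ a) (Tl θ a) := by
  have hpi := pi_pos
  have k1 := hA.al0
  have hk0 : 0 ≤ tanh (π * h) := tanh_nonneg_of (by positivity)
  have T0 : 0 ≤ tan θ := (tan_pos_of_pos_of_lt_pi_div_two hθ0 hθ1).le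
  have hS' : tan θ ^ 2 * 1073741824 ≤ P.k1 := by
    rw [le_div_iff₀ (by norm_num)] at hS
    exact hS
  have hKr : (2401 : ℝ) * P.k1 * 1073741824 ≤ 10000 * ((K.hi : ℝ) * K.hi) := by exact_mod_cast hK
  refine crit_pos (good1_of hbb) (by linarith) (by linarith) t0 t1 h0 hβ o (hA.mem hx ha)
    (mem_b hA hB hx ha (h0.trans_lt hβ) hS) (mem_z t0 t1.le) ⟨?_, ?_⟩ hS' ?_ ?_ hg
  · rw [hK0]
    norm_num
    exact hk0
  · have m0 : (0 : ℝ) ≤ K.hi := K.hi.cast_nonneg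
    apply sq_le_of m0 (by positivity)
    have e1 : tanh (π * h) ^ 2 ≤ 2401 / 10000 * tan θ ^ 2 := by
      have := pow_le_pow_left₀ hk0 h2 2
      rw [mul_pow] at this
      norm_num at this ⊢
      exact this
    nlinarith
  · have e1 : 0 ≤ c1 * tan θ := mul_nonneg c1p T0
    have e2 : (c1 * tan θ * 1073741824) ^ 2 ≤ (tanh (π * h) * 1073741824 + P.c0) ^ 2 := by
      apply pow_le_pow_left₀ (by positivity)
      nlinarith
    have e3 : (P.c1 : ℝ) * (tan θ ^ 2 * 1073741824) ≤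
        c1 ^ 2 * 1073741824 * (tan θ ^ 2 * 1073741824) :=
      mul_le_mul_of_nonneg_right hc1 (by positivity)
    calc (P.c1 : ℝ) * (tan θ ^ 2 * 1073741824) ≤ _ := e3
      _ = (c1 * tan θ * 1073741824) ^ 2 := by ring
      _ ≤ _ := e2
  · have e2 : (tanh (π * h) * 1073741824) ^ 2 ≤ (49 / 100 * tan θ * 1073741824) ^ 2 := by
      apply pow_le_pow_left₀ (by positivity)
      nlinarith
    have e3 : (2401 / 10000 * 1073741824 : ℝ) * (tan θ ^ 2 * 1073741824) ≤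
        P.c2 * (tan θ ^ 2 * 1073741824) :=
      mul_le_mul_of_nonneg_right hc2 (by positivity)
    calc (tanh (π * h) * 1073741824) ^ 2 ≤ _ := e2
      _ = (2401 / 10000 * 1073741824 : ℝ) * (tan θ ^ 2 * 1073741824) := by ring
      _ ≤ _ := e3

theorem rate_neg (hbb : bb (tst2 P) l A B ⟨0, 1073741824⟩ K = true)
    (hA : TA x0 (13 / 40) A) (hB : okB 0 P.k1 A B = true) (hK0 : K.lo = 0)
    (hK : P.c0 ≤ K.hi) (hc1 : P.c1 = 0) (hc0 : n0 * 1073741824 ≤ P.c0)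
    (hθ0 : 0 < θ) (hθ1 : θ < π / 2) (hx : x0 ≤ a)
    (ha : a ≤ 13 / 40) (t0 : 0 ≤ t) (t1 : t < 1 / 2) (h0 : h ≤ 0)
    (o : Oth W (P.g / 1073741824) (P.cm / 1073741824))
    (hS : tan θ ^ 2 ≤ (P.k1 : ℝ) / 1073741824) (h1 : -tanh (π * h) ≤ n0)
    (hg : gPd ((t : ℂ) + h * Complex.I) (vl θ a) W =
      ‖Complex.cos (π * ((t : ℂ) + h * Complex.I))‖ ^ 4) :
    r3 θ a ≤ Ml ((t : ℂ) + h * Complex.I) (vl θ a) (Tl θ a) := by
  have hpi := pi_pos
  have k1 := hA.al0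
  have hβ : 0 < bl θ a := bl_pos_of hθ0 hθ1 (by rw [abs_of_nonneg (by linarith)]; linarith)
  have hk0 : 0 ≤ -tanh (π * h) := by
    have h1 := tanh_nonneg_of (x := -(π * h)) (by nlinarith)
    rwa [tanh_neg] at h1
  have hS' : tan θ ^ 2 * 1073741824 ≤ P.k1 := by
    rw [le_div_iff₀ (by norm_num)] at hS
    exact hS
  have hKr : (P.c0 : ℝ) ≤ K.hi := by exact_mod_cast hK
  refine crit_neg (good2_of hbb) (by linarith) (by linarith) t0 t1 h0 hβ o (hA.mem hx ha)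
    (mem_b hA hB hx ha hβ hS) (mem_z t0 t1.le) ⟨?_, ?_⟩ hS' ?_ ?_ hg
  · rw [hK0]
    norm_num
    linarith
  · nlinarith
  · nlinarith
  · rw [hc1, Nat.cast_zero, zero_mul]
    positivity

end

end Pool.Agent.S3.Ho
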