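import Pool.Agent.S3.Ho.C0
import Pool.Agent.S3.Ho.C1
import Pool.Agent.S3.Ho.C2
import Pool.Agent.S3.Ho.C3
import Pool.Agent.S3.Ho.C4
import Pool.Agent.S3.Ho.C5
import Pool.Agent.S3.Ho.C6
import Pool.Agent.S3.Ho.C7
import Pool.Agent.S3.Ho.C8
import Pool.Agent.S3.Ho.Line
import Pool.Agent.S3.Ho.Num
import Pool.Agent.S3.Ho.Rate

/-!
# The rows: the rates from the certificates
-/

set_option autoImplicit false

namespace Pool.Agent.S3.Ho

open Real NI T2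

/-- What a row gives: `x0` base point, `k1` bound of `tan² θ`, the ranges of the heights. -/
structure RowOK (x0 k1 c1 c0 n0 sm g cm : ℝ) : Prop where
  pos : ∀ (θ a t h : ℝ) (W : ℂ), 0 < θ → θ < π / 2 → x0 ≤ a → a ≤ 13 / 40 → 0 ≤ t → t < 1 / 2 →
    0 ≤ h → h < bl θ a → Oth W g cm → tan θ ^ 2 ≤ k1 → c1 * tan θ ≤ tanh (π * h) + c0 →
    tanh (π * h) ≤ 49 / 100 * tan θ → gPd ((t : ℂ) + h * Complex.I) (vl θ a) W =
      ‖Complex.cos (π * ((t : ℂ) + h * Complex.I))‖ ^ 4 →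
    r3 θ a ≤ Ml ((t : ℂ) + h * Complex.I) (vl θ a) (Tl θ a)
  neg : ∀ (θ a t h : ℝ) (W : ℂ), 0 < θ → θ < π / 2 → x0 ≤ a → a ≤ 13 / 40 → 0 ≤ t → t < 1 / 2 →
    h ≤ 0 → Oth W g cm → tan θ ≤ sm → -tanh (π * h) ≤ n0 → gPd ((t : ℂ) + h * Complex.I) (vl θ a) W =
      ‖Complex.cos (π * ((t : ℂ) + h * Complex.I))‖ ^ 4 →
    r3 θ a ≤ Ml ((t : ℂ) + h * Complex.I) (vl θ a) (Tl θ a)
  g1 : g ≤ 1
  cm1 : 5 / 8 ≤ cm

/-- The other vertex: its data. -/
theorem oth_of {θ' a' a1 s0 s1 C1 g cm : ℝ} (h0 : 0 ≤ a') (h1 : a' ≤ a1) (ha1 : a1 ≤ 1 / 4)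
    (hC : C1 ≤ cos (π * a1) ^ 2) (hC0 : 0 ≤ C1) (hs0 : s0 ≤ tan θ' ^ 2) (hs1 : tan θ' ^ 2 ≤ s1)
    (hs11 : s1 ≤ 1) (hθ' : 0 ≤ bl θ' a') (hg : 1 - (1 - s1) * C1 ≤ g) (hcm : cm ≤ C1 * (1 + s0))
    (hcm0 : 0 ≤ cm) (hs00 : 0 ≤ s0) : Oth ((starRingEnd ℂ) (vl θ' a')) g cm := by
  have hpi := pi_pos
  have e : cc ((starRingEnd ℂ) (vl θ' a')) = (starRingEnd ℂ) (cc (vl θ' a')) := by
    unfold cc
    rw [map_pow, ← Complex.cos_conj, map_mul, Complex.conj_ofReal]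
  have c0 : 0 < cos (π * a1) := cos_pos_of (by linarith) (by linarith)
  have c1 : cos (π * a1) ≤ cos (π * a') :=
    cos_le_cos_of_nonneg_of_le_pi (by positivity) (by nlinarith)
      (mul_le_mul_of_nonneg_left h1 hpi.le)
  have c2 : C1 ≤ cos (π * a') ^ 2 := hC.trans (pow_le_pow_left₀ c0.le c1 2)
  have c3 : 1 / 2 ≤ cos (π * a') ^ 2 := by
    have k1 : cos (π / 4) ≤ cos (π * a') :=
      cos_le_cos_of_nonneg_of_le_pi (by positivity) (by nlinarith) (by nlinarith)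
    have k2 := pow_le_pow_left₀ (by rw [cos_pi_div_four]; positivity) k1 2
    rw [cos_pi_div_four, div_pow, sq_sqrt (by norm_num)] at k2
    norm_num at k2 ⊢
    linarith
  have t0 : 0 ≤ tan θ' ^ 2 := sq_nonneg _
  refine ⟨?_, ?_, hcm0, ?_, ?_⟩
  · rw [e]
    have e2 : (starRingEnd ℂ) (cc (vl θ' a')) - 1 = (starRingEnd ℂ) (cc (vl θ' a') - 1) := by
      rw [map_sub, map_one]
    rw [e2, Complex.norm_conj, cc_one_vl]
    have : (1 - s1) * C1 ≤ (1 - tan θ' ^ 2) * cos (π * a') ^ 2 :=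
      mul_le_mul (by linarith) c2 hC0 (by linarith)
    linarith
  · rw [e, Complex.norm_conj, cc_norm_vl]
    have : C1 * (1 + s0) ≤ cos (π * a') ^ 2 * (1 + tan θ' ^ 2) :=
      mul_le_mul c2 (by linarith) (by linarith) (by linarith)
    linarith
  · rw [e, Complex.conj_re, cc_re_vl]
    apply mul_pos (by linarith)
    have : 0 ≤ tan θ' ^ 2 * (2 * cos (π * a') ^ 2 - 1) := mul_nonneg t0 (by linarith)
    linarith
  · rw [e, Complex.conj_im, vl_eq, cc_im]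
    have s1 : 0 ≤ sin (π * a') := sin_nonneg_of_nonneg_of_le_pi (by positivity) (by nlinarith)
    have s2 : 0 ≤ sinh (π * bl θ' a') := sinh_nonneg_iff.2 (by positivity)
    have s3 := cosh_pos (π * bl θ' a')
    have s4 : 0 < cos (π * a') := c0.trans_le c1
    have : 0 ≤ 2 * (sin (π * a') * cos (π * a')) * (sinh (π * bl θ' a') * cosh (π * bl θ' a')) := by
      positivity
    linarith

theorem rowOK0 : RowOK (29 / 100) (1 / 4) (33 / 100) (89 / 2500) (239 / 5000) (21 / 200)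
    (562282087 / 1073741824) (1065541120 / 1073741824) := by
  refine ⟨?_, ?_, by norm_num, by norm_num⟩
  · intro θ a t h W g1 g2 g3 g4 g5 g6 g7 g8 o hS h1 h2 hg
    exact rate_pos (P := P0) pos0 TA0 (by decide +kernel) rfl (by norm_num [P0])
      (by norm_num [P0]) (c1 := 33 / 100) (c0 := 89 / 2500) (by norm_num) (by norm_num [P0])
      (by norm_num [P0]) g1 g2 g3 g4 g5 g6 g7 g8 (by simp only [P0, Nat.cast_ofNat]; exact o)
      (hS.trans (by norm_num [P0])) h1 h2 hg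
  · intro θ a t h W g1 g2 g3 g4 g5 g6 g7 o hS h1 hg
    have T0 : 0 ≤ tan θ := (tan_pos_of_pos_of_lt_pi_div_two g1 g2).le
    have hS2 : tan θ ^ 2 ≤ (21 / 200) ^ 2 := pow_le_pow_left₀ T0 hS 2
    exact rate_neg (P := Q0) neg0 TA0 (by decide +kernel) rfl (by norm_num [Q0])
      rfl (n0 := 239 / 5000) (by norm_num [Q0]) g1 g2 g3 g4 g5 g6 g7
      (by simp only [Q0, Nat.cast_ofNat]; exact o) (hS2.trans (by norm_num [Q0])) h1 hg

theorem oth0 {θ' a' : ℝ} (h0 : 0 ≤ a') (h1 : a' ≤ 3 / 20) (hs0 : 1 / 4 ≤ tan θ' ^ 2)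
    (hs1 : tan θ' ^ 2 ≤ 2 / 5) (hθ' : 0 ≤ bl θ' a') :
    Oth ((starRingEnd ℂ) (vl θ' a')) (562282087 / 1073741824) (1065541120 / 1073741824) :=
  oth_of h0 h1 (by norm_num) cos_320 (by norm_num) hs0 hs1 (by norm_num) hθ' (by norm_num)
    (by norm_num) (by norm_num) (by norm_num)

theorem rowOK1 : RowOK (3 / 10) (1 / 4) (3 / 10) (57 / 1250) (27 / 400) (37 / 250)
    (652083410 / 1073741824) (878455029 / 1073741824) := by
  refine ⟨?_, ?_, by norm_num, by norm_num⟩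
  · intro θ a t h W g1 g2 g3 g4 g5 g6 g7 g8 o hS h1 h2 hg
    exact rate_pos (P := P1) pos1 TA1 (by decide +kernel) rfl (by norm_num [P1])
      (by norm_num [P1]) (c1 := 3 / 10) (c0 := 57 / 1250) (by norm_num) (by norm_num [P1])
      (by norm_num [P1]) g1 g2 g3 g4 g5 g6 g7 g8 (by simp only [P1, Nat.cast_ofNat]; exact o)
      (hS.trans (by norm_num [P1])) h1 h2 hg
  · intro θ a t h W g1 g2 g3 g4 g5 g6 g7 o hS h1 hg
    have T0 : 0 ≤ tan θ := (tan_pos_of_pos_of_lt_pi_div_two g1 g2).le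
    have hS2 : tan θ ^ 2 ≤ (37 / 250) ^ 2 := pow_le_pow_left₀ T0 hS 2
    exact rate_neg (P := Q1) neg1 TA1 (by decide +kernel) rfl (by norm_num [Q1])
      rfl (n0 := 27 / 400) (by norm_num [Q1]) g1 g2 g3 g4 g5 g6 g7
      (by simp only [Q1, Nat.cast_ofNat]; exact o) (hS2.trans (by norm_num [Q1])) h1 hg

theorem oth1 {θ' a' : ℝ} (h0 : 0 ≤ a') (h1 : a' ≤ 1 / 5) (hs0 : 1 / 4 ≤ tan θ' ^ 2)
    (hs1 : tan θ' ^ 2 ≤ 2 / 5) (hθ' : 0 ≤ bl θ' a') :
    Oth ((starRingEnd ℂ) (vl θ' a')) (652083410 / 1073741824) (878455029 / 1073741824) :=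
  oth_of h0 h1 (by norm_num) cos_15 (by norm_num) hs0 hs1 (by norm_num) hθ' (by norm_num)
    (by norm_num) (by norm_num) (by norm_num)

theorem rowOK2 : RowOK (31 / 100) (1 / 4) (6 / 25) (503 / 10000) (123 / 1250) (21 / 100)
    (751619277 / 1073741824) (671088640 / 1073741824) := by
  refine ⟨?_, ?_, by norm_num, by norm_num⟩
  · intro θ a t h W g1 g2 g3 g4 g5 g6 g7 g8 o hS h1 h2 hg
    exact rate_pos (P := P2) pos2 TA2 (by decide +kernel) rfl (by norm_num [P2])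
      (by norm_num [P2]) (c1 := 6 / 25) (c0 := 503 / 10000) (by norm_num) (by norm_num [P2])
      (by norm_num [P2]) g1 g2 g3 g4 g5 g6 g7 g8 (by simp only [P2, Nat.cast_ofNat]; exact o)
      (hS.trans (by norm_num [P2])) h1 h2 hg
  · intro θ a t h W g1 g2 g3 g4 g5 g6 g7 o hS h1 hg
    have T0 : 0 ≤ tan θ := (tan_pos_of_pos_of_lt_pi_div_two g1 g2).le
    have hS2 : tan θ ^ 2 ≤ (21 / 100) ^ 2 := pow_le_pow_left₀ T0 hS 2
    exact rate_neg (P := Q2) neg2 TA2 (by decide +kernel) rfl (by norm_num [Q2])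
      rfl (n0 := 123 / 1250) (by norm_num [Q2]) g1 g2 g3 g4 g5 g6 g7
      (by simp only [Q2, Nat.cast_ofNat]; exact o) (hS2.trans (by norm_num [Q2])) h1 hg

theorem oth2 {θ' a' : ℝ} (h0 : 0 ≤ a') (h1 : a' ≤ 1 / 4) (hs0 : 1 / 4 ≤ tan θ' ^ 2)
    (hs1 : tan θ' ^ 2 ≤ 2 / 5) (hθ' : 0 ≤ bl θ' a') :
    Oth ((starRingEnd ℂ) (vl θ' a')) (751619277 / 1073741824) (671088640 / 1073741824) :=
  oth_of h0 h1 (by norm_num) cos_14 (by norm_num) hs0 hs1 (by norm_num) hθ' (by norm_num)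
    (by norm_num) (by norm_num) (by norm_num)

theorem rowOK3 : RowOK (29 / 100) (1 / 4) (73 / 200) (41 / 1000) (6 / 125) (21 / 200)
    (945876890 / 1073741824) (1193406055 / 1073741824) := by
  refine ⟨?_, ?_, by norm_num, by norm_num⟩
  · intro θ a t h W g1 g2 g3 g4 g5 g6 g7 g8 o hS h1 h2 hg
    exact rate_pos (P := P3) pos3 TA0 (by decide +kernel) rfl (by norm_num [P3])
      (by norm_num [P3]) (c1 := 73 / 200) (c0 := 41 / 1000) (by norm_num) (by norm_num [P3])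
      (by norm_num [P3]) g1 g2 g3 g4 g5 g6 g7 g8 (by simp only [P3, Nat.cast_ofNat]; exact o)
      (hS.trans (by norm_num [P3])) h1 h2 hg
  · intro θ a t h W g1 g2 g3 g4 g5 g6 g7 o hS h1 hg
    have T0 : 0 ≤ tan θ := (tan_pos_of_pos_of_lt_pi_div_two g1 g2).le
    have hS2 : tan θ ^ 2 ≤ (21 / 200) ^ 2 := pow_le_pow_left₀ T0 hS 2
    exact rate_neg (P := Q3) neg3 TA0 (by decide +kernel) rfl (by norm_num [Q3])
      rfl (n0 := 6 / 125) (by norm_num [Q3]) g1 g2 g3 g4 g5 g6 g7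
      (by simp only [Q3, Nat.cast_ofNat]; exact o) (hS2.trans (by norm_num [Q3])) h1 hg

theorem oth3 {θ' a' : ℝ} (h0 : 0 ≤ a') (h1 : a' ≤ 3 / 20) (hs0 : 2 / 5 ≤ tan θ' ^ 2)
    (hs1 : tan θ' ^ 2 ≤ 17 / 20) (hθ' : 0 ≤ bl θ' a') :
    Oth ((starRingEnd ℂ) (vl θ' a')) (945876890 / 1073741824) (1193406055 / 1073741824) :=
  oth_of h0 h1 (by norm_num) cos_320 (by norm_num) hs0 hs1 (by norm_num) hθ' (by norm_num)
    (by norm_num) (by norm_num) (by norm_num)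

theorem rowOK4 : RowOK (3 / 10) (1 / 4) (67 / 200) (513 / 10000) (169 / 2500) (37 / 250)
    (968327221 / 1073741824) (983869633 / 1073741824) := by
  refine ⟨?_, ?_, by norm_num, by norm_num⟩
  · intro θ a t h W g1 g2 g3 g4 g5 g6 g7 g8 o hS h1 h2 hg
    exact rate_pos (P := P4) pos4 TA1 (by decide +kernel) rfl (by norm_num [P4])
      (by norm_num [P4]) (c1 := 67 / 200) (c0 := 513 / 10000) (by norm_num) (by norm_num [P4])
      (by norm_num [P4]) g1 g2 g3 g4 g5 g6 g7 g8 (by simp only [P4, Nat.cast_ofNat]; exact o)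
      (hS.trans (by norm_num [P4])) h1 h2 hg
  · intro θ a t h W g1 g2 g3 g4 g5 g6 g7 o hS h1 hg
    have T0 : 0 ≤ tan θ := (tan_pos_of_pos_of_lt_pi_div_two g1 g2).le
    have hS2 : tan θ ^ 2 ≤ (37 / 250) ^ 2 := pow_le_pow_left₀ T0 hS 2
    exact rate_neg (P := Q4) neg4 TA1 (by decide +kernel) rfl (by norm_num [Q4])
      rfl (n0 := 169 / 2500) (by norm_num [Q4]) g1 g2 g3 g4 g5 g6 g7
      (by simp only [Q4, Nat.cast_ofNat]; exact o) (hS2.trans (by norm_num [Q4])) h1 hg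

theorem oth4 {θ' a' : ℝ} (h0 : 0 ≤ a') (h1 : a' ≤ 1 / 5) (hs0 : 2 / 5 ≤ tan θ' ^ 2)
    (hs1 : tan θ' ^ 2 ≤ 17 / 20) (hθ' : 0 ≤ bl θ' a') :
    Oth ((starRingEnd ℂ) (vl θ' a')) (968327221 / 1073741824) (983869633 / 1073741824) :=
  oth_of h0 h1 (by norm_num) cos_15 (by norm_num) hs0 hs1 (by norm_num) hθ' (by norm_num)
    (by norm_num) (by norm_num) (by norm_num)

theorem rowOK5 : RowOK (31 / 100) (1 / 4) (57 / 200) (609 / 10000) (123 / 1250) (21 / 100)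
    (993211188 / 1073741824) (751619276 / 1073741824) := by
  refine ⟨?_, ?_, by norm_num, by norm_num⟩
  · intro θ a t h W g1 g2 g3 g4 g5 g6 g7 g8 o hS h1 h2 hg
    exact rate_pos (P := P5) pos5 TA2 (by decide +kernel) rfl (by norm_num [P5])
      (by norm_num [P5]) (c1 := 57 / 200) (c0 := 609 / 10000) (by norm_num) (by norm_num [P5])
      (by norm_num [P5]) g1 g2 g3 g4 g5 g6 g7 g8 (by simp only [P5, Nat.cast_ofNat]; exact o)
      (hS.trans (by norm_num [P5])) h1 h2 hg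
  · intro θ a t h W g1 g2 g3 g4 g5 g6 g7 o hS h1 hg
    have T0 : 0 ≤ tan θ := (tan_pos_of_pos_of_lt_pi_div_two g1 g2).le
    have hS2 : tan θ ^ 2 ≤ (21 / 100) ^ 2 := pow_le_pow_left₀ T0 hS 2
    exact rate_neg (P := Q5) neg5 TA2 (by decide +kernel) rfl (by norm_num [Q5])
      rfl (n0 := 123 / 1250) (by norm_num [Q5]) g1 g2 g3 g4 g5 g6 g7
      (by simp only [Q5, Nat.cast_ofNat]; exact o) (hS2.trans (by norm_num [Q5])) h1 hg

theorem oth5 {θ' a' : ℝ} (h0 : 0 ≤ a') (h1 : a' ≤ 1 / 4) (hs0 : 2 / 5 ≤ tan θ' ^ 2)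
    (hs1 : tan θ' ^ 2 ≤ 17 / 20) (hθ' : 0 ≤ bl θ' a') :
    Oth ((starRingEnd ℂ) (vl θ' a')) (993211188 / 1073741824) (751619276 / 1073741824) :=
  oth_of h0 h1 (by norm_num) cos_14 (by norm_num) hs0 hs1 (by norm_num) hθ' (by norm_num)
    (by norm_num) (by norm_num) (by norm_num)

theorem rowOK6 : RowOK (29 / 100) (1 / 5) (43 / 100) (457 / 10000) (28 / 625) (99 / 1000)
    (1073741824 / 1073741824) (1577000858 / 1073741824) := by
  refine ⟨?_, ?_, by norm_num, by norm_num⟩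
  · intro θ a t h W g1 g2 g3 g4 g5 g6 g7 g8 o hS h1 h2 hg
    exact rate_pos (P := P6) pos6 TA0 (by decide +kernel) rfl (by norm_num [P6])
      (by norm_num [P6]) (c1 := 43 / 100) (c0 := 457 / 10000) (by norm_num) (by norm_num [P6])
      (by norm_num [P6]) g1 g2 g3 g4 g5 g6 g7 g8 (by simp only [P6, Nat.cast_ofNat]; exact o)
      (hS.trans (by norm_num [P6])) h1 h2 hg
  · intro θ a t h W g1 g2 g3 g4 g5 g6 g7 o hS h1 hg
    have T0 : 0 ≤ tan θ := (tan_pos_of_pos_of_lt_pi_div_two g1 g2).le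
    have hS2 : tan θ ^ 2 ≤ (99 / 1000) ^ 2 := pow_le_pow_left₀ T0 hS 2
    exact rate_neg (P := Q6) neg6 TA0 (by decide +kernel) rfl (by norm_num [Q6])
      rfl (n0 := 28 / 625) (by norm_num [Q6]) g1 g2 g3 g4 g5 g6 g7
      (by simp only [Q6, Nat.cast_ofNat]; exact o) (hS2.trans (by norm_num [Q6])) h1 hg

theorem oth6 {θ' a' : ℝ} (h0 : 0 ≤ a') (h1 : a' ≤ 3 / 20) (hs0 : 17 / 20 ≤ tan θ' ^ 2)
    (hs1 : tan θ' ^ 2 ≤ 1) (hθ' : 0 ≤ bl θ' a') :
    Oth ((starRingEnd ℂ) (vl θ' a')) (1073741824 / 1073741824) (1577000858 / 1073741824) :=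
  oth_of h0 h1 (by norm_num) cos_320 (by norm_num) hs0 hs1 (by norm_num) hθ' (by norm_num)
    (by norm_num) (by norm_num) (by norm_num)

theorem rowOK7 : RowOK (3 / 10) (1 / 5) (83 / 200) (149 / 2500) (31 / 500) (137 / 1000)
    (1073741824 / 1073741824) (1300113444 / 1073741824) := by
  refine ⟨?_, ?_, by norm_num, by norm_num⟩
  · intro θ a t h W g1 g2 g3 g4 g5 g6 g7 g8 o hS h1 h2 hg
    exact rate_pos (P := P7) pos7 TA1 (by decide +kernel) rfl (by norm_num [P7])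
      (by norm_num [P7]) (c1 := 83 / 200) (c0 := 149 / 2500) (by norm_num) (by norm_num [P7])
      (by norm_num [P7]) g1 g2 g3 g4 g5 g6 g7 g8 (by simp only [P7, Nat.cast_ofNat]; exact o)
      (hS.trans (by norm_num [P7])) h1 h2 hg
  · intro θ a t h W g1 g2 g3 g4 g5 g6 g7 o hS h1 hg
    have T0 : 0 ≤ tan θ := (tan_pos_of_pos_of_lt_pi_div_two g1 g2).le
    have hS2 : tan θ ^ 2 ≤ (137 / 1000) ^ 2 := pow_le_pow_left₀ T0 hS 2
    exact rate_neg (P := Q7) neg7 TA1 (by decide +kernel) rfl (by norm_num [Q7])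
      rfl (n0 := 31 / 500) (by norm_num [Q7]) g1 g2 g3 g4 g5 g6 g7
      (by simp only [Q7, Nat.cast_ofNat]; exact o) (hS2.trans (by norm_num [Q7])) h1 hg

theorem oth7 {θ' a' : ℝ} (h0 : 0 ≤ a') (h1 : a' ≤ 1 / 5) (hs0 : 17 / 20 ≤ tan θ' ^ 2)
    (hs1 : tan θ' ^ 2 ≤ 1) (hθ' : 0 ≤ bl θ' a') :
    Oth ((starRingEnd ℂ) (vl θ' a')) (1073741824 / 1073741824) (1300113444 / 1073741824) :=
  oth_of h0 h1 (by norm_num) cos_15 (by norm_num) hs0 hs1 (by norm_num) hθ' (by norm_num)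
    (by norm_num) (by norm_num) (by norm_num)

theorem rowOK8 : RowOK (31 / 100) (1 / 5) (39 / 100) (153 / 2000) (869 / 10000) (189 / 1000)
    (1073741824 / 1073741824) (993211187 / 1073741824) := by
  refine ⟨?_, ?_, by norm_num, by norm_num⟩
  · intro θ a t h W g1 g2 g3 g4 g5 g6 g7 g8 o hS h1 h2 hg
    exact rate_pos (P := P8) pos8 TA2 (by decide +kernel) rfl (by norm_num [P8])
      (by norm_num [P8]) (c1 := 39 / 100) (c0 := 153 / 2000) (by norm_num) (by norm_num [P8])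
      (by norm_num [P8]) g1 g2 g3 g4 g5 g6 g7 g8 (by simp only [P8, Nat.cast_ofNat]; exact o)
      (hS.trans (by norm_num [P8])) h1 h2 hg
  · intro θ a t h W g1 g2 g3 g4 g5 g6 g7 o hS h1 hg
    have T0 : 0 ≤ tan θ := (tan_pos_of_pos_of_lt_pi_div_two g1 g2).le
    have hS2 : tan θ ^ 2 ≤ (189 / 1000) ^ 2 := pow_le_pow_left₀ T0 hS 2
    exact rate_neg (P := Q8) neg8 TA2 (by decide +kernel) rfl (by norm_num [Q8])
      rfl (n0 := 869 / 10000) (by norm_num [Q8]) g1 g2 g3 g4 g5 g6 g7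
      (by simp only [Q8, Nat.cast_ofNat]; exact o) (hS2.trans (by norm_num [Q8])) h1 hg

theorem oth8 {θ' a' : ℝ} (h0 : 0 ≤ a') (h1 : a' ≤ 1 / 4) (hs0 : 17 / 20 ≤ tan θ' ^ 2)
    (hs1 : tan θ' ^ 2 ≤ 1) (hθ' : 0 ≤ bl θ' a') :
    Oth ((starRingEnd ℂ) (vl θ' a')) (1073741824 / 1073741824) (993211187 / 1073741824) :=
  oth_of h0 h1 (by norm_num) cos_14 (by norm_num) hs0 hs1 (by norm_num) hθ' (by norm_num)
    (by norm_num) (by norm_num) (by norm_num)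

end Pool.Agent.S3.Ho
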