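import Pool.Agent.S3.Ho.H7b
import Pool.Agent.S3.Ho.Hole
import Pool.Agent.S3.Ho.Neg
import Pool.Agent.S3.Ho.Rows

/-!
# The flats of the hole: the assembly
-/

set_option autoImplicit false

namespace Pool.Agent.S3.T2

open Real NI Set Ho
open Pool.Agent.H25.RK (gdv)

section

variable {Φ : ℂ → ℂ → ℂ} {θ θ' xc xc' b b' μ μ' : ℝ} {w : ℂ}

/-- The data at one pair (base point `x0`, height `h`): the bound on the line and the vertical. -/
structure Flt (Φ : ℂ → ℂ → ℂ) (θ θ' xc xc' b b' μ μ' : ℝ) (w v : ℂ) (h : ℝ) : Prop where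
  abs : |h| ≤ 1
  flat : ∀ t ∈ Icc (0 : ℝ) (1 / 2),
    EE (.op (cmp (13 / 40) v)) (.op ((starRingEnd ℂ) w)) ((t : ℂ) + (h : ℂ) * Complex.I) <
      LM Φ θ θ' b b' xc xc' (13 / 40) (2 / 5) μ μ' v w

/-- The heights at the base. -/
structure Bse (θ θ' x0 c1 c0 n0 sm : ℝ) (w : ℂ) : Prop where
  P : 0 ≤ (yv (vl θ x0) w).im → c1 * tan θ ≤ tanh (π * (yv (vl θ x0) w).im) + c0 ∧
    tanh (π * (yv (vl θ x0) w).im) ≤ 49 / 100 * tan θ
  N : (yv (vl θ x0) w).im < 0 → -tanh (π * (yv (vl θ x0) w).im) ≤ n0 ∧ tan θ ≤ sm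

theorem OO.holeF (H : OO Φ θ θ' xc xc' b b' (13 / 40) (2 / 5)) (ht : tan θ ^ 2 ≤ 1 / 4)
    (ht' : 1 / 4 ≤ tan θ' ^ 2) {x0 k1 c1 c0 n0 sm g cm Φ0 : ℝ} (R : RowOK x0 k1 c1 c0 n0 sm g cm)
    (hx0 : 29 / 100 ≤ x0) (hx1 : x0 ≤ 31 / 100) (hk1 : tan θ ^ 2 ≤ k1) (hsm : sm ≤ 21 / 100)
    (hn0 : n0 ≤ 1 / 10) (hw0 : 0 ≤ w.re) (hw1 : w.re ≤ 1 / 4) (hwl : w.im = bl θ' w.re)
    (o : Oth ((starRingEnd ℂ) w) g cm)
    (hbase : ∀ t ∈ Icc (0 : ℝ) (1 / 2), EE (.op (vl θ x0)) (.op ((starRingEnd ℂ) w))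
      ((t : ℂ) + ((yv (vl θ x0) w).im : ℂ) * Complex.I) ≤ Φ0)
    (hΦ0 : Φ0 ≤ LM Φ θ θ' b b' xc xc' (13 / 40) (2 / 5) μ μ' (vl θ x0) w)
    (B : Bse θ θ' x0 c1 c0 n0 sm w)
    (hr : ∀ x ∈ Icc x0 (13 / 40),
      rl b (gdv (UU xc θ)) (qq (UU xc θ) (UU xc' (-θ'))) θ x ≤ r3 θ x)
    (hs : (∀ x ∈ Icc x0 (13 / 40),
      rl b (gdv (UU xc θ)) (qq (UU xc θ) (UU xc' (-θ'))) θ x < r3 θ x) ∨
      Φ0 < LM Φ θ θ' b b' xc xc' (13 / 40) (2 / 5) μ μ' (vl θ x0) w)
    (hμ : μ ≤ 0 ∨ (μ ≤ π / 20 ∧ 7 / 100 ≤ tan θ ^ 2)) :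
    ∀ v : ℂ, v ∈ G0 θ (13 / 40) → x0 < v.re → ∃ h : ℝ,
      (0 ≤ h ∨ (yv (vl θ x0) w).im < 0) ∧ Flt Φ θ θ' xc xc' b b' μ μ' w v h := by
  intro v hv hva
  have hpi := pi_pos
  have hv0 : 0 ≤ v.re := by linarith only [hx0, hva]
  obtain ⟨θ0, θ1, -⟩ := H.hθ
  obtain ⟨θ0', θ1', tθ1'⟩ := H.hθ'
  have T0 : 0 < tan θ := tan_pos_of_pos_of_lt_pi_div_two θ0 θ1
  obtain ⟨hβ, hβ2, hβ3⟩ := beta_facts θ0 θ1 ht
  obtain ⟨β, hβd⟩ : ∃ β, β = bl θ (13 / 40) := ⟨_, rfl⟩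
  rw [← hβd] at hβ hβ2 hβ3
  have evu : vu β = vl θ (13 / 40) := by rw [hβd]; rfl
  obtain ⟨W, hW⟩ : ∃ W, W = (starRingEnd ℂ) w := ⟨_, rfl⟩
  have rw0 : 0 ≤ W.re := by rw [hW, Complex.conj_re]; exact hw0
  have rw1 : W.re ≤ 2 / 5 := by rw [hW, Complex.conj_re]; linarith only [hw1]
  have blw : 0 < bl θ' w.re := bl_pos_of θ0' θ1' (by rw [abs_of_nonneg hw0]; linarith only [hw1])
  have rwi : W.im ≤ 0 := by rw [hW, Complex.conj_im, hwl]; linarith only [blw]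
  rw [← hW] at o hbase
  -- the bound along the line
  obtain ⟨Q, hQ⟩ : ∃ Q, Q = qq (UU xc θ) (UU xc' (-θ')) := ⟨_, rfl⟩
  obtain ⟨vc, hvc⟩ : ∃ z, z = gdv (UU xc θ) := ⟨_, rfl⟩
  rw [← hQ, ← hvc] at hr hs
  have hQr : Q.re = b * (π * vc.im) := by
    have e := H.hs.hQ
    rw [← hQ] at e
    rw [e, gd_eq (by rw [UU_im]; exact H.hθ.abs), ← hvc, Complex.im_ofReal_mul]
  obtain ⟨l, hl⟩ : ∃ l : ℝ → ℝ, l = fun a => L0 Φ θ θ' b b' xc xc' (vl θ a) (pl θ' (2 / 5) w) -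
    μ' * ((pl θ' (2 / 5) w).im - w.im) := ⟨_, rfl⟩
  have hl1 : ∀ a, 0 ≤ a → a ≤ 13 / 40 →
      LM Φ θ θ' b b' xc xc' (13 / 40) (2 / 5) μ μ' (vl θ a) w = l a := by
    intro a g1 g2
    rw [hl]
    exact LM_vl g1 g2
  have hl2 : ∀ a ∈ Icc x0 (13 / 40), HasDerivAt l (-(2 * rl b vc Q θ a)) a := by
    intro a ha
    have hc := (cos_pos_of (a := a) (by linarith only [ha.1, hx0]) (by linarith only [ha.2])).ne'
    have d := ell_hasDerivAt (θ := θ) hQr hc
    rw [hl]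
    unfold L0
    rw [← hvc, ← hQ]
    exact (((d.const_add _).add_const _).sub_const _)
  rw [hl1 x0 (by linarith only [hx0]) (by linarith only [hx1])] at hΦ0 hs
  have hgap : ∀ a ∈ Ioc x0 (13 / 40), ∃ κ ε : ℝ,
      (∀ x ∈ Icc x0 (13 / 40), 2 * rl b vc Q θ x + κ < 2 * r3 θ x) ∧ Φ0 < l x0 + ε ∧
      ε - κ * (a - x0) < 0 := by
    intro a ha
    rcases hs with hs | hs
    · obtain ⟨κ, κ0, hκ⟩ := gap_exists (b := b) (vc := vc) (Q := Q) (θ := θ) (x0 := x0)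
        (by linarith only [hx0]) (by linarith only [hx1]) hs
      have k1 : 0 < κ * (a - x0) := mul_pos κ0 (by linarith only [ha.1])
      refine ⟨κ, κ * (a - x0) / 2, fun x hx => ?_, by linarith only [hΦ0, k1], by linarith only [k1]⟩
      have := hκ x hx
      linarith only [κ0, this]
    · have k1 : 0 < l x0 - Φ0 := by linarith only [hs]
      refine ⟨-((l x0 - Φ0) / 2), -((l x0 - Φ0) / 2), fun x hx => ?_, by linarith only [k1], ?_⟩
      · have := hr x hx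
        linarith only [k1, this]
      · have : (l x0 - Φ0) / 2 * (a - x0) < (l x0 - Φ0) / 2 * 1 :=
          mul_lt_mul_of_pos_left (by linarith only [ha.2, hx0]) (by linarith only [k1])
        linarith only [this]
  have hblmono : ∀ a, x0 ≤ a → a ≤ 13 / 40 → β ≤ bl θ a := by
    intro a g1 g2
    rw [hβd]
    exact bl_antitone θ0.le θ1 (by linarith only [hx0, g1]) g2 (by norm_num)
  have habs : ∀ x : ℝ, sinh (π * x) ^ 2 ≤ 7 / 100 → |x| ≤ 1 := by
    intro x hx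
    have h1 : |π * x| ≤ |sinh (π * x)| := by
      rw [abs_sinh]
      exact self_le_sinh_iff.2 (abs_nonneg _)
    have h2 : |sinh (π * x)| ≤ 1 := by
      rw [← sq_le_one_iff_abs_le_one]
      linarith only [hx]
    rw [abs_mul, abs_of_pos hpi] at h1
    nlinarith only [pi_gt_three, h1, h2]
  -- the line for a height `h`
  have line : ∀ (h κ ε : ℝ), (∀ x ∈ Icc x0 (13 / 40), 2 * rl b vc Q θ x + κ < 2 * r3 θ x) →
      W.im < h → h ≠ 0 → sinh (π * h) ^ 2 ≤ 7 / 100 → h < β →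
      (∀ a ∈ Ioc x0 (13 / 40), ∀ t ∈ Ico (1 / 200 : ℝ) (1 / 2),
        gPd ((t : ℂ) + (h : ℂ) * Complex.I) (vl θ a) W =
          ‖Complex.cos (π * ((t : ℂ) + (h : ℂ) * Complex.I))‖ ^ 4 →
        r3 θ a ≤ Ml ((t : ℂ) + (h : ℂ) * Complex.I) (vl θ a) (Tl θ a)) →
      (∀ t ∈ Icc (0 : ℝ) (1 / 2),
        EE (.op (vl θ x0)) (.op W) ((t : ℂ) + (h : ℂ) * Complex.I) < l x0 + ε) →
      ∀ a ∈ Icc x0 (13 / 40), ∀ t ∈ Icc (0 : ℝ) (1 / 2),
        EE (.op (vl θ a)) (.op W) ((t : ℂ) + (h : ℂ) * Complex.I) < l a + ε - κ * (a - x0) := by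
    intro h κ ε hκ g1 g2 g3 g4 g5 g6
    exact line_slide2 (l := l) (r := fun a => rl b vc Q θ a) θ0 θ1 ht (by linarith only [hx0]) o R.g1 rw0 rw1
      g1 g2 g3 (by rw [← hβd]; exact g4) hl2 hκ g5 g6
  -- a height for every point of the line
  have hts : ∀ a' ∈ Ioc x0 (13 / 40), ∃ h γ : ℝ, 0 < γ ∧
      (0 < h ∧ tanh (π * h) ≤ 97 / 100 * tanh (π * β) ∨ (yv (vl θ x0) w).im < 0 ∧ h < 0) ∧
      W.im < h ∧ sinh (π * h) ^ 2 ≤ 7 / 100 ∧ ∀ t ∈ Icc (0 : ℝ) (1 / 2),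
        EE (.op (vl θ a')) (.op W) ((t : ℂ) + (h : ℂ) * Complex.I) < l a' - γ := by
    intro a' ha'
    obtain ⟨κ, ε, hκ, hε1, hε2⟩ := hgap a' ha'
    have tβ : 0 < tanh (π * β) := tanh_pos_of (by positivity)
    -- positive heights
    have ps : ∀ h : ℝ, 0 < h → c1 * tan θ ≤ tanh (π * h) + c0 → tanh (π * h) ≤ 49 / 100 * tan θ →
        (∀ t ∈ Icc (0 : ℝ) (1 / 2),
          EE (.op (vl θ x0)) (.op W) ((t : ℂ) + (h : ℂ) * Complex.I) < l x0 + ε) →
        ∃ h γ : ℝ, 0 < γ ∧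
          (0 < h ∧ tanh (π * h) ≤ 97 / 100 * tanh (π * β) ∨ (yv (vl θ x0) w).im < 0 ∧ h < 0) ∧
          W.im < h ∧ sinh (π * h) ^ 2 ≤ 7 / 100 ∧ ∀ t ∈ Icc (0 : ℝ) (1 / 2),
            EE (.op (vl θ a')) (.op W) ((t : ℂ) + (h : ℂ) * Complex.I) < l a' - γ := by
      intro h g1 g2 g3 g4
      have g5 : tanh (π * h) ≤ 97 / 100 * tanh (π * β) := g3.trans hβ3
      have g6 : h < β := by
        by_contra hc
        push Not at hc
        have := tanh_mono (mul_le_mul_of_nonneg_left hc hpi.le)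
        linarith only [tβ, g5, this]
      have g7 : sinh (π * h) ^ 2 ≤ 7 / 100 := by
        have k1 : 0 ≤ sinh (π * h) := sinh_nonneg_iff.2 (by positivity)
        have k2 : sinh (π * h) ≤ sinh (π * β) :=
          sinh_le_sinh.2 (mul_le_mul_of_nonneg_left g6.le hpi.le)
        have := pow_le_pow_left₀ k1 k2 2
        linarith only [hβ2, this]
      refine ⟨h, -(ε - κ * (a' - x0)), by linarith only [hε2], Or.inl ⟨g1, g5⟩, by linarith only [rwi, g1], g7,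
        fun t ht2 => ?_⟩
      have := line h κ ε hκ (by linarith only [rwi, g1]) g1.ne' g7 g6 (by
        intro a ha t ht' hg
        exact R.pos θ a t h W θ0 θ1 ha.1.le ha.2 (by linarith only [ht'.1]) ht'.2 g1.le
          (g6.trans_le (hblmono a ha.1.le ha.2)) o hk1 g2 g3 hg) g4 a' ⟨ha'.1.le, ha'.2⟩ t ht2
      linarith only [this]
    rcases lt_trichotomy (yv (vl θ x0) w).im 0 with hy | hy | hy
    · -- negative
      obtain ⟨n1, n2⟩ := B.N hy
      obtain ⟨h, hh⟩ : ∃ h, h = (yv (vl θ x0) w).im := ⟨_, rfl⟩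
      rw [← hh] at hy n1 hbase
      have n3 : 0 ≤ -tanh (π * h) := by
        have := tanh_nonneg_of (x := -(π * h)) (by nlinarith only [θ0', θ1', hy])
        rwa [tanh_neg] at this
      have g1 : W.im < h := by
        rw [hW, Complex.conj_im, hwl]
        by_contra hc
        push Not at hc
        have k1 : π * bl θ' w.re ≤ -(π * h) := by nlinarith only [θ0, θ1, hc]
        have k2 := tanh_mono k1
        rw [tanh_neg] at k2
        have k3 : tanh (π * bl θ' w.re) ≤ 1 / 10 := by linarith only [hn0, n1, k2]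
        have k4 : 0 ≤ tanh (π * bl θ' w.re) := tanh_nonneg_of (by positivity)
        have k5 : sinh (π * bl θ' w.re) ^ 2 = tan θ' ^ 2 * cos (π * w.re) ^ 2 := by
          rw [sinh_pi_bl, mul_pow]
        have k6 : 1 / 2 ≤ cos (π * w.re) ^ 2 := by
          have c1 : cos (π / 4) ≤ cos (π * w.re) :=
            cos_le_cos_of_nonneg_of_le_pi (by positivity) (by linarith only [θ0', θ1']) (by nlinarith only [hw1, hpi])
          have c2 := pow_le_pow_left₀ (by rw [cos_pi_div_four]; positivity) c1 2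
          rw [cos_pi_div_four, div_pow, sq_sqrt (by norm_num)] at c2
          norm_num at c2 ⊢
          linarith only [c2]
        have k7 : tanh (π * bl θ' w.re) ^ 2 * (1 + sinh (π * bl θ' w.re) ^ 2) =
            sinh (π * bl θ' w.re) ^ 2 := by
          rw [tanh_eq_sinh_div_cosh, div_pow, cosh_sq]
          have : sinh (π * bl θ' w.re) ^ 2 + 1 ≠ 0 := by positivity
          field_simp
          ring
        have k8 : 1 / 8 ≤ sinh (π * bl θ' w.re) ^ 2 := by rw [k5]; nlinarith only [ht', k6]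
        have k9 : tanh (π * bl θ' w.re) ^ 2 ≤ 1 / 100 := by nlinarith only [k3, k4]
        have k10 : tanh (π * bl θ' w.re) ^ 2 * (1 + sinh (π * bl θ' w.re) ^ 2) ≤
            1 / 100 * (1 + sinh (π * bl θ' w.re) ^ 2) :=
          mul_le_mul_of_nonneg_right k9 (by positivity)
        linarith only [k7, k8, k10]
      have g7 : sinh (π * h) ^ 2 ≤ 7 / 100 := by
        have k7 : tanh (π * h) ^ 2 * (1 + sinh (π * h) ^ 2) = sinh (π * h) ^ 2 := by
          rw [tanh_eq_sinh_div_cosh, div_pow, cosh_sq]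
          have : sinh (π * h) ^ 2 + 1 ≠ 0 := by positivity
          field_simp
          ring
        have k8 : tanh (π * h) ^ 2 ≤ 1 / 100 := by nlinarith only [hn0, n1, n3]
        have k9 : tanh (π * h) ^ 2 * (1 + sinh (π * h) ^ 2) ≤ 1 / 100 * (1 + sinh (π * h) ^ 2) :=
          mul_le_mul_of_nonneg_right k8 (by positivity)
        linarith only [k7, k9]
      refine ⟨h, -(ε - κ * (a' - x0)), by linarith only [hε2], Or.inr ⟨by rw [← hh]; exact hy, hy⟩, g1, g7,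
        fun t ht2 => ?_⟩
      have := line h κ ε hκ g1 hy.ne g7 (by linarith only [hβ, hy]) (by
        intro a ha t ht' hg
        exact R.neg θ a t h W θ0 θ1 ha.1.le ha.2 (by linarith only [ht'.1]) ht'.2 hy.le o n2 n1 hg) (by
        intro t ht'
        have := hbase t ht'
        linarith only [hε1, this]) a' ⟨ha'.1.le, ha'.2⟩ t ht2
      linarith only [this]
    · -- zero
      obtain ⟨p1, p2⟩ := B.P hy.ge
      rw [hy] at hbase p1
      rw [mul_zero, tanh_zero, zero_add] at p1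
      obtain ⟨h, s1, s2, s3⟩ := small_height (V := vl θ x0) (W := W) (L := l x0 + ε)
        (k := 49 / 100 * tan θ / π) (by positivity) (fun t ht' => by
          have := hbase t ht'
          linarith only [hε1, this])
      have s4 : tanh (π * h) ≤ 49 / 100 * tan θ := by
        have q1 := tanh_le_self (x := π * h) (by positivity)
        rw [le_div_iff₀ hpi] at s2
        linarith only [s2, q1]
      have s5 : 0 ≤ tanh (π * h) := tanh_nonneg_of (by positivity)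
      exact ps h s1 (by linarith only [p1, s5]) s4 s3
    · -- positive
      obtain ⟨p1, p2⟩ := B.P hy.le
      exact ps _ hy p1 p2 (fun t ht' => by
        have := hbase t ht'
        linarith only [hε1, this])
  have vabs : |v.re| = v.re := abs_of_nonneg hv0
  -- the vertical
  have vert : ∀ η : ℝ, 0 ≤ η → η ≤ β → 13 / 40 ≤ v.re → v.im = η → cmp (13 / 40) v = vu η →
      ∃ h : ℝ, (0 ≤ h ∨ (yv (vl θ x0) w).im < 0) ∧ Flt Φ θ θ' xc xc' b b' μ μ' w v h := by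
    intro η e0 e1 e2 e3 e4
    obtain ⟨h, ε, ε0, f1, f2, f3, f4⟩ := hts (13 / 40) ⟨by linarith only [hx1], le_rfl⟩
    have f5 : ∀ t ∈ Icc (0 : ℝ) (1 / 2),
        EE (.op (vu β)) (.op W) ((t : ℂ) + (h : ℂ) * Complex.I) < l (13 / 40) - ε := by
      intro t ht'
      rw [evu]
      exact f4 t ht'
    have hLM : LM Φ θ θ' b b' xc xc' (13 / 40) (2 / 5) μ μ' v w = l (13 / 40) - μ * (β - η) := by
      rw [LM_beyond (by norm_num) e2, hl1 _ (by norm_num) le_rfl, e3, hβd]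
    rcases f1 with ⟨h0, hC⟩ | ⟨hy, h0⟩
    · -- positive height
      obtain ⟨K, hK⟩ : ∃ K, K = 2 * max μ 0 / β := ⟨_, rfl⟩
      have K0 : 0 ≤ K := by rw [hK]; have := le_max_right μ 0; positivity
      have K1 : K * β = 2 * max μ 0 := by rw [hK]; field_simp
      have K2 : K * β ≤ π / 10 := by
        rw [K1]
        rcases hμ with hμ | ⟨hμ, -⟩
        · rw [max_eq_right hμ]; linarith only [θ0, θ1]
        · have : max μ 0 ≤ π / 20 := max_le hμ (by positivity)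
          linarith only [this]
      have K3 : K ≤ 241 / 100 * π := by
        rcases hμ with hμ | ⟨-, hμ⟩
        · rw [hK, max_eq_right hμ]
          have : (2 : ℝ) * 0 / β = 0 := by ring
          rw [this]; positivity
        · have k1 := beta_low θ0 θ1 hμ
          rw [← hβd] at k1
          have k2 : K * (100 / 2410) ≤ K * β := mul_le_mul_of_nonneg_left k1 K0
          linarith only [K2, k2]
      obtain ⟨Hh, m1, m2, m3⟩ := vert_all' o R.cm1 R.g1 rw0 rw1 rwi hβ h0 hC hβ2 K3 K2 K0 f5 η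
        ⟨e0, e1⟩
      have hHs : sinh (π * Hh) ^ 2 ≤ 7 / 100 := by
        have k1 : 0 ≤ sinh (π * Hh) := sinh_nonneg_iff.2 (by positivity)
        have k2 : sinh (π * Hh) ≤ sinh (π * h) :=
          sinh_le_sinh.2 (mul_le_mul_of_nonneg_left m2 hpi.le)
        have := pow_le_pow_left₀ k1 k2 2
        linarith only [f3, this]
      refine ⟨Hh, Or.inl m1, habs _ hHs, fun t ht' => ?_⟩
      rw [← hW, e4, hLM]
      refine (m3 t ht').trans_lt ?_
      have q1 : μ * (β - η) ≤ max μ 0 * (β - η) :=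
        mul_le_mul_of_nonneg_right (le_max_left _ _) (by linarith only [e1])
      have q2 : max μ 0 * (β - η) ≤ K * (β ^ 2 - η ^ 2) / 2 := by
        have q3 : 0 ≤ K * (β - η) * η := mul_nonneg (mul_nonneg K0 (by linarith only [e1])) e0
        have q4 : K * (β ^ 2 - η ^ 2) / 2 = (K * β) * (β - η) / 2 + K * (β - η) * η / 2 := by ring
        rw [q4, K1]
        linarith only [q3]
      linarith only [ε0, q1, q2]
    · -- negative height
      have hS := (B.N hy).2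
      have μ0 : μ ≤ 0 := by
        rcases hμ with hμ | ⟨-, hμ⟩
        · exact hμ
        · exfalso
          nlinarith only [hsm, T0, hS, hμ]
      refine ⟨h, Or.inr hy, habs _ f3, fun t ht' => ?_⟩
      rw [← hW, e4, hLM]
      refine (vert_neg h0 f2 ht' e0 e1).trans_lt ((f5 t ht').trans_le ?_)
      have : μ * (β - η) ≤ 0 := mul_nonpos_of_nonpos_of_nonneg μ0 (by linarith only [e1])
      linarith only [ε0, this]
  rcases hv with ⟨g1, g2⟩ | ⟨g1, g2, g3⟩ | ⟨g1, g2, g3⟩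
  · -- on the line
    rw [vabs] at g1
    have ev : v = vl θ v.re := by
      apply Complex.ext
      · rw [vl_re]
      · rw [vl_im, g2]
    have ec : cmp (13 / 40) v = v := if_pos g1
    obtain ⟨h, ε, ε0, f1, f2, f3, f4⟩ := hts v.re ⟨hva, g1⟩
    refine ⟨h, ?_, habs _ f3, fun t ht' => ?_⟩
    · rcases f1 with ⟨q, -⟩ | ⟨q, -⟩
      · exact Or.inl q.le
      · exact Or.inr q
    · have := f4 t ht'
      rw [← hl1 _ hv0 g1, ← ev] at this
      rw [← hW, ec]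
      linarith only [ε0, this]
  · rw [vabs] at g1
    refine vert v.im g2 (by rw [hβd]; exact g3) g1.ge rfl ?_
    have ec : cmp (13 / 40) v = v := if_pos g1.le
    rw [ec]
    apply Complex.ext
    · rw [vu_re, g1]
    · rw [vu_im]
  · rw [vabs] at g1
    refine vert 0 le_rfl hβ.le g1 g3 ?_
    unfold cmp
    split_ifs with hc
    · apply Complex.ext
      · rw [vu_re]; linarith only [g1, hc]
      · rw [vu_im, g3]
    · apply Complex.ext
      · rw [vu_re, Complex.ofReal_re]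
      · rw [vu_im, Complex.ofReal_im]

/-- **The flats of the hole.** -/
theorem OO.holeH (H : OO Φ θ θ' xc xc' b b' (13 / 40) (2 / 5)) (ht : tan θ ^ 2 ≤ 1 / 4)
    (ht' : 1 / 4 ≤ tan θ' ^ 2) {x0 k1 c1 c0 n0 sm g cm Φ0 : ℝ} (R : RowOK x0 k1 c1 c0 n0 sm g cm)
    (hx0 : 29 / 100 ≤ x0) (hx1 : x0 ≤ 31 / 100) (hk1 : tan θ ^ 2 ≤ k1) (hsm : sm ≤ 21 / 100)
    (hn0 : n0 ≤ 1 / 10) (hw0 : 0 ≤ w.re) (hw1 : w.re ≤ 1 / 4) (hwl : w.im = bl θ' w.re)
    (o : Oth ((starRingEnd ℂ) w) g cm)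
    (hbase : ∀ t ∈ Icc (0 : ℝ) (1 / 2), EE (.op (vl θ x0)) (.op ((starRingEnd ℂ) w))
      ((t : ℂ) + ((yv (vl θ x0) w).im : ℂ) * Complex.I) ≤ Φ0)
    (hΦ0 : Φ0 ≤ LM Φ θ θ' b b' xc xc' (13 / 40) (2 / 5) μ μ' (vl θ x0) w)
    (B : Bse θ θ' x0 c1 c0 n0 sm w)
    (hr : ∀ x ∈ Icc x0 (13 / 40),
      rl b (gdv (UU xc θ)) (qq (UU xc θ) (UU xc' (-θ'))) θ x ≤ r3 θ x)
    (hs : (∀ x ∈ Icc x0 (13 / 40),
      rl b (gdv (UU xc θ)) (qq (UU xc θ) (UU xc' (-θ'))) θ x < r3 θ x) ∨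
      Φ0 < LM Φ θ θ' b b' xc xc' (13 / 40) (2 / 5) μ μ' (vl θ x0) w)
    (hμ : μ ≤ 0 ∨ (μ ≤ π / 20 ∧ 7 / 100 ≤ tan θ ^ 2))
    (hEnd : ∀ v : ℂ, v ∈ G0 θ (13 / 40) → 0 ≤ v.re → π * (v.im + w.im) <
      LM Φ θ θ' b b' xc xc' (13 / 40) (2 / 5) μ μ' v w) :
    ∀ v : ℂ, v ∈ G0 θ (13 / 40) → x0 < v.re → ∃ h : ℝ, |h| ≤ 1 ∧
      (∀ Y ∈ Set.uIcc 0 h, EE (.op (cmp (13 / 40) v)) (.op ((starRingEnd ℂ) (cmp (2 / 5) w)))
        ((Y : ℂ) * Complex.I) < LM Φ θ θ' b b' xc xc' (13 / 40) (2 / 5) μ μ' v w) ∧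
      ∀ t ∈ Icc (0 : ℝ) (1 / 2),
        EE (.op (cmp (13 / 40) v)) (.op ((starRingEnd ℂ) (cmp (2 / 5) w)))
          ((t : ℂ) + h * Complex.I) < LM Φ θ θ' b b' xc xc' (13 / 40) (2 / 5) μ μ' v w := by
  intro v hv hva
  have hv0 : 0 ≤ v.re := by linarith only [hx0, hva]
  have hpi := pi_pos
  obtain ⟨θ0', θ1', tθ1'⟩ := H.hθ'
  have blw : 0 < bl θ' w.re := bl_pos_of θ0' θ1' (by rw [abs_of_nonneg hw0]; linarith only [hw1])
  have ew : cmp (2 / 5) w = w := if_pos (by linarith only [hw1])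
  have hw : w ∈ G0 θ' (2 / 5) := Or.inl ⟨by rw [abs_of_nonneg hw0]; linarith only [hw1], hwl⟩
  obtain ⟨h, f1, f2, f3⟩ := OO.holeF H ht ht' R hx0 hx1 hk1 hsm hn0 hw0 hw1 hwl o hbase hΦ0 B hr hs
    hμ v hv hva
  rw [ew]
  have ux := cmp_und H.hv1 hv hv0 H.hθ
  have hxr : x0 ≤ (cmp (13 / 40) v).re := by
    unfold cmp
    split_ifs with hc
    · exact hva.le
    · rw [Complex.ofReal_re]; linarith only [hx1]
  have hE := hEnd v hv hv0
  have e0 := f3 0 ⟨le_rfl, by norm_num⟩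
  refine ⟨h, f2, ?_, f3⟩
  intro Y hY
  rcases le_total 0 h with h0 | h0
  · rw [uIcc_of_le h0] at hY
    have k := left_hole_pos (v := cmp (13 / 40) v) (w := w) (by linarith only [hx0, hxr]) ux.re1 ux.im0 hw0 hw1
      (by rw [hwl]; exact blw.le) (by
        rw [hwl, sinh_pi_bl, mul_pow]
        nlinarith only [tθ1']) hY.1 hY.2
    refine k.trans_lt (max_lt ?_ e0)
    rw [cmp_im hv hv0]
    exact hE
  · rw [uIcc_of_ge h0] at hY
    rcases f1 with q | q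
    · have hh : h = 0 := le_antisymm h0 q
      rw [hh] at hY e0
      have hY0 : Y = 0 := le_antisymm hY.2 hY.1
      rw [hY0]
      have e1 : (((0 : ℝ) : ℂ)) * Complex.I = ((0 : ℝ) : ℂ) + ((0 : ℝ) : ℂ) * Complex.I := by
        push_cast; ring
      rw [e1]
      exact e0
    · have hvx : vl θ x0 ∈ G0 θ (13 / 40) :=
        Or.inl ⟨by rw [vl_re, abs_of_nonneg (by linarith only [hx0])]; linarith only [hx1], by rw [vl_im, vl_re]⟩
      have hp := H.pr hvx (by rw [vl_re]; linarith only [hx0]) hw hw0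
      rw [ew, show cmp (13 / 40) (vl θ x0) = vl θ x0 from if_pos (by rw [vl_re]; linarith only [hx1])] at hp
      have hb := pp_base hp (by rw [vl_im, vl_re]) (by rw [vl_re]; exact hx0) ht hwl hw1 ht' q.le
      rw [vl_re, vl_im] at hb
      have hpw : 0 ≤ pp w.re w.im := pp_nonneg hw0 (by linarith only [hw1]) (by rw [hwl]; exact blw.le)
      have hb2 := pp_cont H.hθ (by linarith only [hx0]) hv hva.le hpw hb
      have k := left_hole_neg (v := cmp (13 / 40) v) (w := w) (by linarith only [hx0, hxr])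
        (by linarith only [ux.re1]) ux.im0 hw0 (by linarith only [hw1]) (by rw [hwl]; exact blw.le) hb2 hY.2 hY.1
      refine k.trans_lt (max_lt ?_ e0)
      rw [cmp_im hv hv0]
      exact hE

end

end Pool.Agent.S3.T2
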