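import Pool.Agent.S3.W2.Ang
import Pool.Agent.S3.W2.Scheme

/-!
# The quantities of a slide in rational coordinates
-/

set_option autoImplicit false

namespace Pool.Agent.S3.Ho

open Real

/-- Rational coordinates of a vertex `a + i β` and a point `t + i h`. -/
structure Crd (a β t h p b z k : ℝ) : Prop where
  a0 : 0 < a
  a1 : a < 1 / 2
  t0 : 0 ≤ t
  t1 : t ≤ 1 / 2
  hp : p = tan (π * a)
  hb : b = tanh (π * β)
  hz : z = tan (π * t / 2)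
  hk : k = tanh (π * h)

section

variable {a β t h p b z k : ℝ}

theorem one_sub_tanh (x : ℝ) : cosh x ^ 2 * (1 - tanh x ^ 2) = 1 := by
  have h1 := (cosh_pos x).ne'
  rw [tanh_eq_sinh_div_cosh]
  field_simp
  linarith [cosh_sq x]

theorem sinh_eq (x : ℝ) : sinh x = tanh x * cosh x := by
  have h1 := (cosh_pos x).ne'
  rw [tanh_eq_sinh_div_cosh]
  field_simp

/-- The basic relations. -/
structure Bas (a β t h p b z k : ℝ) : Prop where
  ca : 0 < cos (π * a)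
  ca2 : cos (π * a) ^ 2 * (1 + p ^ 2) = 1
  sa : sin (π * a) = p * cos (π * a)
  cb : 0 < cosh (π * β)
  cb2 : cosh (π * β) ^ 2 * (1 - b ^ 2) = 1
  sb : sinh (π * β) = b * cosh (π * β)
  ch : 0 < cosh (π * h)
  ch2 : cosh (π * h) ^ 2 * (1 - k ^ 2) = 1
  sh : sinh (π * h) = k * cosh (π * h)
  st : (1 + z ^ 2) * sin (π * t) = 2 * z
  ct : (1 + z ^ 2) * cos (π * t) = 1 - z ^ 2
  p0 : 0 < p
  z0 : 0 ≤ z
  z1 : z ≤ 1
  b2 : b ^ 2 < 1
  k2 : k ^ 2 < 1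

theorem Crd.bas (c : Crd a β t h p b z k) : Bas a β t h p b z k := by
  obtain ⟨a0, a1, t0, t1, hp, hb, hz, hk⟩ := c
  have hpi := pi_pos
  have ca : 0 < cos (π * a) := cos_pos_of (by linarith) a1
  have hm0 : 0 ≤ π * t / 2 := by positivity
  have hm1 : π * t / 2 ≤ π / 4 := by nlinarith
  have cm : 0 < cos (π * t / 2) := cos_pos_of_mem_Ioo ⟨by linarith, by linarith⟩
  have e1 : π * t = 2 * (π * t / 2) := by ring
  have e2 : sin (π * t / 2) = z * cos (π * t / 2) := by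
    rw [hz, tan_eq_sin_div_cos]; field_simp
  have e3 : cos (π * t / 2) ^ 2 * (1 + z ^ 2) = 1 := by
    have := sin_sq_add_cos_sq (π * t / 2)
    rw [e2] at this
    linarith
  refine ⟨ca, ?_, ?_, cosh_pos _, ?_, ?_, cosh_pos _, ?_, ?_, ?_, ?_, ?_, ?_, ?_, ?_, ?_⟩
  · rw [hp, tan_eq_sin_div_cos]
    field_simp
    linarith [sin_sq_add_cos_sq (π * a)]
  · rw [hp, tan_eq_sin_div_cos]; field_simp
  · rw [hb]; exact one_sub_tanh _
  · rw [hb]; exact sinh_eq _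
  · rw [hk]; exact one_sub_tanh _
  · rw [hk]; exact sinh_eq _
  · rw [e1, sin_two_mul, e2]
    linear_combination 2 * z * e3
  · rw [e1, cos_two_mul]
    linear_combination 2 * e3
  · rw [hp]; exact tan_pos_of_pos_of_lt_pi_div_two (by positivity) (by nlinarith)
  · rw [hz]; exact tan_nonneg_of_nonneg_of_le_pi_div_two hm0 (by linarith)
  · rw [hz, ← tan_pi_div_four]
    exact strictMonoOn_tan.monotoneOn ⟨by linarith, by linarith⟩ ⟨by linarith, by linarith⟩ hm1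
  · rw [hb]; exact T2.tanh_sq_lt _
  · rw [hk]; exact T2.tanh_sq_lt _

/-- The common denominator. -/
noncomputable def Fd (p b z k : ℝ) : ℝ := (1 + z ^ 2) ^ 2 * (1 + p ^ 2) * (1 - b ^ 2) * (1 - k ^ 2)

/-- numerator of `|sin (π (y - v))| ^ 2` -/
noncomputable def dd (p b z k : ℝ) : ℝ := (1 - k * b) ^ 2 * (2 * z - (1 - z ^ 2) * p) ^ 2 +
  (b - k) ^ 2 * ((1 - z ^ 2) + 2 * z * p) ^ 2

/-- numerator of `|sin (π (y + v))| ^ 2` -/
noncomputable def ee (p b z k : ℝ) : ℝ := (1 + k * b) ^ 2 * (2 * z + (1 - z ^ 2) * p) ^ 2 +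
  (b + k) ^ 2 * ((1 - z ^ 2) - 2 * z * p) ^ 2

theorem Bas.Fpos (c : Bas a β t h p b z k) : 0 < Fd p b z k := by
  have h1 := c.b2
  have h2 := c.k2
  have h3 : 0 < 1 - b ^ 2 := by linarith
  have h4 : 0 < 1 - k ^ 2 := by linarith
  unfold Fd
  positivity

theorem norm_sin_line (x y : ℝ) : ‖Complex.sin (π * ((x : ℂ) + y * Complex.I))‖ ^ 2 =
    sin (π * x) ^ 2 * cosh (π * y) ^ 2 + cos (π * x) ^ 2 * sinh (π * y) ^ 2 := by
  rw [norm_sin_pi_sq]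
  have h1 := cosh_sq (π * y)
  have h2 := sin_sq_add_cos_sq (π * x)
  linear_combination (-sin (π * x) ^ 2) * h1 - sinh (π * y) ^ 2 * h2

theorem Bas.norm_sub (c : Bas a β t h p b z k) :
    ‖Complex.sin (π * (((t : ℂ) + h * Complex.I) - ((a : ℂ) + β * Complex.I)))‖ ^ 2 *
      Fd p b z k = dd p b z k := by
  have e : ((t : ℂ) + h * Complex.I) - ((a : ℂ) + β * Complex.I) =
      ((t - a : ℝ) : ℂ) + ((h - β : ℝ) : ℂ) * Complex.I := by push_cast; ring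
  rw [e, norm_sin_line]
  obtain ⟨ca, ca2, sa, cb, cb2, sb, ch, ch2, sh, st, ct, -, -, -, -, -⟩ := c
  have s1 : (1 + z ^ 2) * sin (π * (t - a)) = cos (π * a) * (2 * z - (1 - z ^ 2) * p) := by
    rw [mul_sub, sin_sub, sa]
    linear_combination cos (π * a) * st - p * cos (π * a) * ct
  have c1 : (1 + z ^ 2) * cos (π * (t - a)) = cos (π * a) * ((1 - z ^ 2) + 2 * z * p) := by
    rw [mul_sub, cos_sub, sa]
    linear_combination cos (π * a) * ct + p * cos (π * a) * st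
  have s2 : sinh (π * (h - β)) = cosh (π * h) * cosh (π * β) * (k - b) := by
    rw [mul_sub, sinh_sub, sb, sh]; ring
  have c2 : cosh (π * (h - β)) = cosh (π * h) * cosh (π * β) * (1 - k * b) := by
    rw [mul_sub, cosh_sub, sb, sh]; ring
  unfold Fd dd
  calc _ = ((1 + z ^ 2) * sin (π * (t - a))) ^ 2 * cosh (π * (h - β)) ^ 2 * (1 + p ^ 2) *
        (1 - b ^ 2) * (1 - k ^ 2) + ((1 + z ^ 2) * cos (π * (t - a))) ^ 2 *
        sinh (π * (h - β)) ^ 2 * (1 + p ^ 2) * (1 - b ^ 2) * (1 - k ^ 2) := by ring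
    _ = (cos (π * a) ^ 2 * (1 + p ^ 2)) * (cosh (π * β) ^ 2 * (1 - b ^ 2)) *
        (cosh (π * h) ^ 2 * (1 - k ^ 2)) * ((1 - k * b) ^ 2 * (2 * z - (1 - z ^ 2) * p) ^ 2 +
        (b - k) ^ 2 * ((1 - z ^ 2) + 2 * z * p) ^ 2) := by rw [s1, c1, s2, c2]; ring
    _ = _ := by rw [ca2, cb2, ch2]; ring

theorem Bas.norm_add (c : Bas a β t h p b z k) :
    ‖Complex.sin (π * (((t : ℂ) + h * Complex.I) + ((a : ℂ) + β * Complex.I)))‖ ^ 2 *
      Fd p b z k = ee p b z k := by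
  have e : ((t : ℂ) + h * Complex.I) + ((a : ℂ) + β * Complex.I) =
      ((t + a : ℝ) : ℂ) + ((h + β : ℝ) : ℂ) * Complex.I := by push_cast; ring
  rw [e, norm_sin_line]
  obtain ⟨ca, ca2, sa, cb, cb2, sb, ch, ch2, sh, st, ct, -, -, -, -, -⟩ := c
  have s1 : (1 + z ^ 2) * sin (π * (t + a)) = cos (π * a) * (2 * z + (1 - z ^ 2) * p) := by
    rw [mul_add, sin_add, sa]
    linear_combination cos (π * a) * st + p * cos (π * a) * ct
  have c1 : (1 + z ^ 2) * cos (π * (t + a)) = cos (π * a) * ((1 - z ^ 2) - 2 * z * p) := by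
    rw [mul_add, cos_add, sa]
    linear_combination cos (π * a) * ct - p * cos (π * a) * st
  have s2 : sinh (π * (h + β)) = cosh (π * h) * cosh (π * β) * (k + b) := by
    rw [mul_add, sinh_add, sb, sh]; ring
  have c2 : cosh (π * (h + β)) = cosh (π * h) * cosh (π * β) * (1 + k * b) := by
    rw [mul_add, cosh_add, sb, sh]; ring
  unfold Fd ee
  calc _ = ((1 + z ^ 2) * sin (π * (t + a))) ^ 2 * cosh (π * (h + β)) ^ 2 * (1 + p ^ 2) *
        (1 - b ^ 2) * (1 - k ^ 2) + ((1 + z ^ 2) * cos (π * (t + a))) ^ 2 *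
        sinh (π * (h + β)) ^ 2 * (1 + p ^ 2) * (1 - b ^ 2) * (1 - k ^ 2) := by ring
    _ = (cos (π * a) ^ 2 * (1 + p ^ 2)) * (cosh (π * β) ^ 2 * (1 - b ^ 2)) *
        (cosh (π * h) ^ 2 * (1 - k ^ 2)) * ((1 + k * b) ^ 2 * (2 * z + (1 - z ^ 2) * p) ^ 2 +
        (b + k) ^ 2 * ((1 - z ^ 2) - 2 * z * p) ^ 2) := by rw [s1, c1, s2, c2]; ring
    _ = _ := by rw [ca2, cb2, ch2]; ring

/-- `M = (1 + z ^ 2) ^ 2 (1 - k ^ 2)`. -/
noncomputable def Md (z k : ℝ) : ℝ := (1 + z ^ 2) ^ 2 * (1 - k ^ 2)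

theorem Bas.Mpos (c : Bas a β t h p b z k) : 0 < Md z k := by
  have h2 := c.k2
  have h4 : 0 < 1 - k ^ 2 := by linarith
  unfold Md
  positivity

theorem Bas.cc_norm (c : Bas a β t h p b z k) :
    Md z k * ‖cc ((t : ℂ) + h * Complex.I)‖ = (1 - z ^ 2) ^ 2 + (2 * z) ^ 2 * k ^ 2 := by
  rw [Pool.Agent.S3.cc_norm]
  obtain ⟨ca, ca2, sa, cb, cb2, sb, ch, ch2, sh, st, ct, -, -, -, -, -⟩ := c
  have k1 : (1 - k ^ 2) * sinh (π * h) ^ 2 = k ^ 2 := by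
    rw [sh]; linear_combination k ^ 2 * ch2
  have k2 : ((1 + z ^ 2) * cos (π * t)) ^ 2 = (1 - z ^ 2) ^ 2 := by rw [ct]
  unfold Md
  linear_combination (1 - k ^ 2) * k2 + (1 + z ^ 2) ^ 2 * k1

theorem Bas.cc_re (c : Bas a β t h p b z k) :
    Md z k * (cc ((t : ℂ) + h * Complex.I)).re = (1 - z ^ 2) ^ 2 - (2 * z) ^ 2 * k ^ 2 := by
  rw [Pool.Agent.S3.cc_re]
  obtain ⟨ca, ca2, sa, cb, cb2, sb, ch, ch2, sh, st, ct, -, -, -, -, -⟩ := c
  have k1 : (1 - k ^ 2) * sinh (π * h) ^ 2 = k ^ 2 := by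
    rw [sh]; linear_combination k ^ 2 * ch2
  have k2 : ((1 + z ^ 2) * cos (π * t)) ^ 2 = (1 - z ^ 2) ^ 2 := by rw [ct]
  unfold Md
  linear_combination (1 - k ^ 2) * k2 + (2 * (1 + z ^ 2) ^ 2 * cos (π * t) ^ 2 - (1 + z ^ 2) ^ 2) * k1 +
    2 * k ^ 2 * k2

theorem Bas.cc_im (c : Bas a β t h p b z k) :
    Md z k * (cc ((t : ℂ) + h * Complex.I)).im = -(2 * ((2 * z) * (1 - z ^ 2) * k)) := by
  rw [Pool.Agent.S3.cc_im]
  obtain ⟨ca, ca2, sa, cb, cb2, sb, ch, ch2, sh, st, ct, -, -, -, -, -⟩ := c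
  have k1 : (1 - k ^ 2) * (sinh (π * h) * cosh (π * h)) = k := by
    rw [sh]; linear_combination k * ch2
  have k2 : ((1 + z ^ 2) * sin (π * t)) * ((1 + z ^ 2) * cos (π * t)) = 2 * z * (1 - z ^ 2) := by
    rw [st, ct]
  unfold Md
  linear_combination (-2 * ((1 + z ^ 2) ^ 2 * (sin (π * t) * cos (π * t)))) * k1 - 2 * k * k2

/-- `|1 - cos² (π y)| = |sin (π y)| ^ 2` -/
theorem Bas.one_sub_cc (c : Bas a β t h p b z k) :
    Md z k * ‖1 - cc ((t : ℂ) + h * Complex.I)‖ = (2 * z) ^ 2 + (1 - z ^ 2) ^ 2 * k ^ 2 := by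
  have e : 1 - cc ((t : ℂ) + h * Complex.I) = Complex.sin (π * ((t : ℂ) + h * Complex.I)) ^ 2 := by
    unfold cc
    linear_combination -Complex.sin_sq_add_cos_sq (π * ((t : ℂ) + h * Complex.I))
  rw [e, norm_pow, norm_sin_line]
  obtain ⟨ca, ca2, sa, cb, cb2, sb, ch, ch2, sh, st, ct, -, -, -, -, -⟩ := c
  have k1 : (1 - k ^ 2) * sinh (π * h) ^ 2 = k ^ 2 := by
    rw [sh]; linear_combination k ^ 2 * ch2
  have k2 : ((1 + z ^ 2) * cos (π * t)) ^ 2 = (1 - z ^ 2) ^ 2 := by rw [ct]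
  have k3 : ((1 + z ^ 2) * sin (π * t)) ^ 2 = (2 * z) ^ 2 := by rw [st]
  unfold Md
  linear_combination k3 * (cosh (π * h) ^ 2 * (1 - k ^ 2)) + (2 * z) ^ 2 * ch2 +
    (1 + z ^ 2) ^ 2 * cos (π * t) ^ 2 * k1 + k ^ 2 * k2

end

end Pool.Agent.S3.Ho
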