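import Pool.Agent.S3.Ho.KRng
import Pool.Agent.S3.W2.Scheme

/-!
# Two-sided ranges of the heights: the conclusion
-/

set_option autoImplicit false

namespace Pool.Agent.S3.T2

open Real NI Ho

/-- the constants -/
structure KD (x0 : ℝ) (P : KP) (kl kh : ℝ) : Prop where
  m1 : Mem (cos (π * x0) ^ 2) P.c0
  m2 : Mem (sin (π * x0)) P.s0
  m3 : Mem kl P.kl
  m4 : Mem kh P.kh
  x1 : 1 / 4 ≤ x0
  x2 : x0 ≤ 2 / 5

/-- **The range of the height from the branch and bound.** -/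
theorem kb_of {θ θ' x0 kl kh S' : ℝ} {w : ℂ} {P : KP} {pat : List ℕ} {A B C : N}
    (hbb : bb (ktest P) pat A B C one = true) (R : KD x0 P kl kh)
    (hp : Pr θ θ' (vl θ x0) w) (hw : sinh (π * w.im) = S' * cos (π * w.re)) (hS1 : tan θ ≤ 1)
    (hS1' : S' ≤ 1) (mA : Mem (tan θ) A) (mB : Mem S' B) (mC : Mem (sin (π * w.re)) C) :
    kl * tan θ ≤ sinh (π * (yv (vl θ x0) w).im) ∧
      sinh (π * (yv (vl θ x0) w).im) ≤ kh * tan θ := by
  have hpi := pi_pos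
  have S0 := mA.nonneg
  have S0' := mB.nonneg
  have hv : sinh (π * (vl θ x0).im) = tan θ * cos (π * (vl θ x0).re) := by
    rw [vl_im, vl_re, sinh_pi_bl]
  have cx : 0 < cos (π * x0) := cos_pos_of (by linarith [R.x1]) (by linarith [R.x2])
  have cw : 0 < cos (π * w.re) := cos_pi_pos hp.hw.abs
  have c2 : cos (π * x0) ^ 2 ≤ 1 / 2 := by
    have k : cos (π * x0) ≤ cos (π / 4) := by
      apply cos_le_cos_of_nonneg_of_le_pi (by positivity)
      · have := R.x2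
        nlinarith
      · have := R.x1
        nlinarith
    rw [cos_pi_div_four] at k
    have := pow_le_pow_left₀ cx.le k 2
    have e : (√2 / 2) ^ 2 = 1 / 2 := by rw [div_pow, sq_sqrt (by norm_num)]; norm_num
    linarith
  have Q := bb_sound (P := fun S S' s _ => S ≤ 1 → S' ≤ 1 → s ^ 2 ≤ 1 →
      KPrp (cos (π * x0) ^ 2) (sin (π * x0)) kl kh S S' s)
    (fun A B C D ht S S' s d a b c dd h1 h2 h3 =>
      ktest_sound R.m1 R.m2 R.m3 R.m4 c2 A B C D ht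
        S S' s d a b c dd h1 h2 h3) pat A B C one hbb (tan θ) S' (sin (π * w.re)) 1 mA mB mC
    mem_one hS1 hS1' (sin_sq_le_one _)
  obtain ⟨X, hX⟩ : ∃ x, x = Hg.ar (tan θ) (cos (π * x0) ^ 2) +
    Hg.ar S' (1 - sin (π * w.re) ^ 2) := ⟨_, rfl⟩
  obtain ⟨Y, hY⟩ : ∃ x, x = Hg.ai (tan θ) (sin (π * x0)) (cos (π * x0) ^ 2) -
    Hg.ai S' (sin (π * w.re)) (1 - sin (π * w.re) ^ 2) := ⟨_, rfl⟩
  obtain ⟨id, g1, g2⟩ := Hg.pair_id hp hv hw (X := X) (Y := Y) (by rw [vl_re]; exact hX)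
    (by rw [vl_re]; exact hY)
  have e : 1 - sin (π * w.re) ^ 2 = cos (π * w.re) ^ 2 := by
    have := sin_sq_add_cos_sq (π * w.re); linarith
  have X1 : 1 ≤ X := by
    rw [hX, e]
    exact X_ge (by positivity) (cos_sq_le_one _) (pow_le_one₀ S0 hS1) (by positivity)
      (cos_sq_le_one _) (pow_le_one₀ S0' hS1')
  obtain ⟨y, hy⟩ : ∃ y, y = yv (vl θ x0) w := ⟨_, rfl⟩
  rw [← hy] at id g1 g2 ⊢
  obtain ⟨Y0, q1, q2⟩ := Q X Y hX hY
  have hN : 0 < X ^ 2 + Y ^ 2 := by nlinarith [sq_nonneg Y]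
  have s0 : 0 ≤ sinh (π * y.im) := sinh_nonneg_iff.2 (mul_nonneg hpi.le (g1 Y0).le)
  have k30 := R.m3.nonneg
  have k40 := R.m4.nonneg
  constructor
  · by_contra hc
    push Not at hc
    have h2 : sinh (π * y.im) ^ 2 < (kl * tan θ) ^ 2 := pow_lt_pow_left₀ hc s0 two_ne_zero
    have := Hg.lt_of_test (σ := sinh (π * y.im) ^ 2) (t := (kl * tan θ) ^ 2)
      (q := ks (kl * tan θ)) (Y := Y) X1 (sq_nonneg _) (sq_nonneg _) rfl h2 hN
    unfold FF at q1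
    linarith
  · by_contra hc
    push Not at hc
    have h2 : (kh * tan θ) ^ 2 < sinh (π * y.im) ^ 2 :=
      pow_lt_pow_left₀ hc (mul_nonneg k40 S0) two_ne_zero
    have := Hg.lt_of_test (σ := (kh * tan θ) ^ 2) (t := sinh (π * y.im) ^ 2)
      (q := sinh (π * y.im) ^ 2 * (1 + sinh (π * y.im) ^ 2)) (Y := Y) X1 (sq_nonneg _)
      (sq_nonneg _) rfl h2 hN
    unfold FF ks at q2
    linarith

/-- The quotient for a point under the line. -/
theorem quot_of {θ θ' T : ℝ} {v w : ℂ} (hp : Pr θ θ' v w) (hT : tan θ' ≤ T) :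
    sinh (π * w.im) = sinh (π * w.im) / cos (π * w.re) * cos (π * w.re) ∧
      0 ≤ sinh (π * w.im) / cos (π * w.re) ∧ sinh (π * w.im) / cos (π * w.re) ≤ T := by
  have cw : 0 < cos (π * w.re) := cos_pi_pos hp.hw.abs
  have i0 : 0 ≤ sinh (π * w.im) := sinh_nonneg_iff.2 (mul_nonneg pi_pos.le hp.hw.im0)
  have i1 : sinh (π * w.im) ≤ tan θ' * cos (π * w.re) := by
    rw [← sinh_pi_bl]
    exact sinh_le_sinh.2 (mul_le_mul_of_nonneg_left hp.hw.im1 pi_pos.le)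
  refine ⟨by rw [div_mul_cancel₀ _ cw.ne'], div_nonneg i0 cw.le, ?_⟩
  rw [div_le_iff₀ cw]
  exact i1.trans (mul_le_mul_of_nonneg_right hT cw.le)

end Pool.Agent.S3.T2
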