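import Pool.Agent.S3.Ho.KN
import Pool.Agent.S3.Ho.KRngB

/-!
# Ranges of the heights, first vertex with two half twists, second one with at least three:
rows 0 to 1 (generated)
-/

set_option autoImplicit false

namespace Pool.Agent.S3.T2

open Real NI Ho

def KP0 : KP := ⟨⟨269401823, 269423299⟩, ⟨929323548, 929334287⟩,
    ⟨347892350, 347892351⟩, ⟨384399572, 384399573⟩⟩

theorem kcert_0 : bb (ktest KP0) [0, 0, 1, 0, 0, 1, 0, 0, 1, 0, 0, 1, 0, 0, 1]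
    ⟨588109871, 1073741824⟩ ⟨0, 344606701⟩ ⟨0, 267039592⟩ one = true := by
  decide +kernel

theorem kd_0 : KD (333 / 1000) KP0 (81 / 250) (179 / 500) where
  m1 := kmem_c_0
  m2 := kmem_s_0
  m3 := by constructor <;> norm_num [KP0]
  m4 := by constructor <;> norm_num [KP0]
  x1 := by norm_num
  x2 := by norm_num

/-- Row 0: `re v = 333 / 1000`, `0 ≤ re w ≤ 2 / 25`, `tan² θ' ≤ 103 / 1000`. -/
theorem k23_0 {θ θ' : ℝ} {w : ℂ} (hp : Pr θ θ' (vl θ (333 / 1000)) w) (w1 : 0 ≤ w.re)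
    (w2 : w.re ≤ 2 / 25) (t0 : 3 / 10 ≤ tan θ ^ 2) (t1 : tan θ ^ 2 ≤ 1)
    (hT : tan θ' ^ 2 ≤ 103 / 1000) :
    (81 / 250) * tan θ ≤ sinh (π * (yv (vl θ (333 / 1000)) w).im) ∧
      sinh (π * (yv (vl θ (333 / 1000)) w).im) ≤ (179 / 500) * tan θ := by
  have T0 : 0 < tan θ := tan_pos_of_pos_of_lt_pi_div_two hp.hθ.pos hp.hθ.lt
  have T0' : 0 < tan θ' := tan_pos_of_pos_of_lt_pi_div_two hp.hθ'.pos hp.hθ'.lt
  have hB : tan θ' ≤ 16047 / 50000 := by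
    by_contra hc
    push Not at hc
    nlinarith
  obtain ⟨e1, e2, e3⟩ := quot_of hp hB
  exact kb_of kcert_0 kd_0 hp e1 (by nlinarith) (by linarith) (kmem_S T0 t0 t1)
    (kmem_B_0 e2 e3) (kmem_w_0 w1 w2)

def KP1 : KP := ⟨⟨269401823, 269423299⟩, ⟨929323548, 929334287⟩,
    ⟨366145961, 366145962⟩, ⟨399431958, 399431959⟩⟩

theorem kcert_1 : bb (ktest KP1) [0, 1, 0, 1, 0, 1, 0, 1, 0, 1, 0, 1, 0, 1, 0]
    ⟨588109871, 1073741824⟩ ⟨268435456, 536870912⟩ ⟨0, 134582801⟩ one = true := by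
  decide +kernel

theorem kd_1 : KD (333 / 1000) KP1 (341 / 1000) (93 / 250) where
  m1 := kmem_c_0
  m2 := kmem_s_0
  m3 := by constructor <;> norm_num [KP1]
  m4 := by constructor <;> norm_num [KP1]
  x1 := by norm_num
  x2 := by norm_num

/-- Row 1: `re v = 333 / 1000`, `0 ≤ re w ≤ 1 / 25`, `1 / 16 ≤ tan² θ' ≤ 1 / 4`,
`w` on its line. -/
theorem k23_1 {θ θ' : ℝ} {w : ℂ} (hp : Pr θ θ' (vl θ (333 / 1000)) w) (w1 : 0 ≤ w.re)
    (w2 : w.re ≤ 1 / 25) (t0 : 3 / 10 ≤ tan θ ^ 2) (t1 : tan θ ^ 2 ≤ 1)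
    (hT : tan θ' ^ 2 ≤ 1 / 4) (hl : w.im = bl θ' w.re) (hT0 : 1 / 16 ≤ tan θ' ^ 2) :
    (341 / 1000) * tan θ ≤ sinh (π * (yv (vl θ (333 / 1000)) w).im) ∧
      sinh (π * (yv (vl θ (333 / 1000)) w).im) ≤ (93 / 250) * tan θ := by
  have T0 : 0 < tan θ := tan_pos_of_pos_of_lt_pi_div_two hp.hθ.pos hp.hθ.lt
  have T0' : 0 < tan θ' := tan_pos_of_pos_of_lt_pi_div_two hp.hθ'.pos hp.hθ'.lt
  have hB : tan θ' ≤ 1 / 2 := by
    by_contra hc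
    push Not at hc
    nlinarith
  have hB0 : 1 / 4 ≤ tan θ' := by
    by_contra hc
    push Not at hc
    nlinarith
  exact kb_of kcert_1 kd_1 hp (by rw [hl, sinh_pi_bl]) (by nlinarith) (by linarith)
    (kmem_S T0 t0 t1) (kmem_B_1 hB0 hB) (kmem_w_1 w1 w2)

end Pool.Agent.S3.T2
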