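import Pool.Agent.S3.Ho.KN
import Pool.Agent.S3.Ho.KRngB

/-!
# Ranges of the heights, first vertex with two half twists, second one with at least three:
rows 2 to 3 (generated)
-/

set_option autoImplicit false

namespace Pool.Agent.S3.T2

open Real NI Ho

def KP2 : KP := ⟨⟨269401823, 269423299⟩, ⟨929323548, 929334287⟩,
    ⟨357556027, 357556028⟩, ⟨396210733, 396210734⟩⟩

theorem kcert_2 : bb (ktest KP2) [0, 1, 0, 1, 0, 2, 0, 1, 0, 1, 0, 2, 0, 1, 0, 1, 0]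
    ⟨588109871, 1073741824⟩ ⟨268435456, 536870912⟩ ⟨134572062, 267039592⟩ one = true := by
  decide +kernel

theorem kd_2 : KD (333 / 1000) KP2 (333 / 1000) (369 / 1000) where
  m1 := kmem_c_0
  m2 := kmem_s_0
  m3 := by constructor <;> norm_num [KP2]
  m4 := by constructor <;> norm_num [KP2]
  x1 := by norm_num
  x2 := by norm_num

/-- Row 2: `re v = 333 / 1000`, `1 / 25 ≤ re w ≤ 2 / 25`, `1 / 16 ≤ tan² θ' ≤ 1 / 4`,
`w` on its line. -/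
theorem k23_2 {θ θ' : ℝ} {w : ℂ} (hp : Pr θ θ' (vl θ (333 / 1000)) w) (w1 : 1 / 25 ≤ w.re)
    (w2 : w.re ≤ 2 / 25) (t0 : 3 / 10 ≤ tan θ ^ 2) (t1 : tan θ ^ 2 ≤ 1)
    (hT : tan θ' ^ 2 ≤ 1 / 4) (hl : w.im = bl θ' w.re) (hT0 : 1 / 16 ≤ tan θ' ^ 2) :
    (333 / 1000) * tan θ ≤ sinh (π * (yv (vl θ (333 / 1000)) w).im) ∧
      sinh (π * (yv (vl θ (333 / 1000)) w).im) ≤ (369 / 1000) * tan θ := by
  have T0 : 0 < tan θ := tan_pos_of_pos_of_lt_pi_div_two hp.hθ.pos hp.hθ.lt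
  have T0' : 0 < tan θ' := tan_pos_of_pos_of_lt_pi_div_two hp.hθ'.pos hp.hθ'.lt
  have hB : tan θ' ≤ 1 / 2 := by
    by_contra hc
    push Not at hc
    nlinarith
  have hB0 : 1 / 4 ≤ tan θ' := by
    by_contra hc
    push Not at hc
    nlinarith
  exact kb_of kcert_2 kd_2 hp (by rw [hl, sinh_pi_bl]) (by nlinarith) (by linarith)
    (kmem_S T0 t0 t1) (kmem_B_1 hB0 hB) (kmem_w_2 w1 w2)

def KP3 : KP := ⟨⟨269401823, 269423299⟩, ⟨929323548, 929334287⟩,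
    ⟨311385128, 311385129⟩, ⟨370440929, 370440930⟩⟩

theorem kcert_3 : bb (ktest KP3) [0, 1, 0, 1, 0, 2, 0, 1, 0, 1, 0, 2, 0, 1, 0, 1, 0]
    ⟨588109871, 1073741824⟩ ⟨0, 344606701⟩ ⟨267018116, 517285862⟩ one = true := by
  decide +kernel

theorem kd_3 : KD (333 / 1000) KP3 (29 / 100) (69 / 200) where
  m1 := kmem_c_0
  m2 := kmem_s_0
  m3 := by constructor <;> norm_num [KP3]
  m4 := by constructor <;> norm_num [KP3]
  x1 := by norm_num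
  x2 := by norm_num

/-- Row 3: `re v = 333 / 1000`, `2 / 25 ≤ re w ≤ 4 / 25`, `tan² θ' ≤ 103 / 1000`. -/
theorem k23_3 {θ θ' : ℝ} {w : ℂ} (hp : Pr θ θ' (vl θ (333 / 1000)) w) (w1 : 2 / 25 ≤ w.re)
    (w2 : w.re ≤ 4 / 25) (t0 : 3 / 10 ≤ tan θ ^ 2) (t1 : tan θ ^ 2 ≤ 1)
    (hT : tan θ' ^ 2 ≤ 103 / 1000) :
    (29 / 100) * tan θ ≤ sinh (π * (yv (vl θ (333 / 1000)) w).im) ∧
      sinh (π * (yv (vl θ (333 / 1000)) w).im) ≤ (69 / 200) * tan θ := by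
  have T0 : 0 < tan θ := tan_pos_of_pos_of_lt_pi_div_two hp.hθ.pos hp.hθ.lt
  have T0' : 0 < tan θ' := tan_pos_of_pos_of_lt_pi_div_two hp.hθ'.pos hp.hθ'.lt
  have hB : tan θ' ≤ 16047 / 50000 := by
    by_contra hc
    push Not at hc
    nlinarith
  obtain ⟨e1, e2, e3⟩ := quot_of hp hB
  exact kb_of kcert_3 kd_3 hp e1 (by nlinarith) (by linarith) (kmem_S T0 t0 t1)
    (kmem_B_0 e2 e3) (kmem_w_3 w1 w2)

end Pool.Agent.S3.T2
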