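import Pool.Agent.S3.Ho.KN
import Pool.Agent.S3.Ho.KRngB

/-!
# Ranges of the heights, first vertex with two half twists, second one with at least three:
rows 4 to 6 (generated)
-/

set_option autoImplicit false

namespace Pool.Agent.S3.T2

open Real NI Ho

def KP4 : KP := ⟨⟨269401823, 269423299⟩, ⟨929323548, 929334287⟩,
    ⟨317827579, 317827580⟩, ⟨392989507, 392989508⟩⟩

theorem kcert_4 : bb (ktest KP4) [0, 1, 0, 1, 0, 2, 0, 1, 0, 1, 0, 2, 0, 1, 0, 1]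
    ⟨588109871, 1073741824⟩ ⟨268435456, 536870912⟩ ⟨267018116, 517285862⟩ one = true := by
  decide +kernel

theorem kd_4 : KD (333 / 1000) KP4 (37 / 125) (183 / 500) where
  m1 := kmem_c_0
  m2 := kmem_s_0
  m3 := by constructor <;> norm_num [KP4]
  m4 := by constructor <;> norm_num [KP4]
  x1 := by norm_num
  x2 := by norm_num

/-- Row 4: `re v = 333 / 1000`, `2 / 25 ≤ re w ≤ 4 / 25`, `1 / 16 ≤ tan² θ' ≤ 1 / 4`,
`w` on its line. -/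
theorem k23_4 {θ θ' : ℝ} {w : ℂ} (hp : Pr θ θ' (vl θ (333 / 1000)) w) (w1 : 2 / 25 ≤ w.re)
    (w2 : w.re ≤ 4 / 25) (t0 : 3 / 10 ≤ tan θ ^ 2) (t1 : tan θ ^ 2 ≤ 1)
    (hT : tan θ' ^ 2 ≤ 1 / 4) (hl : w.im = bl θ' w.re) (hT0 : 1 / 16 ≤ tan θ' ^ 2) :
    (37 / 125) * tan θ ≤ sinh (π * (yv (vl θ (333 / 1000)) w).im) ∧
      sinh (π * (yv (vl θ (333 / 1000)) w).im) ≤ (183 / 500) * tan θ := by
  have T0 : 0 < tan θ := tan_pos_of_pos_of_lt_pi_div_two hp.hθ.pos hp.hθ.lt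
  have T0' : 0 < tan θ' := tan_pos_of_pos_of_lt_pi_div_two hp.hθ'.pos hp.hθ'.lt
  have hB : tan θ' ≤ 1 / 2 := by
    by_contra hc
    push Not at hc
    nlinarith
  have hB0 : 1 / 4 ≤ tan θ' := by
    by_contra hc
    push Not at hc
    nlinarith
  exact kb_of kcert_4 kd_4 hp (by rw [hl, sinh_pi_bl]) (by nlinarith) (by linarith)
    (kmem_S T0 t0 t1) (kmem_B_1 hB0 hB) (kmem_w_3 w1 w2)

def KP5 : KP := ⟨⟨254917046, 254927784⟩, ⟨937655785, 937666523⟩,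
    ⟨281320357, 281320358⟩, ⟨369367187, 369367188⟩⟩

theorem kcert_5 : bb (ktest KP5) [0, 1, 0, 1, 0, 1, 0, 1, 0, 1, 0, 1, 0, 1, 0, 1]
    ⟨588109871, 1073741824⟩ ⟨0, 536870912⟩ ⟨517275123, 631145445⟩ one = true := by
  decide +kernel

theorem kd_5 : KD (338 / 1000) KP5 (131 / 500) (43 / 125) where
  m1 := kmem_c_1
  m2 := kmem_s_1
  m3 := by constructor <;> norm_num [KP5]
  m4 := by constructor <;> norm_num [KP5]
  x1 := by norm_num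
  x2 := by norm_num

/-- Row 5: `re v = 338 / 1000`, `4 / 25 ≤ re w ≤ 1 / 5`, `tan² θ' ≤ 1 / 4`. -/
theorem k23_5 {θ θ' : ℝ} {w : ℂ} (hp : Pr θ θ' (vl θ (338 / 1000)) w) (w1 : 4 / 25 ≤ w.re)
    (w2 : w.re ≤ 1 / 5) (t0 : 3 / 10 ≤ tan θ ^ 2) (t1 : tan θ ^ 2 ≤ 1)
    (hT : tan θ' ^ 2 ≤ 1 / 4) :
    (131 / 500) * tan θ ≤ sinh (π * (yv (vl θ (338 / 1000)) w).im) ∧
      sinh (π * (yv (vl θ (338 / 1000)) w).im) ≤ (43 / 125) * tan θ := by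
  have T0 : 0 < tan θ := tan_pos_of_pos_of_lt_pi_div_two hp.hθ.pos hp.hθ.lt
  have T0' : 0 < tan θ' := tan_pos_of_pos_of_lt_pi_div_two hp.hθ'.pos hp.hθ'.lt
  have hB : tan θ' ≤ 1 / 2 := by
    by_contra hc
    push Not at hc
    nlinarith
  obtain ⟨e1, e2, e3⟩ := quot_of hp hB
  exact kb_of kcert_5 kd_5 hp e1 (by nlinarith) (by linarith) (kmem_S T0 t0 t1)
    (kmem_B_2 e2 e3) (kmem_w_4 w1 w2)

def KP6 : KP := ⟨⟨232314781, 232325519⟩, ⟨950508474, 950519213⟩,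
    ⟨244813135, 244813136⟩, ⟨348966092, 348966093⟩⟩

theorem kcert_6 : bb (ktest KP6) [0, 1, 0, 1, 0, 1, 0, 1, 0, 1, 0, 1, 0, 1, 0, 1]
    ⟨588109871, 1073741824⟩ ⟨0, 536870912⟩ ⟨631123969, 735062178⟩ one = true := by
  decide +kernel

theorem kd_6 : KD (346 / 1000) KP6 (57 / 250) (13 / 40) where
  m1 := kmem_c_2
  m2 := kmem_s_2
  m3 := by constructor <;> norm_num [KP6]
  m4 := by constructor <;> norm_num [KP6]
  x1 := by norm_num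
  x2 := by norm_num

/-- Row 6: `re v = 346 / 1000`, `1 / 5 ≤ re w ≤ 6 / 25`, `tan² θ' ≤ 1 / 4`. -/
theorem k23_6 {θ θ' : ℝ} {w : ℂ} (hp : Pr θ θ' (vl θ (346 / 1000)) w) (w1 : 1 / 5 ≤ w.re)
    (w2 : w.re ≤ 6 / 25) (t0 : 3 / 10 ≤ tan θ ^ 2) (t1 : tan θ ^ 2 ≤ 1)
    (hT : tan θ' ^ 2 ≤ 1 / 4) :
    (57 / 250) * tan θ ≤ sinh (π * (yv (vl θ (346 / 1000)) w).im) ∧
      sinh (π * (yv (vl θ (346 / 1000)) w).im) ≤ (13 / 40) * tan θ := by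
  have T0 : 0 < tan θ := tan_pos_of_pos_of_lt_pi_div_two hp.hθ.pos hp.hθ.lt
  have T0' : 0 < tan θ' := tan_pos_of_pos_of_lt_pi_div_two hp.hθ'.pos hp.hθ'.lt
  have hB : tan θ' ≤ 1 / 2 := by
    by_contra hc
    push Not at hc
    nlinarith
  obtain ⟨e1, e2, e3⟩ := quot_of hp hB
  exact kb_of kcert_6 kd_6 hp e1 (by nlinarith) (by linarith) (kmem_S T0 t0 t1)
    (kmem_B_2 e2 e3) (kmem_w_5 w1 w2)

end Pool.Agent.S3.T2
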