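import Pool.Agent.S3.Ho.KN
import Pool.Agent.S3.Ho.KRngB

/-!
# Ranges of the heights, first vertex with two half twists, second one with at least three:
rows 7 to 9 (generated)
-/

set_option autoImplicit false

namespace Pool.Agent.S3.T2

open Real NI Ho

def KP7 : KP := ⟨⟨218581623, 218592361⟩, ⟨958228678, 958239416⟩,
    ⟨190052302, 190052303⟩, ⟨312995741, 312995742⟩⟩

theorem kcert_7 : bb (ktest KP7) [0, 1, 0, 1, 2, 0, 1, 0, 1, 2, 0, 1, 0, 1, 2, 0, 1, 0, 1, 2, 0, 1, 0, 1]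
    ⟨588109871, 1073741824⟩ ⟨0, 536870912⟩ ⟨735019228, 827339551⟩ one = true := by
  decide +kernel

theorem kd_7 : KD (351 / 1000) KP7 (177 / 1000) (583 / 2000) where
  m1 := kmem_c_3
  m2 := kmem_s_3
  m3 := by constructor <;> norm_num [KP7]
  m4 := by constructor <;> norm_num [KP7]
  x1 := by norm_num
  x2 := by norm_num

/-- Row 7: `re v = 351 / 1000`, `6 / 25 ≤ re w ≤ 7 / 25`, `tan² θ' ≤ 1 / 4`. -/
theorem k23_7 {θ θ' : ℝ} {w : ℂ} (hp : Pr θ θ' (vl θ (351 / 1000)) w) (w1 : 6 / 25 ≤ w.re)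
    (w2 : w.re ≤ 7 / 25) (t0 : 3 / 10 ≤ tan θ ^ 2) (t1 : tan θ ^ 2 ≤ 1)
    (hT : tan θ' ^ 2 ≤ 1 / 4) :
    (177 / 1000) * tan θ ≤ sinh (π * (yv (vl θ (351 / 1000)) w).im) ∧
      sinh (π * (yv (vl θ (351 / 1000)) w).im) ≤ (583 / 2000) * tan θ := by
  have T0 : 0 < tan θ := tan_pos_of_pos_of_lt_pi_div_two hp.hθ.pos hp.hθ.lt
  have T0' : 0 < tan θ' := tan_pos_of_pos_of_lt_pi_div_two hp.hθ'.pos hp.hθ'.lt
  have hB : tan θ' ≤ 1 / 2 := by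
    by_contra hc
    push Not at hc
    nlinarith
  obtain ⟨e1, e2, e3⟩ := quot_of hp hB
  exact kb_of kcert_7 kd_7 hp e1 (by nlinarith) (by linarith) (kmem_S T0 t0 t1)
    (kmem_B_2 e2 e3) (kmem_w_6 w1 w2)

def KP8 : KP := ⟨⟨164465035, 164475773⟩, ⟨988089438, 988100177⟩,
    ⟨209379655, 209379656⟩, ⟨288299679, 288299680⟩⟩

theorem kcert_8 : bb (ktest KP8) [0, 1, 0, 1, 0, 1, 0, 1, 0, 1, 0, 1, 0, 1, 0, 1]
    ⟨588109871, 1073741824⟩ ⟨0, 536870912⟩ ⟨827328812, 848427840⟩ one = true := by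
  decide +kernel

theorem kd_8 : KD (372 / 1000) KP8 (39 / 200) (537 / 2000) where
  m1 := kmem_c_4
  m2 := kmem_s_4
  m3 := by constructor <;> norm_num [KP8]
  m4 := by constructor <;> norm_num [KP8]
  x1 := by norm_num
  x2 := by norm_num

/-- Row 8: `re v = 372 / 1000`, `7 / 25 ≤ re w ≤ 29 / 100`, `tan² θ' ≤ 1 / 4`. -/
theorem k23_8 {θ θ' : ℝ} {w : ℂ} (hp : Pr θ θ' (vl θ (372 / 1000)) w) (w1 : 7 / 25 ≤ w.re)
    (w2 : w.re ≤ 29 / 100) (t0 : 3 / 10 ≤ tan θ ^ 2) (t1 : tan θ ^ 2 ≤ 1)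
    (hT : tan θ' ^ 2 ≤ 1 / 4) :
    (39 / 200) * tan θ ≤ sinh (π * (yv (vl θ (372 / 1000)) w).im) ∧
      sinh (π * (yv (vl θ (372 / 1000)) w).im) ≤ (537 / 2000) * tan θ := by
  have T0 : 0 < tan θ := tan_pos_of_pos_of_lt_pi_div_two hp.hθ.pos hp.hθ.lt
  have T0' : 0 < tan θ' := tan_pos_of_pos_of_lt_pi_div_two hp.hθ'.pos hp.hθ'.lt
  have hB : tan θ' ≤ 1 / 2 := by
    by_contra hc
    push Not at hc
    nlinarith
  obtain ⟨e1, e2, e3⟩ := quot_of hp hB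
  exact kb_of kcert_8 kd_8 hp e1 (by nlinarith) (by linarith) (kmem_S T0 t0 t1)
    (kmem_B_2 e2 e3) (kmem_w_7 w1 w2)

def KP9 : KP := ⟨⟨157238752, 157249491⟩, ⟨991997858, 992008597⟩,
    ⟨144955146, 144955147⟩, ⟨276488519, 276488520⟩⟩

theorem kcert_9 : bb (ktest KP9) [0, 1, 0, 1, 2, 0, 1, 0, 1, 2, 0, 1, 0, 1, 2, 0, 1, 0, 1]
    ⟨588109871, 1073741824⟩ ⟨0, 536870912⟩ ⟨848417102, 915525967⟩ one = true := by
  decide +kernel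

theorem kd_9 : KD (375 / 1000) KP9 (27 / 200) (103 / 400) where
  m1 := kmem_c_5
  m2 := kmem_s_5
  m3 := by constructor <;> norm_num [KP9]
  m4 := by constructor <;> norm_num [KP9]
  x1 := by norm_num
  x2 := by norm_num

/-- Row 9: `re v = 375 / 1000`, `29 / 100 ≤ re w ≤ 13 / 40`, `tan² θ' ≤ 1 / 4`. -/
theorem k23_9 {θ θ' : ℝ} {w : ℂ} (hp : Pr θ θ' (vl θ (375 / 1000)) w) (w1 : 29 / 100 ≤ w.re)
    (w2 : w.re ≤ 13 / 40) (t0 : 3 / 10 ≤ tan θ ^ 2) (t1 : tan θ ^ 2 ≤ 1)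
    (hT : tan θ' ^ 2 ≤ 1 / 4) :
    (27 / 200) * tan θ ≤ sinh (π * (yv (vl θ (375 / 1000)) w).im) ∧
      sinh (π * (yv (vl θ (375 / 1000)) w).im) ≤ (103 / 400) * tan θ := by
  have T0 : 0 < tan θ := tan_pos_of_pos_of_lt_pi_div_two hp.hθ.pos hp.hθ.lt
  have T0' : 0 < tan θ' := tan_pos_of_pos_of_lt_pi_div_two hp.hθ'.pos hp.hθ'.lt
  have hB : tan θ' ≤ 1 / 2 := by
    by_contra hc
    push Not at hc
    nlinarith
  obtain ⟨e1, e2, e3⟩ := quot_of hp hB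
  exact kb_of kcert_9 kd_9 hp e1 (by nlinarith) (by linarith) (kmem_S T0 t0 t1)
    (kmem_B_2 e2 e3) (kmem_w_8 w1 w2)

end Pool.Agent.S3.T2
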