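import Pool.Agent.S3.Ho.RngN

/-!
# Ranges of the heights, first vertex with two half twists, second one with at least three:
the constants (generated)
-/

set_option autoImplicit false

namespace Pool.Agent.S3.T2

open Real NI Ho

theorem kbase_0 : (2509 / 10000 ≤ cos (π * (333 / 1000)) ^ 2 ∧
    cos (π * (333 / 1000)) ^ 2 ≤ 6273 / 25000) ∧
    (1731 / 2000 ≤ sin (π * (333 / 1000)) ∧ sin (π * (333 / 1000)) ≤ 86551 / 100000) := by
  obtain ⟨s1, s2, s3, s4⟩ := sc_bounds (r := 167 / 1000) (x1 := 104929 / 200000) (x2 := 524647 / 1000000)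
    (by norm_num) (by norm_num) (by norm_num) (by norm_num) (by norm_num) (by norm_num)
  have e : cos (π * (333 / 1000)) = sin (π * (167 / 1000)) := by
    rw [← cos_pi_div_two_sub]
    congr 1
    ring
  have e' : sin (π * (333 / 1000)) = cos (π * (167 / 1000)) := by
    rw [← sin_pi_div_two_sub]
    congr 1
    ring
  rw [e, e']
  have h1 : 100181 / 200000 ≤ sin (π * (167 / 1000)) := by
    refine le_trans ?_ s1
    norm_num
  have h2 : sin (π * (167 / 1000)) ≤ 50091 / 100000 := by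
    refine s2.trans ?_
    norm_num
  refine ⟨⟨?_, ?_⟩, ?_, ?_⟩
  · have := pow_le_pow_left₀ (by norm_num) h1 2
    norm_num at this ⊢
    linarith
  · have h0 : 0 ≤ sin (π * (167 / 1000)) := le_trans (by norm_num) h1
    have := pow_le_pow_left₀ h0 h2 2
    norm_num at this ⊢
    linarith
  · refine le_trans ?_ s3
    norm_num
  · refine s4.trans ?_
    norm_num

theorem kmem_c_0 : Mem (cos (π * (333 / 1000)) ^ 2) ⟨269401823, 269423299⟩ := by
  obtain ⟨⟨h1, h2⟩, -⟩ := kbase_0
  constructor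
  · norm_num; linarith
  · norm_num; linarith

theorem kmem_s_0 : Mem (sin (π * (333 / 1000))) ⟨929323548, 929334287⟩ := by
  obtain ⟨-, h1, h2⟩ := kbase_0
  constructor
  · norm_num; linarith
  · norm_num; linarith

theorem kbase_1 : (23741 / 100000 ≤ cos (π * (338 / 1000)) ^ 2 ∧
    cos (π * (338 / 1000)) ^ 2 ≤ 11871 / 50000) ∧
    (43663 / 50000 ≤ sin (π * (338 / 1000)) ∧ sin (π * (338 / 1000)) ≤ 87327 / 100000) := by
  obtain ⟨s1, s2, s3, s4⟩ := sc_bounds (r := 81 / 500) (x1 := 508937 / 1000000) (x2 := 508939 / 1000000)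
    (by norm_num) (by norm_num) (by norm_num) (by norm_num) (by norm_num) (by norm_num)
  have e : cos (π * (338 / 1000)) = sin (π * (81 / 500)) := by
    rw [← cos_pi_div_two_sub]
    congr 1
    ring
  have e' : sin (π * (338 / 1000)) = cos (π * (81 / 500)) := by
    rw [← sin_pi_div_two_sub]
    congr 1
    ring
  rw [e, e']
  have h1 : 487249 / 1000000 ≤ sin (π * (81 / 500)) := by
    refine le_trans ?_ s1
    norm_num
  have h2 : sin (π * (81 / 500)) ≤ 487253 / 1000000 := by
    refine s2.trans ?_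
    norm_num
  refine ⟨⟨?_, ?_⟩, ?_, ?_⟩
  · have := pow_le_pow_left₀ (by norm_num) h1 2
    norm_num at this ⊢
    linarith
  · have h0 : 0 ≤ sin (π * (81 / 500)) := le_trans (by norm_num) h1
    have := pow_le_pow_left₀ h0 h2 2
    norm_num at this ⊢
    linarith
  · refine le_trans ?_ s3
    norm_num
  · refine s4.trans ?_
    norm_num

theorem kmem_c_1 : Mem (cos (π * (338 / 1000)) ^ 2) ⟨254917046, 254927784⟩ := by
  obtain ⟨⟨h1, h2⟩, -⟩ := kbase_1
  constructor
  · norm_num; linarith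
  · norm_num; linarith

theorem kmem_s_1 : Mem (sin (π * (338 / 1000))) ⟨937655785, 937666523⟩ := by
  obtain ⟨-, h1, h2⟩ := kbase_1
  constructor
  · norm_num; linarith
  · norm_num; linarith

theorem kbase_2 : (5409 / 25000 ≤ cos (π * (346 / 1000)) ^ 2 ∧
    cos (π * (346 / 1000)) ^ 2 ≤ 21637 / 100000) ∧
    (88523 / 100000 ≤ sin (π * (346 / 1000)) ∧ sin (π * (346 / 1000)) ≤ 22131 / 25000) := by
  obtain ⟨s1, s2, s3, s4⟩ := sc_bounds (r := 77 / 500) (x1 := 96761 / 200000) (x2 := 241903 / 500000)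
    (by norm_num) (by norm_num) (by norm_num) (by norm_num) (by norm_num) (by norm_num)
  have e : cos (π * (346 / 1000)) = sin (π * (77 / 500)) := by
    rw [← cos_pi_div_two_sub]
    congr 1
    ring
  have e' : sin (π * (346 / 1000)) = cos (π * (77 / 500)) := by
    rw [← sin_pi_div_two_sub]
    congr 1
    ring
  rw [e, e']
  have h1 : 9303 / 20000 ≤ sin (π * (77 / 500)) := by
    refine le_trans ?_ s1
    norm_num
  have h2 : sin (π * (77 / 500)) ≤ 465153 / 1000000 := by
    refine s2.trans ?_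
    norm_num
  refine ⟨⟨?_, ?_⟩, ?_, ?_⟩
  · have := pow_le_pow_left₀ (by norm_num) h1 2
    norm_num at this ⊢
    linarith
  · have h0 : 0 ≤ sin (π * (77 / 500)) := le_trans (by norm_num) h1
    have := pow_le_pow_left₀ h0 h2 2
    norm_num at this ⊢
    linarith
  · refine le_trans ?_ s3
    norm_num
  · refine s4.trans ?_
    norm_num

theorem kmem_c_2 : Mem (cos (π * (346 / 1000)) ^ 2) ⟨232314781, 232325519⟩ := by
  obtain ⟨⟨h1, h2⟩, -⟩ := kbase_2
  constructor
  · norm_num; linarith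
  · norm_num; linarith

theorem kmem_s_2 : Mem (sin (π * (346 / 1000))) ⟨950508474, 950519213⟩ := by
  obtain ⟨-, h1, h2⟩ := kbase_2
  constructor
  · norm_num; linarith
  · norm_num; linarith

theorem kbase_3 : (20357 / 100000 ≤ cos (π * (351 / 1000)) ^ 2 ∧
    cos (π * (351 / 1000)) ^ 2 ≤ 10179 / 50000) ∧
    (44621 / 50000 ≤ sin (π * (351 / 1000)) ∧ sin (π * (351 / 1000)) ≤ 89243 / 100000) := by
  obtain ⟨s1, s2, s3, s4⟩ := sc_bounds (r := 149 / 1000) (x1 := 468097 / 1000000) (x2 := 234049 / 500000)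
    (by norm_num) (by norm_num) (by norm_num) (by norm_num) (by norm_num) (by norm_num)
  have e : cos (π * (351 / 1000)) = sin (π * (149 / 1000)) := by
    rw [← cos_pi_div_two_sub]
    congr 1
    ring
  have e' : sin (π * (351 / 1000)) = cos (π * (149 / 1000)) := by
    rw [← sin_pi_div_two_sub]
    congr 1
    ring
  rw [e, e']
  have h1 : 112797 / 250000 ≤ sin (π * (149 / 1000)) := by
    refine le_trans ?_ s1
    norm_num
  have h2 : sin (π * (149 / 1000)) ≤ 451191 / 1000000 := by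
    refine s2.trans ?_
    norm_num
  refine ⟨⟨?_, ?_⟩, ?_, ?_⟩
  · have := pow_le_pow_left₀ (by norm_num) h1 2
    norm_num at this ⊢
    linarith
  · have h0 : 0 ≤ sin (π * (149 / 1000)) := le_trans (by norm_num) h1
    have := pow_le_pow_left₀ h0 h2 2
    norm_num at this ⊢
    linarith
  · refine le_trans ?_ s3
    norm_num
  · refine s4.trans ?_
    norm_num

theorem kmem_c_3 : Mem (cos (π * (351 / 1000)) ^ 2) ⟨218581623, 218592361⟩ := by
  obtain ⟨⟨h1, h2⟩, -⟩ := kbase_3
  constructor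
  · norm_num; linarith
  · norm_num; linarith

theorem kmem_s_3 : Mem (sin (π * (351 / 1000))) ⟨958228678, 958239416⟩ := by
  obtain ⟨-, h1, h2⟩ := kbase_3
  constructor
  · norm_num; linarith
  · norm_num; linarith

theorem kbase_4 : (15317 / 100000 ≤ cos (π * (372 / 1000)) ^ 2 ∧
    cos (π * (372 / 1000)) ^ 2 ≤ 7659 / 50000) ∧
    (92023 / 100000 ≤ sin (π * (372 / 1000)) ∧ sin (π * (372 / 1000)) ≤ 11503 / 12500) := by
  obtain ⟨s1, s2, s3, s4⟩ := sc_bounds (r := 16 / 125) (x1 := 402123 / 1000000) (x2 := 100531 / 250000)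
    (by norm_num) (by norm_num) (by norm_num) (by norm_num) (by norm_num) (by norm_num)
  have e : cos (π * (372 / 1000)) = sin (π * (16 / 125)) := by
    rw [← cos_pi_div_two_sub]
    congr 1
    ring
  have e' : sin (π * (372 / 1000)) = cos (π * (16 / 125)) := by
    rw [← sin_pi_div_two_sub]
    congr 1
    ring
  rw [e, e']
  have h1 : 97843 / 250000 ≤ sin (π * (16 / 125)) := by
    refine le_trans ?_ s1
    norm_num
  have h2 : sin (π * (16 / 125)) ≤ 3131 / 8000 := by
    refine s2.trans ?_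
    norm_num
  refine ⟨⟨?_, ?_⟩, ?_, ?_⟩
  · have := pow_le_pow_left₀ (by norm_num) h1 2
    norm_num at this ⊢
    linarith
  · have h0 : 0 ≤ sin (π * (16 / 125)) := le_trans (by norm_num) h1
    have := pow_le_pow_left₀ h0 h2 2
    norm_num at this ⊢
    linarith
  · refine le_trans ?_ s3
    norm_num
  · refine s4.trans ?_
    norm_num

theorem kmem_c_4 : Mem (cos (π * (372 / 1000)) ^ 2) ⟨164465035, 164475773⟩ := by
  obtain ⟨⟨h1, h2⟩, -⟩ := kbase_4
  constructor
  · norm_num; linarith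
  · norm_num; linarith

theorem kmem_s_4 : Mem (sin (π * (372 / 1000))) ⟨988089438, 988100177⟩ := by
  obtain ⟨-, h1, h2⟩ := kbase_4
  constructor
  · norm_num; linarith
  · norm_num; linarith

theorem kbase_5 : (3661 / 25000 ≤ cos (π * (375 / 1000)) ^ 2 ∧
    cos (π * (375 / 1000)) ^ 2 ≤ 2929 / 20000) ∧
    (92387 / 100000 ≤ sin (π * (375 / 1000)) ∧ sin (π * (375 / 1000)) ≤ 23097 / 25000) := by
  obtain ⟨s1, s2, s3, s4⟩ := sc_bounds (r := 1 / 8) (x1 := 392699 / 1000000) (x2 := 3927 / 10000)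
    (by norm_num) (by norm_num) (by norm_num) (by norm_num) (by norm_num) (by norm_num)
  have e : cos (π * (375 / 1000)) = sin (π * (1 / 8)) := by
    rw [← cos_pi_div_two_sub]
    congr 1
    ring
  have e' : sin (π * (375 / 1000)) = cos (π * (1 / 8)) := by
    rw [← sin_pi_div_two_sub]
    congr 1
    ring
  rw [e, e']
  have h1 : 382683 / 1000000 ≤ sin (π * (1 / 8)) := by
    refine le_trans ?_ s1
    norm_num
  have h2 : sin (π * (1 / 8)) ≤ 76537 / 200000 := by
    refine s2.trans ?_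
    norm_num
  refine ⟨⟨?_, ?_⟩, ?_, ?_⟩
  · have := pow_le_pow_left₀ (by norm_num) h1 2
    norm_num at this ⊢
    linarith
  · have h0 : 0 ≤ sin (π * (1 / 8)) := le_trans (by norm_num) h1
    have := pow_le_pow_left₀ h0 h2 2
    norm_num at this ⊢
    linarith
  · refine le_trans ?_ s3
    norm_num
  · refine s4.trans ?_
    norm_num

theorem kmem_c_5 : Mem (cos (π * (375 / 1000)) ^ 2) ⟨157238752, 157249491⟩ := by
  obtain ⟨⟨h1, h2⟩, -⟩ := kbase_5
  constructor
  · norm_num; linarith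
  · norm_num; linarith

theorem kmem_s_5 : Mem (sin (π * (375 / 1000))) ⟨991997858, 992008597⟩ := by
  obtain ⟨-, h1, h2⟩ := kbase_5
  constructor
  · norm_num; linarith
  · norm_num; linarith

theorem ksin_1_25 : 12533 / 100000 ≤ sin (π * (1 / 25)) ∧ sin (π * (1 / 25)) ≤ 6267 / 50000 := by
  obtain ⟨s1, s2, s3, s4⟩ := sc_bounds (r := 1 / 25) (x1 := 125663 / 1000000) (x2 := 3927 / 31250)
    (by norm_num) (by norm_num) (by norm_num) (by norm_num) (by norm_num) (by norm_num)
  exact ⟨le_trans (by norm_num) s1, s2.trans (by norm_num)⟩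

theorem ksin_2_25 : 6217 / 25000 ≤ sin (π * (2 / 25)) ∧ sin (π * (2 / 25)) ≤ 2487 / 10000 := by
  obtain ⟨s1, s2, s3, s4⟩ := sc_bounds (r := 2 / 25) (x1 := 251327 / 1000000) (x2 := 3927 / 15625)
    (by norm_num) (by norm_num) (by norm_num) (by norm_num) (by norm_num) (by norm_num)
  exact ⟨le_trans (by norm_num) s1, s2.trans (by norm_num)⟩

theorem ksin_4_25 : 1927 / 4000 ≤ sin (π * (4 / 25)) ∧ sin (π * (4 / 25)) ≤ 3011 / 6250 := by
  obtain ⟨s1, s2, s3, s4⟩ := sc_bounds (r := 4 / 25) (x1 := 251327 / 500000) (x2 := 100531 / 200000)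
    (by norm_num) (by norm_num) (by norm_num) (by norm_num) (by norm_num) (by norm_num)
  exact ⟨le_trans (by norm_num) s1, s2.trans (by norm_num)⟩

theorem ksin_1_5 : 29389 / 50000 ≤ sin (π * (1 / 5)) ∧ sin (π * (1 / 5)) ≤ 2939 / 5000 := by
  obtain ⟨s1, s2, s3, s4⟩ := sc_bounds (r := 1 / 5) (x1 := 314159 / 500000) (x2 := 628319 / 1000000)
    (by norm_num) (by norm_num) (by norm_num) (by norm_num) (by norm_num) (by norm_num)
  exact ⟨le_trans (by norm_num) s1, s2.trans (by norm_num)⟩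

theorem ksin_6_25 : 34227 / 50000 ≤ sin (π * (6 / 25)) ∧ sin (π * (6 / 25)) ≤ 34229 / 50000 := by
  obtain ⟨s1, s2, s3, s4⟩ := sc_bounds (r := 6 / 25) (x1 := 376991 / 500000) (x2 := 753983 / 1000000)
    (by norm_num) (by norm_num) (by norm_num) (by norm_num) (by norm_num) (by norm_num)
  exact ⟨le_trans (by norm_num) s1, s2.trans (by norm_num)⟩

theorem ksin_7_25 : 77051 / 100000 ≤ sin (π * (7 / 25)) ∧ sin (π * (7 / 25)) ≤ 19263 / 25000 := by
  obtain ⟨s1, s2, s3, s4⟩ := sc_bounds (r := 11 / 50) (x1 := 13823 / 20000) (x2 := 691151 / 1000000)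
    (by norm_num) (by norm_num) (by norm_num) (by norm_num) (by norm_num) (by norm_num)
  have e' : sin (π * (7 / 25)) = cos (π * (11 / 50)) := by
    rw [← sin_pi_div_two_sub]
    congr 1
    ring
  rw [e']
  exact ⟨le_trans (by norm_num) s3, s4.trans (by norm_num)⟩

theorem ksin_29_100 : 15803 / 20000 ≤ sin (π * (29 / 100)) ∧ sin (π * (29 / 100)) ≤ 9877 / 12500 := by
  obtain ⟨s1, s2, s3, s4⟩ := sc_bounds (r := 21 / 100) (x1 := 329867 / 500000) (x2 := 131947 / 200000)
    (by norm_num) (by norm_num) (by norm_num) (by norm_num) (by norm_num) (by norm_num)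
  have e' : sin (π * (29 / 100)) = cos (π * (21 / 100)) := by
    rw [← sin_pi_div_two_sub]
    congr 1
    ring
  rw [e']
  exact ⟨le_trans (by norm_num) s3, s4.trans (by norm_num)⟩

theorem ksin_13_40 : 85263 / 100000 ≤ sin (π * (13 / 40)) ∧ sin (π * (13 / 40)) ≤ 17053 / 20000 := by
  obtain ⟨s1, s2, s3, s4⟩ := sc_bounds (r := 7 / 40) (x1 := 274889 / 500000) (x2 := 549779 / 1000000)
    (by norm_num) (by norm_num) (by norm_num) (by norm_num) (by norm_num) (by norm_num)
  have e' : sin (π * (13 / 40)) = cos (π * (7 / 40)) := by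
    rw [← sin_pi_div_two_sub]
    congr 1
    ring
  rw [e']
  exact ⟨le_trans (by norm_num) s3, s4.trans (by norm_num)⟩

theorem kmem_w_0 {r : ℝ} (h0 : 0 ≤ r) (h1 : r ≤ 2 / 25) :
    Mem (sin (π * r)) ⟨0, 267039592⟩ := by
  have k1 := (sin_mono' (by linarith) h1 (by norm_num)).trans ksin_2_25.2
  have k0 : 0 ≤ sin (π * r) := sin_nonneg_of_nonneg_of_le_pi (mul_nonneg pi_pos.le h0)
    (by nlinarith [pi_pos])
  constructor
  · norm_num; linarith
  · norm_num; linarith

theorem kmem_w_1 {r : ℝ} (h0 : 0 ≤ r) (h1 : r ≤ 1 / 25) :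
    Mem (sin (π * r)) ⟨0, 134582801⟩ := by
  have k1 := (sin_mono' (by linarith) h1 (by norm_num)).trans ksin_1_25.2
  have k0 : 0 ≤ sin (π * r) := sin_nonneg_of_nonneg_of_le_pi (mul_nonneg pi_pos.le h0)
    (by nlinarith [pi_pos])
  constructor
  · norm_num; linarith
  · norm_num; linarith

theorem kmem_w_2 {r : ℝ} (h0 : 1 / 25 ≤ r) (h1 : r ≤ 2 / 25) :
    Mem (sin (π * r)) ⟨134572062, 267039592⟩ := by
  have k1 := (sin_mono' (by linarith) h1 (by norm_num)).trans ksin_2_25.2
  have k0 := ksin_1_25.1.trans (sin_mono' (by norm_num) h0 (by linarith))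
  constructor
  · norm_num; linarith
  · norm_num; linarith

theorem kmem_w_3 {r : ℝ} (h0 : 2 / 25 ≤ r) (h1 : r ≤ 4 / 25) :
    Mem (sin (π * r)) ⟨267018116, 517285862⟩ := by
  have k1 := (sin_mono' (by linarith) h1 (by norm_num)).trans ksin_4_25.2
  have k0 := ksin_2_25.1.trans (sin_mono' (by norm_num) h0 (by linarith))
  constructor
  · norm_num; linarith
  · norm_num; linarith

theorem kmem_w_4 {r : ℝ} (h0 : 4 / 25 ≤ r) (h1 : r ≤ 1 / 5) :
    Mem (sin (π * r)) ⟨517275123, 631145445⟩ := by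
  have k1 := (sin_mono' (by linarith) h1 (by norm_num)).trans ksin_1_5.2
  have k0 := ksin_4_25.1.trans (sin_mono' (by norm_num) h0 (by linarith))
  constructor
  · norm_num; linarith
  · norm_num; linarith

theorem kmem_w_5 {r : ℝ} (h0 : 1 / 5 ≤ r) (h1 : r ≤ 6 / 25) :
    Mem (sin (π * r)) ⟨631123969, 735062178⟩ := by
  have k1 := (sin_mono' (by linarith) h1 (by norm_num)).trans ksin_6_25.2
  have k0 := ksin_1_5.1.trans (sin_mono' (by norm_num) h0 (by linarith))
  constructor
  · norm_num; linarith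
  · norm_num; linarith

theorem kmem_w_6 {r : ℝ} (h0 : 6 / 25 ≤ r) (h1 : r ≤ 7 / 25) :
    Mem (sin (π * r)) ⟨735019228, 827339551⟩ := by
  have k1 := (sin_mono' (by linarith) h1 (by norm_num)).trans ksin_7_25.2
  have k0 := ksin_6_25.1.trans (sin_mono' (by norm_num) h0 (by linarith))
  constructor
  · norm_num; linarith
  · norm_num; linarith

theorem kmem_w_7 {r : ℝ} (h0 : 7 / 25 ≤ r) (h1 : r ≤ 29 / 100) :
    Mem (sin (π * r)) ⟨827328812, 848427840⟩ := by
  have k1 := (sin_mono' (by linarith) h1 (by norm_num)).trans ksin_29_100.2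
  have k0 := ksin_7_25.1.trans (sin_mono' (by norm_num) h0 (by linarith))
  constructor
  · norm_num; linarith
  · norm_num; linarith

theorem kmem_w_8 {r : ℝ} (h0 : 29 / 100 ≤ r) (h1 : r ≤ 13 / 40) :
    Mem (sin (π * r)) ⟨848417102, 915525967⟩ := by
  have k1 := (sin_mono' (by linarith) h1 (by norm_num)).trans ksin_13_40.2
  have k0 := ksin_29_100.1.trans (sin_mono' (by norm_num) h0 (by linarith))
  constructor
  · norm_num; linarith
  · norm_num; linarith

theorem kmem_S {t : ℝ} (t0 : 0 < t) (h0 : 3 / 10 ≤ t ^ 2) (h1 : t ^ 2 ≤ 1) : Mem t ⟨588109871, 1073741824⟩ := by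
  have k0 : 13693 / 25000 ≤ t := by
    by_contra hc
    push Not at hc
    nlinarith
  have k1 : t ≤ 1 := by
    by_contra hc
    push Not at hc
    nlinarith
  constructor
  · norm_num; linarith
  · norm_num; linarith

theorem kmem_B_0 {t : ℝ} (t0 : 0 ≤ t) (h1 : t ≤ 16047 / 50000) : Mem t ⟨0, 344606701⟩ := by
  constructor
  · norm_num; linarith
  · norm_num; linarith

theorem kmem_B_1 {t : ℝ} (t0 : 1 / 4 ≤ t) (h1 : t ≤ 1 / 2) : Mem t ⟨268435456, 536870912⟩ := by
  constructor
  · norm_num; linarith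
  · norm_num; linarith

theorem kmem_B_2 {t : ℝ} (t0 : 0 ≤ t) (h1 : t ≤ 1 / 2) : Mem t ⟨0, 536870912⟩ := by
  constructor
  · norm_num; linarith
  · norm_num; linarith

end Pool.Agent.S3.T2
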