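import Pool.Agent.S3.Ho.Rng

/-!
# Two-sided ranges of the heights: the test

`ktest P A B C _`: `A` an interval of `S = tan θ`, `B` of `S'`, `C` of `sin (π re w)`. The lower
bound uses the convexity in `Y ^ 2`, the upper bound the tangent at the right end point.
-/

set_option autoImplicit false

namespace Pool.Agent.S3.Ho

open Pool.Agent.S3.NI
open Pool.Agent.S3.T2.Hg (ar ai)

structure KP where
  c0 : N
  s0 : N
  kl : N
  kh : N

def hh (A : N) : N := ⟨A.hi, A.hi⟩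
def ll (A : N) : N := ⟨A.lo, A.lo⟩
def sg1 (sg : N) : N := N.mul sg (N.add one sg)

def k9 (Xl yl yh q nn : N) : Bool :=
  (N.add yh (N.mul (N.sub (N.sm 4 (N.mul q (N.add (N.sub Xl one) (N.sm 2 nn)))) one)
    (N.sub yh yl))).le (rhs Xl nn)
def k8 (Xl yl yh q : N) : Bool := k9 Xl yl yh q (N.mul q (N.add (N.sq Xl) yh))
def kUp (kh A Xl yl yh : N) : Bool := k8 Xl yl yh (ll (sg1 (N.sq (N.mul kh (ll A)))))
def k7 (Xh yl yh q : N) : Bool := (rhs Xh (N.mul q (N.add (N.sq Xh) yl))).le yl &&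
  (rhs Xh (N.mul q (N.add (N.sq Xh) yh))).le yh
def kLo (kl A Xh yl yh : N) : Bool := k7 Xh yl yh (hh (sg1 (N.sq (N.mul kl (hh A)))))
def k6 (P : KP) (A X yl yh : N) : Bool := Nat.ble 1073741824 X.lo &&
  (kLo P.kl A (hh X) yl yh && kUp P.kh A (ll X) yl yh)
def k5 (P : KP) (A X Y : N) : Bool := k6 P A X (ll (N.sq (ll Y))) (hh (N.sq (hh Y)))
def k4 (P : KP) (A be be2 X : N) : Bool := be2.lt be && k5 P A X (N.sub be be2)
def k2b (P : KP) (A be2 bp X : N) : Bool := k4 P A (N.mul A bp) be2 X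
def k2 (P : KP) (A B C t k c1 id ic iD : N) : Bool :=
  k2b P A (beM C B (N.mul k c1) (N.mul ic iD)) (bpN P.s0 (N.mul t P.c0) id)
    (N.add (alN t P.c0 id) (alM k ic iD))
def k1 (P : KP) (A B C t k c1 d D : N) : Bool :=
  ((c1.ps && d.ps) && D.ps) && k2 P A B C t k c1 (N.inv d) (N.inv c1) (N.inv D)
def k0 (P : KP) (A B C t k c1 : N) : Bool :=
  k1 P A B C t k c1 (N.mul P.c0 (N.sq (N.add one t))) (N.sq (N.add one k))
def km1 (P : KP) (A B C t k : N) : Bool := k0 P A B C t k (N.sub one (N.sq C))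
def ktest (P : KP) (A B C _D : N) : Bool := km1 P A B C (N.sq A) (N.sq B)

/-- The function in the identity of the critical point. -/
noncomputable def F2 (q x y : ℝ) : ℝ := 4 * q * (x ^ 2 + y) * (x - 1 + q * (x ^ 2 + y))

theorem FF_eq (X Y q : ℝ) : FF X Y q = F2 q X (Y ^ 2) := rfl

theorem F2_mono {q q' x x' y : ℝ} (q0 : 0 ≤ q) (hq : q ≤ q') (x1 : 1 ≤ x) (hx : x ≤ x')
    (y0 : 0 ≤ y) : F2 q x y ≤ F2 q' x' y := by
  unfold F2
  have h1 : x ^ 2 + y ≤ x' ^ 2 + y := by nlinarith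
  have h0 : 0 ≤ x ^ 2 + y := by positivity
  have h2 : q * (x ^ 2 + y) ≤ q' * (x' ^ 2 + y) := mul_le_mul hq h1 h0 (q0.trans hq)
  have h3 : 0 ≤ q * (x ^ 2 + y) := by positivity
  have h4 : 4 * q * (x ^ 2 + y) ≤ 4 * q' * (x' ^ 2 + y) := by linarith
  exact mul_le_mul h4 (by linarith) (by linarith) (by nlinarith)

/-- The lower bound: convexity. -/
theorem F2_conv {q x y yl yh : ℝ} (h1 : yl ≤ y) (h2 : y ≤ yh) (f1 : F2 q x yl ≤ yl)
    (f2 : F2 q x yh ≤ yh) : F2 q x y ≤ y := by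
  have e : (F2 q x y - y) * (yh - yl) = (F2 q x yl - yl) * (yh - y) + (F2 q x yh - yh) * (y - yl) -
      4 * q ^ 2 * ((y - yl) * (yh - y) * (yh - yl)) := by
    unfold F2; ring
  rcases (h1.trans h2).eq_or_lt with h | h
  · have : y = yl := by linarith
    rw [this]; exact f1
  · have k1 : (F2 q x yl - yl) * (yh - y) ≤ 0 :=
      mul_nonpos_of_nonpos_of_nonneg (by linarith) (by linarith)
    have k2 : (F2 q x yh - yh) * (y - yl) ≤ 0 :=
      mul_nonpos_of_nonpos_of_nonneg (by linarith) (by linarith)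
    have k3 : 0 ≤ 4 * q ^ 2 * ((y - yl) * (yh - y) * (yh - yl)) := by
      have a1 : 0 ≤ y - yl := by linarith
      have a2 : 0 ≤ yh - y := by linarith
      have a3 : 0 ≤ yh - yl := by linarith
      positivity
    by_contra hc
    push Not at hc
    have := mul_pos (by linarith : 0 < F2 q x y - y) (by linarith : 0 < yh - yl)
    linarith

/-- The upper bound: the tangent. -/
theorem F2_tan {q x y yl yh : ℝ} (h1 : yl ≤ y) (h2 : y ≤ yh)
    (f0 : yh ≤ F2 q x yh)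
    (f1 : 1 ≤ 4 * (q * (x - 1 + 2 * (q * (x ^ 2 + yh)))) →
      yh + (4 * (q * (x - 1 + 2 * (q * (x ^ 2 + yh)))) - 1) * (yh - yl) ≤ F2 q x yh) :
    y ≤ F2 q x y := by
  have e : F2 q x y - y = F2 q x yh - yh -
      (4 * (q * (x - 1 + 2 * (q * (x ^ 2 + yh)))) - 1) * (yh - y) + 4 * q ^ 2 * (yh - y) ^ 2 := by
    unfold F2; ring
  have e1 : 0 ≤ 4 * q ^ 2 * (yh - y) ^ 2 := by positivity
  rcases le_or_gt 1 (4 * (q * (x - 1 + 2 * (q * (x ^ 2 + yh))))) with h | h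
  · have k := f1 h
    have : (4 * (q * (x - 1 + 2 * (q * (x ^ 2 + yh)))) - 1) * (yh - y) ≤
        (4 * (q * (x - 1 + 2 * (q * (x ^ 2 + yh)))) - 1) * (yh - yl) :=
      mul_le_mul_of_nonneg_left (by linarith) (by linarith)
    linarith
  · have : (4 * (q * (x - 1 + 2 * (q * (x ^ 2 + yh)))) - 1) * (yh - y) ≤ 0 :=
      mul_nonpos_of_nonpos_of_nonneg (by linarith) (by linarith)
    linarith

theorem mem_hh (A : N) : Mem ((A.hi : ℝ) / 1073741824) (hh A) := by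
  constructor
  · rw [div_mul_cancel₀ _ (by norm_num)]; exact le_rfl
  · rw [div_mul_cancel₀ _ (by norm_num)]; exact le_rfl

theorem mem_ll (A : N) : Mem ((A.lo : ℝ) / 1073741824) (ll A) := by
  constructor
  · rw [div_mul_cancel₀ _ (by norm_num)]; exact le_rfl
  · rw [div_mul_cancel₀ _ (by norm_num)]; exact le_rfl

theorem le_hh {x : ℝ} {A : N} (h : Mem x A) : x ≤ (A.hi : ℝ) / 1073741824 := by
  rw [le_div_iff₀ (by norm_num)]; exact h.2

theorem ll_le {x : ℝ} {A : N} (h : Mem x A) : (A.lo : ℝ) / 1073741824 ≤ x := by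
  rw [div_le_iff₀ (by norm_num)]; exact h.1

theorem mem_F2 {q x y : ℝ} {Q X Y : N} (mq : Mem q Q) (mX : Mem x X) (hx : 1 ≤ x)
    (mY : Mem y Y) : Mem (F2 q x y) (rhs X (N.mul Q (N.add (N.sq X) Y))) := by
  have mn := mq.mul (mX.sq.add mY)
  have := (mn.mul ((mX.sub mem_one hx).add mn)).sm 4
  have e : ((4 : ℕ) : ℝ) * (q * (x ^ 2 + y) * (x - 1 + q * (x ^ 2 + y))) = F2 q x y := by
    unfold F2
    push_cast; ring
  rw [← e]
  exact this

/-- `u² (1 + u²)` -/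
noncomputable def ks (u : ℝ) : ℝ := u ^ 2 * (1 + u ^ 2)

theorem ks_nonneg (u : ℝ) : 0 ≤ ks u := by unfold ks; positivity

theorem ks_mono {u v : ℝ} (h0 : 0 ≤ u) (h : u ≤ v) : ks u ≤ ks v := by
  unfold ks
  have h1 : u ^ 2 ≤ v ^ 2 := pow_le_pow_left₀ h0 h 2
  exact mul_le_mul h1 (by linarith) (by positivity) (by positivity)

theorem mem_ks {k s : ℝ} {K A : N} (mk : Mem k K) (ms : Mem s A) :
    Mem (ks (k * s)) (sg1 (N.sq (N.mul K A))) :=
  (mk.mul ms).sq.mul (mem_one.add (mk.mul ms).sq)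

theorem k6_sound {P : KP} {A X' Y' : N} {S X Y kl kh : ℝ} (ml : Mem kl P.kl) (mh : Mem kh P.kh)
    (a : Mem S A) (mX : Mem X X') (mY : Mem Y Y') (h : k5 P A X' Y' = true) :
    FF X Y (ks (kl * S)) ≤ Y ^ 2 ∧ Y ^ 2 ≤ FF X Y (ks (kh * S)) := by
  have S0 := a.nonneg
  have kl0 := ml.nonneg
  have kh0 := mh.nonneg
  have Y0 := mY.nonneg
  unfold k5 k6 at h
  rw [Bool.and_eq_true, Bool.and_eq_true] at h
  obtain ⟨h1, h2, h3⟩ := h
  have X1 : (1073741824 : ℝ) ≤ X'.lo := by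
    rw [Nat.ble_eq] at h1
    exact_mod_cast h1
  have x1 : (1 : ℝ) ≤ (X'.lo : ℝ) / 1073741824 := by
    rw [le_div_iff₀ (by norm_num)]; linarith
  have xl := ll_le mX
  have xh := le_hh mX
  have hX1 : 1 ≤ X := x1.trans xl
  -- the numbers
  obtain ⟨yl, hyl⟩ : ∃ y, y = ((N.sq (ll Y')).lo : ℝ) / 1073741824 := ⟨_, rfl⟩
  obtain ⟨yh, hyh⟩ : ∃ y, y = ((N.sq (hh Y')).hi : ℝ) / 1073741824 := ⟨_, rfl⟩
  have myl : Mem yl (ll (N.sq (ll Y'))) := by rw [hyl]; exact mem_ll _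
  have myh : Mem yh (hh (N.sq (hh Y'))) := by rw [hyh]; exact mem_hh _
  have y1 : yl ≤ Y ^ 2 := by
    rw [hyl]
    have k1 := ll_le (mem_ll Y').sq
    have k2 := ll_le mY
    have k3 : 0 ≤ (Y'.lo : ℝ) / 1073741824 := by positivity
    exact k1.trans (pow_le_pow_left₀ k3 k2 2)
  have y2 : Y ^ 2 ≤ yh := by
    rw [hyh]
    have k1 := le_hh (mem_hh Y').sq
    have k2 := le_hh mY
    exact (pow_le_pow_left₀ Y0 k2 2).trans k1
  obtain ⟨Yl, hYl⟩ : ∃ y, y = ll (N.sq (ll Y')) := ⟨_, rfl⟩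
  obtain ⟨Yh, hYh⟩ : ∃ y, y = hh (N.sq (hh Y')) := ⟨_, rfl⟩
  rw [← hYl] at myl h2 h3
  rw [← hYh] at myh h2 h3
  constructor
  · -- lower bound
    unfold kLo k7 at h2
    rw [Bool.and_eq_true] at h2
    obtain ⟨g1, g2⟩ := h2
    have mq0 := mem_ks ml (mem_hh A)
    have mq := mem_hh (sg1 (N.sq (N.mul P.kl (hh A))))
    have hq := le_hh mq0
    obtain ⟨q, hqd⟩ : ∃ q, q = ((sg1 (N.sq (N.mul P.kl (hh A)))).hi : ℝ) / 1073741824 := ⟨_, rfl⟩
    rw [← hqd] at mq hq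
    have hSA := le_hh a
    have hq2 : ks (kl * S) ≤ q :=
      (ks_mono (by positivity) (mul_le_mul_of_nonneg_left hSA kl0)).trans hq
    have mXh := mem_hh X'
    have f1 := (mem_F2 mq mXh (hX1.trans xh) myl).le myl g1
    have f2 := (mem_F2 mq mXh (hX1.trans xh) myh).le myh g2
    rw [FF_eq]
    exact (F2_mono (ks_nonneg _) hq2 hX1 xh (sq_nonneg Y)).trans (F2_conv y1 y2 f1 f2)
  · -- upper bound
    unfold kUp k8 k9 at h3
    have mq0 := mem_ks mh (mem_ll A)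
    have mq := mem_ll (sg1 (N.sq (N.mul P.kh (ll A))))
    have hq := ll_le mq0
    obtain ⟨q, hqd⟩ : ∃ q, q = ((sg1 (N.sq (N.mul P.kh (ll A)))).lo : ℝ) / 1073741824 := ⟨_, rfl⟩
    rw [← hqd] at mq hq
    have hSA := ll_le a
    have hA0 : 0 ≤ (A.lo : ℝ) / 1073741824 := by positivity
    have hq2 : q ≤ ks (kh * S) :=
      hq.trans (ks_mono (mul_nonneg kh0 hA0) (mul_le_mul_of_nonneg_left hSA kh0))
    have q0 : 0 ≤ q := by rw [hqd]; positivity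
    have mXl := mem_ll X'
    obtain ⟨x, hxd⟩ : ∃ x, x = (X'.lo : ℝ) / 1073741824 := ⟨_, rfl⟩
    rw [← hxd] at mXl x1 xl
    obtain ⟨Xl, hXl⟩ : ∃ x, x = ll X' := ⟨_, rfl⟩
    obtain ⟨Q, hQ⟩ : ∃ x, x = ll (sg1 (N.sq (N.mul P.kh (ll A)))) := ⟨_, rfl⟩
    rw [← hXl] at mXl h3
    rw [← hQ] at mq h3
    have mF := mem_F2 mq mXl x1 myh
    have mn := mq.mul (mXl.sq.add myh)
    have mP := (mq.mul ((mXl.sub mem_one x1).add (mn.sm 2))).sm 4
    have hle : ∀ {u : ℝ}, Mem u (N.mul (N.sub (N.sm 4 (N.mul Q (N.add (N.sub Xl one)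
        (N.sm 2 (N.mul Q (N.add (N.sq Xl) Yh)))))) one) (N.sub Yh Yl)) → yh + u ≤ F2 q x yh :=
      fun hu => (myh.add hu).le mF h3
    rw [FF_eq]
    refine le_trans ?_ (F2_mono q0 hq2 x1 xl (sq_nonneg Y))
    refine F2_tan y1 y2 ?_ ?_
    · -- the excess is nonnegative
      have k := h3
      unfold N.le at k
      rw [Nat.ble_eq] at k
      have k1 : ((N.add Yh (N.mul (N.sub (N.sm 4 (N.mul Q (N.add (N.sub Xl one)
        (N.sm 2 (N.mul Q (N.add (N.sq Xl) Yh)))))) one) (N.sub Yh Yl))).hi : ℝ) ≤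
        ((rhs Xl (N.mul Q (N.add (N.sq Xl) Yh))).lo : ℝ) := by exact_mod_cast k
      have k2 : (Yh.hi : ℝ) ≤ ((N.add Yh (N.mul (N.sub (N.sm 4 (N.mul Q (N.add (N.sub Xl one)
        (N.sm 2 (N.mul Q (N.add (N.sq Xl) Yh)))))) one) (N.sub Yh Yl))).hi : ℝ) := by
        have : Yh.hi ≤ (N.add Yh (N.mul (N.sub (N.sm 4 (N.mul Q (N.add (N.sub Xl one)
        (N.sm 2 (N.mul Q (N.add (N.sq Xl) Yh)))))) one) (N.sub Yh Yl))).hi := Nat.le_add_right _ _
        exact_mod_cast this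
      have k3 := mF.1
      have k4 := myh.2
      nlinarith
    · intro hc
      have mS := mP.sub mem_one (by
        push_cast
        exact hc)
      have mD := myh.sub myl (by linarith)
      have k := hle (mS.mul mD)
      push_cast at k
      exact k

/-- The property proved by the test. -/
def KPrp (c0 s0 kl kh : ℝ) (S S' s : ℝ) : Prop :=
  ∀ X Y : ℝ, X = ar S c0 + ar S' (1 - s ^ 2) → Y = ai S s0 c0 - ai S' s (1 - s ^ 2) →
    0 < Y ∧ FF X Y (ks (kl * S)) ≤ Y ^ 2 ∧ Y ^ 2 ≤ FF X Y (ks (kh * S))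

/-- The soundness of the test. -/
theorem ktest_sound {P : KP} {c0 s0 kl kh : ℝ} (m1 : Mem c0 P.c0) (m2 : Mem s0 P.s0)
    (m3 : Mem kl P.kl) (m4 : Mem kh P.kh)
    (hc1 : c0 ≤ 1 / 2) (A B C D : N)
    (h : ktest P A B C D = true) (S S' s d : ℝ) (a : Mem S A) (b : Mem S' B) (c : Mem s C)
    (_ : Mem d D) (hS : S ≤ 1) (hS' : S' ≤ 1) (hs : s ^ 2 ≤ 1) :
    KPrp c0 s0 kl kh S S' s := by
  have S0 := a.nonneg
  have S0' := b.nonneg
  have c00 := m1.nonneg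
  have S2 : S ^ 2 ≤ 1 := pow_le_one₀ S0 hS
  have S2' : S' ^ 2 ≤ 1 := pow_le_one₀ S0' hS'
  unfold ktest km1 k0 k1 at h
  have mt := a.sq
  have mk := b.sq
  have mc : Mem (1 - s ^ 2) (N.sub one (N.sq C)) := mem_one.sub c.sq hs
  rw [Bool.and_eq_true, Bool.and_eq_true, Bool.and_eq_true] at h
  obtain ⟨⟨⟨p1, p2⟩, p3⟩, h⟩ := h
  have md : Mem (c0 * (1 + S ^ 2) ^ 2) (N.mul P.c0 (N.sq (N.add one (N.sq A)))) :=
    m1.mul (mem_one.add mt).sq
  have mD : Mem ((1 + S' ^ 2) ^ 2) (N.sq (N.add one (N.sq B))) := (mem_one.add mk).sq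
  have hcp : 0 < 1 - s ^ 2 := mc.pos p1
  have mid := md.inv p2
  have mic := mc.inv p1
  have miD := mD.inv p3
  obtain ⟨id', hid⟩ : ∃ x, x = N.inv (N.mul P.c0 (N.sq (N.add one (N.sq A)))) := ⟨_, rfl⟩
  obtain ⟨ic', hic⟩ : ∃ x, x = N.inv (N.sub one (N.sq C)) := ⟨_, rfl⟩
  obtain ⟨iD', hiD⟩ : ∃ x, x = N.inv (N.sq (N.add one (N.sq B))) := ⟨_, rfl⟩
  rw [← hid] at mid h
  rw [← hic] at mic h
  rw [← hiD] at miD h
  unfold k2 at h
  have mal : Mem (ar S c0) (alN (N.sq A) P.c0 id') := by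
    have e : ar S c0 = (1 - S ^ 2 * (1 - (2 : ℕ) * c0)) * (c0 * (1 + S ^ 2) ^ 2)⁻¹ := by
      rw [ar, div_eq_mul_inv]; norm_num
    rw [e]
    refine (mem_one.sub (mt.mul (mem_one.sub (m1.sm 2) (by norm_num; linarith))) ?_).mul mid
    have : 0 ≤ 1 - (2 : ℕ) * c0 := by norm_num; linarith
    have h2 : 1 - (2 : ℕ) * c0 ≤ 1 := by norm_num; linarith
    exact mul_le_one₀ S2 this h2
  have mam : Mem (ar S' (1 - s ^ 2)) (alM (N.sq B) ic' iD') := by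
    have e : ar S' (1 - s ^ 2) =
        ((1 - S' ^ 2) * (1 - s ^ 2)⁻¹ + (2 : ℕ) * S' ^ 2) * ((1 + S' ^ 2) ^ 2)⁻¹ := by
      have : (0 : ℝ) < 1 + S' ^ 2 := by positivity
      rw [ar]
      field_simp
      push_cast
      ring
    rw [e]
    exact (((mem_one.sub mk S2').mul mic).add (mk.sm 2)).mul miD
  have mbp : Mem ((2 : ℕ) * (s0 * √(1 + S ^ 2 * c0) * (c0 * (1 + S ^ 2) ^ 2)⁻¹))
      (bpN P.s0 (N.mul (N.sq A) P.c0) id') := ((m2.mul (mem_g1 (mt.mul m1))).mul mid).sm 2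
  obtain ⟨bp, hbp⟩ : ∃ x, x = ((2 : ℕ) : ℝ) * (s0 * √(1 + S ^ 2 * c0) *
    (c0 * (1 + S ^ 2) ^ 2)⁻¹) := ⟨_, rfl⟩
  rw [← hbp] at mbp
  have ebe : ai S s0 c0 = S * bp := by
    rw [hbp, ai, div_eq_mul_inv]; push_cast; ring
  have mbe : Mem (ai S s0 c0) (N.mul A (bpN P.s0 (N.mul (N.sq A) P.c0) id')) := by
    rw [ebe]
    exact a.mul mbp
  have mbm : Mem (ai S' s (1 - s ^ 2)) (beM C B (N.mul (N.sq B) (N.sub one (N.sq C)))
      (N.mul ic' iD')) := by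
    have e : ai S' s (1 - s ^ 2) = (2 : ℕ) * (s * S' * √(1 + S' ^ 2 * (1 - s ^ 2)) *
        ((1 - s ^ 2)⁻¹ * ((1 + S' ^ 2) ^ 2)⁻¹)) := by
      rw [ai, div_eq_mul_inv, mul_inv]; push_cast; ring
    rw [e]
    exact (((c.mul b).mul (mem_g1 (mk.mul mc))).mul (mic.mul miD)).sm 2
  have mX := mal.add mam
  intro X Y hX hY
  rw [← hX] at mX
  unfold k2b k4 at h
  rw [Bool.and_eq_true] at h
  obtain ⟨h1, h2⟩ := h
  have hlt := mbm.lt mbe h1
  have mY := mbe.sub mbm hlt.le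
  rw [← hY] at mY
  exact ⟨by rw [hY]; linarith, k6_sound m3 m4 a mX mY h2⟩

end Pool.Agent.S3.Ho
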