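import Pool.Agent.S3.Ho.Vert

/-!
# The slide along the line, with a strict rate; the vertical for negative heights
-/

set_option autoImplicit false

namespace Pool.Agent.S3.Ho

open Real T2 NI Set

section

variable {θ h g cm : ℝ} {W : ℂ}

/-- **The slide.** -/
theorem line_slide2 {a0 κ ε : ℝ} {l r : ℝ → ℝ} (hθ0 : 0 < θ) (hθ1 : θ < π / 2)
    (ht : tan θ ^ 2 ≤ 1 / 4) (ha0 : 1 / 4 ≤ a0) (o : Oth W g cm) (hg1 : g ≤ 1)
    (w0 : 0 ≤ W.re) (w1 : W.re ≤ 2 / 5) (hwh : W.im < h) (h0 : h ≠ 0)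
    (hh : sinh (π * h) ^ 2 ≤ 7 / 100) (hb : h < bl θ (13 / 40))
    (hl : ∀ a ∈ Icc a0 (13 / 40), HasDerivAt l (-(2 * r a)) a)
    (hr : ∀ a ∈ Icc a0 (13 / 40), 2 * r a + κ < 2 * r3 θ a)
    (hM : ∀ a ∈ Ioc a0 (13 / 40), ∀ t ∈ Ico (1 / 200 : ℝ) (1 / 2),
      gPd ((t : ℂ) + (h : ℂ) * Complex.I) (vl θ a) W =
        ‖Complex.cos (π * ((t : ℂ) + (h : ℂ) * Complex.I))‖ ^ 4 →
      r3 θ a ≤ Ml ((t : ℂ) + (h : ℂ) * Complex.I) (vl θ a) (Tl θ a))
    (hbase : ∀ t ∈ Icc (0 : ℝ) (1 / 2),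
      EE (.op (vl θ a0)) (.op W) ((t : ℂ) + (h : ℂ) * Complex.I) < l a0 + ε) :
    ∀ a ∈ Icc a0 (13 / 40), ∀ t ∈ Icc (0 : ℝ) (1 / 2),
      EE (.op (vl θ a)) (.op W) ((t : ℂ) + (h : ℂ) * Complex.I) < l a + ε - κ * (a - a0) := by
  have hpi := pi_pos
  have hc2 : ∀ a, a0 ≤ a → a ≤ 13 / 40 → 27 / 100 ≤ cos (π * a) ^ 2 := by
    intro a h1 h2
    have k1 := cos_1340.1
    have k2 : cos (π * (13 / 40)) ≤ cos (π * a) :=
      cos_le_cos_of_nonneg_of_le_pi (by nlinarith) (by nlinarith)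
        (mul_le_mul_of_nonneg_left h2 hpi.le)
    have k3 := cos_pos_of (a := 13 / 40) (by norm_num) (by norm_num)
    have := pow_le_pow_left₀ k3.le k2 2
    linarith
  have key := slide (v := vl θ) (v' := fun a => 1 - (Tl θ a : ℂ) * Complex.I) (h := fun _ => h)
    (h' := fun _ => 0) (l := fun a => l a + ε - κ * (a - a0))
    (l' := fun a => -(2 * r a) - κ) (w := W) (a0 := a0) (a1 := 13 / 40) (tL := 1 / 200)
    (by norm_num) (by norm_num) (vl_continuous θ).continuousOn continuousOn_const ?_ ?_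
    (fun a _ => hasDerivAt_const a h) ?_ (fun _ _ => h0) ?_ ?_ ?_ ?_ ?_
  · exact key
  · have hlc : ContinuousOn l (Icc a0 (13 / 40)) :=
      fun a ha => (hl a ha).continuousAt.continuousWithinAt
    exact (hlc.add continuousOn_const).sub (by fun_prop)
  · intro a ha
    exact vl_hasDerivAt θ (cos_pos_of (by linarith [ha.1]) (by linarith [ha.2])).ne'
  · intro a ha
    have d1 := hl a ⟨ha.1.le, ha.2⟩
    have d2 : HasDerivAt (fun a : ℝ => κ * (a - a0)) κ a := by
      simpa using ((hasDerivAt_id a).sub_const a0).const_mul κ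
    exact (d1.add_const _).sub d2
  · intro a ha t ht'
    refine ⟨Or.inl ?_, Or.inr ?_, Or.inl ?_, Or.inr ?_⟩
    · rw [Complex.sub_im, line_im, vl_im]
      have := bl_antitone hθ0.le hθ1 (a := a) (a' := 13 / 40) (by linarith [ha.1]) ha.2 (by norm_num)
      exact ne_of_lt (by linarith)
    · rw [Complex.add_re, line_re, vl_re]
      exact ⟨by linarith [ht'.1, ha.1], by linarith [ht'.2, ha.2]⟩
    · rw [Complex.sub_im, line_im]
      exact ne_of_gt (by linarith)
    · rw [Complex.add_re, line_re]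
      exact ⟨by linarith [ht'.1], by linarith [ht'.2]⟩
  · intro t ht'
    have := hbase t ht'
    simp only [sub_self, mul_zero, sub_zero]
    linarith
  · intro a ha t ht'
    refine low_gP' ?_ (o.up.trans hg1) ht'.1.le ht'.2.le hh
    rw [cc_one_vl]
    have := hc2 a ha.1.le ha.2
    nlinarith
  · intro a ha
    refine end_gP' ?_ o.re h
    rw [cc_re_vl]
    have := hc2 a ha.1.le ha.2
    have h3 : 0 ≤ tan θ ^ 2 := sq_nonneg _
    apply mul_pos (by linarith)
    nlinarith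
  · intro a ha t ht' hg _
    have k := hM a ha t ht' hg
    have k2 := hr a ⟨ha.1.le, ha.2⟩
    rw [Complex.ofReal_zero, zero_mul, mul_zero, zero_add, rate_line]
    unfold Ml at k
    have e : (he ((t : ℂ) + (h : ℂ) * Complex.I - vl θ a) - he ((t : ℂ) + (h : ℂ) * Complex.I + vl θ a)).re +
        Tl θ a * (he ((t : ℂ) + (h : ℂ) * Complex.I - vl θ a) - he ((t : ℂ) + (h : ℂ) * Complex.I + vl θ a)).im =
        -((he ((t : ℂ) + (h : ℂ) * Complex.I + vl θ a) - he ((t : ℂ) + (h : ℂ) * Complex.I - vl θ a)).re +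
        Tl θ a * (he ((t : ℂ) + (h : ℂ) * Complex.I + vl θ a) -
          he ((t : ℂ) + (h : ℂ) * Complex.I - vl θ a)).im) := by
      simp only [Complex.sub_re, Complex.sub_im]; ring
    rw [e]
    linarith

/-- The rate down the vertical is nonnegative at negative heights. -/
theorem vert_neg_rate {η t : ℝ} (hη : 0 < η) (hh : h < 0) (t0 : 0 ≤ t) (t1 : t < 1 / 2) :
    0 ≤ (he ((t : ℂ) + (h : ℂ) * Complex.I + vu η) - he ((t : ℂ) + (h : ℂ) * Complex.I - vu η)).im := by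
  have hpi := pi_pos
  have c := crd_bas (a := 13 / 40) (by norm_num) (by norm_num) η t0 t1.le h
  have hang := c.ang (by norm_num) (by norm_num) t0 t1 (by linarith)
  have z0 := c.z0
  have z1 := c.z1
  have p0 := c.p0
  have b0 : 0 ≤ tanh (π * η) := tanh_nonneg_of (by positivity)
  have b2 := c.b2
  have k2 := c.k2
  have k0 : tanh (π * h) ≤ 0 := by
    have h1 := tanh_nonneg_of (x := -(π * h)) (by nlinarith)
    rw [tanh_neg] at h1
    linarith
  have hI : 0 ≤ In (tan (π * (13 / 40))) (tanh (π * η)) (tan (π * t / 2)) (tanh (π * h)) := by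
    unfold In
    have g1 : 0 ≤ 1 - tanh (π * h) ^ 2 := by linarith
    have g2 : 0 ≤ 1 - tanh (π * η) ^ 2 := by linarith
    have g3 : 0 ≤ 1 - tan (π * t / 2) ^ 2 := by nlinarith
    have g4 : 0 ≤ 2 * tanh (π * η) * (1 - tanh (π * h) ^ 2) * ((1 - tan (π * t / 2) ^ 2) *
      (2 * tan (π * t / 2)) * (1 + tan (π * (13 / 40)) ^ 2)) := by positivity
    have g5 : 0 ≤ 2 * -tanh (π * h) * (1 - tanh (π * η) ^ 2) * (tan (π * (13 / 40)) *
      (1 + tan (π * t / 2) ^ 2) ^ 2) := by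
      have : 0 ≤ -tanh (π * h) := by linarith
      positivity
    nlinarith
  unfold vu
  by_contra hc
  push Not at hc
  obtain ⟨q1, q2, ρ, q3, q4, q5⟩ := hang
  have hs := sin_neg_of_neg_of_neg_pi_lt hc (by linarith)
  have q6 := mul_neg_of_neg_of_pos hs q3
  rw [q5] at q6
  linarith

end

end Pool.Agent.S3.Ho
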