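import Pool.Agent.S3.Ho.Sound2

/-!
# The other vertex: bounds of `|c_w - c_y|`; the critical equation
-/

set_option autoImplicit false

namespace Pool.Agent.S3.Ho

open Real T2

/-- What is used about the frozen vertex `W` (in the lower half plane). -/
structure Oth (W : ℂ) (g cm : ℝ) : Prop where
  up : ‖cc W - 1‖ ≤ g
  lo : cm ≤ ‖cc W‖
  cm0 : 0 ≤ cm
  re : 0 < (cc W).re
  im : 0 ≤ (cc W).im

section

variable {a β t h p b z k g cm : ℝ} {W : ℂ}

theorem oth_Wu (o : Oth W g cm) (c : Bas a β t h p b z k) :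
    Md z k * ‖cc W - cc ((t : ℂ) + h * Complex.I)‖ ≤ Wu g z k := by
  have h1 : ‖cc W - cc ((t : ℂ) + h * Complex.I)‖ ≤
      ‖cc W - 1‖ + ‖1 - cc ((t : ℂ) + h * Complex.I)‖ := by
    have := norm_add_le (cc W - 1) (1 - cc ((t : ℂ) + h * Complex.I))
    rwa [sub_add_sub_cancel] at this
  have h2 := c.one_sub_cc
  have hM := c.Mpos
  have h3 := mul_le_mul_of_nonneg_left (h1.trans (add_le_add_left o.up _)) hM.le
  unfold Wu
  rw [mul_add, h2] at h3
  linarith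

theorem sq_norm_eq (x : ℂ) : ‖x‖ ^ 2 = x.re ^ 2 + x.im ^ 2 := by
  rw [← Complex.normSq_eq_norm_sq, Complex.normSq_apply]; ring

theorem oth_Wl (o : Oth W g cm) (c : Bas a β t h p b z k) (hk : 0 ≤ k) :
    Wl cm z k ≤ (Md z k * ‖cc W - cc ((t : ℂ) + h * Complex.I)‖) ^ 2 := by
  have hM := c.Mpos
  have yr := c.cc_re
  have yi := c.cc_im
  obtain ⟨y, hy⟩ : ∃ y, y = cc ((t : ℂ) + h * Complex.I) := ⟨_, rfl⟩
  rw [← hy] at yr yi ⊢
  obtain ⟨M, hMd⟩ : ∃ M, M = Md z k := ⟨_, rfl⟩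
  unfold Wl
  rw [← hMd] at hM yr yi ⊢
  obtain ⟨x, hx⟩ : ∃ x, x = cc W := ⟨_, rfl⟩
  obtain ⟨o1, o2, o3, o4, o5⟩ := o
  rw [← hx] at o2 o4 o5 ⊢
  have hz1 := c.z1
  have hz0 := c.z0
  have z2 : z ^ 2 ≤ 1 := by nlinarith
  have ni : M * y.im ≤ 0 := by
    rw [yi]
    have : 0 ≤ 2 * z * (1 - z ^ 2) * k := by
      apply mul_nonneg (mul_nonneg (by linarith) (by linarith)) hk
    linarith
  have yim : y.im ≤ 0 := by
    by_contra hc
    push Not at hc
    have := mul_pos hM hc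
    linarith
  have e : (M * ‖x - y‖) ^ 2 = M ^ 2 * (‖x‖ ^ 2 - 2 * (x.re * y.re + x.im * y.im) + ‖y‖ ^ 2) := by
    rw [mul_pow, sq_norm_eq, sq_norm_eq, sq_norm_eq, Complex.sub_re, Complex.sub_im]; ring
  have h1 : x.im * y.im ≤ 0 := mul_nonpos_of_nonneg_of_nonpos o5 yim
  have ey := sq_norm_eq y
  have nx : x.re ≤ ‖x‖ := Complex.re_le_norm x
  have n0 : 0 ≤ ‖x‖ := norm_nonneg x
  have eim : (2 * ((1 - z ^ 2) * (2 * z) * k)) ^ 2 = M ^ 2 * y.im ^ 2 := by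
    rw [← mul_pow, yi]; ring
  rw [e, eim, ← yr]
  rcases le_total y.re 0 with hr | hr
  · have h2 : M * y.re ≤ 0 := mul_nonpos_of_nonneg_of_nonpos hM.le hr
    rw [max_eq_left h2, sub_zero, max_eq_right (by positivity), mul_pow]
    have h3 : x.re * y.re ≤ 0 := mul_nonpos_of_nonneg_of_nonpos o4.le hr
    have h4 : cm ^ 2 ≤ ‖x‖ ^ 2 := pow_le_pow_left₀ o3 o2 2
    have h5 : cm ^ 2 + y.im ^ 2 ≤ ‖x‖ ^ 2 - 2 * (x.re * y.re + x.im * y.im) + ‖y‖ ^ 2 := by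
      rw [ey]
      nlinarith [sq_nonneg y.re]
    have := mul_le_mul_of_nonneg_left h5 (sq_nonneg M)
    linarith
  · have h2 : 0 ≤ M * y.re := mul_nonneg hM.le hr
    rw [max_eq_right h2]
    have h3 : x.re * y.re ≤ ‖x‖ * y.re := mul_le_mul_of_nonneg_right nx hr
    have h4 : (max 0 (M * cm - M * y.re)) ^ 2 ≤ M ^ 2 * (‖x‖ - y.re) ^ 2 := by
      rcases le_total (M * cm - M * y.re) 0 with h5 | h5
      · rw [max_eq_left h5]
        have : 0 ≤ M ^ 2 * (‖x‖ - y.re) ^ 2 := by positivity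
        simpa using this
      · rw [max_eq_right h5, ← mul_pow]
        apply pow_le_pow_left₀ h5
        have := mul_le_mul_of_nonneg_left o2 hM.le
        linarith
    have h5 : (‖x‖ - y.re) ^ 2 + y.im ^ 2 ≤ ‖x‖ ^ 2 - 2 * (x.re * y.re + x.im * y.im) + ‖y‖ ^ 2 := by
      rw [ey]
      linarith
    have := mul_le_mul_of_nonneg_left h5 (sq_nonneg M)
    linarith

theorem oth_Wn (o : Oth W g cm) (c : Bas a β t h p b z (-k)) :
    Wn cm z k ≤ (Md z k * ‖cc W - cc ((t : ℂ) + h * Complex.I)‖) ^ 2 := by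
  have eM : Md z (-k) = Md z k := by unfold Md; ring
  have hM := c.Mpos
  have yn := c.cc_norm
  rw [eM] at hM yn
  have en : (1 - z ^ 2) ^ 2 + (2 * z) ^ 2 * (-k) ^ 2 = Nyr z k := by unfold Nyr; ring
  rw [en] at yn
  unfold Wn
  have h1 := norm_sub_norm_le (cc W) (cc ((t : ℂ) + h * Complex.I))
  have h2 : Md z k * cm - Nyr z k ≤ Md z k * ‖cc W - cc ((t : ℂ) + h * Complex.I)‖ := by
    have h3 := mul_le_mul_of_nonneg_left (show cm - ‖cc ((t : ℂ) + h * Complex.I)‖ ≤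
      ‖cc W - cc ((t : ℂ) + h * Complex.I)‖ by linarith [o.lo]) hM.le
    rw [mul_sub, yn] at h3
    exact h3
  exact pow_le_pow_left₀ (le_max_left _ _) (max_le (by positivity) h2) 2

/-- The critical equation. -/
theorem crit_eq (c : Bas a β t h p b z k)
    (hg : gPd ((t : ℂ) + h * Complex.I) ((a : ℂ) + β * Complex.I) W =
      ‖Complex.cos (π * ((t : ℂ) + h * Complex.I))‖ ^ 4) :
    ee p b z k * dd p b z k * (Md z k * ‖cc W - cc ((t : ℂ) + h * Complex.I)‖) ^ 2 =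
      (Nyr z k ^ 2 * ((1 + p ^ 2) * (1 - b ^ 2))) ^ 2 := by
  have h1 := c.norm_sub
  have h2 := c.norm_add
  have h3 := c.cc_norm
  have eF : Fd p b z k = Md z k * ((1 + p ^ 2) * (1 - b ^ 2)) := by unfold Fd Md; ring
  have e1 : Nyr z k = Md z k * ‖cc ((t : ℂ) + h * Complex.I)‖ := by rw [h3]; rfl
  rw [cos_four] at hg
  have e2 : gPd ((t : ℂ) + h * Complex.I) ((a : ℂ) + β * Complex.I) W =
      ‖Complex.sin (π * (((t : ℂ) + h * Complex.I) - ((a : ℂ) + β * Complex.I)))‖ *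
      ‖Complex.sin (π * (((t : ℂ) + h * Complex.I) + ((a : ℂ) + β * Complex.I)))‖ *
      ‖cc W - cc ((t : ℂ) + h * Complex.I)‖ := by
    unfold gPd
    rw [← sin_mul_sin, norm_mul]
  rw [e2] at hg
  rw [← h1, ← h2, e1, eF]
  linear_combination ((Md z k * ((1 + p ^ 2) * (1 - b ^ 2))) ^ 2 * Md z k ^ 2 *
    (‖Complex.sin (π * (((t : ℂ) + h * Complex.I) - ((a : ℂ) + β * Complex.I)))‖ *
      ‖Complex.sin (π * (((t : ℂ) + h * Complex.I) + ((a : ℂ) + β * Complex.I)))‖ *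
      ‖cc W - cc ((t : ℂ) + h * Complex.I)‖ + ‖cc ((t : ℂ) + h * Complex.I)‖ *
      ‖cc ((t : ℂ) + h * Complex.I)‖)) * hg

/-- The rate in rational coordinates. -/
theorem Ml_eq (c : Bas a β t h p b z k) (f1 : fdom (((t : ℂ) + h * Complex.I) + ((a : ℂ) + β * Complex.I)))
    (f2 : fdom (((t : ℂ) + h * Complex.I) - ((a : ℂ) + β * Complex.I))) (T : ℝ) :
    0 < dd p b z k ∧ 0 < ee p b z k ∧
    Ml ((t : ℂ) + h * Complex.I) ((a : ℂ) + β * Complex.I) T =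
      1 / 4 * log (ee p b z k / dd p b z k) +
      T * (he (((t : ℂ) + h * Complex.I) + ((a : ℂ) + β * Complex.I)) -
        he (((t : ℂ) + h * Complex.I) - ((a : ℂ) + β * Complex.I))).im / 2 := by
  have h1 := c.norm_sub
  have h2 := c.norm_add
  have hF := c.Fpos
  have s1 := Pot_sin_ne f1
  have s2 := Pot_sin_ne f2
  have n1 : 0 < ‖Complex.sin (π * (((t : ℂ) + h * Complex.I) + ((a : ℂ) + β * Complex.I)))‖ :=
    norm_pos_iff.2 s1
  have n2 : 0 < ‖Complex.sin (π * (((t : ℂ) + h * Complex.I) - ((a : ℂ) + β * Complex.I)))‖ :=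
    norm_pos_iff.2 s2
  refine ⟨by rw [← h1]; positivity, by rw [← h2]; positivity, ?_⟩
  rw [← h1, ← h2, mul_div_mul_right _ _ hF.ne', ← div_pow, log_pow, log_div n1.ne' n2.ne']
  unfold Ml
  rw [Complex.sub_re, re_he f1, re_he f2, norm_mul, norm_mul,
    log_mul (by simp) n1.ne', log_mul (by simp) n2.ne']
  push_cast
  ring

end

end Pool.Agent.S3.Ho
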