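import Pool.Agent.S3.NI
import Pool.Agent.S3.Ho.HGeo

/-!
# The ranges of the heights in the hole: the test

`rtest P A B C _`: `A` an interval of `S = tan θ`, `B` of `S' = tan θ'`, `C` of `sin (π re w)`.
-/

set_option autoImplicit false

namespace Pool.Agent.S3.Ho

open Pool.Agent.S3.NI
open Pool.Agent.S3.T2.Hg (ar ai)

/-! ### The square root of `1 + x` -/

def gP (x : ℕ) : ℕ := Nat.div (Nat.mul (Nat.add 4294967296 (Nat.mul 3 x)) 1073741824)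
  (Nat.add 4294967296 x)
def gV (P x : ℕ) : ℕ := Nat.succ (Nat.div (Nat.succ (Nat.add P
  (Nat.div (Nat.mul (Nat.add 1073741824 x) 1073741824) P))) 2)
def gU (x : ℕ) : ℕ := gV (gP x) x
def gL (x : ℕ) : ℕ := Nat.div (Nat.mul (Nat.add 1073741824 x) 1073741824) (gU x)
/-- `√(1 + x)`. -/
def g1 (A : N) : N := ⟨gL A.lo, gU A.hi⟩

theorem div_pos_aux {a b : ℕ} (h : b ≤ a) (hb : 0 < b) : 0 < Nat.div a b := Nat.div_pos h hb

theorem add_le_aux (K O x : ℕ) (hO : 1 ≤ O) :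
    Nat.add K x ≤ Nat.mul (Nat.add K (Nat.mul 3 x)) O := by
  show K + x ≤ (K + 3 * x) * O
  nlinarith

theorem add_pos_aux (K x : ℕ) (hK : 0 < K) : 0 < Nat.add K x := by
  show 0 < K + x
  omega

theorem gP_pos (x : ℕ) : 0 < gP x :=
  div_pos_aux (add_le_aux _ _ _ (by norm_num)) (add_pos_aux _ _ (by norm_num))

theorem cast_MO (O x : ℕ) {o : ℝ} (ho : (O : ℝ) = o) :
    ((Nat.mul (Nat.add O x) O : ℕ) : ℝ) = (o + x) * o := by
  show (((O + x) * O : ℕ) : ℝ) = _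
  push_cast
  rw [ho]

theorem cast_succ_add (P Q : ℕ) : ((Nat.succ (Nat.add P Q) : ℕ) : ℝ) = (P : ℝ) + (Nat.succ Q : ℕ) := by
  have : Nat.succ (Nat.add P Q) = P + Nat.succ Q := rfl
  rw [this]; push_cast; rfl

/-- The arithmetic-geometric mean. -/
theorem amgm_aux {M g : ℝ} (M0 : 0 ≤ M) {P T U : ℕ} (hP : 0 < P) (hT : (T : ℝ) = M)
    (hU : U = Nat.succ (Nat.div (Nat.succ (Nat.add P (Nat.div T P))) 2)) (hg : g = √M) :
    g ≤ (U : ℝ) := by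
  have hP' : (0 : ℝ) < P := by exact_mod_cast hP
  have h1 := le_succ_div T hP
  rw [hT] at h1
  have h2 := le_succ_div (Nat.succ (Nat.add P (Nat.div T P))) (d := 2) (by norm_num)
  rw [cast_succ_add] at h2
  have h3 : √M ≤ ((P : ℝ) + M / (P : ℝ)) / 2 := by
    rw [le_div_iff₀ (by norm_num)]
    have a := Real.sq_sqrt M0
    have b : 0 ≤ (P - √M) ^ 2 / (P : ℝ) := by positivity
    have c : (P - √M) ^ 2 / (P : ℝ) = P - 2 * √M + M / P := by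
      field_simp
      linear_combination a
    linarith
  rw [hg, hU]
  refine h3.trans (le_trans ?_ h2)
  have : ((2 : ℕ) : ℝ) = 2 := by norm_num
  rw [this]
  linarith

theorem sqrt_le_gU (x : ℕ) : √((1073741824 + (x : ℝ)) * 1073741824) ≤ (gU x : ℝ) := by
  have hx : (0 : ℝ) ≤ x := x.cast_nonneg
  exact amgm_aux (M := (1073741824 + (x : ℝ)) * 1073741824) (by positivity) (gP_pos x)
    (cast_MO 1073741824 x (by norm_num)) (Eq.refl (gU x)) rfl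

theorem gL_aux {M : ℝ} (M0 : 0 < M) {T U : ℕ} (hT : (T : ℝ) = M) (hU : √M ≤ (U : ℝ)) :
    ((Nat.div T U : ℕ) : ℝ) ≤ √M := by
  have s0 : 0 < √M := Real.sqrt_pos.2 M0
  have h1 : ((Nat.div T U : ℕ) : ℝ) ≤ M / (U : ℝ) := by
    rw [← hT]
    exact nat_div_le _ _
  refine h1.trans ?_
  rw [div_le_iff₀ (s0.trans_le hU)]
  calc M = √M * √M := (Real.mul_self_sqrt M0.le).symm
    _ ≤ √M * U := mul_le_mul_of_nonneg_left hU s0.le

theorem gL_le_sqrt (x : ℕ) : (gL x : ℝ) ≤ √((1073741824 + (x : ℝ)) * 1073741824) := by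
  have hx : (0 : ℝ) ≤ x := x.cast_nonneg
  exact gL_aux (by positivity) (cast_MO 1073741824 x (by norm_num)) (sqrt_le_gU x)

theorem mem_g1 {x : ℝ} {A : N} (h : Mem x A) : Mem √(1 + x) (g1 A) := by
  have hx := h.nonneg
  have e : √(1 + x) * 1073741824 = √((1073741824 + x * 1073741824) * 1073741824) := by
    rw [show (1073741824 + x * 1073741824) * 1073741824 = (1 + x) * 1073741824 ^ 2 by ring,
      Real.sqrt_mul (by linarith), Real.sqrt_sq (by norm_num)]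
  constructor
  · rw [e]
    refine (gL_le_sqrt A.lo).trans (Real.sqrt_le_sqrt ?_)
    have := h.1
    nlinarith
  · rw [e]
    refine le_trans (Real.sqrt_le_sqrt ?_) (sqrt_le_gU A.hi)
    have := h.2
    nlinarith

/-! ### The test -/

structure RP where
  c0 : N
  s0 : N
  kc1 : N
  kc0 : N
  sm : N
  qn : N

def uu : N := cst 49 100
def uu2 : N := cst 2401 10000
def rhs (X pn : N) : N := N.sm 4 (N.mul pn (N.add (N.sub X one) pn))
def qq2 (D L2 : N) : N := N.mul L2 (N.inv D)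
/-- `L2 = L²`, `D = (1 - L²)²`. -/
def qt0 (D L2 X Y2 NN : N) : Bool := D.ps && Y2.le (rhs X (N.mul (qq2 D L2) NN))
def qt1 (D L2 X Y2 NN : N) : Bool := D.ps && (rhs X (N.mul (qq2 D L2) NN)).le Y2
def qs0 (L2 X Y2 NN : N) : Bool := qt0 (N.sq (N.sub one L2)) L2 X Y2 NN
def qs1 (L2 X Y2 NN : N) : Bool := qt1 (N.sq (N.sub one L2)) L2 X Y2 NN
def sml (bp X : N) : Bool := (N.sq bp).le (N.sm 4 (N.mul uu2 (N.mul (N.sq X) (N.sub X one))))
def rUp (A be be2 bp X Y2 NN : N) : Bool :=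
  be.le be2 || (sml bp X || qs0 (N.sq (N.mul uu A)) X Y2 NN)
def rLo (k1A k0 be be2 X Y2 NN : N) : Bool :=
  k1A.le k0 || (be.lt be2 || (be2.lt be && qs1 (N.sq (N.sub k1A k0)) X Y2 NN))
def rNg (A sm qn be be2 X Y2 NN : N) : Bool :=
  be2.le be || (A.le sm && Y2.le (rhs X (N.mul qn NN)))
def r5 (P : RP) (A be be2 bp X Y2 NN : N) : Bool :=
  (rUp A be be2 bp X Y2 NN && rLo (N.mul P.kc1 A) P.kc0 be be2 X Y2 NN) &&
    rNg A P.sm P.qn be be2 X Y2 NN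
def r4 (P : RP) (A be be2 bp X Y2 : N) : Bool := r5 P A be be2 bp X Y2 (N.add (N.sq X) Y2)
def r3' (P : RP) (A be be2 bp X : N) : Bool := r4 P A be be2 bp X (N.sq (N.ad be be2))
def alN (t c id : N) : N := N.mul (N.sub one (N.mul t (N.sub one (N.sm 2 c)))) id
def alM (k ic iD : N) : N := N.mul (N.add (N.mul (N.sub one k) ic) (N.sm 2 k)) iD
def bpN (s tc id : N) : N := N.sm 2 (N.mul (N.mul s (g1 tc)) id)
def beM (s A tc id : N) : N := N.sm 2 (N.mul (N.mul (N.mul s A) (g1 tc)) id)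
def r2b (P : RP) (A be2 bp X : N) : Bool := r3' P A (N.mul A bp) be2 bp X
def r2 (P : RP) (A B C t k c1 id ic iD : N) : Bool :=
  r2b P A (beM C B (N.mul k c1) (N.mul ic iD)) (bpN P.s0 (N.mul t P.c0) id)
    (N.add (alN t P.c0 id) (alM k ic iD))
def r1 (P : RP) (A B C t k c1 d D : N) : Bool :=
  ((c1.ps && d.ps) && D.ps) && r2 P A B C t k c1 (N.inv d) (N.inv c1) (N.inv D)
def r0 (P : RP) (A B C t k c1 : N) : Bool :=
  r1 P A B C t k c1 (N.mul P.c0 (N.sq (N.add one t))) (N.sq (N.add one k))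
def rm1 (P : RP) (A B C t k : N) : Bool := r0 P A B C t k (N.sub one (N.sq C))
def rtest (P : RP) (A B C _D : N) : Bool := rm1 P A B C (N.sq A) (N.sq B)

/-- The function in the identity of the critical point. -/
noncomputable def FF (X Y q : ℝ) : ℝ := 4 * q * (X ^ 2 + Y ^ 2) * (X - 1 + q * (X ^ 2 + Y ^ 2))

/-- `t (1 + t)` for `t = L² / (1 - L²)`. -/
noncomputable def qr (L2 : ℝ) : ℝ := L2 / (1 - L2) ^ 2

/-- The property proved by the test. -/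
structure RPrp (c0 s0 k1 k0 sm q : ℝ) (S S' s : ℝ) : Prop where
  up : ∀ X Y : ℝ, X = ar S c0 + ar S' (1 - s ^ 2) → Y = ai S s0 c0 - ai S' s (1 - s ^ 2) →
    0 < Y → Y ^ 2 ≤ FF X Y (qr ((49 / 100 * S) ^ 2))
  lo : ∀ X Y : ℝ, X = ar S c0 + ar S' (1 - s ^ 2) → Y = ai S s0 c0 - ai S' s (1 - s ^ 2) →
    0 ≤ Y → k1 * S ≤ k0 ∨ FF X Y (qr ((k1 * S - k0) ^ 2)) ≤ Y ^ 2
  ng : ∀ X Y : ℝ, X = ar S c0 + ar S' (1 - s ^ 2) → Y = ai S s0 c0 - ai S' s (1 - s ^ 2) →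
    Y < 0 → S ≤ sm ∧ Y ^ 2 ≤ FF X Y q

theorem ar_ge {S c : ℝ} (hc : 0 < c) (hc1 : c ≤ 1) (hS : S ^ 2 ≤ 1) :
    1 / (1 + S ^ 2) ≤ ar S c := by
  have : (0 : ℝ) < 1 + S ^ 2 := by positivity
  rw [ar, div_le_div_iff₀ this (by positivity)]
  have k : 0 ≤ (1 - S ^ 2) * (1 - c) * (1 + S ^ 2) := by
    have := mul_nonneg (sub_nonneg.2 hS) (sub_nonneg.2 hc1)
    positivity
  nlinarith

theorem X_ge {S S' c c' : ℝ} (hc : 0 < c) (hc1 : c ≤ 1) (hS : S ^ 2 ≤ 1) (hc' : 0 < c')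
    (hc1' : c' ≤ 1) (hS' : S' ^ 2 ≤ 1) : 1 ≤ ar S c + ar S' c' := by
  have a := ar_ge hc hc1 hS
  have b := ar_ge hc' hc1' hS'
  have a' : 1 / 2 ≤ 1 / (1 + S ^ 2) := by
    rw [div_le_div_iff₀ (by norm_num) (by positivity)]; linarith
  have b' : 1 / 2 ≤ 1 / (1 + S' ^ 2) := by
    rw [div_le_div_iff₀ (by norm_num) (by positivity)]; linarith
  linarith

theorem mem_rhs {X Y q : ℝ} {X' Y2 NN Q : N} (mX : Mem X X') (hX : 1 ≤ X)
    (mY : Mem (Y ^ 2) Y2) (hN : NN = N.add (N.sq X') Y2) (mQ : Mem q Q) :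
    Mem (FF X Y q) (rhs X' (N.mul Q NN)) := by
  have mN : Mem (X ^ 2 + Y ^ 2) NN := by rw [hN]; exact mX.sq.add mY
  have mn := mQ.mul mN
  have := (mn.mul ((mX.sub mem_one hX).add mn)).sm 4
  have e : ((4 : ℕ) : ℝ) * (q * (X ^ 2 + Y ^ 2) * (X - 1 + q * (X ^ 2 + Y ^ 2))) = FF X Y q := by
    unfold FF
    push_cast; ring
  rw [← e]
  exact this

theorem mem_qr {L2 : ℝ} {L' : N} (m : Mem L2 L') (h1 : L2 ≤ 1)
    (hp : (N.sq (N.sub one L')).ps = true) : Mem (qr L2) (qq2 (N.sq (N.sub one L')) L') := by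
  unfold qr qq2
  rw [div_eq_mul_inv]
  exact m.mul ((mem_one.sub m h1).sq.inv hp)

theorem qs_zero {X Y L2 : ℝ} {X' Y2 NN L' : N} (mX : Mem X X') (hX : 1 ≤ X)
    (mY : Mem (Y ^ 2) Y2) (hN : NN = N.add (N.sq X') Y2) (m : Mem L2 L') (h1 : L2 ≤ 1)
    (h : qs0 L' X' Y2 NN = true) : Y ^ 2 ≤ FF X Y (qr L2) := by
  unfold qs0 qt0 at h
  rw [Bool.and_eq_true] at h
  obtain ⟨h2, h3⟩ := h
  exact mY.le (mem_rhs mX hX mY hN (mem_qr m h1 h2)) h3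

theorem qs_one {X Y L2 : ℝ} {X' Y2 NN L' : N} (mX : Mem X X') (hX : 1 ≤ X)
    (mY : Mem (Y ^ 2) Y2) (hN : NN = N.add (N.sq X') Y2) (m : Mem L2 L') (h1 : L2 ≤ 1)
    (h : qs1 L' X' Y2 NN = true) : FF X Y (qr L2) ≤ Y ^ 2 := by
  unfold qs1 qt1 at h
  rw [Bool.and_eq_true] at h
  obtain ⟨h2, h3⟩ := h
  exact (mem_rhs mX hX mY hN (mem_qr m h1 h2)).le mY h3

theorem le_qr {x : ℝ} (_h0 : 0 ≤ x) (h1 : x < 1) : x ≤ qr x := by
  unfold qr
  rw [le_div_iff₀ (by have : 0 < 1 - x := by linarith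
                      positivity)]
  nlinarith [mul_nonneg _h0 _h0, mul_nonneg _h0 (by linarith : 0 ≤ 1 - x)]

/-- The soundness of the test. -/
theorem rtest_sound {P : RP} {c0 s0 k1 k0 sm q : ℝ} (m1 : Mem c0 P.c0) (m2 : Mem s0 P.s0)
    (m3 : Mem k1 P.kc1) (m4 : Mem k0 P.kc0) (m5 : Mem sm P.sm) (m6 : Mem q P.qn)
    (hc0 : 0 < c0) (hc1 : c0 ≤ 1 / 2) (hk1 : k1 ≤ 1) (A B C D : N)
    (h : rtest P A B C D = true) (S S' s d : ℝ) (a : Mem S A) (b : Mem S' B) (c : Mem s C)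
    (_ : Mem d D) (hS : S ≤ 1) (hS' : S' ≤ 1) (hs : s ^ 2 ≤ 1) :
    RPrp c0 s0 k1 k0 sm q S S' s := by
  have S0 := a.nonneg
  have S0' := b.nonneg
  have s0' := c.nonneg
  have s00 := m2.nonneg
  have k00 := m4.nonneg
  have k10 := m3.nonneg
  have S2 : S ^ 2 ≤ 1 := pow_le_one₀ S0 hS
  have S2' : S' ^ 2 ≤ 1 := pow_le_one₀ S0' hS'
  unfold rtest rm1 r0 r1 at h
  have mt := a.sq
  have mk := b.sq
  have mc : Mem (1 - s ^ 2) (N.sub one (N.sq C)) := mem_one.sub c.sq hs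
  rw [Bool.and_eq_true, Bool.and_eq_true, Bool.and_eq_true] at h
  obtain ⟨⟨⟨p1, p2⟩, p3⟩, h⟩ := h
  have md : Mem (c0 * (1 + S ^ 2) ^ 2) (N.mul P.c0 (N.sq (N.add one (N.sq A)))) :=
    m1.mul (mem_one.add mt).sq
  have mD : Mem ((1 + S' ^ 2) ^ 2) (N.sq (N.add one (N.sq B))) := (mem_one.add mk).sq
  have hcp : 0 < 1 - s ^ 2 := mc.pos p1
  have mid := md.inv p2
  have mic := mc.inv p1
  have miD := mD.inv p3
  obtain ⟨id', hid⟩ : ∃ x, x = N.inv (N.mul P.c0 (N.sq (N.add one (N.sq A)))) := ⟨_, rfl⟩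
  obtain ⟨ic', hic⟩ : ∃ x, x = N.inv (N.sub one (N.sq C)) := ⟨_, rfl⟩
  obtain ⟨iD', hiD⟩ : ∃ x, x = N.inv (N.sq (N.add one (N.sq B))) := ⟨_, rfl⟩
  rw [← hid] at mid h
  rw [← hic] at mic h
  rw [← hiD] at miD h
  unfold r2 at h
  have mal : Mem (ar S c0) (alN (N.sq A) P.c0 id') := by
    have e : ar S c0 = (1 - S ^ 2 * (1 - (2 : ℕ) * c0)) * (c0 * (1 + S ^ 2) ^ 2)⁻¹ := by
      rw [ar, div_eq_mul_inv]; norm_num
    rw [e]
    refine (mem_one.sub (mt.mul (mem_one.sub (m1.sm 2) (by norm_num; linarith))) ?_).mul mid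
    have : 0 ≤ 1 - (2 : ℕ) * c0 := by norm_num; linarith
    have h2 : 1 - (2 : ℕ) * c0 ≤ 1 := by norm_num; linarith
    exact mul_le_one₀ S2 this h2
  have mam : Mem (ar S' (1 - s ^ 2)) (alM (N.sq B) ic' iD') := by
    have e : ar S' (1 - s ^ 2) =
        ((1 - S' ^ 2) * (1 - s ^ 2)⁻¹ + (2 : ℕ) * S' ^ 2) * ((1 + S' ^ 2) ^ 2)⁻¹ := by
      have : (0 : ℝ) < 1 + S' ^ 2 := by positivity
      rw [ar]
      field_simp
      push_cast
      ring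
    rw [e]
    exact (((mem_one.sub mk S2').mul mic).add (mk.sm 2)).mul miD
  have mbp : Mem ((2 : ℕ) * (s0 * √(1 + S ^ 2 * c0) * (c0 * (1 + S ^ 2) ^ 2)⁻¹))
      (bpN P.s0 (N.mul (N.sq A) P.c0) id') := ((m2.mul (mem_g1 (mt.mul m1))).mul mid).sm 2
  obtain ⟨bp, hbp⟩ : ∃ x, x = ((2 : ℕ) : ℝ) * (s0 * √(1 + S ^ 2 * c0) *
    (c0 * (1 + S ^ 2) ^ 2)⁻¹) := ⟨_, rfl⟩
  rw [← hbp] at mbp
  have ebe : ai S s0 c0 = S * bp := by
    rw [hbp, ai, div_eq_mul_inv]; push_cast; ring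
  have mbe : Mem (ai S s0 c0) (N.mul A (bpN P.s0 (N.mul (N.sq A) P.c0) id')) := by
    rw [ebe]
    exact a.mul mbp
  have mbm : Mem (ai S' s (1 - s ^ 2)) (beM C B (N.mul (N.sq B) (N.sub one (N.sq C)))
      (N.mul ic' iD')) := by
    have e : ai S' s (1 - s ^ 2) = (2 : ℕ) * (s * S' * √(1 + S' ^ 2 * (1 - s ^ 2)) *
        ((1 - s ^ 2)⁻¹ * ((1 + S' ^ 2) ^ 2)⁻¹)) := by
      rw [ai, div_eq_mul_inv, mul_inv]; push_cast; ring
    rw [e]
    exact (((c.mul b).mul (mem_g1 (mk.mul mc))).mul (mic.mul miD)).sm 2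
  have mX := mal.add mam
  obtain ⟨X', hX'⟩ : ∃ x, x = N.add (alN (N.sq A) P.c0 id') (alM (N.sq B) ic' iD') := ⟨_, rfl⟩
  obtain ⟨bp', hbp'⟩ : ∃ x, x = bpN P.s0 (N.mul (N.sq A) P.c0) id' := ⟨_, rfl⟩
  obtain ⟨be2, hbe2⟩ : ∃ x, x = beM C B (N.mul (N.sq B) (N.sub one (N.sq C))) (N.mul ic' iD') :=
    ⟨_, rfl⟩
  rw [← hX'] at mX h
  rw [← hbp'] at mbp mbe h
  rw [← hbe2] at mbm h
  unfold r2b r3' r4 r5 at h
  obtain ⟨X, hX⟩ : ∃ x, x = ar S c0 + ar S' (1 - s ^ 2) := ⟨_, rfl⟩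
  obtain ⟨Y, hY⟩ : ∃ x, x = ai S s0 c0 - ai S' s (1 - s ^ 2) := ⟨_, rfl⟩
  rw [← hX] at mX
  have X1 : 1 ≤ X := by
    rw [hX]
    exact X_ge hc0 (by linarith) S2 hcp (by nlinarith) S2'
  have mY : Mem (Y ^ 2) (N.sq (N.ad (N.mul A bp') be2)) := by
    have m5 := (mbe.ad mbm).sq_abs
    rwa [← hY] at m5
  obtain ⟨Y2, hY2⟩ : ∃ x, x = N.sq (N.ad (N.mul A bp') be2) := ⟨_, rfl⟩
  obtain ⟨NN, hNN⟩ : ∃ x, x = N.add (N.sq X') Y2 := ⟨_, rfl⟩
  rw [← hY2] at mY h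
  rw [← hNN] at h
  have ai0 : 0 ≤ ai S' s (1 - s ^ 2) := mbm.nonneg
  rw [Bool.and_eq_true, Bool.and_eq_true] at h
  obtain ⟨⟨hu, hl⟩, hn⟩ := h
  have eX : ∀ x, x = ar S c0 + ar S' (1 - s ^ 2) → x = X := fun x hx => by rw [hx, hX]
  have eY : ∀ x, x = ai S s0 c0 - ai S' s (1 - s ^ 2) → x = Y := fun x hx => by rw [hx, hY]
  refine ⟨?_, ?_, ?_⟩
  · intro X0 Y0 h1 h2
    rw [eX X0 h1, eY Y0 h2]
    intro hpos
    have hL1 : (49 / 100 * S) ^ 2 < 1 := by nlinarith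
    unfold rUp at hu
    rw [Bool.or_eq_true, Bool.or_eq_true] at hu
    rcases hu with hu | hu | hu
    · exfalso
      have := mbe.le mbm hu
      linarith
    · unfold sml at hu
      have mU : Mem ((2401 : ℕ) / (10000 : ℕ) : ℝ) uu2 := mem_cst (by norm_num)
      have m7 := (mU.mul (mX.sq.mul (mX.sub mem_one X1))).sm 4
      have k := mbp.sq.le m7 hu
      have bp0 := mbp.nonneg
      have e1 : Y ≤ S * bp := by rw [hY, ebe]; linarith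
      have e2 : Y ^ 2 ≤ S ^ 2 * bp ^ 2 := by
        rw [← mul_pow]; exact pow_le_pow_left₀ hpos.le e1 2
      have e3 : S ^ 2 * bp ^ 2 ≤ S ^ 2 * (4 * (2401 / 10000 * (X ^ 2 * (X - 1)))) := by
        refine mul_le_mul_of_nonneg_left ?_ (sq_nonneg S)
        push_cast at k
        exact k
      have e4 := le_qr (sq_nonneg (49 / 100 * S)) hL1
      obtain ⟨qq, hqq⟩ : ∃ x, x = qr ((49 / 100 * S) ^ 2) := ⟨_, rfl⟩
      rw [← hqq] at e4 ⊢
      have q0 : 0 ≤ qq := (sq_nonneg _).trans e4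
      unfold FF
      have f1 : qq * X ^ 2 ≤ qq * (X ^ 2 + Y ^ 2) :=
        mul_le_mul_of_nonneg_left (by nlinarith [sq_nonneg Y]) q0
      have f2 : 0 ≤ qq * X ^ 2 := by positivity
      have f3 : X - 1 ≤ X - 1 + qq * (X ^ 2 + Y ^ 2) := by
        have : 0 ≤ qq * (X ^ 2 + Y ^ 2) := by positivity
        linarith
      have f4 : (qq * X ^ 2) * (X - 1) ≤ (qq * (X ^ 2 + Y ^ 2)) *
          (X - 1 + qq * (X ^ 2 + Y ^ 2)) :=
        mul_le_mul f1 f3 (by linarith) (f2.trans f1)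
      have f5 : (49 / 100 * S) ^ 2 * (X ^ 2 * (X - 1)) ≤ qq * (X ^ 2 * (X - 1)) := by
        refine mul_le_mul_of_nonneg_right e4 ?_
        have : 0 ≤ X - 1 := by linarith
        positivity
      nlinarith
    · have mU : Mem ((49 : ℕ) / (100 : ℕ) : ℝ) uu := mem_cst (by norm_num)
      have m7 := (mU.mul a).sq
      push_cast at m7
      exact qs_zero mX X1 mY hNN m7 hL1.le hu
  · intro X0 Y0 h1 h2
    rw [eX X0 h1, eY Y0 h2]
    intro hY0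
    unfold rLo at hl
    rw [Bool.or_eq_true, Bool.or_eq_true, Bool.and_eq_true] at hl
    rcases hl with hl | hl | ⟨-, hl⟩
    · exact Or.inl ((m3.mul a).le m4 hl)
    · exfalso
      have := mbe.lt mbm hl
      linarith
    · rcases le_or_gt (k1 * S) k0 with hk | hk
      · exact Or.inl hk
      · right
        refine qs_one mX X1 mY hNN ((m3.mul a).sub m4 hk.le).sq ?_ hl
        apply pow_le_one₀ (by linarith)
        nlinarith
  · intro X0 Y0 h1 h2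
    rw [eX X0 h1, eY Y0 h2]
    intro hY0
    unfold rNg at hn
    rw [Bool.or_eq_true, Bool.and_eq_true] at hn
    rcases hn with hn | ⟨hn1, hn2⟩
    · exfalso
      have := mbm.le mbe hn
      linarith
    · exact ⟨a.le m5 hn1, mY.le (mem_rhs mX X1 mY hNN m6) hn2⟩

end Pool.Agent.S3.Ho
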