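import Pool.Agent.S3.Ho.Rng
import Pool.Agent.S3.Ho.Hole2

/-!
# The ranges of the heights in the hole: from the test to the data
-/

set_option autoImplicit false

namespace Pool.Agent.S3.T2

open Real NI Ho

/-- the constants -/
structure RD (x0 : ℝ) (P : RP) (c1 c0 n0 sm : ℝ) : Prop where
  m1 : Mem (cos (π * x0) ^ 2) P.c0
  m2 : Mem (sin (π * x0)) P.s0
  m3 : Mem c1 P.kc1
  m4 : Mem c0 P.kc0
  m5 : Mem sm P.sm
  m6 : Mem (qr (n0 ^ 2)) P.qn
  x1 : 1 / 4 ≤ x0
  x2 : x0 ≤ 31 / 100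
  c1 : c1 < 1
  n1 : 0 ≤ n0
  n2 : n0 ≤ 1 / 2

/-- the squared hyperbolic tangent in terms of the squared hyperbolic sine -/
theorem tanh_sq_eq (x : ℝ) : tanh x ^ 2 * (1 + sinh x ^ 2) = sinh x ^ 2 := by
  rw [tanh_eq_sinh_div_cosh, div_pow, cosh_sq]
  have : sinh x ^ 2 + 1 ≠ 0 := by positivity
  field_simp
  ring

/-- comparison of `FF` at the height and at a level -/
theorem FF_lt {X Y x L : ℝ} (hX : 1 ≤ X) (_hL0 : 0 ≤ L) (_hL1 : L < 1)
    (h : L ^ 2 < tanh x ^ 2) :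
    FF X Y (qr (L ^ 2)) < FF X Y (sinh x ^ 2 * (1 + sinh x ^ 2)) := by
  have e := tanh_sq_eq x
  have h1 : 0 < 1 - L ^ 2 := by nlinarith [_hL0, _hL1]
  have hN : 0 < X ^ 2 + Y ^ 2 := by nlinarith [sq_nonneg Y]
  have ht : L ^ 2 / (1 - L ^ 2) < sinh x ^ 2 := by
    rw [div_lt_iff₀ h1]
    have h2 : 0 ≤ sinh x ^ 2 := sq_nonneg _
    nlinarith
  have k := Hg.lt_of_test (σ := L ^ 2 / (1 - L ^ 2)) (t := sinh x ^ 2)
    (q := sinh x ^ 2 * (1 + sinh x ^ 2)) (Y := Y) hX (by positivity) (sq_nonneg _) rfl ht hN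
  have e2 : L ^ 2 / (1 - L ^ 2) * (1 + L ^ 2 / (1 - L ^ 2)) = qr (L ^ 2) := by
    unfold qr
    field_simp
    ring
  rw [e2] at k
  exact k

theorem lt_FF {X Y x L : ℝ} (hX : 1 ≤ X) (hL1 : L ^ 2 < 1)
    (h : tanh x ^ 2 < L ^ 2) :
    FF X Y (sinh x ^ 2 * (1 + sinh x ^ 2)) < FF X Y (qr (L ^ 2)) := by
  have e := tanh_sq_eq x
  have h1 : 0 < 1 - L ^ 2 := by linarith
  have hN : 0 < X ^ 2 + Y ^ 2 := by nlinarith [sq_nonneg Y]
  have ht : sinh x ^ 2 < L ^ 2 / (1 - L ^ 2) := by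
    rw [lt_div_iff₀ h1]
    have h2 : 0 ≤ sinh x ^ 2 := sq_nonneg _
    nlinarith
  have e2 : L ^ 2 / (1 - L ^ 2) * (1 + L ^ 2 / (1 - L ^ 2)) = qr (L ^ 2) := by
    unfold qr
    field_simp
    ring
  exact Hg.lt_of_test (σ := sinh x ^ 2) (t := L ^ 2 / (1 - L ^ 2))
    (q := qr (L ^ 2)) (Y := Y) hX (sq_nonneg _) (by positivity) e2.symm ht hN

/-- **The data of the heights from the branch and bound.** -/
theorem bse_of {θ θ' x0 c1 c0 n0 sm : ℝ} {w : ℂ} {P : RP} {pat : List ℕ} {A B C : N}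
    (hbb : bb (rtest P) pat A B C one = true) (R : RD x0 P c1 c0 n0 sm)
    (hp : Pr θ θ' (vl θ x0) w) (hwl : w.im = bl θ' w.re) (hS1 : tan θ ≤ 1) (hS1' : tan θ' ≤ 1)
    (mA : Mem (tan θ) A) (mB : Mem (tan θ') B) (mC : Mem (sin (π * w.re)) C) :
    Bse θ θ' x0 c1 c0 n0 sm w := by
  have hpi := pi_pos
  have S0 := mA.nonneg
  have S0' := mB.nonneg
  have hv : sinh (π * (vl θ x0).im) = tan θ * cos (π * (vl θ x0).re) := by
    rw [vl_im, vl_re, sinh_pi_bl]
  have hw : sinh (π * w.im) = tan θ' * cos (π * w.re) := by rw [hwl, sinh_pi_bl]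
  have cx : 0 < cos (π * x0) := cos_pos_of (by linarith [R.x1]) (by linarith [R.x2])
  have cw : 0 < cos (π * w.re) := cos_pi_pos hp.hw.abs
  have c2 : cos (π * x0) ^ 2 ≤ 1 / 2 := by
    have k : cos (π * x0) ≤ cos (π / 4) := by
      apply cos_le_cos_of_nonneg_of_le_pi (by positivity)
      · have := R.x2
        nlinarith
      · have := R.x1
        nlinarith
    rw [cos_pi_div_four] at k
    have := pow_le_pow_left₀ cx.le k 2
    have e : (√2 / 2) ^ 2 = 1 / 2 := by rw [div_pow, sq_sqrt (by norm_num)]; norm_num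
    linarith
  have Q := bb_sound (P := fun S S' s _ => S ≤ 1 → S' ≤ 1 → s ^ 2 ≤ 1 →
      RPrp (cos (π * x0) ^ 2) (sin (π * x0)) c1 c0 sm (qr (n0 ^ 2)) S S' s)
    (fun A B C D ht S S' s d a b c dd h1 h2 h3 =>
      rtest_sound R.m1 R.m2 R.m3 R.m4 R.m5 R.m6 (by positivity) c2 R.c1.le A B C D ht
        S S' s d a b c dd h1 h2 h3) pat A B C one hbb (tan θ) (tan θ') (sin (π * w.re)) 1 mA mB mC
    mem_one hS1 hS1' (sin_sq_le_one _)
  obtain ⟨X, hX⟩ : ∃ x, x = Hg.ar (tan θ) (cos (π * x0) ^ 2) +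
    Hg.ar (tan θ') (1 - sin (π * w.re) ^ 2) := ⟨_, rfl⟩
  obtain ⟨Y, hY⟩ : ∃ x, x = Hg.ai (tan θ) (sin (π * x0)) (cos (π * x0) ^ 2) -
    Hg.ai (tan θ') (sin (π * w.re)) (1 - sin (π * w.re) ^ 2) := ⟨_, rfl⟩
  obtain ⟨id, g1, g2⟩ := Hg.pair_id hp hv hw (X := X) (Y := Y) (by rw [vl_re]; exact hX)
    (by rw [vl_re]; exact hY)
  have e : 1 - sin (π * w.re) ^ 2 = cos (π * w.re) ^ 2 := by
    have := sin_sq_add_cos_sq (π * w.re); linarith
  have X1 : 1 ≤ X := by
    rw [hX, e]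
    exact X_ge (by positivity) (cos_sq_le_one _) (pow_le_one₀ S0 hS1) (by positivity)
      (cos_sq_le_one _) (pow_le_one₀ S0' hS1')
  obtain ⟨y, hy⟩ : ∃ y, y = yv (vl θ x0) w := ⟨_, rfl⟩
  rw [← hy] at id g1 g2
  have idF : Y ^ 2 = FF X Y (sinh (π * y.im) ^ 2 * (1 + sinh (π * y.im) ^ 2)) := id
  -- the sign for negative `Y`
  have g3 : Y < 0 → y.im < 0 := by
    intro hY0
    by_contra hc
    push Not at hc
    rcases hc.eq_or_lt with h0 | h0
    · rw [← h0, mul_zero, sinh_zero] at idF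
      unfold FF at idF
      norm_num at idF
      linarith
    · -- the conjugate
      obtain ⟨y0, y1⟩ := hp.yv_re
      rw [← hy] at y0 y1
      have hi := Hg.inv_cos_sq (v := vl θ x0) (S := tan θ) (by rw [vl_re]; exact cx) hv
      have hi' : 1 / Complex.cos (π * (starRingEnd ℂ) w) ^ 2 =
          ⟨Hg.ar (tan θ') (1 - sin (π * w.re) ^ 2),
            -Hg.ai (tan θ') (sin (π * w.re)) (1 - sin (π * w.re) ^ 2)⟩ := by
        have e := Hg.inv_cos_sq (v := (starRingEnd ℂ) w) (S := -tan θ')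
          (by rw [Complex.conj_re]; exact cw) (by
          rw [Complex.conj_im, Complex.conj_re, mul_neg, sinh_neg, hw, neg_mul])
        rw [Complex.conj_re, Hg.ar_neg, Hg.ai_neg] at e
        have k : cos (π * w.re) ^ 2 = 1 - sin (π * w.re) ^ 2 := by
          have := sin_sq_add_cos_sq (π * w.re); linarith
        rw [k] at e
        exact e
      have hyeq := hp.yv_eq
      rw [← hy, hi, hi', vl_re] at hyeq
      have hc2 : 1 / Complex.cos (π * (starRingEnd ℂ) y) ^ 2 = ⟨X, -Y⟩ := by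
        have k1 : (π : ℂ) * (starRingEnd ℂ) y = (starRingEnd ℂ) (π * y) := by
          rw [map_mul, Complex.conj_ofReal]
        have k2 : 1 / Complex.cos (π * (starRingEnd ℂ) y) ^ 2 =
            (starRingEnd ℂ) (1 / Complex.cos (π * y) ^ 2) := by
          rw [k1, Complex.cos_conj, map_div₀, map_pow, map_one]
        rw [k2, hyeq, hX, hY]
        apply Complex.ext
        · simp only [Complex.conj_re, Complex.add_re]
        · simp only [Complex.conj_im, Complex.add_im]; ring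
      have k := (Hg.crit_id (y := (starRingEnd ℂ) y) (by rw [Complex.conj_re]; exact y0)
        (by rw [Complex.conj_re]; exact y1) hc2).2.1 (by linarith)
      rw [Complex.conj_im] at k
      linarith
  refine ⟨fun h0 => ?_, fun h0 => ?_⟩
  · rw [← hy] at h0 ⊢
    have T0 : 0 ≤ tanh (π * y.im) := tanh_nonneg_of (by positivity)
    have Y0 : 0 ≤ Y := by
      by_contra hc
      push Not at hc
      have := g3 hc
      linarith
    constructor
    · rcases Q.lo X Y hX hY Y0 with k | k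
      · linarith
      · by_contra hc
        push Not at hc
        have hL : 0 < c1 * tan θ - c0 := by linarith
        have hL2 : c1 * tan θ - c0 < 1 := by
          have h1 := R.m4.nonneg
          have h2 := R.c1
          have h5 := R.m3.nonneg
          have h3 : c1 * tan θ ≤ c1 * 1 := mul_le_mul_of_nonneg_left hS1 h5
          linarith
        have hlt : tanh (π * y.im) ^ 2 < (c1 * tan θ - c0) ^ 2 :=
          pow_lt_pow_left₀ (by linarith) T0 two_ne_zero
        have h6 : (c1 * tan θ - c0) ^ 2 < 1 := by nlinarith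
        have := lt_FF (Y := Y) X1 h6 hlt
        linarith
    · by_contra hc
      push Not at hc
      have hU0 : 0 ≤ 49 / 100 * tan θ := by positivity
      have hlt : (49 / 100 * tan θ) ^ 2 < tanh (π * y.im) ^ 2 :=
        pow_lt_pow_left₀ hc hU0 two_ne_zero
      have k1 := FF_lt (Y := Y) X1 hU0 (by linarith) hlt
      rcases Y0.eq_or_lt with h1 | h1
      · rw [← idF, ← h1] at k1
        unfold FF at k1
        have q0 : 0 ≤ qr ((49 / 100 * tan θ) ^ 2) := by unfold qr; positivity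
        have : 0 ≤ 4 * qr ((49 / 100 * tan θ) ^ 2) * (X ^ 2 + 0 ^ 2) *
          (X - 1 + qr ((49 / 100 * tan θ) ^ 2) * (X ^ 2 + 0 ^ 2)) := by
          have : 0 ≤ X - 1 := by linarith
          positivity
        linarith
      · have := Q.up X Y hX hY h1
        linarith
  · rw [← hy] at h0 ⊢
    have Y0 : Y < 0 := by
      by_contra hc
      push Not at hc
      have := g2 hc
      linarith
    obtain ⟨q1, q2⟩ := Q.ng X Y hX hY Y0
    refine ⟨?_, q1⟩
    by_contra hc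
    push Not at hc
    have hlt : n0 ^ 2 < tanh (π * y.im) ^ 2 := by
      rw [← neg_sq (tanh (π * y.im))]
      exact pow_lt_pow_left₀ hc R.n1 two_ne_zero
    have k1 := FF_lt (Y := Y) X1 R.n1 (by linarith [R.n2]) hlt
    linarith

end Pool.Agent.S3.T2
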