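import Pool.Agent.S3.Ho.Test
import Pool.Agent.S3.W2.Ang

/-!
# Soundness of the tests
-/

set_option autoImplicit false

namespace Pool.Agent.S3.Ho

open Real NI T2

theorem ble_false {a b : ℕ} (h : Nat.ble a b = false) : b < a := by
  by_contra hc
  push Not at hc
  rw [← Nat.ble_eq] at hc
  rw [h] at hc
  exact absurd hc (by decide)

theorem ble_true {a b : ℕ} (h : Nat.ble a b = true) : a ≤ b := by rwa [Nat.ble_eq] at h

theorem al2_sound {α : ℝ} {Rp Rn Ip In : N} {rp rn ip jn : ℝ} (h1 : Mem rp Rp) (h2 : Mem rn Rn)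
    (h3 : Mem ip Ip) (h4 : Mem jn In) (h : Ang α (rp - rn) (ip - jn)) :
    ((al2 Rp Rn Ip In).1 : ℝ) - (al2 Rp Rn Ip In).2 ≤ α * 1073741824 := by
  have hU : (0 : ℝ) < 1073741824 := by norm_num
  have plo := pi_lo
  unfold al2
  rcases c1 : Nat.ble (Nat.succ Rp.hi) Rn.lo with _ | _
  · rw [cond_false]
    rcases c2 : Nat.ble (Nat.succ In.hi) Ip.lo with _ | _
    · rw [cond_false]
      rcases c3 : Nat.ble (Nat.succ Rn.hi) Rp.lo with _ | _
      · rw [cond_false]
        have h5 := h.lo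
        have h6 := mul_lt_mul_of_pos_right h5 hU
        have h7 := pi_hi
        push_cast
        linarith
      · rw [cond_true]
        have h5 := ble_true c3
        have h5' : (Rn.hi : ℝ) + 1 ≤ Rp.lo := by exact_mod_cast h5
        have hR : 0 < rp - rn := by nlinarith [h1.1, h2.2]
        have e := h.of_pos hR
        have h6 := le_qUp (x := -(ip - jn)) (y := rp - rn) (a := Nat.sub In.hi Ip.lo)
          (b := Nat.sub Rp.lo Rn.hi) (Nat.sub_pos_of_lt (by omega))
          (le_nsub (by linarith [h3.1, h4.2])) (nsub_le (by linarith [h1.1, h2.2]) (by positivity))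
        rw [neg_div, arctan_neg, ← e] at h6
        push_cast
        linarith
    · rw [cond_true]
      have h5 := ble_true c2
      have h5' : (In.hi : ℝ) + 1 ≤ Ip.lo := by exact_mod_cast h5
      have hI : 0 < ip - jn := by nlinarith [h3.1, h4.2]
      have e := h.of_im hI
      have h6 := le_qUp (x := rp - rn) (y := ip - jn) (a := Nat.sub Rp.hi Rn.lo)
        (b := Nat.sub Ip.lo In.hi) (Nat.sub_pos_of_lt (by omega))
        (le_nsub (by linarith [h1.2, h2.1])) (nsub_le (by linarith [h3.1, h4.2]) (by positivity))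
      have h7 : (0 : ℝ) ≤ α * 1073741824 := by
        have : arctan ((rp - rn) / (ip - jn)) < π / 2 := arctan_lt_pi_div_two _
        have : 0 < α := by rw [e]; linarith
        positivity
      have h8 : ((Nat.sub 1686629713 (qUp (Nat.sub Rp.hi Rn.lo) (Nat.sub Ip.lo In.hi)) : ℕ) : ℝ) ≤
          α * 1073741824 := by
        refine nsub_le ?_ h7
        rw [e]
        push_cast
        linarith
      push_cast
      linarith
  · rw [cond_true]
    have h5 := ble_true c1
    have h5' : (Rp.hi : ℝ) + 1 ≤ Rn.lo := by exact_mod_cast h5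
    have hR : rp - rn < 0 := by nlinarith [h1.2, h2.1]
    have e := h.of_neg hR
    rcases c2 : Nat.ble Ip.hi In.lo with _ | _
    · rw [cond_false]
      have h6 := le_qUp (x := ip - jn) (y := -(rp - rn)) (a := Nat.sub Ip.hi In.lo)
        (b := Nat.sub Rn.lo Rp.hi) (Nat.sub_pos_of_lt (by omega))
        (le_nsub (by linarith [h3.2, h4.1])) (nsub_le (by linarith [h1.2, h2.1]) (by nlinarith))
      have h7 : (0 : ℝ) ≤ α * 1073741824 := by
        have := h.of_neg_lt hR
        have := pi_pos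
        have : 0 < α := by linarith
        positivity
      have h8 : ((Nat.sub 3373259426 (qUp (Nat.sub Ip.hi In.lo) (Nat.sub Rn.lo Rp.hi)) : ℕ) : ℝ) ≤
          α * 1073741824 := by
        refine nsub_le ?_ h7
        rw [e]
        push_cast
        linarith
      push_cast
      linarith
    · rw [cond_true]
      have h6 := ble_true c2
      have h6' : (Ip.hi : ℝ) ≤ In.lo := by exact_mod_cast h6
      have hI : ip - jn ≤ 0 := by nlinarith [h3.2, h4.1]
      have h7 : arctan ((ip - jn) / -(rp - rn)) ≤ 0 := by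
        rw [← arctan_zero]
        exact arctan_strictMono.monotone (div_nonpos_of_nonpos_of_nonneg hI (by linarith))
      have h8 : π ≤ α := by rw [e]; linarith
      have h9 := mul_le_mul_of_nonneg_right h8 hU.le
      push_cast
      linarith

theorem mem_third : Mem (1 / 3) u3 := by constructor <;> norm_num [u3]
theorem mem_fifth : Mem (1 / 5) u5 := by constructor <;> norm_num [u5]
theorem mem_seventh : Mem (1 / 7) u7 := by constructor <;> norm_num [u7]

/-- upper bound of `u = artanh b` -/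
theorem etaU_le {u : ℝ} {B B2 B4 : N} (hu : 0 ≤ u) (h1 : Mem (tanh u) B) (h2 : Mem (tanh u ^ 2) B2)
    (h4 : Mem (tanh u ^ 4) B4) (hps : (N.sub one B2).ps = true) :
    u * 1073741824 ≤ (etaU B B2 B4 : ℝ) := by
  have hb2 := tanh_sq_lt u
  have h5 := le_tanh_ser hu
  have m := h1.mul (((mem_one.add (h2.mul mem_third)).add (h4.mul mem_fifth)).add
    ((h2.mul h4).mul (mem_seventh.mul ((mem_one.sub h2 hb2.le).inv hps))))
  have e : tanh u * (1 + tanh u ^ 2 * (1 / 3) + tanh u ^ 4 * (1 / 5) +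
      tanh u ^ 2 * tanh u ^ 4 * (1 / 7 * (1 - tanh u ^ 2)⁻¹)) =
      tanh u * (1 + tanh u ^ 2 / 3 + tanh u ^ 4 / 5 +
      tanh u ^ 6 / (7 * (1 - tanh u ^ 2))) := by
    have : 1 - tanh u ^ 2 ≠ 0 := by linarith
    field_simp
  rw [e] at m
  exact (mul_le_mul_of_nonneg_right h5 (by norm_num)).trans m.2

/-- upper bound of the share rate -/
theorem r3u_le {u p : ℝ} {A B B2 T : N} (hu : 0 ≤ u) (hp : 0 < p) (hA : Mem p A)
    (h1 : Mem (tanh u) B) (h2 : Mem (tanh u ^ 2) B2) (hT : Mem (p * tanh u) T)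
    (hps : (N.sub one B2).ps = true) (hpa : A.ps = true) :
    (3 * u + (3 * arctan (1 / p) - π / 2) * (p * tanh u)) * 1073741824 ≤ (r3u A B B2 T : ℝ) := by
  have hU : (0 : ℝ) < 1073741824 := by norm_num
  have e1 := etaU_le hu h1 h2 (by
    have := h2.sq
    rw [← pow_mul] at this
    exact this) hps
  have hi := hA.inv hpa
  rw [← one_div] at hi
  have hi0 : (0 : ℝ) < 1 / p := by positivity
  have e2 : arctan (1 / p) * 1073741824 ≤ (atanUp (N.inv A).hi : ℝ) := by
    refine le_trans ?_ (le_atanUp _)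
    apply mul_le_mul_of_nonneg_right _ hU.le
    apply arctan_strictMono.monotone
    rw [le_div_iff₀ hU]
    exact hi.2
  have e3 : (3 * arctan (1 / p) - π / 2) * 1073741824 ≤
      ((Nat.sub (Nat.mul 3 (atanUp (N.inv A).hi)) 1686629713 : ℕ) : ℝ) := by
    refine le_nsub ?_
    rw [cast_mul']
    have := pi_lo
    push_cast
    linarith
  have t0 := hT.nonneg
  have e4 : (3 * arctan (1 / p) - π / 2) * (p * tanh u) * 1073741824 ≤
      ((Nat.succ (Nat.div (Nat.mul (Nat.sub (Nat.mul 3 (atanUp (N.inv A).hi)) 1686629713) T.hi)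
        1073741824) : ℕ) : ℝ) := by
    refine le_trans ?_ (le_succ_div _ (by norm_num))
    rw [cast_mul', Nat.cast_ofNat, le_div_iff₀ hU]
    obtain ⟨X, hX⟩ : ∃ X : ℝ, X = ((Nat.sub (Nat.mul 3 (atanUp (N.inv A).hi)) 1686629713 : ℕ) : ℝ) :=
      ⟨_, rfl⟩
    rw [← hX] at e3 ⊢
    have hX0 : 0 ≤ X := by rw [hX]; exact Nat.cast_nonneg _
    have e5 := mul_le_mul_of_nonneg_right e3 (mul_nonneg t0 hU.le)
    have e6 := mul_le_mul_of_nonneg_left hT.2 hX0
    nlinarith
  unfold r3u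
  rw [cast_add', cast_mul']
  have e7 : (etaU B B2 (N.sq B2) : ℝ) = etaU B B2 (N.sq B2) := rfl
  push_cast at e1 e4 ⊢
  linarith

theorem fin_sound {r q : ℕ} {T : N} {τ : ℝ} {ρ L : ℝ} {α : ℕ × ℕ} {a : ℝ}
    (h : fin r T q α = true) (hr : ρ * 1073741824 ≤ r) (hT : Mem τ T) (hq : (q : ℝ) ≤ L * 1073741824)
    (ha : (α.1 : ℝ) - α.2 ≤ a * 1073741824) (h0 : α.1 = 0 ∨ α.2 = 0) :
    ρ ≤ L + τ * a / 2 := by
  have hU : (0 : ℝ) < 1073741824 := by norm_num
  have t0 := hT.nonneg
  have h' : Nat.add r (Nat.succ (Nat.div (Nat.mul T.hi (Nat.succ (Nat.div α.2 2))) 1073741824)) ≤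
    Nat.add q (Nat.div (Nat.mul T.lo (Nat.div α.1 2)) 1073741824) := ble_true h
  have h2 : ((Nat.add r (Nat.succ (Nat.div (Nat.mul T.hi (Nat.succ (Nat.div α.2 2))) 1073741824)) : ℕ) : ℝ) ≤
    ((Nat.add q (Nat.div (Nat.mul T.lo (Nat.div α.1 2)) 1073741824) : ℕ) : ℝ) := by exact_mod_cast h'
  rw [cast_add', cast_add'] at h2
  have e1 := le_succ_div (Nat.mul T.hi (Nat.succ (Nat.div α.2 2))) (d := 1073741824) (by norm_num)
  have e2 := nat_div_le (Nat.mul T.lo (Nat.div α.1 2)) 1073741824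
  rw [cast_mul', Nat.cast_ofNat] at e1 e2
  have e3 := le_succ_div α.2 (d := 2) (by norm_num)
  have e4 := nat_div_le α.1 2
  obtain ⟨A2, hA2⟩ : ∃ x : ℝ, x = ((Nat.succ (Nat.div α.2 2) : ℕ) : ℝ) := ⟨_, rfl⟩
  obtain ⟨A1, hA1⟩ : ∃ x : ℝ, x = ((Nat.div α.1 2 : ℕ) : ℝ) := ⟨_, rfl⟩
  rw [← hA2] at e1 e3
  rw [← hA1] at e2 e4
  have A1n : 0 ≤ A1 := by rw [hA1]; exact Nat.cast_nonneg _
  have A2n : 0 ≤ A2 := by rw [hA2]; exact Nat.cast_nonneg _
  push_cast at e3 e4
  obtain ⟨Q1, hQ1⟩ : ∃ x : ℝ, x = ((Nat.succ (Nat.div (Nat.mul T.hi (Nat.succ (Nat.div α.2 2)))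
    1073741824) : ℕ) : ℝ) := ⟨_, rfl⟩
  obtain ⟨Q2, hQ2⟩ : ∃ x : ℝ, x = ((Nat.div (Nat.mul T.lo (Nat.div α.1 2)) 1073741824 : ℕ) : ℝ) :=
    ⟨_, rfl⟩
  rw [← hQ1] at h2 e1
  rw [← hQ2] at h2 e2
  -- `τ a / 2 * U ≥ Q2 - Q1`
  have key : Q2 - Q1 ≤ τ * a / 2 * 1073741824 := by
    rw [div_le_iff₀ hU] at e1
    rw [le_div_iff₀ hU] at e2
    rcases h0 with h0 | h0
    · have z1 : A1 = 0 := by
        rw [hA1, h0]; norm_num
      rw [h0] at ha
      push_cast at ha
      rw [z1] at e2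
      -- `a U ≥ - 2 A2`
      have k1 : -(2 * A2) ≤ a * 1073741824 := by linarith
      have k2 := mul_le_mul_of_nonneg_left k1 t0
      have k3 := mul_le_mul_of_nonneg_right hT.2 A2n
      nlinarith
    · rw [h0] at ha
      push_cast at ha
      have k1 : 2 * A1 ≤ a * 1073741824 := by linarith
      have k2 := mul_le_mul_of_nonneg_left k1 t0
      have k3 := mul_le_mul_of_nonneg_right hT.1 A1n
      have Q1n : 0 ≤ Q1 := by rw [hQ1]; exact Nat.cast_nonneg _
      nlinarith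
  nlinarith

theorem al2_or (Rp Rn Ip In : N) : (al2 Rp Rn Ip In).1 = 0 ∨ (al2 Rp Rn Ip In).2 = 0 := by
  unfold al2
  rcases Nat.ble (Nat.succ Rp.hi) Rn.lo with _ | _
  · rcases Nat.ble (Nat.succ In.hi) Ip.lo with _ | _
    · rcases Nat.ble (Nat.succ Rn.hi) Rp.lo with _ | _
      · exact Or.inl rfl
      · exact Or.inl rfl
    · exact Or.inr rfl
  · rcases Nat.ble Ip.hi In.lo with _ | _
    · exact Or.inr rfl
    · exact Or.inr rfl

theorem cond_false_eq {c x : Bool} (h : (bif c then false else x) = true) :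
    c = false ∧ x = true := by
  rcases c with _ | _
  · exact ⟨rfl, h⟩
  · exact absurd (show false = true from h) (by decide)

theorem t8_sound {p u x α : ℝ} {A B B2 T Rp Rn Ip In : N} {y : ℕ}
    (h : t8 A B B2 T y Rp Rn Ip In = true) (hu : 0 ≤ u) (hp : 0 < p) (hA : Mem p A)
    (h1 : Mem (tanh u) B) (h2 : Mem (tanh u ^ 2) B2) (hT : Mem (p * tanh u) T)
    (hps : (N.sub one B2).ps = true) (hpa : A.ps = true)
    (hy : (y : ℝ) ≤ x * 1073741824)
    (ha : ((al2 Rp Rn Ip In).1 : ℝ) - (al2 Rp Rn Ip In).2 ≤ α * 1073741824) :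
    3 * u + (3 * arctan (1 / p) - π / 2) * (p * tanh u) ≤
      1 / 4 * log x + p * tanh u * α / 2 := by
  obtain ⟨g1, g2⟩ := cond_false_eq h
  have g3 : 1073741824 ≤ y := by have := ble_false g1; omega
  have g4 := Mem.lnLo 12 hy g3
  have g5 := nat_div_le (lnLo 12 y) 4
  refine fin_sound g2 (r3u_le hu hp hA h1 h2 hT hps hpa) hT ?_ ha (al2_or _ _ _ _)
  push_cast at g5
  linarith

theorem ps_of {A : N} (h : Nat.ble A.lo 0 = false) : A.ps = true := by
  unfold N.ps
  rw [Nat.ble_eq]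
  have := ble_false h
  omega

theorem t7_sound {p u E D w α : ℝ} {A B B2 E2 d2 W2 lhs rhs Rp Rn Ip In : N}
    (h : t7 A B B2 E2 d2 W2 lhs rhs Rp Rn Ip In = true) (hu : 0 ≤ u) (hp : 0 < p) (hA : Mem p A)
    (h1 : Mem (tanh u) B) (h2 : Mem (tanh u ^ 2) B2) (hE : Mem E E2) (hD : Mem D d2)
    (hW : Mem w W2) (hl : Mem (E * D * w) lhs) (hr : Mem (E * D * w) rhs) (hD0 : 0 < D)
    (ha : ((al2 Rp Rn Ip In).1 : ℝ) - (al2 Rp Rn Ip In).2 ≤ α * 1073741824) :
    3 * u + (3 * arctan (1 / p) - π / 2) * (p * tanh u) ≤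
      1 / 4 * log (E / D) + p * tanh u * α / 2 := by
  have hU : (0 : ℝ) < 1073741824 := by norm_num
  have E0 := hE.nonneg
  have w0 := hW.nonneg
  unfold t7 at h
  rcases c1 : (Nat.ble (Nat.succ lhs.hi) rhs.lo || Nat.ble (Nat.succ rhs.hi) lhs.lo) with _ | _
  · rw [c1, cond_false] at h
    obtain ⟨c2, c3⟩ := cond_false_eq h
    rw [Bool.or_eq_false_iff, Bool.or_eq_false_iff, Bool.or_eq_false_iff] at c2
    obtain ⟨⟨⟨d1, d3⟩, d4⟩, d5⟩ := c2
    have k1 : (0 : ℝ) < rhs.hi := by exact_mod_cast ble_false d1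
    have k2 : (0 : ℝ) < d2.hi := by exact_mod_cast ble_false d3
    refine t8_sound c3 hu hp hA h1 h2 (hA.mul h1) (ps_of d4) (ps_of d5) ?_ ha
    rcases mx_cases (Nat.div (Nat.mul E2.lo 1073741824) d2.hi)
      (Nat.div (Nat.mul (N.mul (N.sq E2) W2).lo 1073741824) rhs.hi) with e | e
    · rw [e]
      refine (nat_div_le _ _).trans ?_
      rw [cast_mul', Nat.cast_ofNat, div_le_iff₀ k2, div_mul_eq_mul_div, div_mul_eq_mul_div,
        le_div_iff₀ hD0]
      have m1 := mul_le_mul hE.1 hD.2 (by positivity) (by positivity)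
      nlinarith
    · rw [e]
      refine (nat_div_le _ _).trans ?_
      have m0 := (hE.sq.mul hW).1
      rw [cast_mul', Nat.cast_ofNat, div_le_iff₀ k1]
      rcases w0.lt_or_eq with hw | hw
      · rcases E0.lt_or_eq with he | he
        · have m1 := hr.2
          have m2 : E ^ 2 * w * 1073741824 * 1073741824 ≤ E / D * 1073741824 * rhs.hi := by
            have m3 : E / D * 1073741824 * (E * D * w * 1073741824) ≤
                E / D * 1073741824 * rhs.hi := mul_le_mul_of_nonneg_left m1 (by positivity)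
            refine le_trans (le_of_eq ?_) m3
            field_simp
          have m4 := mul_le_mul_of_nonneg_right m0 hU.le
          linarith
        · rw [← he] at m0 ⊢
          have m4 := mul_le_mul_of_nonneg_right m0 hU.le
          have : (0 : ℝ) ^ 2 * w * 1073741824 * 1073741824 = 0 := by ring
          rw [this] at m4
          have : (0 : ℝ) / D * 1073741824 * rhs.hi = 0 := by ring
          rw [this]
          exact m4
      · rw [← hw] at m0
        have m4 := mul_le_mul_of_nonneg_right m0 hU.le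
        have : E ^ 2 * 0 * 1073741824 * 1073741824 = 0 := by ring
        rw [this] at m4
        exact m4.trans (by positivity)
  · exfalso
    rw [Bool.or_eq_true] at c1
    rcases c1 with c1 | c1
    · have k := ble_true c1
      have k' : (lhs.hi : ℝ) + 1 ≤ rhs.lo := by exact_mod_cast k
      linarith [hl.2, hr.1]
    · have k := ble_true c1
      have k' : (rhs.hi : ℝ) + 1 ≤ lhs.lo := by exact_mod_cast k
      linarith [hl.1, hr.2]

theorem t6_sound {p u E D w α y : ℝ} {A B P2 B2 Ny E2 d2 W2 Rp Rn Ip In : N}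
    (h : t6 A B P2 B2 Ny E2 d2 W2 Rp Rn Ip In = true) (hu : 0 ≤ u) (hp : 0 < p) (hA : Mem p A)
    (h0 : Mem (p ^ 2) P2)
    (h1 : Mem (tanh u) B) (h2 : Mem (tanh u ^ 2) B2) (hE : Mem E E2) (hD : Mem D d2)
    (hW : Mem w W2) (hy : Mem y Ny)
    (hc : E * D * w = (y ^ 2 * ((1 + p ^ 2) * (1 - tanh u ^ 2))) ^ 2) (hD0 : 0 < D)
    (ha : ((al2 Rp Rn Ip In).1 : ℝ) - (al2 Rp Rn Ip In).2 ≤ α * 1073741824) :
    3 * u + (3 * arctan (1 / p) - π / 2) * (p * tanh u) ≤
      1 / 4 * log (E / D) + p * tanh u * α / 2 := by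
  refine t7_sound h hu hp hA h1 h2 hE hD hW ((hE.mul hD).mul hW) ?_ hD0 ha
  rw [hc]
  exact (hy.sq.mul ((mem_one.add h0).mul (mem_one.sub h2 (tanh_sq_lt u).le))).sq

end Pool.Agent.S3.Ho
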