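import Pool.Agent.S3.Ho.AngV
import Pool.Agent.S3.Ho.Sound

/-!
# Soundness of the tests, continued
-/

set_option autoImplicit false

namespace Pool.Agent.S3.Ho

open Real NI T2

/-- `S²` -/
noncomputable def S2r (p b : ℝ) : ℝ := b ^ 2 * (1 + p ^ 2) * (1 - b ^ 2)⁻¹

/-- numerator of `|cos² (π y)|` -/
noncomputable def Nyr (z k : ℝ) : ℝ := (1 - z ^ 2) ^ 2 + (2 * z) ^ 2 * k ^ 2

/-- The upper bound of `M |c_w - c_y|`. -/
noncomputable def Wu (g z k : ℝ) : ℝ := Md z k * g + (2 * z) ^ 2 + (1 - z ^ 2) ^ 2 * k ^ 2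

/-- The lower bound of `(M |c_w - c_y|)²`, nonnegative heights. -/
noncomputable def Wl (cm z k : ℝ) : ℝ :=
  (max 0 (Md z k * cm - max 0 ((1 - z ^ 2) ^ 2 - (2 * z) ^ 2 * k ^ 2))) ^ 2 +
    (2 * ((1 - z ^ 2) * (2 * z) * k)) ^ 2

/-- The lower bound of `(M |c_w - c_y|)²`, negative heights. -/
noncomputable def Wn (cm z k : ℝ) : ℝ := (max 0 (Md z k * cm - Nyr z k)) ^ 2

theorem Mem.up {x : ℝ} {A : N} (h : Mem x A) (n : ℕ) (hn : (n : ℝ) ≤ x * 1073741824) :
    Mem x ⟨n, A.hi⟩ := ⟨hn, h.2⟩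

theorem mem_U (n : ℕ) : Mem ((n : ℝ) / 1073741824) ⟨n, n⟩ := by
  constructor <;> rw [div_mul_cancel₀ _ (by norm_num)]

theorem sq_div_le {X : ℕ} {a : ℝ} (h0 : 0 ≤ a) (h : (X : ℝ) ≤ a * 1073741824) :
    ((Nat.div (Nat.mul X X) 1073741824 : ℕ) : ℝ) ≤ a ^ 2 * 1073741824 := by
  refine (nat_div_le _ _).trans ?_
  rw [cast_mul', Nat.cast_ofNat, div_le_iff₀ (by norm_num)]
  have hX : (0 : ℝ) ≤ X := X.cast_nonneg
  nlinarith [mul_le_mul h h hX (by positivity)]

theorem mul_div_le {M : N} {m : ℝ} (hM : Mem m M) (c : ℕ) :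
    ((Nat.div (Nat.mul M.lo c) 1073741824 : ℕ) : ℝ) ≤ m * ((c : ℝ) / 1073741824) * 1073741824 := by
  refine (nat_div_le _ _).trans ?_
  rw [cast_mul', Nat.cast_ofNat, div_le_iff₀ (by norm_num)]
  have hc : (0 : ℝ) ≤ c := c.cast_nonneg
  have := mul_le_mul_of_nonneg_right hM.1 hc
  linarith

theorem test1_sound {P : Par} {A B C K : N} (h : test1 P A B C K = true) {p u z k W α : ℝ}
    (hp : 0 < p) (hu : 0 ≤ u) (hz0 : 0 ≤ z) (hz1 : z ≤ 1) (hk0 : 0 ≤ k) (hkb : k ≤ tanh u)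
    (hA : Mem p A) (hB : Mem (tanh u) B) (hC : Mem z C) (hK : Mem k K)
    (hS : S2r p (tanh u) * 1073741824 ≤ P.k1)
    (hH1 : (P.c1 : ℝ) * (S2r p (tanh u) * 1073741824) ≤ (k * 1073741824 + P.c0) ^ 2)
    (hH2 : (k * 1073741824) ^ 2 ≤ (P.c2 : ℝ) * (S2r p (tanh u) * 1073741824))
    (hW0 : 0 ≤ W) (hWu : W ≤ Wu (P.g / 1073741824) z k) (hWl : Wl (P.cm / 1073741824) z k ≤ W ^ 2)
    (hD : 0 < dd p (tanh u) z k)
    (hc : ee p (tanh u) z k * dd p (tanh u) z k * W ^ 2 =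
      (Nyr z k ^ 2 * ((1 + p ^ 2) * (1 - tanh u ^ 2))) ^ 2)
    (hα : Ang α (Rn p (tanh u) z k) (In p (tanh u) z k))
    (hps : (N.sub one B.sq).ps = true) :
    3 * u + (3 * arctan (1 / p) - π / 2) * (p * tanh u) ≤
      1 / 4 * log (ee p (tanh u) z k / dd p (tanh u) z k) + p * tanh u * α / 2 := by
  have hU : (0 : ℝ) < 1073741824 := by norm_num
  obtain ⟨b, hb⟩ : ∃ b, b = tanh u := ⟨_, rfl⟩
  have b0 : 0 ≤ b := by rw [hb]; exact tanh_nonneg_of hu
  have b1 : b < 1 := by rw [hb]; exact tanh_lt_one _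
  have hb2 : b ^ 2 < 1 := by rw [hb]; exact tanh_sq_lt u
  have hk1 : k ^ 2 ≤ b ^ 2 := by rw [hb]; exact pow_le_pow_left₀ hk0 hkb 2
  have hkb1 : k * b ≤ 1 := by nlinarith
  have hz2 : z ^ 2 ≤ 1 := by nlinarith
  have mA2 := hA.sq
  have mB2 := hB.sq
  have mC2 := hC.sq
  have mK2 := hK.sq
  have mS : Mem (S2r p (tanh u)) (N.mul (N.mul B.sq (N.add one A.sq)) (N.inv (N.sub one B.sq))) :=
    (mB2.mul (mem_one.add mA2)).mul ((mem_one.sub mB2 (tanh_sq_lt u).le).inv hps)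
  have h : t2 P A B C K A.sq B.sq K.sq C.sq (N.mul (N.mul B.sq (N.add one A.sq))
    (N.inv (N.sub one B.sq))) = true := h
  unfold t2 at h
  rcases e1 : Nat.ble (Nat.succ P.k1) (N.mul (N.mul B.sq (N.add one A.sq))
    (N.inv (N.sub one B.sq))).lo with _ | _
  · rw [e1, cond_false] at h
    rcases e2 : (Nat.ble (Nat.succ (Nat.mul (Nat.add K.hi P.c0) (Nat.add K.hi P.c0)))
      (Nat.mul P.c1 (N.mul (N.mul B.sq (N.add one A.sq)) (N.inv (N.sub one B.sq))).lo) ||
      Nat.ble (Nat.succ (Nat.mul P.c2 (N.mul (N.mul B.sq (N.add one A.sq))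
        (N.inv (N.sub one B.sq))).hi)) (Nat.mul K.lo K.lo)) with _ | _
    · rw [e2, cond_false] at h
      -- the intervals
      have mSt : Mem (2 * z) (N.sm 2 C) := by simpa using Mem.sm 2 hC
      have mCt : Mem (1 - z ^ 2) (N.sub one C.sq) := mem_one.sub mC2 hz2
      have mn2 : Mem ((1 + z ^ 2) ^ 2) (N.sq (N.add one C.sq)) := (mem_one.add mC2).sq
      have mkb : Mem (k * tanh u) (N.mul K B) := hK.mul hB
      have mpc : Mem ((1 - z ^ 2) * p) (N.mul (N.sub one C.sq) A) := mCt.mul hA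
      have mps : Mem (2 * z * p) (N.mul (N.sm 2 C) A) := mSt.mul hA
      have mSt2 := mSt.sq
      have mCt2 := mCt.sq
      have mcs : Mem ((1 - z ^ 2) * (2 * z)) (N.mul (N.sub one C.sq) (N.sm 2 C)) := mCt.mul mSt
      have mM : Mem (Md z k) (N.mul (N.sq (N.add one C.sq)) (N.sub one K.sq)) :=
        mn2.mul (mem_one.sub mK2 (by rw [← hb] at hkb; nlinarith))
      have mSk : Mem ((2 * z) ^ 2 * k ^ 2) (N.mul (N.sq (N.sm 2 C)) K.sq) := mSt2.mul mK2
      have mNy : Mem (Nyr z k) (N.add (N.sq (N.sub one C.sq)) (N.mul (N.sq (N.sm 2 C)) K.sq)) :=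
        mCt2.add mSk
      have mE : Mem (ee p (tanh u) z k) (N.add (N.mul (N.sq (N.add one (N.mul K B)))
          (N.sq (N.add (N.sm 2 C) (N.mul (N.sub one C.sq) A)))) (N.mul (N.sq (N.add B K))
          (N.sq (N.ad (N.sub one C.sq) (N.mul (N.sm 2 C) A))))) :=
        ((mem_one.add mkb).sq.mul (mSt.add mpc).sq).add ((hB.add hK).sq.mul (mCt.ad mps).sq_abs)
      have mD : Mem (dd p (tanh u) z k) (N.add (N.mul (N.sq (N.sub one (N.mul K B)))
          (N.sq (N.ad (N.sm 2 C) (N.mul (N.sub one C.sq) A)))) (N.mul (N.sq (N.sub B K))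
          (N.sq (N.add (N.sub one C.sq) (N.mul (N.sm 2 C) A))))) :=
        ((mem_one.sub mkb (by rw [← hb]; exact hkb1)).sq.mul (mSt.ad mpc).sq_abs).add
          ((hB.sub hK hkb).sq.mul (mCt.add mps).sq)
      have mY : Mem (2 * ((1 - z ^ 2) * (2 * z) * k))
          (N.sm 2 (N.mul (N.mul (N.sub one C.sq) (N.sm 2 C)) K)) := by
        simpa using Mem.sm 2 (mcs.mul hK)
      have mW : Mem (W ^ 2) (fW P (N.mul (N.sq (N.add one C.sq)) (N.sub one K.sq))
          (N.sq (N.sm 2 C)) (N.sq (N.sub one C.sq)) (N.mul (N.sq (N.sm 2 C)) K.sq) K.sq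
          (N.sm 2 (N.mul (N.mul (N.sub one C.sq) (N.sm 2 C)) K))) := by
        constructor
        · have s1 := mul_div_le mM P.cm
          have s2 : (max 0 ((1 - z ^ 2) ^ 2 - (2 * z) ^ 2 * k ^ 2)) * 1073741824 ≤
              ((Nat.sub (N.sq (N.sub one C.sq)).hi (N.mul (N.sq (N.sm 2 C)) K.sq).lo : ℕ) : ℝ) := by
            rcases le_total ((1 - z ^ 2) ^ 2 - (2 * z) ^ 2 * k ^ 2) 0 with s3 | s3
            · rw [max_eq_left s3, zero_mul]
              exact Nat.cast_nonneg _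
            · rw [max_eq_right s3]
              exact le_nsub (by linarith [mCt2.2, mSk.1])
          have s4 : ((Nat.sub (Nat.div (Nat.mul (N.mul (N.sq (N.add one C.sq))
              (N.sub one K.sq)).lo P.cm) 1073741824) (Nat.sub (N.sq (N.sub one C.sq)).hi
              (N.mul (N.sq (N.sm 2 C)) K.sq).lo) : ℕ) : ℝ) ≤
              (max 0 (Md z k * (P.cm / 1073741824) -
                max 0 ((1 - z ^ 2) ^ 2 - (2 * z) ^ 2 * k ^ 2))) * 1073741824 := by
            have s5 := le_max_right 0 (Md z k * ((P.cm : ℝ) / 1073741824) -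
                max 0 ((1 - z ^ 2) ^ 2 - (2 * z) ^ 2 * k ^ 2))
            have s6 := mul_le_mul_of_nonneg_right s5 hU.le
            refine nsub_le ?_ (mul_nonneg (le_max_left _ _) hU.le)
            linarith
          have s7 := sq_div_le (le_max_left _ _) s4
          have s8 := mY.sq.1
          have s9 := mul_le_mul_of_nonneg_right hWl hU.le
          unfold Wl at s9
          unfold fW
          rw [cast_add']
          linarith
        · have s1 : W ^ 2 ≤ Wu (P.g / 1073741824) z k ^ 2 := pow_le_pow_left₀ hW0 hWu 2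
          have s2 : Mem (Wu (P.g / 1073741824) z k) (N.add (N.add (N.mul
            (N.mul (N.sq (N.add one C.sq)) (N.sub one K.sq)) ⟨P.g, P.g⟩) (N.sq (N.sm 2 C)))
            (N.mul (N.sq (N.sub one C.sq)) K.sq)) :=
            ((mM.mul (mem_U P.g)).add mSt2).add (mCt2.mul mK2)
          exact (mul_le_mul_of_nonneg_right s1 hU.le).trans s2.sq.2
      have mo : Mem (1 - (k * tanh u) ^ 2) (N.sub one (N.sq (N.mul K B))) := by
        refine mem_one.sub mkb.sq ?_
        rw [← hb]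
        have : 0 ≤ k * b := mul_nonneg hk0 b0
        nlinarith
      have mbk : Mem (tanh u ^ 2 - k ^ 2) (N.sub B.sq K.sq) :=
        mB2.sub mK2 (by rw [← hb]; exact hk1)
      have mRp := (mo.mul mSt2).add (mbk.mul (mSt2.mul mA2))
      have mRn := (mo.mul (mCt2.mul mA2)).add (mbk.mul mCt2)
      have m2b : Mem (2 * tanh u) (N.sm 2 B) := by simpa using Mem.sm 2 hB
      have m2k : Mem (2 * k) (N.sm 2 K) := by simpa using Mem.sm 2 hK
      have mIp := (m2b.mul (mem_one.sub mK2 (by rw [← hb] at hkb; nlinarith))).mul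
        (mcs.mul (mem_one.add mA2))
      have mIn := (m2k.mul (mem_one.sub mB2 (tanh_sq_lt u).le)).mul (hA.mul mn2)
      refine t6_sound h hu hp hA mA2 hB mB2 mE mD mW mNy hc hD
        (al2_sound mRp mRn mIp mIn ?_)
      have e3 : (1 - (k * tanh u) ^ 2) * (2 * z) ^ 2 + (tanh u ^ 2 - k ^ 2) * ((2 * z) ^ 2 * p ^ 2) -
          ((1 - (k * tanh u) ^ 2) * ((1 - z ^ 2) ^ 2 * p ^ 2) +
            (tanh u ^ 2 - k ^ 2) * (1 - z ^ 2) ^ 2) = Rn p (tanh u) z k := by unfold Rn; ring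
      have e4 : 2 * tanh u * (1 - k ^ 2) * ((1 - z ^ 2) * (2 * z) * (1 + p ^ 2)) -
          2 * k * (1 - tanh u ^ 2) * (p * (1 + z ^ 2) ^ 2) = In p (tanh u) z k := by unfold In; ring
      rw [e3, e4]
      exact hα
    · exfalso
      rw [Bool.or_eq_true] at e2
      rcases e2 with e2 | e2
      · have q := ble_true e2
        have q' : ((Nat.mul (Nat.add K.hi P.c0) (Nat.add K.hi P.c0) : ℕ) : ℝ) + 1 ≤
            ((Nat.mul P.c1 (N.mul (N.mul B.sq (N.add one A.sq)) (N.inv (N.sub one B.sq))).lo : ℕ) : ℝ) := by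
          exact_mod_cast q
        rw [cast_mul', cast_mul', cast_add'] at q'
        have q1 := mul_le_mul_of_nonneg_left mS.1 (P.c1.cast_nonneg (α := ℝ))
        have q2 : k * 1073741824 + P.c0 ≤ K.hi + P.c0 := by linarith [hK.2]
        have q3 : (0 : ℝ) ≤ k * 1073741824 + P.c0 := by positivity
        have q4 := pow_le_pow_left₀ q3 q2 2
        nlinarith
      · have q := ble_true e2
        have q' : ((Nat.mul P.c2 (N.mul (N.mul B.sq (N.add one A.sq))
            (N.inv (N.sub one B.sq))).hi : ℕ) : ℝ) + 1 ≤ ((Nat.mul K.lo K.lo : ℕ) : ℝ) := by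
          exact_mod_cast q
        rw [cast_mul', cast_mul'] at q'
        have q1 := mul_le_mul_of_nonneg_left mS.2 (P.c2.cast_nonneg (α := ℝ))
        have q4 := pow_le_pow_left₀ (K.lo.cast_nonneg (α := ℝ)) hK.1 2
        nlinarith
  · exfalso
    have q := ble_true e1
    have q' : (P.k1 : ℝ) + 1 ≤ (N.mul (N.mul B.sq (N.add one A.sq)) (N.inv (N.sub one B.sq))).lo := by
      exact_mod_cast q
    linarith [mS.1]

theorem mem_zero : Mem 0 ⟨0, 0⟩ := by constructor <;> simp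

theorem test2_sound {P : Par} {A B C K : N} (h : test2 P A B C K = true) {p u z k W α : ℝ}
    (hp : 0 < p) (hu : 0 ≤ u) (hz0 : 0 ≤ z) (hz1 : z ≤ 1) (hk0 : 0 ≤ k) (hk1 : k ≤ 1)
    (hA : Mem p A) (hB : Mem (tanh u) B) (hC : Mem z C) (hK : Mem k K)
    (hS : S2r p (tanh u) * 1073741824 ≤ P.k1)
    (hH0 : k * 1073741824 ≤ P.c0)
    (hH1 : (P.c1 : ℝ) * (S2r p (tanh u) * 1073741824) ≤ (P.c0 - k * 1073741824) ^ 2)
    (hW0 : 0 ≤ W) (hWu : W ≤ Wu (P.g / 1073741824) z k) (hWl : Wn (P.cm / 1073741824) z k ≤ W ^ 2)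
    (hD : 0 < dd p (tanh u) z (-k))
    (hc : ee p (tanh u) z (-k) * dd p (tanh u) z (-k) * W ^ 2 =
      (Nyr z k ^ 2 * ((1 + p ^ 2) * (1 - tanh u ^ 2))) ^ 2)
    (hα : Ang α (Rn p (tanh u) z (-k)) (In p (tanh u) z (-k)))
    (hps : (N.sub one B.sq).ps = true) :
    3 * u + (3 * arctan (1 / p) - π / 2) * (p * tanh u) ≤
      1 / 4 * log (ee p (tanh u) z (-k) / dd p (tanh u) z (-k)) + p * tanh u * α / 2 := by
  have hU : (0 : ℝ) < 1073741824 := by norm_num
  have b0 : 0 ≤ tanh u := tanh_nonneg_of hu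
  have b1 : tanh u < 1 := tanh_lt_one _
  have hkb1 : k * tanh u ≤ 1 := by nlinarith
  have hk2 : k ^ 2 ≤ 1 := by nlinarith
  have hz2 : z ^ 2 ≤ 1 := by nlinarith
  have mA2 := hA.sq
  have mB2 := hB.sq
  have mC2 := hC.sq
  have mK2 := hK.sq
  have mS : Mem (S2r p (tanh u)) (N.mul (N.mul B.sq (N.add one A.sq)) (N.inv (N.sub one B.sq))) :=
    (mB2.mul (mem_one.add mA2)).mul ((mem_one.sub mB2 (tanh_sq_lt u).le).inv hps)
  have h : n2 P A B C K A.sq B.sq K.sq C.sq (N.mul (N.mul B.sq (N.add one A.sq))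
    (N.inv (N.sub one B.sq))) = true := h
  unfold n2 at h
  rcases e1 : Nat.ble (Nat.succ P.k1) (N.mul (N.mul B.sq (N.add one A.sq))
    (N.inv (N.sub one B.sq))).lo with _ | _
  · rw [e1, cond_false] at h
    rcases e2 : (Nat.ble (Nat.succ P.c0) K.lo || Nat.ble (Nat.succ (Nat.mul (Nat.sub P.c0 K.lo)
      (Nat.sub P.c0 K.lo))) (Nat.mul P.c1 (N.mul (N.mul B.sq (N.add one A.sq))
      (N.inv (N.sub one B.sq))).lo)) with _ | _
    · rw [e2, cond_false] at h
      -- the intervals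
      have mSt : Mem (2 * z) (N.sm 2 C) := by simpa using Mem.sm 2 hC
      have mCt : Mem (1 - z ^ 2) (N.sub one C.sq) := mem_one.sub mC2 hz2
      have mn2 : Mem ((1 + z ^ 2) ^ 2) (N.sq (N.add one C.sq)) := (mem_one.add mC2).sq
      have mkb : Mem (k * tanh u) (N.mul K B) := hK.mul hB
      have mpc : Mem ((1 - z ^ 2) * p) (N.mul (N.sub one C.sq) A) := mCt.mul hA
      have mps : Mem (2 * z * p) (N.mul (N.sm 2 C) A) := mSt.mul hA
      have mSt2 := mSt.sq
      have mCt2 := mCt.sq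
      have mcs : Mem ((1 - z ^ 2) * (2 * z)) (N.mul (N.sub one C.sq) (N.sm 2 C)) := mCt.mul mSt
      have mM : Mem (Md z k) (N.mul (N.sq (N.add one C.sq)) (N.sub one K.sq)) :=
        mn2.mul (mem_one.sub mK2 hk2)
      have mSk : Mem ((2 * z) ^ 2 * k ^ 2) (N.mul (N.sq (N.sm 2 C)) K.sq) := mSt2.mul mK2
      have mNy : Mem (Nyr z k) (N.add (N.sq (N.sub one C.sq)) (N.mul (N.sq (N.sm 2 C)) K.sq)) :=
        mCt2.add mSk
      have mE : Mem (ee p (tanh u) z (-k)) (N.add (N.mul (N.sq (N.sub one (N.mul K B)))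
          (N.sq (N.add (N.sm 2 C) (N.mul (N.sub one C.sq) A)))) (N.mul (N.sq (N.ad B K))
          (N.sq (N.ad (N.sub one C.sq) (N.mul (N.sm 2 C) A))))) := by
        have m := ((mem_one.sub mkb hkb1).sq.mul (mSt.add mpc).sq).add
          ((hB.ad hK).sq_abs.mul (mCt.ad mps).sq_abs)
        have e : ee p (tanh u) z (-k) = (1 - k * tanh u) ^ 2 * (2 * z + (1 - z ^ 2) * p) ^ 2 +
            (tanh u - k) ^ 2 * (1 - z ^ 2 - 2 * z * p) ^ 2 := by unfold ee; ring
        rw [e]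
        exact m
      have mD : Mem (dd p (tanh u) z (-k)) (N.add (N.mul (N.sq (N.add one (N.mul K B)))
          (N.sq (N.ad (N.sm 2 C) (N.mul (N.sub one C.sq) A)))) (N.mul (N.sq (N.add B K))
          (N.sq (N.add (N.sub one C.sq) (N.mul (N.sm 2 C) A))))) := by
        have m := ((mem_one.add mkb).sq.mul (mSt.ad mpc).sq_abs).add
          ((hB.add hK).sq.mul (mCt.add mps).sq)
        have e : dd p (tanh u) z (-k) = (1 + k * tanh u) ^ 2 * (2 * z - (1 - z ^ 2) * p) ^ 2 +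
            (tanh u + k) ^ 2 * (1 - z ^ 2 + 2 * z * p) ^ 2 := by unfold dd; ring
        rw [e]
        exact m
      have mW : Mem (W ^ 2) (gW P (N.mul (N.sq (N.add one C.sq)) (N.sub one K.sq))
          (N.sq (N.sm 2 C)) (N.sq (N.sub one C.sq)) K.sq
          (N.add (N.sq (N.sub one C.sq)) (N.mul (N.sq (N.sm 2 C)) K.sq))) := by
        constructor
        · have s1 := mul_div_le mM P.cm
          have s4 : ((Nat.sub (Nat.div (Nat.mul (N.mul (N.sq (N.add one C.sq))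
              (N.sub one K.sq)).lo P.cm) 1073741824)
              (N.add (N.sq (N.sub one C.sq)) (N.mul (N.sq (N.sm 2 C)) K.sq)).hi : ℕ) : ℝ) ≤
              (max 0 (Md z k * (P.cm / 1073741824) - Nyr z k)) * 1073741824 := by
            have s5 := le_max_right 0 (Md z k * ((P.cm : ℝ) / 1073741824) - Nyr z k)
            have s6 := mul_le_mul_of_nonneg_right s5 hU.le
            refine nsub_le ?_ (mul_nonneg (le_max_left _ _) hU.le)
            linarith [mNy.2]
          have s7 := sq_div_le (le_max_left _ _) s4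
          have s9 := mul_le_mul_of_nonneg_right hWl hU.le
          unfold Wn at s9
          exact s7.trans s9
        · have s1 : W ^ 2 ≤ Wu (P.g / 1073741824) z k ^ 2 := pow_le_pow_left₀ hW0 hWu 2
          have s2 : Mem (Wu (P.g / 1073741824) z k) (N.add (N.add (N.mul
            (N.mul (N.sq (N.add one C.sq)) (N.sub one K.sq)) ⟨P.g, P.g⟩) (N.sq (N.sm 2 C)))
            (N.mul (N.sq (N.sub one C.sq)) K.sq)) :=
            ((mM.mul (mem_U P.g)).add mSt2).add (mCt2.mul mK2)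
          exact (mul_le_mul_of_nonneg_right s1 hU.le).trans s2.sq.2
      have mo : Mem (1 - (k * tanh u) ^ 2) (N.sub one (N.sq (N.mul K B))) := by
        refine mem_one.sub mkb.sq ?_
        have : 0 ≤ k * tanh u := mul_nonneg hk0 b0
        nlinarith
      have mRp := (mo.mul mSt2).add ((mB2.mul (mSt2.mul mA2)).add (mK2.mul mCt2))
      have mRn := (mo.mul (mCt2.mul mA2)).add ((mB2.mul mCt2).add (mK2.mul (mSt2.mul mA2)))
      have m2b : Mem (2 * tanh u) (N.sm 2 B) := by simpa using Mem.sm 2 hB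
      have m2k : Mem (2 * k) (N.sm 2 K) := by simpa using Mem.sm 2 hK
      have mIp := ((m2b.mul (mem_one.sub mK2 hk2)).mul
        (mcs.mul (mem_one.add mA2))).add ((m2k.mul (mem_one.sub mB2 (tanh_sq_lt u).le)).mul
        (hA.mul mn2))
      refine t6_sound h hu hp hA mA2 hB mB2 mE mD mW mNy hc hD
        (al2_sound mRp mRn mIp mem_zero ?_)
      have e3 : (1 - (k * tanh u) ^ 2) * (2 * z) ^ 2 + (tanh u ^ 2 * ((2 * z) ^ 2 * p ^ 2) +
          k ^ 2 * (1 - z ^ 2) ^ 2) - ((1 - (k * tanh u) ^ 2) * ((1 - z ^ 2) ^ 2 * p ^ 2) +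
            (tanh u ^ 2 * (1 - z ^ 2) ^ 2 + k ^ 2 * ((2 * z) ^ 2 * p ^ 2))) =
          Rn p (tanh u) z (-k) := by unfold Rn; ring
      have e4 : 2 * tanh u * (1 - k ^ 2) * ((1 - z ^ 2) * (2 * z) * (1 + p ^ 2)) +
          2 * k * (1 - tanh u ^ 2) * (p * (1 + z ^ 2) ^ 2) - 0 = In p (tanh u) z (-k) := by
        unfold In; ring
      rw [e3, e4]
      exact hα
    · exfalso
      rw [Bool.or_eq_true] at e2
      rcases e2 with e2 | e2
      · have q := ble_true e2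
        have q' : (P.c0 : ℝ) + 1 ≤ K.lo := by exact_mod_cast q
        linarith [hK.1]
      · have q := ble_true e2
        have q' : ((Nat.mul (Nat.sub P.c0 K.lo) (Nat.sub P.c0 K.lo) : ℕ) : ℝ) + 1 ≤
            ((Nat.mul P.c1 (N.mul (N.mul B.sq (N.add one A.sq)) (N.inv (N.sub one B.sq))).lo : ℕ) : ℝ) := by
          exact_mod_cast q
        rw [cast_mul', cast_mul'] at q'
        have q1 := mul_le_mul_of_nonneg_left mS.1 (P.c1.cast_nonneg (α := ℝ))
        have q2 : (P.c0 : ℝ) - k * 1073741824 ≤ ((Nat.sub P.c0 K.lo : ℕ) : ℝ) :=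
          le_nsub (by linarith [hK.1])
        have q3 : (0 : ℝ) ≤ P.c0 - k * 1073741824 := by linarith
        have q4 := pow_le_pow_left₀ q3 q2 2
        nlinarith
  · exfalso
    have q := ble_true e1
    have q' : (P.k1 : ℝ) + 1 ≤ (N.mul (N.mul B.sq (N.add one A.sq)) (N.inv (N.sub one B.sq))).lo := by
      exact_mod_cast q
    linarith [mS.1]

end Pool.Agent.S3.Ho
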