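import Pool.Agent.S3.NIF

/-!
# The tests of the slide along the line
-/

set_option autoImplicit false

namespace Pool.Agent.S3.Ho

open NI

/-- Parameters: `g ≥ |c_w - 1|`, `cm ≤ |c_w|`, `S² ≤ k1`, `c1 S² ≤ (k + c0)²`, `k² ≤ c2 S²`
(negative heights: `c1 S² ≤ (c0 - κ)²`, `κ ≤ c0`); all scaled. -/
structure Par where
  g : ℕ
  cm : ℕ
  k1 : ℕ
  c0 : ℕ
  c1 : ℕ
  c2 : ℕ

def u3 : N := ⟨357913941, 357913942⟩
def u5 : N := ⟨214748364, 214748365⟩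
def u7 : N := ⟨153391689, 153391690⟩

/-- Lower bound of the angle with cosine `Rp - Rn`, sine `Ip - In`: positive part, negative part. -/
def al2 (Rp Rn Ip In : N) : ℕ × ℕ :=
  bif Nat.ble (Nat.succ Rp.hi) Rn.lo then
    (bif Nat.ble Ip.hi In.lo then (3373259426, 0)
      else (Nat.sub 3373259426 (qUp (Nat.sub Ip.hi In.lo) (Nat.sub Rn.lo Rp.hi)), 0))
  else bif Nat.ble (Nat.succ In.hi) Ip.lo then
    (Nat.sub 1686629713 (qUp (Nat.sub Rp.hi Rn.lo) (Nat.sub Ip.lo In.hi)), 0)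
  else bif Nat.ble (Nat.succ Rn.hi) Rp.lo then (0, qUp (Nat.sub In.hi Ip.lo) (Nat.sub Rp.lo Rn.hi))
  else (0, 1686629714)

/-- upper bound of `artanh b` -/
def etaU (b b2 b4 : N) : ℕ := (N.mul b (N.add (N.add (N.add one (N.mul b2 u3)) (N.mul b4 u5))
  (N.mul (N.mul b2 b4) (N.mul u7 (N.inv (N.sub one b2)))))).hi

/-- upper bound of the share rate -/
def r3u (p b b2 T : N) : ℕ := Nat.add (Nat.mul 3 (etaU b b2 (N.sq b2)))
  (Nat.succ (Nat.div (Nat.mul (Nat.sub (Nat.mul 3 (atanUp (N.inv p).hi)) 1686629713) T.hi) 1073741824))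

def fin (r : ℕ) (T : N) (q : ℕ) (α : ℕ × ℕ) : Bool :=
  Nat.ble (Nat.add r (Nat.succ (Nat.div (Nat.mul T.hi (Nat.succ (Nat.div α.2 2))) 1073741824)))
    (Nat.add q (Nat.div (Nat.mul T.lo (Nat.div α.1 2)) 1073741824))

def t8 (p b b2 T : N) (y : ℕ) (Rp Rn Ip In : N) : Bool :=
  bif Nat.ble y 1073741823 then false
  else fin (r3u p b b2 T) T (Nat.div (lnLo 12 y) 4) (al2 Rp Rn Ip In)

def t7 (p b b2 E2 d2 W2 lhs rhs Rp Rn Ip In : N) : Bool :=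
  bif Nat.ble (Nat.succ lhs.hi) rhs.lo || Nat.ble (Nat.succ rhs.hi) lhs.lo then true else
  bif Nat.ble rhs.hi 0 || Nat.ble d2.hi 0 || Nat.ble (N.sub one b2).lo 0 || Nat.ble p.lo 0
    then false else
  t8 p b b2 (N.mul p b) (mx (Nat.div (Nat.mul E2.lo 1073741824) d2.hi)
    (Nat.div (Nat.mul (N.mul (N.sq E2) W2).lo 1073741824) rhs.hi)) Rp Rn Ip In

def t6 (p b p2 b2 Ny E2 d2 W2 Rp Rn Ip In : N) : Bool :=
  t7 p b b2 E2 d2 W2 (N.mul (N.mul E2 d2) W2)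
    (N.sq (N.mul (N.sq Ny) (N.mul (N.add one p2) (N.sub one b2)))) Rp Rn Ip In

/-- the interval of `W²`, nonnegative heights -/
def fW (P : Par) (M St2 Ct2 Sk k2 Y : N) : N :=
  ⟨Nat.add (Nat.div (Nat.mul (Nat.sub (Nat.div (Nat.mul M.lo P.cm) 1073741824) (Nat.sub Ct2.hi Sk.lo))
      (Nat.sub (Nat.div (Nat.mul M.lo P.cm) 1073741824) (Nat.sub Ct2.hi Sk.lo))) 1073741824)
      (N.sq Y).lo,
    (N.sq (N.add (N.add (N.mul M ⟨P.g, P.g⟩) St2) (N.mul Ct2 k2))).hi⟩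

def t5 (P : Par) (p b k p2 b2 k2 St Ct n2 kb pc ps St2 Ct2 cs M Sk : N) : Bool :=
  t6 p b p2 b2 (N.add Ct2 Sk)
    (N.add (N.mul (N.sq (N.add one kb)) (N.sq (N.add St pc)))
      (N.mul (N.sq (N.add b k)) (N.sq (N.ad Ct ps))))
    (N.add (N.mul (N.sq (N.sub one kb)) (N.sq (N.ad St pc)))
      (N.mul (N.sq (N.sub b k)) (N.sq (N.add Ct ps))))
    (fW P M St2 Ct2 Sk k2 (N.sm 2 (N.mul cs k)))
    (N.add (N.mul (N.sub one (N.sq kb)) St2) (N.mul (N.sub b2 k2) (N.mul St2 p2)))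
    (N.add (N.mul (N.sub one (N.sq kb)) (N.mul Ct2 p2)) (N.mul (N.sub b2 k2) Ct2))
    (N.mul (N.mul (N.sm 2 b) (N.sub one k2)) (N.mul cs (N.add one p2)))
    (N.mul (N.mul (N.sm 2 k) (N.sub one b2)) (N.mul p n2))

def t4 (P : Par) (p b k p2 b2 k2 St Ct n2 kb St2 Ct2 : N) : Bool :=
  t5 P p b k p2 b2 k2 St Ct n2 kb (N.mul Ct p) (N.mul St p) St2 Ct2 (N.mul Ct St)
    (N.mul n2 (N.sub one k2)) (N.mul St2 k2)

def t3 (P : Par) (p b k p2 b2 k2 St Ct n2 : N) : Bool :=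
  t4 P p b k p2 b2 k2 St Ct n2 (N.mul k b) (N.sq St) (N.sq Ct)

def t2 (P : Par) (p b z k p2 b2 k2 z2 S2 : N) : Bool :=
  bif Nat.ble (Nat.succ P.k1) S2.lo then true else
  bif Nat.ble (Nat.succ (Nat.mul (Nat.add k.hi P.c0) (Nat.add k.hi P.c0))) (Nat.mul P.c1 S2.lo) ||
    Nat.ble (Nat.succ (Nat.mul P.c2 S2.hi)) (Nat.mul k.lo k.lo) then true else
  t3 P p b k p2 b2 k2 (N.sm 2 z) (N.sub one z2) (N.sq (N.add one z2))

def t1 (P : Par) (p b z k p2 b2 k2 z2 : N) : Bool :=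
  t2 P p b z k p2 b2 k2 z2 (N.mul (N.mul b2 (N.add one p2)) (N.inv (N.sub one b2)))

/-- The test for nonnegative heights. -/
def test1 (P : Par) (p b z k : N) : Bool := t1 P p b z k (N.sq p) (N.sq b) (N.sq k) (N.sq z)

/-! ### Negative heights -/

/-- the interval of `W²`, negative heights -/
def gW (P : Par) (M St2 Ct2 k2 Ny : N) : N :=
  ⟨Nat.div (Nat.mul (Nat.sub (Nat.div (Nat.mul M.lo P.cm) 1073741824) Ny.hi)
      (Nat.sub (Nat.div (Nat.mul M.lo P.cm) 1073741824) Ny.hi)) 1073741824,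
    (N.sq (N.add (N.add (N.mul M ⟨P.g, P.g⟩) St2) (N.mul Ct2 k2))).hi⟩

def n6 (P : Par) (p b p2 b2 k2 St2 Ct2 M Ny E2 d2 Rp Rn Ip In : N) : Bool :=
  t6 p b p2 b2 Ny E2 d2 (gW P M St2 Ct2 k2 Ny) Rp Rn Ip In

def n5 (P : Par) (p b k p2 b2 k2 St Ct n2 kb pc ps St2 Ct2 cs M Sk : N) : Bool :=
  n6 P p b p2 b2 k2 St2 Ct2 M (N.add Ct2 Sk)
    (N.add (N.mul (N.sq (N.sub one kb)) (N.sq (N.add St pc)))
      (N.mul (N.sq (N.ad b k)) (N.sq (N.ad Ct ps))))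
    (N.add (N.mul (N.sq (N.add one kb)) (N.sq (N.ad St pc)))
      (N.mul (N.sq (N.add b k)) (N.sq (N.add Ct ps))))
    (N.add (N.mul (N.sub one (N.sq kb)) St2) (N.add (N.mul b2 (N.mul St2 p2)) (N.mul k2 Ct2)))
    (N.add (N.mul (N.sub one (N.sq kb)) (N.mul Ct2 p2)) (N.add (N.mul b2 Ct2)
      (N.mul k2 (N.mul St2 p2))))
    (N.add (N.mul (N.mul (N.sm 2 b) (N.sub one k2)) (N.mul cs (N.add one p2)))
      (N.mul (N.mul (N.sm 2 k) (N.sub one b2)) (N.mul p n2)))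
    ⟨0, 0⟩

def n4 (P : Par) (p b k p2 b2 k2 St Ct n2 kb St2 Ct2 : N) : Bool :=
  n5 P p b k p2 b2 k2 St Ct n2 kb (N.mul Ct p) (N.mul St p) St2 Ct2 (N.mul Ct St)
    (N.mul n2 (N.sub one k2)) (N.mul St2 k2)

def n3 (P : Par) (p b k p2 b2 k2 St Ct n2 : N) : Bool :=
  n4 P p b k p2 b2 k2 St Ct n2 (N.mul k b) (N.sq St) (N.sq Ct)

def n2 (P : Par) (p b z k p2 b2 k2 z2 S2 : N) : Bool :=
  bif Nat.ble (Nat.succ P.k1) S2.lo then true else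
  bif Nat.ble (Nat.succ P.c0) k.lo || Nat.ble (Nat.succ (Nat.mul (Nat.sub P.c0 k.lo)
    (Nat.sub P.c0 k.lo))) (Nat.mul P.c1 S2.lo) then true else
  n3 P p b k p2 b2 k2 (N.sm 2 z) (N.sub one z2) (N.sq (N.add one z2))

def n1 (P : Par) (p b z k p2 b2 k2 z2 : N) : Bool :=
  n2 P p b z k p2 b2 k2 z2 (N.mul (N.mul b2 (N.add one p2)) (N.inv (N.sub one b2)))

/-- The test for negative heights. -/
def test2 (P : Par) (p b z k : N) : Bool := n1 P p b z k (N.sq p) (N.sq b) (N.sq k) (N.sq z)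

end Pool.Agent.S3.Ho
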