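import Pool.Agent.S3.Ho.VSnd2

/-!
# The certificate of the slide down the vertical
-/

set_option autoImplicit false

namespace Pool.Agent.S3.Ho

open Real NI T2

theorem vcert : bb (vtest 671088640) [0, 2, 1, 0, 2, 1, 0, 2, 1, 0, 2, 1, 0, 2, 1, 0, 2, 1, 0, 2, 1,
    0, 2, 1, 0, 2, 1, 0, 2, 1] ⟨0, 1073741824⟩ ⟨0, 271656682⟩ ⟨0, 1041529570⟩ ⟨0, 0⟩ = true := by
  decide +kernel

theorem vcert_sound {z e r p W : ℝ} (mp : Mem p vp) (z0 : 0 ≤ z) (z1 : z < 1)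
    (e0 : 0 < e) (e1 : e ≤ 253 / 1000) (r0 : 0 ≤ r) (r1 : r ≤ 97 / 100) (p0 : 0 < p)
    (hWl : Wl (671088640 / 1073741824) z (r * e) ≤ W ^ 2)
    (hc : ee p e z (r * e) * dd p e z (r * e) * W ^ 2 =
      (Nyr z (r * e) ^ 2 * ((1 + p ^ 2) * (1 - e ^ 2))) ^ 2) :
    2411 / 1000 * artanh e ≤ Rt p e z r ∨ 337326732 / 1073741824 ≤ Rt p e z r := by
  have key := bb_sound (P := fun z e r _ => z < 1 → 0 ≤ z → 0 < e → e < 1 → 0 ≤ r → r < 1 →
    ∀ p W : ℝ, Mem p vp → 0 < p → Wl (671088640 / 1073741824) z (r * e) ≤ W ^ 2 →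
    ee p e z (r * e) * dd p e z (r * e) * W ^ 2 =
      (Nyr z (r * e) ^ 2 * ((1 + p ^ 2) * (1 - e ^ 2))) ^ 2 →
    2411 / 1000 * artanh e ≤ Rt p e z r ∨ 337326732 / 1073741824 ≤ Rt p e z r)
    (fun A B C D h a b c d ha hb hc _ g1 g2 g3 g4 g5 g6 p W mp p0 q1 q2 =>
      vtest_sound (cm := 671088640) h ha hb hc mp g2 g1 g3 g4 g5 g6 p0 (by push_cast; exact q1) q2)
    _ _ _ _ _ vcert z e r 0 ?_ ?_ ?_ ?_
  · exact key z1 z0 e0 (by linarith) r0 (by linarith) p W mp p0 hWl hc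
  · constructor
    · norm_num; exact z0
    · norm_num; exact z1.le
  · constructor
    · norm_num; exact e0.le
    · norm_num; linarith
  · constructor
    · norm_num; exact r0
    · norm_num; linarith
  · constructor <;> norm_num

end Pool.Agent.S3.Ho
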