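import Pool.Agent.S3.Ho.Sound2
import Pool.Agent.S3.Ho.VSnd
import Pool.Agent.S3.W2.Geo

/-!
# Soundness of the test of the slide down the vertical, continued
-/

set_option autoImplicit false

namespace Pool.Agent.S3.Ho

open Real NI T2

/-- `ρ (1 - e²) / (1 - (ρ e)²)` -/
noncomputable def hpr (e r : ℝ) : ℝ := r * (1 - e ^ 2) * (1 - (r * e) ^ 2)⁻¹

/-- The rate (without the part of the other vertex). -/
noncomputable def Rt (p e z r : ℝ) : ℝ := (1 + hpr e r) * aA p e z (r * e) +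
  (1 - hpr e r) * aB p e z (r * e) + 4 * hpr e r * aC z (r * e)

theorem mul_lo_le {x y : ℝ} {A : N} {n m : ℕ} (hA : Mem x A) (hn : (n : ℝ) ≤ y * 1073741824) :
    ((N.mul A ⟨n, m⟩).lo : ℝ) ≤ x * y * 1073741824 := by
  refine (nat_div_le _ _).trans ?_
  rw [cast_mul', Nat.cast_ofNat, div_le_iff₀ (by norm_num)]
  have h0 : (0 : ℝ) ≤ n := n.cast_nonneg
  have h1 := hA.nonneg
  have := mul_le_mul hA.1 hn h0 (by positivity)
  nlinarith

theorem vfin_sound {B : N} {n1 L R : ℕ} {e E S X : ℝ} (h : vfin B n1 L R = true)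
    (mB : Mem e B) (e0 : 0 < e) (hE : E * 1073741824 = B.hi) (hn : artanh E * 1073741824 ≤ n1)
    (E1 : E < 1) (hS : e / E * ((L : ℝ) - R) ≤ S * 1073741824) (hX : X = S) :
    2411 / 1000 * artanh e ≤ X ∨ 337326732 / 1073741824 ≤ X := by
  have hU : (0 : ℝ) < 1073741824 := by norm_num
  have hEe : e ≤ E := by
    have := mB.2
    nlinarith
  have E0 : 0 < E := e0.trans_le hEe
  have c0 : 0 ≤ e / E := by positivity
  rw [hX]
  unfold vfin at h
  rw [Bool.or_eq_true, Bool.and_eq_true] at h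
  rcases h with h | ⟨h1, h⟩
  · left
    have h2 : ((Nat.add (Nat.succ (Nat.div (Nat.mul 2411 n1) 1000)) R : ℕ) : ℝ) ≤ L := by
      exact_mod_cast ble_true h
    rw [cast_add'] at h2
    have h3 := le_succ_div (Nat.mul 2411 n1) (d := 1000) (by norm_num)
    rw [cast_mul'] at h3
    push_cast at h3 h2
    have h4 := artanh_scale e0.le hEe E1 E0
    have h5 : 2411 / 1000 * (artanh E * 1073741824) ≤ (L : ℝ) - R := by linarith
    have h6 := mul_le_mul_of_nonneg_left h5 c0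
    nlinarith
  · right
    have h1' : 1 ≤ B.lo := ble_true h1
    have h1r : (1 : ℝ) ≤ B.lo := by exact_mod_cast h1'
    have h2 : ((Nat.add (Nat.succ (Nat.div (Nat.mul 337326732 B.hi) B.lo)) R : ℕ) : ℝ) ≤ L := by
      exact_mod_cast ble_true h
    rw [cast_add'] at h2
    have h3 := le_succ_div (Nat.mul 337326732 B.hi) (d := B.lo) h1'
    rw [cast_mul'] at h3
    push_cast at h3 h2
    have h5 : 337326732 * (B.hi : ℝ) / B.lo ≤ (L : ℝ) - R := by linarith
    have h6 := mul_le_mul_of_nonneg_left h5 c0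
    have h7 : (337326732 : ℝ) ≤ e / E * (337326732 * (B.hi : ℝ) / B.lo) := by
      rw [← hE]
      have h8 : e / E * (337326732 * (E * 1073741824) / (B.lo : ℝ)) =
          337326732 * (e * 1073741824) / (B.lo : ℝ) := by
        field_simp
      rw [h8, le_div_iff₀ (by linarith)]
      nlinarith [mB.1]
    rw [div_le_iff₀ hU]
    linarith

theorem v7_sound {B Hp : N} {n1 a c bp bn : ℕ} {e E hp rA rC rB : ℝ}
    (h : v7 B Hp n1 a c bp bn = true) (mB : Mem e B) (e0 : 0 < e)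
    (hE : E * 1073741824 = B.hi) (hn : artanh E * 1073741824 ≤ n1) (E1 : E < 1)
    (mH : Mem hp Hp) (hp0 : 0 ≤ hp) (hp1 : hp ≤ 1)
    (hA : e / E * (a : ℝ) ≤ rA * 1073741824) (hC : e / E * (c : ℝ) ≤ rC * 1073741824)
    (hB : e / E * ((bp : ℝ) - bn) ≤ rB * 1073741824) (hb : bp = 0 ∨ bn = 0) :
    2411 / 1000 * artanh e ≤ (1 + hp) * rB + (1 - hp) * rA + 4 * hp * rC ∨
      337326732 / 1073741824 ≤ (1 + hp) * rB + (1 - hp) * rA + 4 * hp * rC := by
  have hU : (0 : ℝ) < 1073741824 := by norm_num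
  have hEe : e ≤ E := by
    have := mB.2
    nlinarith
  have E0 : 0 < E := e0.trans_le hEe
  have c0 : 0 ≤ e / E := by positivity
  unfold v7 at h
  refine vfin_sound h mB e0 hE hn E1 ?_ rfl
  rw [cast_add', cast_add', cast_mul']
  have k1 := nat_div_le (Nat.mul (N.sub one Hp).lo a) 1073741824
  have k2 := nat_div_le (Nat.mul Hp.lo c) 1073741824
  have k3 := nat_div_le (Nat.mul (N.add one Hp).lo bp) 1073741824
  rw [cast_mul', Nat.cast_ofNat] at k1 k2 k3
  have m1 := (mem_one.sub mH hp1).1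
  have m2 := mH.1
  have m3 := mem_one.add mH
  have a0 : (0 : ℝ) ≤ a := a.cast_nonneg
  have c00 : (0 : ℝ) ≤ c := c.cast_nonneg
  have bp0 : (0 : ℝ) ≤ bp := bp.cast_nonneg
  have bn0 : (0 : ℝ) ≤ bn := bn.cast_nonneg
  -- the three positive terms
  have q1 : ((Nat.div (Nat.mul (N.sub one Hp).lo a) 1073741824 : ℕ) : ℝ) ≤ (1 - hp) * a := by
    refine k1.trans ?_
    rw [div_le_iff₀ hU]
    nlinarith [mul_le_mul_of_nonneg_right m1 a0]
  have q2 : ((Nat.div (Nat.mul Hp.lo c) 1073741824 : ℕ) : ℝ) ≤ hp * c := by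
    refine k2.trans ?_
    rw [div_le_iff₀ hU]
    nlinarith [mul_le_mul_of_nonneg_right m2 c00]
  have q3 : ((Nat.div (Nat.mul (N.add one Hp).lo bp) 1073741824 : ℕ) : ℝ) ≤ (1 + hp) * bp := by
    refine k3.trans ?_
    rw [div_le_iff₀ hU]
    nlinarith [mul_le_mul_of_nonneg_right m3.1 bp0]
  have q4 : (1 + hp) * (bn : ℝ) ≤ ((bif Nat.ble bn 0 then 0 else
      Nat.succ (Nat.div (Nat.mul (N.add one Hp).hi bn) 1073741824) : ℕ) : ℝ) := by
    rcases hbn : Nat.ble bn 0 with _ | _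
    · rw [cond_false]
      refine le_trans ?_ (le_succ_div _ (by norm_num))
      rw [cast_mul', Nat.cast_ofNat, le_div_iff₀ hU]
      nlinarith [mul_le_mul_of_nonneg_right m3.2 bn0]
    · have : bn = 0 := Nat.le_zero.1 (ble_true hbn)
      rw [cond_true, this]
      norm_num
  have q5 : ((Nat.div (Nat.mul (N.sub one Hp).lo a) 1073741824 : ℕ) : ℝ) +
      ((4 : ℕ) : ℝ) * ((Nat.div (Nat.mul Hp.lo c) 1073741824 : ℕ) : ℝ) +
      ((Nat.div (Nat.mul (N.add one Hp).lo bp) 1073741824 : ℕ) : ℝ) -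
      ((bif Nat.ble bn 0 then 0 else
      Nat.succ (Nat.div (Nat.mul (N.add one Hp).hi bn) 1073741824) : ℕ) : ℝ) ≤
      (1 - hp) * a + 4 * (hp * c) + (1 + hp) * ((bp : ℝ) - bn) := by
    push_cast at q1 q2 q3 q4 ⊢
    linarith
  refine (mul_le_mul_of_nonneg_left q5 c0).trans ?_
  have r1 := mul_le_mul_of_nonneg_left hA (show 0 ≤ 1 - hp by linarith)
  have r2 := mul_le_mul_of_nonneg_left hC (show 0 ≤ 4 * hp by linarith)
  have r3 := mul_le_mul_of_nonneg_left hB (show 0 ≤ 1 + hp by linarith)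
  nlinarith

theorem hpr_nonneg {e r : ℝ} (e1 : e ^ 2 ≤ 1) (r0 : 0 ≤ r) (h : (r * e) ^ 2 < 1) :
    0 ≤ hpr e r := by
  unfold hpr
  have : 0 < 1 - (r * e) ^ 2 := by linarith
  have h2 : 0 ≤ 1 - e ^ 2 := by linarith
  positivity

theorem hpr_le {e r : ℝ} (r0 : 0 ≤ r) (r1 : r ≤ 1) (h : (r * e) ^ 2 < 1) :
    hpr e r ≤ 1 := by
  unfold hpr
  have h3 : 0 < 1 - (r * e) ^ 2 := by linarith
  rw [← div_eq_mul_inv, div_le_one h3]
  have : 0 ≤ r * e ^ 2 * (1 - r) := by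
    apply mul_nonneg (by positivity) (by linarith)
  nlinarith

theorem vtest_sound {cm : ℕ} {A B C D : N} (h : vtest cm A B C D = true) {z e r p W : ℝ}
    (mz : Mem z A) (me : Mem e B) (mr : Mem r C) (mp : Mem p vp) (z0 : 0 ≤ z) (z1 : z < 1)
    (e0 : 0 < e) (e1 : e < 1) (r0 : 0 ≤ r) (r1 : r < 1) (p0 : 0 < p)
    (hWl : Wl (cm / 1073741824) z (r * e) ≤ W ^ 2)
    (hc : ee p e z (r * e) * dd p e z (r * e) * W ^ 2 =
      (Nyr z (r * e) ^ 2 * ((1 + p ^ 2) * (1 - e ^ 2))) ^ 2) :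
    2411 / 1000 * artanh e ≤ Rt p e z r ∨ 337326732 / 1073741824 ≤ Rt p e z r := by
  have hU : (0 : ℝ) < 1073741824 := by norm_num
  have hz2 : z ^ 2 < 1 := by nlinarith
  have he2 : e ^ 2 < 1 := by nlinarith
  have hk0 : 0 ≤ r * e := by positivity
  have hk1 : r * e < 1 := by nlinarith
  have hk2 : (r * e) ^ 2 < 1 := by nlinarith
  have hke : r * e * e < 1 := by nlinarith
  have mz2 := mz.sq
  have me2 := me.sq
  have mk := mr.mul me
  have mSt : Mem (2 * z) (N.sm 2 A) := by simpa using Mem.sm 2 mz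
  have mCt : Mem (1 - z ^ 2) (N.sub one A.sq) := mem_one.sub mz2 hz2.le
  have mn2 : Mem ((1 + z ^ 2) ^ 2) (N.sq (N.add one A.sq)) := (mem_one.add mz2).sq
  have mk2 := mk.sq
  have mke := mk.mul me
  have mpc : Mem ((1 - z ^ 2) * p) (N.mul (N.sub one A.sq) vp) := mCt.mul mp
  have mps : Mem (2 * z * p) (N.mul (N.sm 2 A) vp) := mSt.mul mp
  have mSt2 := mSt.sq
  have mCt2 := mCt.sq
  have mM : Mem (Md z (r * e)) (N.mul (N.sq (N.add one A.sq)) (N.sub one (N.sq (N.mul C B)))) :=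
    mn2.mul (mem_one.sub mk2 hk2.le)
  have mSk : Mem ((2 * z) ^ 2 * (r * e) ^ 2) (N.mul (N.sq (N.sm 2 A)) (N.sq (N.mul C B))) :=
    mSt2.mul mk2
  have mY : Mem (2 * ((1 - z ^ 2) * (2 * z) * (r * e)))
      (N.sm 2 (N.mul (N.mul (N.sub one A.sq) (N.sm 2 A)) (N.mul C B))) := by
    simpa using Mem.sm 2 ((mCt.mul mSt).mul mk)
  have h : v5 cm B C B.sq (N.mul C B) (N.mul (N.mul C B) B) (N.sq (N.mul C B)) (N.sm 2 A)
    (N.sub one A.sq) (N.mul (N.sub one A.sq) vp) (N.mul (N.sm 2 A) vp) (N.sq (N.sm 2 A))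
    (N.sq (N.sub one A.sq)) (N.mul (N.sq (N.add one A.sq)) (N.sub one (N.sq (N.mul C B))))
    (N.mul (N.sq (N.sm 2 A)) (N.sq (N.mul C B)))
    (N.sm 2 (N.mul (N.mul (N.sub one A.sq) (N.sm 2 A)) (N.mul C B))) = true := h
  unfold v5 at h
  rcases hcd : Nat.ble (Nat.succ (N.sq (N.mul (N.sq (N.add (N.sq (N.sub one A.sq))
      (N.mul (N.sq (N.sm 2 A)) (N.sq (N.mul C B))))) (N.mul (N.add one (N.sq vp))
      (N.sub one B.sq)))).hi)
    (N.mul (N.mul (N.add (N.mul (N.sq (N.add one (N.mul (N.mul C B) B)))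
      (N.sq (N.add (N.sm 2 A) (N.mul (N.sub one A.sq) vp))))
      (N.mul (N.sq (N.add (N.mul C B) B)) (N.sq (N.ad (N.sub one A.sq) (N.mul (N.sm 2 A) vp)))))
    (N.add (N.mul (N.sq (N.sub one (N.mul (N.mul C B) B)))
      (N.sq (N.ad (N.sm 2 A) (N.mul (N.sub one A.sq) vp))))
      (N.mul (N.sq (N.mul B (N.sub one C))) (N.sq (N.add (N.sub one A.sq)
        (N.mul (N.sm 2 A) vp))))))
    ⟨Nat.add (Nat.div (Nat.mul (Nat.sub (Nat.div (Nat.mul (N.mul (N.sq (N.add one A.sq))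
      (N.sub one (N.sq (N.mul C B)))).lo cm) 1073741824) (Nat.sub (N.sq (N.sub one A.sq)).hi
      (N.mul (N.sq (N.sm 2 A)) (N.sq (N.mul C B))).lo))
      (Nat.sub (Nat.div (Nat.mul (N.mul (N.sq (N.add one A.sq))
      (N.sub one (N.sq (N.mul C B)))).lo cm) 1073741824) (Nat.sub (N.sq (N.sub one A.sq)).hi
      (N.mul (N.sq (N.sm 2 A)) (N.sq (N.mul C B))).lo))) 1073741824)
      (N.sq (N.sm 2 (N.mul (N.mul (N.sub one A.sq) (N.sm 2 A)) (N.mul C B)))).lo, 0⟩).lo with _ | _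
  · rw [hcd, cond_false, Bool.and_eq_true, Bool.and_eq_true, Bool.and_eq_true] at h
    obtain ⟨⟨⟨s1, s2⟩, s3⟩, h⟩ := h
    unfold v6 at h
    obtain ⟨E, hE⟩ : ∃ E : ℝ, E = (B.hi : ℝ) / 1073741824 := ⟨_, rfl⟩
    have hEU : E * 1073741824 = B.hi := by rw [hE]; field_simp
    have mE : Mem E ⟨B.hi, B.hi⟩ := by rw [hE]; exact mem_U B.hi
    have hEe : e ≤ E := by
      have := me.2
      nlinarith
    have E0 : 0 < E := e0.trans_le hEe
    have s2' : (N.sub one (N.sq (⟨B.hi, B.hi⟩ : N))).ps = true := s2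
    have E1 : E < 1 := by
      have k := mE.sq.2
      have k2 : 1 ≤ Nat.sub 1073741824 (N.sq (⟨B.hi, B.hi⟩ : N)).hi := by
        unfold N.ps at s2'
        exact ble_true s2'
      have k3 : (N.sq (⟨B.hi, B.hi⟩ : N)).hi < 1073741824 := by
        have : Nat.sub 1073741824 (N.sq (⟨B.hi, B.hi⟩ : N)).hi =
          1073741824 - (N.sq (⟨B.hi, B.hi⟩ : N)).hi := rfl
        omega
      have k4 : ((N.sq (⟨B.hi, B.hi⟩ : N)).hi : ℝ) < 1073741824 := by exact_mod_cast k3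
      have k5 : E ^ 2 < 1 := by nlinarith
      nlinarith
    have hn : artanh E * 1073741824 ≤
        (etaU ⟨B.hi, B.hi⟩ (N.sq ⟨B.hi, B.hi⟩) (N.sq (N.sq ⟨B.hi, B.hi⟩)) : ℝ) := by
      have eT : tanh (artanh E) = E := tanh_artanh ⟨by linarith, E1⟩
      have u0 : 0 ≤ artanh E := by
        have := artanh_le_artanh (x := 0) (y := E) (by norm_num) E1 E0.le
        rwa [artanh_zero] at this
      refine etaU_le u0 (by rw [eT]; exact mE) (by rw [eT]; exact mE.sq) ?_ s2'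
      rw [eT]
      have := mE.sq.sq
      rw [← pow_mul] at this
      exact this
    have mH : Mem (hpr e r) (N.mul (N.mul C (N.sub one B.sq)) (N.inv (N.sub one
        (N.sq (N.mul C B))))) :=
      (mr.mul (mem_one.sub me2 he2.le)).mul ((mem_one.sub mk2 hk2.le).inv s1)
    have hpos : 0 < 1 - z ^ 2 + 2 * z * p := by
      have : 0 ≤ 2 * z * p := by positivity
      linarith
    have kA := vA_le (z := 1 - z ^ 2) (x := 2 * z) (pc := (1 - z ^ 2) * p) (ps := 2 * z * p) e0 r1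
      hEe r0 hke mSt mCt mpc mps mr mE mke hpos
    have kC := vC_le (x := 2 * z) (z := 1 - z ^ 2) e0 hEe r0 (by positivity) (by linarith) mSt mCt
      mr mE
    obtain ⟨kB, kb⟩ := vB_le (z := 1 - z ^ 2) (x := 2 * z) (pc := (1 - z ^ 2) * p)
      (ps := 2 * z * p) e0 hEe r0 mSt mCt mpc mps mr mE mke s3
    have key := v7_sound h me e0 hEU hn E1 mH (hpr_nonneg he2.le r0 hk2) (hpr_le r0 r1.le hk2)
      kA kC kB kb
    exact key
  · exfalso
    have c1 := ble_true hcd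
    have c2 : ∀ {a b : ℕ}, Nat.succ a ≤ b → (a : ℝ) + 1 ≤ b := fun h => by exact_mod_cast h
    have c3 := c2 c1
    have hW : ((Nat.add (Nat.div (Nat.mul (Nat.sub (Nat.div (Nat.mul (N.mul (N.sq (N.add one A.sq))
      (N.sub one (N.sq (N.mul C B)))).lo cm) 1073741824) (Nat.sub (N.sq (N.sub one A.sq)).hi
      (N.mul (N.sq (N.sm 2 A)) (N.sq (N.mul C B))).lo))
      (Nat.sub (Nat.div (Nat.mul (N.mul (N.sq (N.add one A.sq))
      (N.sub one (N.sq (N.mul C B)))).lo cm) 1073741824) (Nat.sub (N.sq (N.sub one A.sq)).hi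
      (N.mul (N.sq (N.sm 2 A)) (N.sq (N.mul C B))).lo))) 1073741824)
      (N.sq (N.sm 2 (N.mul (N.mul (N.sub one A.sq) (N.sm 2 A)) (N.mul C B)))).lo : ℕ) : ℝ) ≤
        W ^ 2 * 1073741824 := by
      have s1 := mul_div_le mM cm
      have s2 : (max 0 ((1 - z ^ 2) ^ 2 - (2 * z) ^ 2 * (r * e) ^ 2)) * 1073741824 ≤
          ((Nat.sub (N.sq (N.sub one A.sq)).hi (N.mul (N.sq (N.sm 2 A)) (N.sq (N.mul C B))).lo : ℕ) : ℝ) := by
        rcases le_total ((1 - z ^ 2) ^ 2 - (2 * z) ^ 2 * (r * e) ^ 2) 0 with s3 | s3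
        · rw [max_eq_left s3, zero_mul]
          exact Nat.cast_nonneg _
        · rw [max_eq_right s3]
          exact le_nsub (by linarith [mCt2.2, mSk.1])
      have s4 : ((Nat.sub (Nat.div (Nat.mul (N.mul (N.sq (N.add one A.sq))
          (N.sub one (N.sq (N.mul C B)))).lo cm) 1073741824) (Nat.sub (N.sq (N.sub one A.sq)).hi
          (N.mul (N.sq (N.sm 2 A)) (N.sq (N.mul C B))).lo) : ℕ) : ℝ) ≤
          (max 0 (Md z (r * e) * (cm / 1073741824) -
            max 0 ((1 - z ^ 2) ^ 2 - (2 * z) ^ 2 * (r * e) ^ 2))) * 1073741824 := by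
        have s5 := le_max_right 0 (Md z (r * e) * ((cm : ℝ) / 1073741824) -
            max 0 ((1 - z ^ 2) ^ 2 - (2 * z) ^ 2 * (r * e) ^ 2))
        have s6 := mul_le_mul_of_nonneg_right s5 hU.le
        refine nsub_le ?_ (mul_nonneg (le_max_left _ _) hU.le)
        linarith
      have s7 := sq_div_le (le_max_left _ _) s4
      have s8 := mY.sq.1
      have s9 := mul_le_mul_of_nonneg_right hWl hU.le
      unfold Wl at s9
      rw [cast_add']
      linarith
    have mEe : Mem (ee p e z (r * e)) (N.add (N.mul (N.sq (N.add one (N.mul (N.mul C B) B)))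
      (N.sq (N.add (N.sm 2 A) (N.mul (N.sub one A.sq) vp))))
      (N.mul (N.sq (N.add (N.mul C B) B)) (N.sq (N.ad (N.sub one A.sq) (N.mul (N.sm 2 A) vp))))) := by
      have e1 : ee p e z (r * e) = (1 + r * e * e) ^ 2 * (2 * z + (1 - z ^ 2) * p) ^ 2 +
          (r * e + e) ^ 2 * ((1 - z ^ 2) - 2 * z * p) ^ 2 := by unfold ee; ring
      rw [e1]
      exact ((mem_one.add mke).sq.mul (mSt.add mpc).sq).add ((mk.add me).sq.mul (mCt.ad mps).sq_abs)
    have mDd : Mem (dd p e z (r * e)) (N.add (N.mul (N.sq (N.sub one (N.mul (N.mul C B) B)))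
      (N.sq (N.ad (N.sm 2 A) (N.mul (N.sub one A.sq) vp))))
      (N.mul (N.sq (N.mul B (N.sub one C))) (N.sq (N.add (N.sub one A.sq)
        (N.mul (N.sm 2 A) vp))))) := by
      have e1 : dd p e z (r * e) = (1 - r * e * e) ^ 2 * (2 * z - (1 - z ^ 2) * p) ^ 2 +
          (e * (1 - r)) ^ 2 * ((1 - z ^ 2) + 2 * z * p) ^ 2 := by unfold dd; ring
      rw [e1]
      exact ((mem_one.sub mke hke.le).sq.mul (mSt.ad mpc).sq_abs).add
        ((me.mul (mem_one.sub mr r1.le)).sq.mul (mCt.add mps).sq)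
    have hl := mul_lo_le (m := 0) (mEe.mul mDd) hW
    have mNy : Mem (Nyr z (r * e)) (N.add (N.sq (N.sub one A.sq))
      (N.mul (N.sq (N.sm 2 A)) (N.sq (N.mul C B)))) := mCt2.add mSk
    have hr := ((mNy.sq.mul ((mem_one.add mp.sq).mul (mem_one.sub me2 he2.le))).sq).2
    rw [← hc] at hr
    linarith

end Pool.Agent.S3.Ho
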