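import Pool.Agent.S3.Ho.Line
import Pool.Agent.S3.Ho.Num
import Pool.Agent.S3.Ho.VCert

/-!
# The slide down the vertical
-/

set_option autoImplicit false

namespace Pool.Agent.S3.Ho

open Real T2 NI Set

/-- The vertical. -/
noncomputable def vu (η : ℝ) : ℂ := (((13 / 40 : ℝ)) : ℂ) + (η : ℂ) * Complex.I

theorem vu_re (η : ℝ) : (vu η).re = 13 / 40 := line_re _ _

theorem vu_im (η : ℝ) : (vu η).im = η := line_im _ _

section

variable {W : ℂ} {g cm : ℝ}

/-- **The rate down the vertical.** -/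
theorem vert_rate (o : Oth W g cm) (hcm : 5 / 8 ≤ cm) (w0 : 0 ≤ W.re) (w1 : W.re < 1 / 2)
    (wi : W.im ≤ 0) {ρ η t : ℝ} (r0 : 0 < ρ) (r1 : ρ ≤ 97 / 100) (hη : 0 < η)
    (hη1 : tanh (π * η) ≤ 253 / 1000) (t0 : 0 < t) (t1 : t < 1 / 2)
    (hg : gPd ((t : ℂ) + (hgt ρ η : ℂ) * Complex.I) (vu η) W =
      ‖Complex.cos (π * ((t : ℂ) + (hgt ρ η : ℂ) * Complex.I))‖ ^ 4) :
    2411 / 1000 * (π * η) ≤ (he ((t : ℂ) + (hgt ρ η : ℂ) * Complex.I + vu η) -
        he ((t : ℂ) + (hgt ρ η : ℂ) * Complex.I - vu η)).im -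
        rp ρ η * (eY ((t : ℂ) + (hgt ρ η : ℂ) * Complex.I) (vu η) W).im ∨
    337326732 / 1073741824 ≤ (he ((t : ℂ) + (hgt ρ η : ℂ) * Complex.I + vu η) -
        he ((t : ℂ) + (hgt ρ η : ℂ) * Complex.I - vu η)).im -
        rp ρ η * (eY ((t : ℂ) + (hgt ρ η : ℂ) * Complex.I) (vu η) W).im := by
  have hpi := pi_pos
  have c := crd_bas (a := 13 / 40) (by norm_num) (by norm_num) η t0.le t1.le (hgt ρ η)
  have hhp : 0 < hgt ρ η := hgt_pos r0 (by linarith) hη
  have hth : tanh (π * hgt ρ η) = ρ * tanh (π * η) := tanh_hgt r0.le (by linarith) η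
  have tb0 : 0 < tanh (π * η) := tanh_pos_of (by positivity)
  have hlt : hgt ρ η < η := by
    rcases (hgt_le (ρ := ρ) (x := η) r0.le (by linarith) hη.le).lt_or_eq with h | h
    · exact h
    · exfalso
      rw [h] at hth
      nlinarith
  have hPt : T2.Pt (13 / 40) η t (hgt ρ η) (tan (π * (13 / 40))) (tanh (π * η)) (tan (π * t / 2))
      (ρ * tanh (π * η)) :=
    ⟨by norm_num, by norm_num, t0, t1, hhp, hlt, rfl, rfl, rfl, hth.symm⟩
  rw [hth] at c
  have z0 := hPt.z0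
  have z1 := hPt.z1
  have p0 := hPt.p0
  obtain ⟨m1, -, -⟩ := hPt.imW w0 w1 wi
  have ew : 0 ≤ aW (tan (π * t / 2)) (ρ * tanh (π * η)) (cc W).re (cc W).im := by
    unfold aW
    have := arctan_lt_pi_div_two (rX (tan (π * t / 2)) (ρ * tanh (π * η)) (cc W).re /
      rY (tan (π * t / 2)) (ρ * tanh (π * η)) (cc W).im)
    linarith
  have hk0 : 0 ≤ ρ * tanh (π * η) := by positivity
  -- the bound of the other vertex
  have o' : Oth W g (671088640 / 1073741824) := by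
    obtain ⟨o1, o2, o3, o4, o5⟩ := o
    exact ⟨o1, by norm_num; linarith, by norm_num, o4, o5⟩
  have hWl := oth_Wl o' c hk0
  unfold vu at hg
  have hcr := crit_eq c hg
  have key := vcert_sound mem_vp z0.le z1 tb0 hη1 r0.le r1 p0 hWl hcr
  rw [artanh_tanh] at key
  have erp : hpr (tanh (π * η)) ρ = rp ρ η := by
    unfold hpr rp
    rw [div_eq_mul_inv]
  have e : (he ((t : ℂ) + (hgt ρ η : ℂ) * Complex.I + vu η) -
        he ((t : ℂ) + (hgt ρ η : ℂ) * Complex.I - vu η)).im -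
        rp ρ η * (eY ((t : ℂ) + (hgt ρ η : ℂ) * Complex.I) (vu η) W).im =
      Rt (tan (π * (13 / 40))) (tanh (π * η)) (tan (π * t / 2)) ρ + rp ρ η *
        aW (tan (π * t / 2)) (ρ * tanh (π * η)) (cc W).re (cc W).im := by
    have e1 : (eY ((t : ℂ) + (hgt ρ η : ℂ) * Complex.I) (vu η) W).im =
        -4 * aC (tan (π * t / 2)) (ρ * tanh (π * η)) +
        aB (tan (π * (13 / 40))) (tanh (π * η)) (tan (π * t / 2)) (ρ * tanh (π * η)) -
        aA (tan (π * (13 / 40))) (tanh (π * η)) (tan (π * t / 2)) (ρ * tanh (π * η)) -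
        aW (tan (π * t / 2)) (ρ * tanh (π * η)) (cc W).re (cc W).im := by
      rw [← m1, eY, vu, Complex.sub_im, Complex.sub_im, Complex.sub_im, Complex.sub_im, hPt.imA,
        hPt.imB, show (4 : ℂ) = ((4 : ℝ) : ℂ) by norm_num, Complex.im_ofReal_mul, hPt.imC]
      ring
    rw [e1, vu, Complex.sub_im, hPt.imA, hPt.imB, Rt, erp]
    ring
  have hrp : 0 ≤ rp ρ η := by
    rw [← erp]
    have tb1 := tanh_lt_one (π * η)
    have hk1 : ρ * tanh (π * η) < 1 := by nlinarith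
    exact hpr_nonneg (by nlinarith) r0.le (by nlinarith)
  have h3 := mul_nonneg hrp ew
  rw [e]
  rcases key with k | k
  · left; linarith
  · right; linarith

theorem cc_vu (η : ℝ) : ‖cc (vu η) - 1‖ = sin (π * (13 / 40)) ^ 2 + sinh (π * η) ^ 2 :=
  cc_one_line _ _

/-- The slide with a height proportional in `tanh`. -/
theorem vert_gen' {ρ η1 η0 K L : ℝ} (o : Oth W g cm) (hcm : 5 / 8 ≤ cm) (hg1 : g ≤ 1)
    (w0 : 0 ≤ W.re) (w1 : W.re ≤ 2 / 5) (wi : W.im ≤ 0) (r0 : 0 < ρ) (r1 : ρ ≤ 97 / 100)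
    (g1 : 0 < η1) (hη0 : sinh (π * η0) ^ 2 ≤ 6826 / 100000)
    (hK : K ≤ 241 / 100 * π) (hK2 : K * η0 ≤ π / 10) (hK0 : 0 ≤ K)
    (hbase : ∀ t ∈ Icc (0 : ℝ) (1 / 2),
      EE (.op (vu η0)) (.op W) ((t : ℂ) + (hgt ρ η0 : ℂ) * Complex.I) < L) :
    ∀ η ∈ Icc η1 η0, ∀ t ∈ Icc (0 : ℝ) (1 / 2),
      EE (.op (vu η)) (.op W) ((t : ℂ) + (hgt ρ η : ℂ) * Complex.I) <
        L - K * (η0 ^ 2 - η ^ 2) / 2 := by
  have hpi := pi_pos
  have hpi1 := pi_lt_d4
  have hpi2 := pi_gt_d4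
  obtain ⟨q1, q2⟩ := cos_1340
  have q3 := sin_sq_add_cos_sq (π * (13 / 40))
  -- facts for `0 < η ≤ η0`
  have hs : ∀ x, 0 < x → x ≤ η0 → sinh (π * x) ^ 2 ≤ 6826 / 100000 := by
    intro x hx hx'
    refine le_trans ?_ hη0
    apply pow_le_pow_left₀ (sinh_nonneg_iff.2 (by positivity))
    exact sinh_le_sinh.2 (mul_le_mul_of_nonneg_left hx' hpi.le)
  have htη : ∀ x, 0 < x → x ≤ η0 → tanh (π * x) ≤ 253 / 1000 := by
    intro x hx hx'
    have h1 := hs x hx hx'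
    have h2 : 0 < tanh (π * x) := tanh_pos_of (by positivity)
    have h3 : tanh (π * x) ^ 2 ≤ (253 / 1000) ^ 2 := by
      rw [tanh_eq_sinh_div_cosh, div_pow, cosh_sq, div_le_iff₀ (by positivity)]
      nlinarith
    exact (pow_le_pow_iff_left₀ h2.le (by norm_num) two_ne_zero).1 h3
  have hlt : ∀ x, 0 < x → hgt ρ x < x := by
    intro x hx
    have hth : tanh (π * hgt ρ x) = ρ * tanh (π * x) := tanh_hgt r0.le (by linarith) x
    have tb0 : 0 < tanh (π * x) := tanh_pos_of (by positivity)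
    rcases (hgt_le (ρ := ρ) (x := x) r0.le (by linarith) hx.le).lt_or_eq with h | h
    · exact h
    · exfalso
      rw [h] at hth
      nlinarith
  have hpos : ∀ x, 0 < x → 0 < hgt ρ x := fun x hx => hgt_pos r0 (by linarith) hx
  have key := slide (v := fun a => vu (-a)) (v' := fun _ => -Complex.I) (h := fun a => hgt ρ (-a))
    (h' := fun a => -rp ρ (-a)) (l := fun a => L - K * (η0 ^ 2 - a ^ 2) / 2) (l' := fun a => K * a)
    (w := W) (a0 := -η0) (a1 := -η1) (tL := 1 / 200) (by norm_num) (by norm_num) ?_ ?_ ?_ ?_ ?_ ?_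
    ?_ ?_ ?_ ?_ ?_ ?_
  · intro η hη t ht'
    have := key (-η) ⟨by linarith [hη.2], by linarith [hη.1]⟩ t ht'
    simp only [neg_neg, neg_sq] at this
    exact this
  · unfold vu; fun_prop
  · exact ((hgt_continuous r0.le (by linarith)).comp continuous_neg).continuousOn
  · fun_prop
  · intro a _
    have h2 : HasDerivAt (fun a : ℝ => ((-a : ℝ) : ℂ)) (-1) a := by
      have := (hasDerivAt_neg a).ofReal_comp
      simpa using this
    have h3 := (h2.mul_const Complex.I).const_add ((13 / 40 : ℝ) : ℂ)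
    exact h3.congr_deriv (by ring)
  · intro a _
    have := (hgt_hasDerivAt (ρ := ρ) r0.le (by linarith) (-a)).comp a (hasDerivAt_neg a)
    exact this.congr_deriv (by ring)
  · intro a _
    have h1 : HasDerivAt (fun a : ℝ => a ^ 2) (2 * a) a := by
      simpa using hasDerivAt_pow 2 a
    have h2 := (((h1.const_sub (η0 ^ 2)).const_mul K).div_const 2).const_sub L
    exact h2.congr_deriv (by ring)
  · intro a ha
    exact (hpos (-a) (by linarith [ha.2])).ne'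
  · intro a ha t ht'
    have a0 : 0 < -a := by linarith [ha.2]
    have k1 := hlt (-a) a0
    have k2 := hpos (-a) a0
    refine ⟨Or.inl ?_, Or.inr ?_, Or.inl ?_, Or.inr ?_⟩
    · rw [Complex.sub_im, line_im, vu_im]
      exact ne_of_lt (by linarith)
    · rw [Complex.add_re, line_re, vu_re]
      exact ⟨by linarith [ht'.1], by linarith [ht'.2]⟩
    · rw [Complex.sub_im, line_im]
      exact ne_of_gt (by linarith)
    · rw [Complex.add_re, line_re]
      exact ⟨by linarith [ht'.1], by linarith [ht'.2]⟩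
  · intro t ht'
    simp only [neg_neg, neg_sq, sub_self, mul_zero, zero_div, sub_zero]
    exact hbase t ht'
  · intro a ha t ht'
    have a0 : 0 < -a := by linarith [ha.2]
    have k1 := hs (-a) a0 (by linarith [ha.1])
    refine low_gP' ?_ (o.up.trans hg1) ht'.1.le ht'.2.le ?_
    · rw [cc_vu]
      linarith
    · have k2 : sinh (π * hgt ρ (-a)) ≤ sinh (π * -a) :=
        sinh_le_sinh.2 (mul_le_mul_of_nonneg_left (hlt (-a) a0).le hpi.le)
      have k3 : 0 ≤ sinh (π * hgt ρ (-a)) := sinh_nonneg_iff.2 (mul_nonneg hpi.le (hpos (-a) a0).le)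
      have := pow_le_pow_left₀ k3 k2 2
      linarith
  · intro a ha
    have a0 : 0 < -a := by linarith [ha.2]
    have k1 := hs (-a) a0 (by linarith [ha.1])
    refine end_gP' ?_ o.re _
    have e : (cc (vu (-a))).re = cos (π * (13 / 40)) ^ 2 +
        sinh (π * -a) ^ 2 * (2 * cos (π * (13 / 40)) ^ 2 - 1) := by
      unfold vu; exact cc_re _ _
    rw [e]
    have k2 : 0 ≤ sinh (π * -a) ^ 2 := sq_nonneg _
    nlinarith
  · intro a ha t ht' hg _
    have a0 : 0 < -a := by linarith [ha.2]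
    have a1 : -a ≤ η0 := by linarith [ha.1]
    have k := vert_rate o hcm w0 (by linarith) wi r0 r1 a0 (htη (-a) a0 a1)
      (by linarith [ht'.1]) ht'.2 hg
    have e : (eY ((t : ℂ) + (hgt ρ (-a) : ℂ) * Complex.I) (vu (-a)) W *
          (((-rp ρ (-a) : ℝ) : ℂ) * Complex.I) +
        (he ((t : ℂ) + (hgt ρ (-a) : ℂ) * Complex.I - vu (-a)) -
          he ((t : ℂ) + (hgt ρ (-a) : ℂ) * Complex.I + vu (-a))) * -Complex.I).re =
        -((he ((t : ℂ) + (hgt ρ (-a) : ℂ) * Complex.I + vu (-a)) -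
          he ((t : ℂ) + (hgt ρ (-a) : ℂ) * Complex.I - vu (-a))).im -
        rp ρ (-a) * (eY ((t : ℂ) + (hgt ρ (-a) : ℂ) * Complex.I) (vu (-a)) W).im) := by
      simp only [Complex.add_re, Complex.mul_re, Complex.mul_im, Complex.neg_re, Complex.neg_im,
        Complex.I_re, Complex.I_im, Complex.ofReal_re, Complex.ofReal_im, Complex.sub_re,
        Complex.sub_im]
      ring
    rw [e]
    have e2 : K * -a ≤ π / 10 := (mul_le_mul_of_nonneg_left a1 hK0).trans hK2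
    have e3 : K * -a ≤ 241 / 100 * π * -a := mul_le_mul_of_nonneg_right hK a0.le
    have e4 : 241 / 100 * π * -a < 2411 / 1000 * (π * -a) := by nlinarith [mul_pos hpi a0]
    have e5 : π / 10 < 337326732 / 1073741824 := by
      rw [lt_div_iff₀ (by norm_num)]
      linarith
    rcases k with k | k
    · linarith
    · linarith

/-- **The slide down the vertical.** -/
theorem vert_all' {h0 β K L : ℝ} (o : Oth W g cm) (hcm : 5 / 8 ≤ cm) (hg1 : g ≤ 1)
    (w0 : 0 ≤ W.re) (w1 : W.re ≤ 2 / 5) (wi : W.im ≤ 0) (hβ : 0 < β) (h00 : 0 < h0)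
    (hC : tanh (π * h0) ≤ 97 / 100 * tanh (π * β)) (hη0 : sinh (π * β) ^ 2 ≤ 6826 / 100000)
    (hK : K ≤ 241 / 100 * π) (hK2 : K * β ≤ π / 10) (hK0 : 0 ≤ K)
    (hbase : ∀ t ∈ Icc (0 : ℝ) (1 / 2),
      EE (.op (vu β)) (.op W) ((t : ℂ) + (h0 : ℂ) * Complex.I) < L) :
    ∀ η ∈ Icc (0 : ℝ) β, ∃ H : ℝ, 0 ≤ H ∧ H ≤ h0 ∧ ∀ t ∈ Icc (0 : ℝ) (1 / 2),
      EE (.op (vu η)) (.op W) ((t : ℂ) + (H : ℂ) * Complex.I) ≤
        L - K * (β ^ 2 - η ^ 2) / 2 := by
  have hpi := pi_pos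
  have tβ : 0 < tanh (π * β) := tanh_pos_of (by positivity)
  have th0 : 0 < tanh (π * h0) := tanh_pos_of (by positivity)
  obtain ⟨ρ, hρ⟩ : ∃ ρ, ρ = tanh (π * h0) / tanh (π * β) := ⟨_, rfl⟩
  have r0 : 0 < ρ := by rw [hρ]; positivity
  have r1 : ρ ≤ 97 / 100 := by rw [hρ, div_le_iff₀ tβ]; exact hC
  have e1 : hgt ρ β = h0 := by
    rw [hgt, hρ, div_mul_cancel₀ _ tβ.ne', artanh_tanh, mul_div_cancel_left₀ _ hpi.ne']
  have pos : ∀ η ∈ Ioc (0 : ℝ) β, 0 < hgt ρ η ∧ hgt ρ η ≤ h0 ∧ hgt ρ η ≤ η ∧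
      ∀ t ∈ Icc (0 : ℝ) (1 / 2),
      EE (.op (vu η)) (.op W) ((t : ℂ) + (hgt ρ η : ℂ) * Complex.I) <
        L - K * (β ^ 2 - η ^ 2) / 2 := by
    intro η hη
    refine ⟨hgt_pos r0 (by linarith) hη.1, ?_, hgt_le r0.le (by linarith) hη.1.le, ?_⟩
    · rw [← e1, hgt, hgt]
      apply div_le_div_of_nonneg_right _ hpi.le
      apply artanh_le_artanh (rho_tanh r0.le (by linarith) _).1
        (rho_tanh r0.le (by linarith) _).2
      apply mul_le_mul_of_nonneg_left _ r0.le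
      exact tanh_mono (mul_le_mul_of_nonneg_left hη.2 hpi.le)
    · exact vert_gen' o hcm hg1 w0 w1 wi r0 r1 hη.1 hη0 hK hK2 hK0 (by rw [e1]; exact hbase) η
        ⟨le_rfl, hη.2⟩
  intro η hη
  rcases hη.1.lt_or_eq with h0' | h0'
  · obtain ⟨a1, a2, a3, a4⟩ := pos η ⟨h0', hη.2⟩
    exact ⟨_, a1.le, a2, fun t ht' => (a4 t ht').le⟩
  · -- the limit
    refine ⟨0, le_rfl, h00.le, fun t ht' => ?_⟩
    rw [← h0']
    obtain ⟨H, hHd⟩ : ∃ H : ℝ → ℝ, H = hgt ρ := ⟨_, rfl⟩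
    rw [← hHd] at pos
    have hH : Filter.Tendsto H (nhdsWithin 0 (Ioi 0)) (nhds 0) := by
      refine tendsto_of_tendsto_of_tendsto_of_le_of_le' (g := fun _ => (0 : ℝ)) (h := fun x => x)
        tendsto_const_nhds ((continuous_id.tendsto (0 : ℝ)).mono_left nhdsWithin_le_nhds) ?_ ?_
      · filter_upwards [Ioc_mem_nhdsGT hβ] with x hx
        exact (pos x hx).1.le
      · filter_upwards [Ioc_mem_nhdsGT hβ] with x hx
        exact (pos x hx).2.2.1
    have hx : Filter.Tendsto (fun x : ℝ => x) (nhdsWithin 0 (Ioi 0)) (nhds 0) :=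
      (continuous_id.tendsto (0 : ℝ)).mono_left nhdsWithin_le_nhds
    obtain ⟨F, hF⟩ : ∃ F : ℂ × ℂ → ℝ, F = fun p => EE (.op p.1) (.op W) p.2 := ⟨_, rfl⟩
    have hFc : Continuous F := by rw [hF]; exact EE_cont2 W
    obtain ⟨G, hG⟩ : ∃ G : ℝ × ℝ → ℂ × ℂ,
        G = fun p => (vu p.1, (t : ℂ) + ((p.2 : ℝ) : ℂ) * Complex.I) := ⟨_, rfl⟩
    have hGc : Continuous G := by
      rw [hG]
      have c1 : Continuous vu := by unfold vu; fun_prop
      have c2 : Continuous (fun p : ℝ × ℝ => vu p.1) := c1.comp continuous_fst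
      have c3 : Continuous (fun p : ℝ × ℝ => ((p.2 : ℝ) : ℂ)) :=
        Complex.continuous_ofReal.comp continuous_snd
      exact c2.prodMk (continuous_const.add (c3.mul continuous_const))
    have l1 : Filter.Tendsto (fun x : ℝ => F (G (x, H x))) (nhdsWithin 0 (Ioi 0))
        (nhds (F (G (0, 0)))) :=
      ((hFc.comp hGc).tendsto (0, 0)).comp (hx.prodMk_nhds hH)
    have l2 : Filter.Tendsto (fun x : ℝ => L - K * (β ^ 2 - x ^ 2) / 2) (nhdsWithin 0 (Ioi 0))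
        (nhds (L - K * (β ^ 2 - 0 ^ 2) / 2)) := by
      have : Continuous (fun x : ℝ => L - K * (β ^ 2 - x ^ 2) / 2) := by fun_prop
      exact (this.tendsto 0).mono_left nhdsWithin_le_nhds
    have l3 : F (G (0, 0)) ≤ L - K * (β ^ 2 - 0 ^ 2) / 2 := by
      refine le_of_tendsto_of_tendsto l1 l2 ?_
      filter_upwards [Ioc_mem_nhdsGT hβ] with x hx
      rw [hF, hG]
      exact ((pos x hx).2.2.2 t ht').le
    rw [hF, hG] at l3
    exact l3

end

end Pool.Agent.S3.Ho
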